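import Pool.Agent.IC61.Defs

set_option autoImplicit false

/-!
# IC61/Al1: elementary algebra of the moves (MP_0d1f6d_an, helper61)

All statements are checked case by case over the labels and the moves.
-/

namespace Pool.Agent.IC61

/-- The pairing is invariant. -/
lemma pr_step (l : Lab) (m : Mv) (u h : Fin 4 → ℝ) : pr (stL l m u) (stH l m h) = pr u h := by
  cases l <;> cases m <;> simp [pr, stL, stH] <;> ring

lemma pr_path (p : Path) (u h : Fin 4 → ℝ) (t : ℕ) : pr (p.U u t) (p.H h t) = pr u h := by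
  induction t with
  | zero => rfl
  | succ t ih => exact (pr_step _ _ _ _).trans ih

/-- The pairing of the atoms with the dual coordinates. -/
lemma pr_at (l : Lab) (u h : Fin 4 → ℝ) : pr (atU l u) (atH l h) = pr u h := by
  cases l <;> simp [pr, atU, atH] <;> ring

/-- The symplectic form is invariant up to a sign. -/
lemma Q_step (l : Lab) (m : Mv) :
    ∃ o : ℝ, (o = 1 ∨ o = -1) ∧ ∀ u v, Q (stL l m u) (stL l m v) = o * Q u v := by
  have h1 : (∀ u v, Q (stL l m u) (stL l m v) = 1 * Q u v) ∨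
      (∀ u v, Q (stL l m u) (stL l m v) = -1 * Q u v) := by
    by_cases hl : l = .K
    · subst hl
      cases m
      · left; intro u v; simp [Q, stL]; ring1
      · left; intro u v; simp [Q, stL]; ring1
      · right; intro u v; simp [Q, stL]; ring1
      · right; intro u v; simp [Q, stL]; ring1
    · left
      intro u v
      cases m <;> simp [Q, stL, hl] <;> ring1
  rcases h1 with h1 | h1
  · exact ⟨1, Or.inl rfl, h1⟩
  · exact ⟨-1, Or.inr rfl, h1⟩

lemma Q_path (p : Path) (u v : Fin 4 → ℝ) (t : ℕ) : |Q (p.U u t) (p.U v t)| = |Q u v| := by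
  induction t with
  | zero => rfl
  | succ t ih =>
    obtain ⟨o, ho, h⟩ := Q_step (p.lab t) (p.mv t)
    change |Q (stL _ _ (p.U u t)) (stL _ _ (p.U v t))| = _
    rw [h, abs_mul, ih]
    rcases ho with rfl | rfl <;> simp

/-- The cones are nested; at a switch one obtains the cone `Sc`. -/
lemma back (l : Lab) (m : Mv) (u : Fin 4 → ℝ) (hv : vm l m) (h : Cn (nl l m) (stL l m u)) :
    Cn l u ∧ (m.sw → Sc u) := by
  unfold Cn Sc at *
  cases l <;> cases m <;> simp [vm, nl, stL, Mv.sw] at hv h ⊢ <;>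
    (obtain ⟨h1, h2, h3, h4, h5⟩ := h) <;> (try obtain ⟨h5, h6⟩ := h5) <;>
    (repeat' apply And.intro) <;> linarith

/-- Backwards along a path. -/
lemma back_path (p : Path) (u : Fin 4 → ℝ) {t t' : ℕ} (htt : t ≤ t')
    (h : Cn (p.lab t') (p.U u t')) :
    Cn (p.lab t) (p.U u t) ∧ (t < t' → (p.mv t).sw → Sc (p.U u t)) := by
  induction t', htt using Nat.le_induction with
  | base => exact ⟨h, fun h' => absurd h' (lt_irrefl _)⟩
  | succ n hn ih =>
    have h1 := back (p.lab n) (p.mv n) (p.U u n) (p.valid n) (by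
      rw [← p.next n]
      exact h)
    refine ⟨(ih h1.1).1, fun h2 h3 => ?_⟩
    rcases Nat.lt_or_ge t n with h4 | h4
    · exact (ih h1.1).2 h4 h3
    · have : t = n := le_antisymm hn h4
      subst this
      exact h1.2 h3

lemma stL_add (l : Lab) (m : Mv) (u v : Fin 4 → ℝ) : stL l m (u + v) = stL l m u + stL l m v := by
  funext i
  cases l <;> cases m <;> fin_cases i <;> simp [stL] <;> ring

lemma stL_smul (l : Lab) (m : Mv) (c : ℝ) (u : Fin 4 → ℝ) : stL l m (c • u) = c • stL l m u := by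
  funext i
  cases l <;> cases m <;> fin_cases i <;> simp [stL] <;> ring

lemma U_add (p : Path) (u v : Fin 4 → ℝ) (t : ℕ) : p.U (u + v) t = p.U u t + p.U v t := by
  induction t with
  | zero => rfl
  | succ t ih =>
    change stL _ _ (p.U (u + v) t) = stL _ _ (p.U u t) + stL _ _ (p.U v t)
    rw [ih, stL_add]

lemma U_smul (p : Path) (c : ℝ) (u : Fin 4 → ℝ) (t : ℕ) : p.U (c • u) t = c • p.U u t := by
  induction t with
  | zero => rfl
  | succ t ih =>
    change stL _ _ (p.U (c • u) t) = c • stL _ _ (p.U u t)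
    rw [ih, stL_smul]

/-- The moves are surjective on lengths. -/
lemma stL_surj (l : Lab) (m : Mv) (v : Fin 4 → ℝ) : ∃ u, stL l m u = v := by
  have key : ∀ w : Fin 4 → ℝ, (w 0 = v 0 ∧ w 1 = v 1 ∧ w 2 = v 2 ∧ w 3 = v 3) → w = v := by
    rintro w ⟨h0, h1, h2, h3⟩
    funext i
    fin_cases i <;> assumption
  cases m with
  | e1 => exact ⟨![v 0, v 1, v 2 + v 3, v 3], key _ (by simp [stL])⟩
  | e2 => exact ⟨![v 0, v 1, v 2, v 3 + v 2], key _ (by simp [stL])⟩
  | zn =>
    by_cases hl : l = .K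
    · exact ⟨![v 3 - (v 0 + v 1), v 2 + (v 0 + v 1), v 0 + v 1, v 2 + v 3 - v 1], key _ (by
        simp [stL, hl]; (repeat' apply And.intro) <;> ring)⟩
    · exact ⟨![v 2 + (v 0 + v 1), v 3 - (v 0 + v 1), v 2 + v 3 - v 1, v 0 + v 1], key _ (by
        simp [stL, hl]; (repeat' apply And.intro) <;> ring)⟩
  | zw =>
    by_cases hl : l = .K
    · exact ⟨![v 2 + 2 * v 3 - (v 0 + v 1), v 0 + v 1 - v 3, v 0 + v 1, v 2 + v 3 - v 1], key _ (by
        simp [stL, hl]; (repeat' apply And.intro) <;> ring)⟩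
    · exact ⟨![v 0 + v 1 - v 3, v 2 + 2 * v 3 - (v 0 + v 1), v 2 + v 3 - v 1, v 0 + v 1], key _ (by
        simp [stL, hl]; (repeat' apply And.intro) <;> ring)⟩

lemma U_surj (p : Path) (t : ℕ) (v : Fin 4 → ℝ) : ∃ u, p.U u t = v := by
  induction t generalizing v with
  | zero => exact ⟨v, rfl⟩
  | succ t ih =>
    obtain ⟨w, hw⟩ := stL_surj (p.lab t) (p.mv t) v
    obtain ⟨u, hu⟩ := ih w
    exact ⟨u, by change stL _ _ (p.U u t) = v; rw [hu, hw]⟩

/-- The lengths along a path as a linear map. -/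
def Path.Ul (p : Path) (t : ℕ) : (Fin 4 → ℝ) →ₗ[ℝ] (Fin 4 → ℝ) where
  toFun u := p.U u t
  map_add' u v := U_add p u v t
  map_smul' c u := U_smul p c u t

lemma Ul_apply (p : Path) (t : ℕ) (u : Fin 4 → ℝ) : p.Ul t u = p.U u t := rfl

lemma Ul_bijective (p : Path) (t : ℕ) : Function.Bijective (p.Ul t) := by
  have hs : Function.Surjective (p.Ul t) := fun v => U_surj p t v
  exact ⟨LinearMap.injective_iff_surjective.2 hs, hs⟩

lemma U_inj (p : Path) (t : ℕ) {u v : Fin 4 → ℝ} (h : p.U u t = p.U v t) : u = v :=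
  (Ul_bijective p t).1 h

lemma stH_add (l : Lab) (m : Mv) (u v : Fin 4 → ℝ) : stH l m (u + v) = stH l m u + stH l m v := by
  funext i
  cases l <;> cases m <;> fin_cases i <;> simp [stH] <;> ring

lemma stH_smul (l : Lab) (m : Mv) (c : ℝ) (u : Fin 4 → ℝ) : stH l m (c • u) = c • stH l m u := by
  funext i
  cases l <;> cases m <;> fin_cases i <;> simp [stH] <;> ring

lemma H_add (p : Path) (u v : Fin 4 → ℝ) (t : ℕ) : p.H (u + v) t = p.H u t + p.H v t := by
  induction t with
  | zero => rfl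
  | succ t ih =>
    change stH _ _ (p.H (u + v) t) = stH _ _ (p.H u t) + stH _ _ (p.H v t)
    rw [ih, stH_add]

lemma H_smul (p : Path) (c : ℝ) (u : Fin 4 → ℝ) (t : ℕ) : p.H (c • u) t = c • p.H u t := by
  induction t with
  | zero => rfl
  | succ t ih =>
    change stH _ _ (p.H (c • u) t) = c • stH _ _ (p.H u t)
    rw [ih, stH_smul]

lemma atH_add (l : Lab) (u v : Fin 4 → ℝ) : atH l (u + v) = atH l u + atH l v := by
  funext i
  cases l <;> fin_cases i <;> simp [atH] <;> ring

lemma atH_smul (l : Lab) (c : ℝ) (u : Fin 4 → ℝ) : atH l (c • u) = c • atH l u := by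
  funext i
  cases l <;> fin_cases i <;> simp [atH] <;> ring

lemma pr_add_right (u h k : Fin 4 → ℝ) : pr u (h + k) = pr u h + pr u k := by
  simp [pr]; ring

lemma pr_smul_right (c : ℝ) (u h : Fin 4 → ℝ) : pr u (c • h) = c * pr u h := by
  simp [pr]; ring

lemma pr_add_left (u v h : Fin 4 → ℝ) : pr (u + v) h = pr u h + pr v h := by
  simp [pr]; ring

lemma pr_smul_left (c : ℝ) (u h : Fin 4 → ℝ) : pr (c • u) h = c * pr u h := by
  simp [pr]; ring

lemma Kinf_sc (p : Path) {u : Fin 4 → ℝ} (hu : u ∈ p.Kinf) {t : ℕ} (ht : (p.mv t).sw) :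
    Sc (p.U u t) :=
  (back_path p u (Nat.le_succ t) (hu (t + 1))).2 (Nat.lt_succ_self t) ht

end Pool.Agent.IC61
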