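import Pool.Agent.IC61.Al1

set_option autoImplicit false

/-!
# IC61/Al2: heights along a path (MP_0d1f6d_an, helper61)
-/

namespace Pool.Agent.IC61

/-- The moves are nonnegative on the atoms. -/
lemma AtGe_step {c : ℝ} (hc : 0 ≤ c) (l : Lab) (m : Mv) (h : Fin 4 → ℝ) (hv : vm l m)
    (hA : AtGe c l h) : AtGe c (nl l m) (stH l m h) := by
  have h0 := hA 0
  have h1 := hA 1
  have h2 := hA 2
  have h3 := hA 3
  intro i
  cases l <;> cases m <;> simp [vm] at hv <;> fin_cases i <;>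
    simp [atH, nl, stH] at h0 h1 h2 h3 ⊢ <;> linarith

lemma AtGe_path (p : Path) {c : ℝ} (hc : 0 ≤ c) (h : Fin 4 → ℝ) (hA : AtGe c .S h) (t : ℕ) :
    AtGe c (p.lab t) (p.H h t) := by
  induction t with
  | zero => rw [p.lab0]; exact hA
  | succ t ih =>
    rw [p.next t]
    exact AtGe_step hc _ _ _ (p.valid t) ih

lemma AtGe_y0 (p : Path) (t : ℕ) : AtGe 1 (p.lab t) (p.H y0 t) := by
  apply AtGe_path p zero_le_one
  intro i
  fin_cases i <;> simp [atH, y0] <;> norm_num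

/-- All four heights are at least one. -/
lemma H_ge_one (p : Path) (t : ℕ) (i : Fin 4) : 1 ≤ p.H y0 t i := by
  have h := AtGe_y0 p t
  have h0 := h 0
  have h1 := h 1
  have h2 := h 2
  have h3 := h 3
  generalize p.lab t = l at *
  generalize p.H y0 t = k at *
  cases l <;> fin_cases i <;> simp [atH] at h0 h1 h2 h3 ⊢ <;> linarith

/-- The invariant of the labels `A`, `K`, `S`: `g1 - w ≥ 1`. -/
lemma Hn_step (l : Lab) (m : Mv) (h : Fin 4 → ℝ) (hv : vm l m) (hA : AtGe 1 l h)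
    (hn : l ≠ .B → 1 ≤ h 3 - (h 0 - h 1)) :
    nl l m ≠ .B → 1 ≤ (stH l m h) 3 - ((stH l m h) 0 - (stH l m h) 1) := by
  have h0 := hA 0
  have h1 := hA 1
  have h2 := hA 2
  have h3 := hA 3
  cases l <;> cases m <;> simp [vm] at hv <;>
    simp [atH, nl, stH] at h0 h1 h2 h3 hn ⊢ <;> linarith

lemma Hn (p : Path) (t : ℕ) (hl : p.lab t ≠ .B) :
    1 ≤ p.H y0 t 3 - (p.H y0 t 0 - p.H y0 t 1) := by
  have h : p.lab t ≠ .B → 1 ≤ p.H y0 t 3 - (p.H y0 t 0 - p.H y0 t 1) := by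
    induction t with
    | zero =>
      intro _
      change (1 : ℝ) ≤ y0 3 - (y0 0 - y0 1)
      simp [y0]
    | succ t ih =>
      rw [p.next t]
      apply Hn_step _ _ _ (p.valid t) (AtGe_y0 p t)
      intro h'
      by_cases hB : p.lab t = .B
      · exact absurd hB h'
      · exact ih h' h'
  exact h hl

/-- A Euclidean step changes neither `w` nor `ξ2`, and does not decrease `g2`, `g1`. -/
lemma H_e (p : Path) {t : ℕ} (ht : ¬ (p.mv t).sw) :
    p.H y0 (t + 1) 0 = p.H y0 t 0 ∧ p.H y0 (t + 1) 1 = p.H y0 t 1 ∧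
      p.H y0 t 2 ≤ p.H y0 (t + 1) 2 ∧ p.H y0 t 3 ≤ p.H y0 (t + 1) 3 := by
  have h2 := H_ge_one p t 2
  have h3 := H_ge_one p t 3
  change (stH _ _ (p.H y0 t)) 0 = _ ∧ (stH _ _ (p.H y0 t)) 1 = _ ∧ _ ≤ (stH _ _ (p.H y0 t)) 2 ∧
    _ ≤ (stH _ _ (p.H y0 t)) 3
  generalize p.mv t = m at *
  generalize p.lab t = l at *
  generalize p.H y0 t = k at *
  cases m <;> simp [Mv.sw] at ht <;> simp [stH] <;> linarith

/-- At a switch. -/
lemma H_sw (p : Path) {t : ℕ} (ht : (p.mv t).sw) :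
    p.H y0 (t + 1) 0 - p.H y0 (t + 1) 1 = zH (p.lab t) (p.H y0 t) ∧
    p.H y0 (t + 1) 1 = xN (p.lab t) (p.H y0 t) ∧
    p.H y0 t 0 - p.H y0 t 1 + 1 ≤ zH (p.lab t) (p.H y0 t) ∧
    p.H y0 t 1 ≤ p.H y0 (t + 1) 2 ∧ p.H y0 t 1 ≤ p.H y0 (t + 1) 3 := by
  have hA := AtGe_y0 p t
  have h0 := hA 0
  have h1 := hA 1
  have h2 := hA 2
  have h3 := hA 3
  have hn := Hn p t
  have hv := p.valid t
  change (stH _ _ (p.H y0 t)) 0 - (stH _ _ (p.H y0 t)) 1 = _ ∧ (stH _ _ (p.H y0 t)) 1 = _ ∧ _ ∧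
    _ ≤ (stH _ _ (p.H y0 t)) 2 ∧ _ ≤ (stH _ _ (p.H y0 t)) 3
  generalize p.mv t = m at *
  generalize p.lab t = l at *
  generalize p.H y0 t = k at *
  cases m <;> cases l <;> simp [Mv.sw, vm] at ht hv <;>
    simp [atH, stH, zH, xN] at h0 h1 h2 h3 hn ⊢ <;> (repeat' apply And.intro) <;> linarith

/-- `w` is nondecreasing and grows at each switch. -/
lemma W_mono (p : Path) (t : ℕ) :
    p.H y0 t 0 - p.H y0 t 1 ≤ p.H y0 (t + 1) 0 - p.H y0 (t + 1) 1 := by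
  by_cases ht : (p.mv t).sw
  · have h := H_sw p ht
    linarith [h.1, h.2.2.1]
  · have h := H_e p ht
    linarith [h.1, h.2.1]

/-- `w` tends to infinity. -/
lemma W_unbounded (p : Path) (hsw : ∀ T, ∃ t, T ≤ t ∧ (p.mv t).sw) (R : ℝ) :
    ∃ T, ∀ t, T ≤ t → R ≤ p.H y0 t 0 - p.H y0 t 1 := by
  have hm : Monotone (fun t => p.H y0 t 0 - p.H y0 t 1) := monotone_nat_of_le_succ (W_mono p)
  have key : ∀ n : ℕ, ∃ T, (n : ℝ) ≤ p.H y0 T 0 - p.H y0 T 1 := by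
    intro n
    induction n with
    | zero =>
      refine ⟨0, ?_⟩
      have := AtGe_y0 p 0 0
      generalize p.lab 0 = l at this
      cases l <;> simp [atH] at this ⊢ <;> linarith
    | succ n ih =>
      obtain ⟨T, hT⟩ := ih
      obtain ⟨t, hTt, ht⟩ := hsw T
      refine ⟨t + 1, ?_⟩
      have h1 : p.H y0 T 0 - p.H y0 T 1 ≤ p.H y0 t 0 - p.H y0 t 1 := hm hTt
      have h2 := H_sw p ht
      push_cast
      linarith [h2.1, h2.2.2.1]
  obtain ⟨n, hn⟩ := exists_nat_ge R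
  obtain ⟨T, hT⟩ := key n
  exact ⟨T, fun t ht => hn.trans (hT.trans (hm ht))⟩

/-- After the switch at `t` and up to the next switch at `t'` the heights of `g2`, `g1` are at
least the height of `ξ2` at `t`, and `w`, `ξ2` are constant. -/
lemma between (p : Path) {t t' : ℕ} (ht : (p.mv t).sw) (htt : t < t')
    (hno : ∀ s, t < s → s < t' → ¬ (p.mv s).sw) :
    p.H y0 t' 0 = p.H y0 (t + 1) 0 ∧ p.H y0 t' 1 = p.H y0 (t + 1) 1 ∧
      p.H y0 t 1 ≤ p.H y0 t' 2 ∧ p.H y0 t 1 ≤ p.H y0 t' 3 := by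
  induction t', htt using Nat.le_induction with
  | base =>
    have h := H_sw p ht
    exact ⟨rfl, rfl, h.2.2.2.1, h.2.2.2.2⟩
  | succ n hn ih =>
    obtain ⟨i1, i2, i3, i4⟩ := ih (fun s h1 h2 => hno s h1 (h2.trans (Nat.lt_succ_self n)))
    have h := H_e p (hno n hn (Nat.lt_succ_self n))
    exact ⟨h.1.trans i1, h.2.1.trans i2, i3.trans h.2.2.1, i4.trans h.2.2.2⟩

end Pool.Agent.IC61
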