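import Pool.Agent.IC61.Al2

set_option autoImplicit false

/-!
# IC61/Al3: the slit lengths tend to zero (MP_0d1f6d_an, helper61)

PROOF.
(1) `not_zw`: the path cannot be eventually constantly `zw`. Suppose `p.mv t = .zw` for all
`t ≥ T`; then `p.lab t = .B` for `t ≥ T + 1`. For `t ≥ T + 1` put `u = p.U a t`,
`ω = u 0 + u 2`, `η = u 0 + u 1`, `P = u 2 + u 3`, `σ = u 3`. One step of `stL .B .zw` gives
`ω' = ω`, `η' = σ`, `P' = η`, `σ' = P - ω` (ring). So `ω` is constant and after three steps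
`(η, P, σ) ↦ (η - ω, P - ω, σ - ω)`: hence `η` at time `T + 1 + 3 n` is
`η - n ω`, which is negative for large `n`, because `ω > 0`. Contradiction with positivity.
(2) `eta_small`. Let `c ∈ Kinf`, `η_t = p.U c t 0 + p.U c t 1 ≥ 0`.
 (a) `η` is nonincreasing: for `e1`, `e2` unchanged; at a switch `η_{t+1} = zL ≤ η_t`
   (`Kinf_sc` gives `Sc (p.U c t)`; `stL` at a switch has `0`-th plus `1`-st entry `u 3`, for the
   label `K` it is `u 2`).
 (b) Suppose `η_t ≥ e > 0` for all `t`. Put `Y := pr c y0 = pr (p.U c t) (p.H y0 t)` (`pr_path`)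
   `= pr (atU l (p.U c t)) (atH l (p.H y0 t))` (`pr_at`). All four products are nonnegative (`Cn`
   and `AtGe_y0`). The `ξ2`-term is `η_t * p.H y0 t 1`, so `p.H y0 t 1 ≤ R := Y / e` for all `t`. In
   the label `K` the last term is `P_t * p.H y0 t 3 ≥ η_t * p.H y0 t 3`, so `p.H y0 t 3 ≤ R`.
 (c) By `W_unbounded` there is `T` with `w_t := p.H y0 t 0 - p.H y0 t 1 ≥ R + 1` for `t ≥ T`.
   - no switch from the label `K` at a time `t ≥ T`: by `H_sw` `w_{t+1} = zH = p.H y0 t 3 ≤ R`.
   - no switch from the label `S` at a time `t` if the whole stage is after `T`: the label `S` is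
     reached from `K` by `e1`, which gives `sg = g1 + w ≥ w ≥ R + 1`, and `e1` in the label `S`
     increases `sg`; so at the switch `p.H y0 (t+1) 1 = xN = sg ≥ R + 1 > R`, contradiction. Precisely
     prove by induction: if `p.lab t = .S` and `T ≤ t0 ≤ t`, `p.lab t0 ≠ .S`..., or simpler: let `t1 ≥ T`
     be a switch; for `t > t1` with `p.lab t = .S` one has `sg_t ≥ R + 1` (induction on `t` from
     `t1 + 1`, where the label is `A` or `B`).
   - hence no switch `zn` at times `> t1`: after `zn` the label is `A` and up to the next switch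
     (which exists) the labels are `A`, `K`, `S`, and the next switch is from `K` or `S` (`vm`
     excludes `A`), contradiction. So all switches after `t1` which are followed by ... are `zw`
     from the label `B` (after the first one).
   - no `e1` in the label `B` at late times: after it `sg ≥ sg + g2 ≥ w`, because `gh + w = g2`, so
     `sg_{t+1} = sg_t + p.H y0 t 2 ≥ R + 1`, and further moves `e1` only increase `sg`; at the next
     switch (label `B`) `ξ2 = sg ≥ R + 1`, contradiction.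
   So eventually all moves are `zw`, contradicting (1).
(d) So for every `e > 0` some `η_t < e`, and (a) finishes.
-/

namespace Pool.Agent.IC61

lemma not_zw (p : Path) (a : Fin 4 → ℝ) (hpos : ∀ t i, 0 < p.U a t i) (T : ℕ) :
    ∃ t, T ≤ t ∧ p.mv t ≠ .zw := by
  by_contra hcon
  push Not at hcon
  have hB : ∀ t, T ≤ t → p.lab (t + 1) = .B := by
    intro t ht
    rw [p.next t, hcon t ht]
    rfl
  have hstep : ∀ t, T + 1 ≤ t → p.U a (t + 1) = stL .B .zw (p.U a t) := by
    intro t ht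
    change stL (p.lab t) (p.mv t) (p.U a t) = _
    rw [hcon t (by omega)]
    obtain ⟨s, rfl⟩ : ∃ s, t = s + 1 := ⟨t - 1, by omega⟩
    rw [hB s (by omega)]
  have h3 : ∀ t, T + 1 ≤ t →
      p.U a (t + 3) 0 + p.U a (t + 3) 1 =
        (p.U a t 0 + p.U a t 1) - (p.U a t 0 + p.U a t 2) ∧
      p.U a (t + 3) 0 + p.U a (t + 3) 2 = p.U a t 0 + p.U a t 2 := by
    intro t ht
    have e : p.U a (t + 3) = stL .B .zw (stL .B .zw (stL .B .zw (p.U a t))) := by
      rw [show t + 3 = t + 2 + 1 from rfl, hstep (t + 2) (by omega),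
        show t + 2 = t + 1 + 1 from rfl, hstep (t + 1) (by omega), hstep t ht]
    rw [e]
    constructor
    · simp [stL]; ring
    · simp [stL]; ring
  have key : ∀ n : ℕ, p.U a (T + 1 + 3 * n) 0 + p.U a (T + 1 + 3 * n) 1 =
        (p.U a (T + 1) 0 + p.U a (T + 1) 1) - n * (p.U a (T + 1) 0 + p.U a (T + 1) 2) ∧
      p.U a (T + 1 + 3 * n) 0 + p.U a (T + 1 + 3 * n) 2 =
        p.U a (T + 1) 0 + p.U a (T + 1) 2 := by
    intro n
    induction n with
    | zero => simp
    | succ n ih =>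
      have h := h3 (T + 1 + 3 * n) (by omega)
      have e : T + 1 + 3 * (n + 1) = T + 1 + 3 * n + 3 := by ring
      rw [e]
      refine ⟨?_, h.2.trans ih.2⟩
      rw [h.1, ih.1, ih.2]
      push_cast
      ring
  have hω : 0 < p.U a (T + 1) 0 + p.U a (T + 1) 2 := add_pos (hpos _ _) (hpos _ _)
  obtain ⟨n, hn⟩ := exists_nat_gt
    ((p.U a (T + 1) 0 + p.U a (T + 1) 1) / (p.U a (T + 1) 0 + p.U a (T + 1) 2))
  rw [div_lt_iff₀ hω] at hn
  have h1 := (key n).1
  have h2 := hpos (T + 1 + 3 * n) 0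
  have h4 := hpos (T + 1 + 3 * n) 1
  linarith

lemma eta_anti (p : Path) {c : Fin 4 → ℝ} (hc : c ∈ p.Kinf) (t : ℕ) :
    p.U c (t + 1) 0 + p.U c (t + 1) 1 ≤ p.U c t 0 + p.U c t 1 := by
  have hs := fun h => Kinf_sc p hc (t := t) h
  change (stL _ _ (p.U c t)) 0 + (stL _ _ (p.U c t)) 1 ≤ _
  generalize p.mv t = m at *
  generalize p.lab t = l at *
  generalize p.U c t = u at *
  cases m
  · simp [stL]
  · simp [stL]
  · have h := hs (Or.inl rfl)
    obtain ⟨h1, h2, h3, h4, h5⟩ := h
    cases l <;> simp [stL] <;> linarith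
  · have h := hs (Or.inr rfl)
    obtain ⟨h1, h2, h3, h4, h5⟩ := h
    cases l <;> simp [stL] <;> linarith

private lemma Al3_bound {l : Lab} {u h : Fin 4 → ℝ} (hC : Cn l u) (hA : AtGe 1 l h) :
    (u 0 + u 1) * h 1 ≤ pr u h ∧ (l = .K → (u 0 + u 1) * h 3 ≤ pr u h) := by
  obtain ⟨c0, c1, c2, c3, c4, -⟩ := hC
  have h0 := hA 0
  have h1 := hA 1
  have h2 := hA 2
  have h3 := hA 3
  by_cases hl : l = .K
  · subst hl
    simp only [atH, if_true, Matrix.cons_val_zero, Matrix.cons_val_one, Matrix.cons_val] at h0 h1 h2 h3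
    have e : pr u h = (u 0 + u 2) * (h 0 - h 1) + (u 0 + u 1) * h 1 +
        u 2 * (h 2 - (h 0 - h 1) - h 3) + (u 2 + u 3) * h 3 := by
      unfold pr; ring
    have p0 : 0 ≤ (u 0 + u 2) * (h 0 - h 1) := mul_nonneg (by linarith) (by linarith)
    have p1 : 0 ≤ (u 0 + u 1) * h 1 := mul_nonneg (by linarith) (by linarith)
    have p2 : 0 ≤ u 2 * (h 2 - (h 0 - h 1) - h 3) := mul_nonneg (by linarith) (by linarith)
    have p3 : 0 ≤ (u 2 + u 3) * h 3 := mul_nonneg (by linarith) (by linarith)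
    have p4 : (u 0 + u 1) * h 3 ≤ (u 2 + u 3) * h 3 :=
      mul_le_mul_of_nonneg_right c4 (by linarith)
    rw [e]
    exact ⟨by linarith, fun _ => by linarith⟩
  · simp only [atH, if_neg hl, Matrix.cons_val_zero, Matrix.cons_val_one, Matrix.cons_val] at h0 h1 h2 h3
    have e : pr u h = (u 0 + u 2) * (h 0 - h 1) + (u 0 + u 1) * h 1 +
        (u 2 + u 3) * (h 2 - (h 0 - h 1)) + u 3 * (h 3 - (h 2 - (h 0 - h 1))) := by
      unfold pr; ring
    have p0 : 0 ≤ (u 0 + u 2) * (h 0 - h 1) := mul_nonneg (by linarith) (by linarith)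
    have p2 : 0 ≤ (u 2 + u 3) * (h 2 - (h 0 - h 1)) := mul_nonneg (by linarith) (by linarith)
    have p3 : 0 ≤ u 3 * (h 3 - (h 2 - (h 0 - h 1))) := mul_nonneg (by linarith) (by linarith)
    rw [e]
    exact ⟨by linarith, fun h => absurd h hl⟩

theorem eta_small (p : Path) (hsw : ∀ T, ∃ t, T ≤ t ∧ (p.mv t).sw)
    (a : Fin 4 → ℝ) (hpos : ∀ t i, 0 < p.U a t i) (c : Fin 4 → ℝ) (hc : c ∈ p.Kinf)
    {ε : ℝ} (hε : 0 < ε) : ∃ T, ∀ t, T ≤ t → p.U c t 0 + p.U c t 1 < ε := by
  have hanti : Antitone (fun t => p.U c t 0 + p.U c t 1) :=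
    antitone_nat_of_succ_le (eta_anti p hc)
  by_contra hcon
  push Not at hcon
  have hη : ∀ t, ε ≤ p.U c t 0 + p.U c t 1 := by
    intro t
    obtain ⟨t', h1, h2⟩ := hcon t
    exact h2.trans (hanti h1)
  set Y : ℝ := pr c y0 with hY
  have hb : ∀ t, p.H y0 t 1 ≤ Y / ε ∧ (p.lab t = .K → p.H y0 t 3 ≤ Y / ε) := by
    intro t
    have h1 := Al3_bound (hc t) (AtGe_y0 p t)
    rw [pr_path] at h1
    have g1 := H_ge_one p t 1
    have g3 := H_ge_one p t 3
    constructor
    · rw [le_div_iff₀ hε]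
      calc p.H y0 t 1 * ε ≤ p.H y0 t 1 * (p.U c t 0 + p.U c t 1) :=
            mul_le_mul_of_nonneg_left (hη t) (by linarith)
        _ = (p.U c t 0 + p.U c t 1) * p.H y0 t 1 := mul_comm _ _
        _ ≤ Y := h1.1
    · intro hK
      rw [le_div_iff₀ hε]
      calc p.H y0 t 3 * ε ≤ p.H y0 t 3 * (p.U c t 0 + p.U c t 1) :=
            mul_le_mul_of_nonneg_left (hη t) (by linarith)
        _ = (p.U c t 0 + p.U c t 1) * p.H y0 t 3 := mul_comm _ _
        _ ≤ Y := h1.2 hK
  obtain ⟨T, hT⟩ := W_unbounded p hsw (Y / ε + 1)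
  -- the move before a late switch is a switch
  have hprev : ∀ t, T ≤ t → (p.mv (t + 1)).sw → (p.mv t).sw := by
    intro t ht hs
    have hs1 := H_sw p hs
    have hK : p.lab (t + 1) ≠ .K := by
      intro hK
      have h1 := hs1.1
      simp only [zH, hK, if_true] at h1
      have h2 := (hb (t + 1)).2 hK
      have h3 := hT (t + 1 + 1) (by omega)
      linarith
    by_contra hns
    have hx := hs1.2.1
    simp only [xN, if_neg hK] at hx
    have h2 := (hb (t + 1 + 1)).1
    have h3 := hT t ht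
    have h4 := H_ge_one p t 3
    have hnext := p.next t
    have hH : p.H y0 (t + 1) = stH (p.lab t) (p.mv t) (p.H y0 t) := rfl
    rcases hm : p.mv t with _ | _ | _ | _
    · rw [hm] at hH
      rw [hH] at hx
      simp [stH] at hx
      linarith
    · rw [hm] at hnext
      exact hK hnext
    · exact hns (by rw [hm]; exact Or.inl rfl)
    · exact hns (by rw [hm]; exact Or.inr rfl)
  have hall : ∀ k t, T ≤ t → (p.mv (t + k)).sw → (p.mv t).sw := by
    intro k
    induction k with
    | zero => intro t _ h; exact h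
    | succ k ih =>
      intro t ht h
      exact ih t ht (hprev (t + k) (by omega) h)
  have hsw' : ∀ t, T ≤ t → (p.mv t).sw := by
    intro t ht
    obtain ⟨t', h1, h2⟩ := hsw t
    obtain ⟨k, rfl⟩ := Nat.exists_eq_add_of_le h1
    exact hall k t ht h2
  obtain ⟨t, ht, hne⟩ := not_zw p a hpos T
  rcases hsw' t ht with h1 | h1
  · have hA : p.lab (t + 1) = .A := by rw [p.next t, h1]; rfl
    have hv := p.valid (t + 1)
    rw [hA] at hv
    rcases hsw' (t + 1) (by omega) with h2 | h2 <;> rw [h2] at hv <;> simp [vm] at hv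
  · exact hne h1

end Pool.Agent.IC61
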