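import Pool.Agent.IC61.Al3

set_option autoImplicit false

/-!
# IC61/Al4: the limit cone is spanned by two vectors (MP_0d1f6d_an, helper61)

PROOF.
(1) `Q_zero`: for `c, d ∈ Kinf`: `Q c d = 0`. By `Q_path` `|Q c d| = |Q (p.U c t) (p.U d t)|` for all
`t`. Take a late switch `t`; `Kinf_sc`: all entries of `p.U c t` are between `0` and
`η_c = p.U c t 0 + p.U c t 1` (for the entries 2, 3: `≤ η`, and `≥ 0` by `Cn`), same for `d`. So
`|Q| ≤ 4 η_c η_d`, which is arbitrarily small by `eta_small`.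
(2) `span`: if `Q x a = 0`, `Q x b = 0`, `Q a b = 0` and `b` is not a multiple of `a ≠ 0`, then
`x = r • a + s • b`. (Linear algebra: the orthogonal complement of `span {a, b}` for the
nondegenerate form `Q` has dimension 2 and contains the 2-dimensional space `span {a, b}`.) An
elementary way: the linear map `x ↦ (Q x a, Q x b)` from `ℝ^4` to `ℝ^2` is surjective (because `a`,
`b` are independent and `Q` is nondegenerate), so its kernel has dimension 2, and the kernel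
contains the independent vectors `a`, `b`.
(3) `segment`. All `x ∈ Kinf` have `pr x y0 ≥ 0`, and `= 0` only if `x = 0`
(`pr x y0 = x 0 * 2 + x 1 + 2 * x 2 + 2 * x 3`, `Cn .S x`). `a` has `pr a y0 > 0`. `b ≠ 0` because
`hab` with `κ = 0`; so `pr b y0 > 0`. Put `a' = a / pr a y0`, `b' = b / pr b y0` (in `Kinf`, since
`Kinf` is a cone: `U_smul`), `a' ≠ b'`. Let
`I = {r : ℝ | a' + r • (b' - a') ∈ Kinf}`. `I` is closed (each `Cn` is a closed condition and
`p.U · t` is linear (`Ul`), hence continuous), contains `0` and `1`, convex and bounded: all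
`x ∈ Kinf` with `pr x y0 = 1` have entries in `[0, 1]`, and `b' - a' ≠ 0`. Let `r0 = min I ≤ 0`,
`r1 = max I ≥ 1`, `c 0 = a' + r0 • (b' - a')`, `c 1 = a' + r1 • (b' - a')`. Every `x ∈ Kinf` is in the
span of `a', b'` by (1), (2); if `x ≠ 0`, `x / pr x y0 = a' + r • (b' - a')` with `r ∈ I`, so
`x = pr x y0 • ((1 - m) • c 0 + m • c 1)` with `m = (r - r0) / (r1 - r0) ∈ [0, 1]`.
Choose a linear functional `φ 1` with `pr (c 0) (φ 1) = 0`, `pr (c 1) (φ 1) = 1` (exists, `c 0`, `c 1`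
are independent: they are different and have the same `pr · y0 = 1`; e.g. pick an index `i` with
`c 1 i ≠ c 0 i` and `φ 1 = (e_i - c 0 i • y0) / (c 1 i - c 0 i)`, because
`pr x e_i = x i`, `pr (c j) y0 = 1`), and put `φ 0 = y0 - φ 1`. Then
`pr x (φ 1) = pr x y0 * m ≥ 0`, `pr x (φ 0) = pr x y0 * (1 - m) ≥ 0`.
-/

namespace Pool.Agent.IC61

lemma abs_Q_le {u v : Fin 4 → ℝ} {η θ : ℝ} (hu0 : ∀ i, 0 ≤ u i) (hv0 : ∀ i, 0 ≤ v i)
    (hu : ∀ i, u i ≤ η) (hv : ∀ i, v i ≤ θ) : |Q u v| ≤ 2 * (η * θ) := by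
  have key : ∀ i j, 0 ≤ u i * v j ∧ u i * v j ≤ η * θ := fun i j =>
    ⟨mul_nonneg (hu0 i) (hv0 j), mul_le_mul (hu i) (hv j) (hv0 j) ((hu0 i).trans (hu i))⟩
  have h1 := key 0 1
  have h2 := key 1 0
  have h3 := key 2 3
  have h4 := key 3 2
  unfold Q
  rw [abs_le]
  constructor <;> linarith [h1.1, h1.2, h2.1, h2.2, h3.1, h3.2, h4.1, h4.2]

lemma Q_zero (p : Path) (hsw : ∀ T, ∃ t, T ≤ t ∧ (p.mv t).sw)
    (a : Fin 4 → ℝ) (hpos : ∀ t i, 0 < p.U a t i) {c d : Fin 4 → ℝ} (hc : c ∈ p.Kinf)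
    (hd : d ∈ p.Kinf) : Q c d = 0 := by
  by_contra hne
  have hpq : 0 < |Q c d| := abs_pos.2 hne
  obtain ⟨T1, hT1⟩ := eta_small p hsw a hpos c hc (ε := |Q c d| / 4) (by positivity)
  obtain ⟨T2, hT2⟩ := eta_small p hsw a hpos d hd (ε := 1) one_pos
  obtain ⟨t, ht, hst⟩ := hsw (max T1 T2)
  have h1 := hT1 t ((le_max_left _ _).trans ht)
  have h2 := hT2 t ((le_max_right _ _).trans ht)
  have hent : ∀ {u : Fin 4 → ℝ}, u ∈ p.Kinf → (∀ i, 0 ≤ p.U u t i) ∧
      ∀ i, p.U u t i ≤ p.U u t 0 + p.U u t 1 := by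
    intro u hu
    obtain ⟨s1, s2, s3, s4, -⟩ := Kinf_sc p hu hst
    obtain ⟨k1, k2, k3, k4, -⟩ := hu t
    constructor
    · intro i
      fin_cases i
      · exact k1
      · exact k2
      · exact k3
      · exact k4
    · intro i
      fin_cases i
      · show p.U u t 0 ≤ _
        linarith
      · show p.U u t 1 ≤ _
        linarith
      · exact s3
      · exact s4
  have h3 := abs_Q_le (hent hc).1 (hent hd).1 (hent hc).2 (hent hd).2
  rw [Q_path] at h3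
  have h4 : 0 ≤ p.U c t 0 + p.U c t 1 := add_nonneg ((hent hc).1 0) ((hent hc).1 1)
  have h5 : (p.U c t 0 + p.U c t 1) * (p.U d t 0 + p.U d t 1) ≤
      (p.U c t 0 + p.U c t 1) * 1 := mul_le_mul_of_nonneg_left h2.le h4
  linarith

lemma span_ab (a b x : Fin 4 → ℝ) (ha : a ≠ 0) (hab : ∀ κ : ℝ, b ≠ κ • a) (h0 : Q a b = 0)
    (h1 : Q x a = 0) (h2 : Q x b = 0) : ∃ r s : ℝ, x = r • a + s • b := by
  obtain ⟨i, hi⟩ := Function.ne_iff.1 ha
  rw [Pi.zero_apply] at hi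
  obtain ⟨j, hj⟩ : ∃ j, a i * b j - a j * b i ≠ 0 := by
    by_contra hall
    apply hab (b i / a i)
    funext j
    have h3 : a i * b j - a j * b i = 0 := by
      by_contra h4
      exact hall ⟨j, h4⟩
    rw [Pi.smul_apply, smul_eq_mul, div_mul_eq_mul_div, eq_div_iff hi]
    linarith
  unfold Q at h0 h1 h2
  have M012 : a 0 * (b 1 * x 2 - b 2 * x 1) - a 1 * (b 0 * x 2 - b 2 * x 0) +
      a 2 * (b 0 * x 1 - b 1 * x 0) = 0 := by
    linear_combination x 2 * h0 + b 2 * h1 - a 2 * h2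
  have M013 : a 0 * (b 1 * x 3 - b 3 * x 1) - a 1 * (b 0 * x 3 - b 3 * x 0) +
      a 3 * (b 0 * x 1 - b 1 * x 0) = 0 := by
    linear_combination x 3 * h0 + b 3 * h1 - a 3 * h2
  have M023 : a 0 * (b 2 * x 3 - b 3 * x 2) - a 2 * (b 0 * x 3 - b 3 * x 0) +
      a 3 * (b 0 * x 2 - b 2 * x 0) = 0 := by
    linear_combination x 0 * h0 + b 0 * h1 - a 0 * h2
  have M123 : a 1 * (b 2 * x 3 - b 3 * x 2) - a 2 * (b 1 * x 3 - b 3 * x 1) +
      a 3 * (b 1 * x 2 - b 2 * x 1) = 0 := by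
    linear_combination x 1 * h0 + b 1 * h1 - a 1 * h2
  have hM : ∀ i j k : Fin 4, a i * (b j * x k - b k * x j) - a j * (b i * x k - b k * x i) +
      a k * (b i * x j - b j * x i) = 0 := by
    have e0 : ((⟨0, by norm_num⟩ : Fin 4)) = 0 := rfl
    have e1 : ((⟨1, by norm_num⟩ : Fin 4)) = 1 := rfl
    have e2 : ((⟨2, by norm_num⟩ : Fin 4)) = 2 := rfl
    have e3 : ((⟨3, by norm_num⟩ : Fin 4)) = 3 := rfl
    intro i j k
    fin_cases i <;> fin_cases j <;> fin_cases k <;> simp only [e0, e1, e2, e3] <;> linarith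
  refine ⟨(x i * b j - x j * b i) / (a i * b j - a j * b i),
    (a i * x j - a j * x i) / (a i * b j - a j * b i), ?_⟩
  funext k
  rw [Pi.add_apply, Pi.smul_apply, Pi.smul_apply, smul_eq_mul, smul_eq_mul, div_mul_eq_mul_div,
    div_mul_eq_mul_div, ← add_div, eq_div_iff hj]
  linear_combination hM i j k

lemma isClosed_Cn (l : Lab) : IsClosed {u : Fin 4 → ℝ | Cn l u} := by
  have h1 : ∀ i : Fin 4, IsClosed {u : Fin 4 → ℝ | 0 ≤ u i} := fun i =>
    isClosed_le continuous_const (continuous_apply i)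
  have h2 : IsClosed {u : Fin 4 → ℝ | u 0 + u 1 ≤ u 2 + u 3} :=
    isClosed_le ((continuous_apply 0).add (continuous_apply 1))
      ((continuous_apply 2).add (continuous_apply 3))
  have h3 : IsClosed {u : Fin 4 → ℝ | l = .A → u 0 + u 1 ≤ u 3} := by
    by_cases hl : l = .A
    · have : {u : Fin 4 → ℝ | l = .A → u 0 + u 1 ≤ u 3} = {u : Fin 4 → ℝ | u 0 + u 1 ≤ u 3} := by
        ext u
        exact ⟨fun h => h hl, fun h _ => h⟩
      rw [this]
      exact isClosed_le ((continuous_apply 0).add (continuous_apply 1)) (continuous_apply 3)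
    · have : {u : Fin 4 → ℝ | l = .A → u 0 + u 1 ≤ u 3} = Set.univ := by
        ext u
        exact ⟨fun _ => trivial, fun _ h => absurd h hl⟩
      rw [this]
      exact isClosed_univ
  have h4 : IsClosed {u : Fin 4 → ℝ | l = .B → u 3 ≤ u 0 + u 1} := by
    by_cases hl : l = .B
    · have : {u : Fin 4 → ℝ | l = .B → u 3 ≤ u 0 + u 1} = {u : Fin 4 → ℝ | u 3 ≤ u 0 + u 1} := by
        ext u
        exact ⟨fun h => h hl, fun h _ => h⟩
      rw [this]
      exact isClosed_le (continuous_apply 3) ((continuous_apply 0).add (continuous_apply 1))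
    · have : {u : Fin 4 → ℝ | l = .B → u 3 ≤ u 0 + u 1} = Set.univ := by
        ext u
        exact ⟨fun _ => trivial, fun _ h => absurd h hl⟩
      rw [this]
      exact isClosed_univ
  exact (h1 0).inter ((h1 1).inter ((h1 2).inter ((h1 3).inter (h2.inter (h3.inter h4)))))

lemma Cn_smul {l : Lab} {u : Fin 4 → ℝ} {κ : ℝ} (hκ : 0 ≤ κ) (h : Cn l u) : Cn l (κ • u) := by
  obtain ⟨h0, h1, h2, h3, h4, h5, h6⟩ := h
  unfold Cn
  simp only [Pi.smul_apply, smul_eq_mul]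
  refine ⟨mul_nonneg hκ h0, mul_nonneg hκ h1, mul_nonneg hκ h2, mul_nonneg hκ h3, ?_, ?_, ?_⟩
  · rw [← mul_add, ← mul_add]
    exact mul_le_mul_of_nonneg_left h4 hκ
  · intro hl
    rw [← mul_add]
    exact mul_le_mul_of_nonneg_left (h5 hl) hκ
  · intro hl
    rw [← mul_add]
    exact mul_le_mul_of_nonneg_left (h6 hl) hκ

lemma Kinf_smul (p : Path) {u : Fin 4 → ℝ} {κ : ℝ} (hκ : 0 ≤ κ) (h : u ∈ p.Kinf) :
    κ • u ∈ p.Kinf := by
  intro t
  rw [U_smul]
  exact Cn_smul hκ (h t)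

lemma isClosed_Kinf (p : Path) : IsClosed p.Kinf := by
  have h : p.Kinf = ⋂ t, (p.Ul t) ⁻¹' {u | Cn (p.lab t) u} := by
    ext u
    rw [Set.mem_iInter]
    exact Iff.rfl
  rw [h]
  exact isClosed_iInter fun t =>
    (isClosed_Cn _).preimage (LinearMap.continuous_of_finiteDimensional (p.Ul t))

lemma Kinf_nonneg (p : Path) {u : Fin 4 → ℝ} (h : u ∈ p.Kinf) (i : Fin 4) : 0 ≤ u i := by
  obtain ⟨k1, k2, k3, k4, -⟩ := h 0
  fin_cases i
  · exact k1
  · exact k2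
  · exact k3
  · exact k4

lemma pr_y0 (u : Fin 4 → ℝ) : pr u y0 = u 0 * 2 + u 1 + u 2 * 2 + u 3 * 2 := by
  simp [pr, y0]

lemma pr_single (u : Fin 4 → ℝ) (i : Fin 4) : pr u (Pi.single i 1) = u i := by
  fin_cases i <;> simp [pr]

theorem segment (p : Path) (hsw : ∀ T, ∃ t, T ≤ t ∧ (p.mv t).sw)
    (a : Fin 4 → ℝ) (ha : a ∈ p.Kinf) (hpos : ∀ t i, 0 < p.U a t i)
    (b : Fin 4 → ℝ) (hb : b ∈ p.Kinf) (hab : ∀ κ : ℝ, b ≠ κ • a) :
    ∃ c φ : Fin 2 → Fin 4 → ℝ, (∀ i, c i ∈ p.Kinf) ∧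
      (∀ i j, pr (c i) (φ j) = if i = j then 1 else 0) ∧ φ 0 + φ 1 = y0 ∧
      ∀ x ∈ p.Kinf, ∀ i, 0 ≤ pr x (φ i) := by
  have hprpos : ∀ x ∈ p.Kinf, x ≠ 0 → 0 < pr x y0 := by
    intro x hx hx0
    have h0 := Kinf_nonneg p hx 0
    have h1 := Kinf_nonneg p hx 1
    have h2 := Kinf_nonneg p hx 2
    have h3 := Kinf_nonneg p hx 3
    rw [pr_y0]
    by_contra hle
    apply hx0
    funext i
    rw [Pi.zero_apply]
    fin_cases i
    · show x 0 = 0
      linarith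
    · show x 1 = 0
      linarith
    · show x 2 = 0
      linarith
    · show x 3 = 0
      linarith
  have hnorm : ∀ x ∈ p.Kinf, x ≠ 0 → (pr x y0)⁻¹ • x ∈ p.Kinf ∧ pr ((pr x y0)⁻¹ • x) y0 = 1 := by
    intro x hx hx0
    have h1 := hprpos x hx hx0
    refine ⟨Kinf_smul p (inv_pos.2 h1).le hx, ?_⟩
    rw [pr_smul_left, inv_mul_cancel₀ h1.ne']
  have ha0 : a ≠ 0 := by
    intro h
    have h1 : 0 < a 0 := hpos 0 0
    rw [h] at h1
    exact lt_irrefl _ h1
  have hb0 : b ≠ 0 := by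
    intro h
    apply hab 0
    rw [h, zero_smul]
  obtain ⟨S, hS⟩ : ∃ S : Set (Fin 4 → ℝ), S = {x | x ∈ p.Kinf ∧ pr x y0 = 1} := ⟨_, rfl⟩
  have haS : (pr a y0)⁻¹ • a ∈ S := by
    rw [hS]
    exact hnorm a ha ha0
  have hbS : (pr b y0)⁻¹ • b ∈ S := by
    rw [hS]
    exact hnorm b hb hb0
  have hScomp : IsCompact S := by
    refine IsCompact.of_isClosed_subset (isCompact_Icc (a := (0 : Fin 4 → ℝ)) (b := 1)) ?_ ?_
    · rw [hS]
      refine (isClosed_Kinf p).inter (isClosed_eq ?_ continuous_const)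
      unfold pr
      fun_prop
    · intro x hx
      rw [hS] at hx
      obtain ⟨hx1, hx2⟩ := hx
      have h0 := Kinf_nonneg p hx1 0
      have h1 := Kinf_nonneg p hx1 1
      have h2 := Kinf_nonneg p hx1 2
      have h3 := Kinf_nonneg p hx1 3
      rw [pr_y0] at hx2
      refine ⟨fun i => Kinf_nonneg p hx1 i, fun i => ?_⟩
      rw [Pi.one_apply]
      fin_cases i
      · show x 0 ≤ 1
        linarith
      · show x 1 ≤ 1
        linarith
      · show x 2 ≤ 1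
        linarith
      · show x 3 ≤ 1
        linarith
  obtain ⟨i, hi⟩ : ∃ i, ((pr a y0)⁻¹ • a) i ≠ ((pr b y0)⁻¹ • b) i := by
    by_contra hall
    apply hab (pr b y0 * (pr a y0)⁻¹)
    have h1 : (pr a y0)⁻¹ • a = (pr b y0)⁻¹ • b := by
      funext i
      by_contra h2
      exact hall ⟨i, h2⟩
    rw [mul_smul, h1, smul_smul, mul_inv_cancel₀ (hprpos b hb hb0).ne', one_smul]
  obtain ⟨c0, hc0, hmin⟩ := hScomp.exists_isMinOn ⟨_, haS⟩
    (continuous_apply (A := fun _ : Fin 4 => ℝ) i).continuousOn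
  obtain ⟨c1, hc1, hmax⟩ := hScomp.exists_isMaxOn ⟨_, haS⟩
    (continuous_apply (A := fun _ : Fin 4 => ℝ) i).continuousOn
  have hmin' : ∀ x ∈ S, c0 i ≤ x i := fun x hx => hmin hx
  have hmax' : ∀ x ∈ S, x i ≤ c1 i := fun x hx => hmax hx
  have hlt : 0 < c1 i - c0 i := by
    have h1 := hmin' _ haS
    have h2 := hmin' _ hbS
    have h3 := hmax' _ haS
    have h4 := hmax' _ hbS
    rcases lt_or_gt_of_ne hi with h | h <;> linarith
  rw [hS] at hc0 hc1
  obtain ⟨hc0K, hc0p⟩ := hc0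
  obtain ⟨hc1K, hc1p⟩ := hc1
  -- the functionals
  obtain ⟨φ1, hφ1⟩ : ∃ φ1 : Fin 4 → ℝ, ∀ x, pr x φ1 =
      (c1 i - c0 i)⁻¹ * (x i + (-(c0 i)) * pr x y0) :=
    ⟨(c1 i - c0 i)⁻¹ • (Pi.single i 1 + (-(c0 i)) • y0), fun x => by
      rw [pr_smul_right, pr_add_right, pr_smul_right, pr_single]⟩
  have hφ0 : ∀ x, pr x (y0 + (-1 : ℝ) • φ1) = pr x y0 - pr x φ1 := by
    intro x
    rw [pr_add_right, pr_smul_right]
    ring
  have e00 : pr c0 φ1 = 0 := by
    rw [hφ1, hc0p]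
    ring
  have e11 : pr c1 φ1 = 1 := by
    rw [hφ1, hc1p, mul_one, ← sub_eq_add_neg, inv_mul_cancel₀ hlt.ne']
  have hbd : ∀ x ∈ p.Kinf, c0 i * pr x y0 ≤ x i ∧ x i ≤ c1 i * pr x y0 := by
    intro x hx
    by_cases hx0 : x = 0
    · rw [hx0]
      simp [pr]
    · have h1 := hprpos x hx hx0
      have h2 : (pr x y0)⁻¹ • x ∈ S := by
        rw [hS]
        exact hnorm x hx hx0
      have h3 := hmin' _ h2
      have h4 := hmax' _ h2
      rw [Pi.smul_apply, smul_eq_mul, ← div_eq_inv_mul] at h3 h4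
      exact ⟨(le_div_iff₀ h1).1 h3, (div_le_iff₀ h1).1 h4⟩
  refine ⟨![c0, c1], ![y0 + (-1 : ℝ) • φ1, φ1], ?_, ?_, ?_, ?_⟩
  · intro k
    fin_cases k
    · exact hc0K
    · exact hc1K
  · intro k j
    fin_cases k <;> fin_cases j
    · show pr c0 (y0 + (-1 : ℝ) • φ1) = _
      rw [hφ0, hc0p, e00]
      simp
    · show pr c0 φ1 = _
      rw [e00]
      simp
    · show pr c1 (y0 + (-1 : ℝ) • φ1) = _
      rw [hφ0, hc1p, e11]
      simp
    · show pr c1 φ1 = _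
      rw [e11]
      simp
  · show (y0 + (-1 : ℝ) • φ1) + φ1 = y0
    rw [add_assoc, neg_one_smul, neg_add_cancel, add_zero]
  · intro x hx k
    have h1 := hbd x hx
    have hinv : 0 < (c1 i - c0 i)⁻¹ := inv_pos.2 hlt
    fin_cases k
    · show 0 ≤ pr x (y0 + (-1 : ℝ) • φ1)
      rw [hφ0, hφ1]
      have h2 : pr x y0 - (c1 i - c0 i)⁻¹ * (x i + (-(c0 i)) * pr x y0) =
          (c1 i - c0 i)⁻¹ * (c1 i * pr x y0 - x i) := by
        field_simp
        ring
      rw [h2]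
      exact mul_nonneg hinv.le (by linarith)
    · show 0 ≤ pr x φ1
      rw [hφ1]
      exact mul_nonneg hinv.le (by linarith)

end Pool.Agent.IC61
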