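import Pool.Agent.IC61.Al2

set_option autoImplicit false

/-!
# IC61/Al5: compactness (MP_0d1f6d_an, helper61)

PROOF. For `t : ℕ` let `S t = {x | Cn (p.lab t) (p.U x t) ∧ pr x y0 = 1 ∧ pr x φ + τ ≤ 0}`.
`S (t+1) ⊆ S t` by `back`. `S t` is closed (finitely many weak inequalities in the coordinates of
the linear images `p.Ul t x`, `x`) and bounded: `1 = pr x y0 = pr (p.U x t) (p.H y0 t)`
(`pr_path`), all `p.H y0 t i ≥ 1` (`H_ge_one`) and `p.U x t i ≥ 0`, so all entries of `p.U x t` are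
in `[0, 1]`; `p.Ul t` is a bijective linear map of `ℝ^4` (`Ul_bijective`), so its inverse is
continuous and `S t` is contained in the image of a compact set. For `t = 0` directly: `x = p.U x 0`
is in `[0,1]^4`, and as `S t ⊆ S 0` (nested) all the `S t` are subsets of the compact set
`[0,1]^4` (this avoids the inverse). If all `S t` were nonempty, a point of the intersection
(`IsCompact.nonempty_iInter_of_sequence_nonempty_isCompact_isClosed`) would be in `Kinf` and have
`pr x φ ≤ -τ < 0`, a contradiction. So `S T = ∅` for some `T`. Let `Cn (p.lab T) (p.U x T)`. If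
`pr x y0 = 0` then `pr (p.U x T) (p.H y0 T) = 0`, so `p.U x T = 0` and `x = 0` (`U_inj` with
`p.U 0 T = 0`), fine. Otherwise `pr x y0 > 0` and `x / pr x y0` is not in `S T`, so
`pr x φ + τ * pr x y0 > 0`.
-/

namespace Pool.Agent.IC61

private lemma al5_Ucont (p : Path) (t : ℕ) (i : Fin 4) : Continuous (fun x => p.U x t i) := by
  have h : Continuous (p.Ul t) := LinearMap.continuous_of_finiteDimensional _
  exact (continuous_apply i).comp h

private lemma al5_prcont (h : Fin 4 → ℝ) : Continuous (fun x : Fin 4 → ℝ => pr x h) := by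
  unfold pr
  fun_prop

private lemma al5_Cn_closed (p : Path) (t : ℕ) : IsClosed {x | Cn (p.lab t) (p.U x t)} := by
  have c := al5_Ucont p t
  have e : {x | Cn (p.lab t) (p.U x t)} =
      {x | 0 ≤ p.U x t 0} ∩ {x | 0 ≤ p.U x t 1} ∩ {x | 0 ≤ p.U x t 2} ∩ {x | 0 ≤ p.U x t 3} ∩
      {x | p.U x t 0 + p.U x t 1 ≤ p.U x t 2 + p.U x t 3} ∩
      {x | p.lab t = .A → p.U x t 0 + p.U x t 1 ≤ p.U x t 3} ∩
      {x | p.lab t = .B → p.U x t 3 ≤ p.U x t 0 + p.U x t 1} := by
    ext x
    simp only [Cn, Set.mem_inter_iff]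
    constructor
    · rintro ⟨h1, h2, h3, h4, h5, h6, h7⟩
      exact ⟨⟨⟨⟨⟨⟨h1, h2⟩, h3⟩, h4⟩, h5⟩, h6⟩, h7⟩
    · rintro ⟨⟨⟨⟨⟨⟨h1, h2⟩, h3⟩, h4⟩, h5⟩, h6⟩, h7⟩
      exact ⟨h1, h2, h3, h4, h5, h6, h7⟩
  rw [e]
  refine (((((((isClosed_le continuous_const (c 0)).inter (isClosed_le continuous_const (c 1))).inter
    (isClosed_le continuous_const (c 2))).inter (isClosed_le continuous_const (c 3))).inter
    (isClosed_le ((c 0).add (c 1)) ((c 2).add (c 3)))).inter ?_).inter ?_)
  · by_cases h : p.lab t = .A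
    · have e : {x | p.lab t = .A → p.U x t 0 + p.U x t 1 ≤ p.U x t 3} =
          {x | p.U x t 0 + p.U x t 1 ≤ p.U x t 3} := by
        ext x
        exact ⟨fun h' => h' h, fun h' _ => h'⟩
      rw [e]
      exact isClosed_le ((c 0).add (c 1)) (c 3)
    · have e : {x | p.lab t = .A → p.U x t 0 + p.U x t 1 ≤ p.U x t 3} = Set.univ := by
        ext x
        exact ⟨fun _ => trivial, fun _ h' => absurd h' h⟩
      rw [e]
      exact isClosed_univ
  · by_cases h : p.lab t = .B
    · have e : {x | p.lab t = .B → p.U x t 3 ≤ p.U x t 0 + p.U x t 1} =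
          {x | p.U x t 3 ≤ p.U x t 0 + p.U x t 1} := by
        ext x
        exact ⟨fun h' => h' h, fun h' _ => h'⟩
      rw [e]
      exact isClosed_le (c 3) ((c 0).add (c 1))
    · have e : {x | p.lab t = .B → p.U x t 3 ≤ p.U x t 0 + p.U x t 1} = Set.univ := by
        ext x
        exact ⟨fun _ => trivial, fun _ h' => absurd h' h⟩
      rw [e]
      exact isClosed_univ

theorem compact_ge (p : Path) (φ : Fin 4 → ℝ) (hφ : ∀ x ∈ p.Kinf, 0 ≤ pr x φ)
    {τ : ℝ} (hτ : 0 < τ) :
    ∃ T, ∀ x, Cn (p.lab T) (p.U x T) → 0 ≤ pr x φ + τ * pr x y0 := by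
  let S : ℕ → Set (Fin 4 → ℝ) := fun t =>
    {x | Cn (p.lab t) (p.U x t)} ∩ ({x | pr x y0 = 1} ∩ {x | pr x φ + τ ≤ 0})
  have hcl : ∀ t, IsClosed (S t) := fun t =>
    (al5_Cn_closed p t).inter ((isClosed_eq (al5_prcont y0) continuous_const).inter
      (isClosed_le ((al5_prcont φ).add continuous_const) continuous_const))
  have hne : ∃ T, ¬ (S T).Nonempty := by
    by_contra hcon
    push Not at hcon
    have hmono : ∀ t, S (t + 1) ⊆ S t := by
      rintro t x ⟨h1, h2⟩
      exact ⟨(back_path p x (Nat.le_succ t) h1).1, h2⟩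
    have hcpt : IsCompact (S 0) := by
      refine IsCompact.of_isClosed_subset
        (isCompact_univ_pi (s := fun _ : Fin 4 => Set.Icc (0 : ℝ) 1) (fun _ => isCompact_Icc))
        (hcl 0) ?_
      rintro x ⟨h1, h2, -⟩ i -
      have h1' : Cn (p.lab 0) x := h1
      have h2' : pr x y0 = 1 := h2
      obtain ⟨a0, a1, a2, a3, -⟩ := h1'
      simp [pr, y0] at h2'
      fin_cases i <;> simp only [Fin.zero_eta, Fin.mk_one, Fin.reduceFinMk, Set.mem_Icc] <;>
        constructor <;> linarith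
    obtain ⟨x, hx⟩ := IsCompact.nonempty_iInter_of_sequence_nonempty_isCompact_isClosed S hmono
      hcon hcpt hcl
    rw [Set.mem_iInter] at hx
    have hK : x ∈ p.Kinf := fun t => (hx t).1
    have h1 := hφ x hK
    have h2 : pr x φ + τ ≤ 0 := (hx 0).2.2
    linarith
  obtain ⟨T, hT⟩ := hne
  refine ⟨T, fun x hx => ?_⟩
  have hH := H_ge_one p T
  have hpr : pr x y0 = pr (p.U x T) (p.H y0 T) := (pr_path p x y0 T).symm
  obtain ⟨a0, a1, a2, a3, -⟩ := id hx
  have hsum : p.U x T 0 + p.U x T 1 + p.U x T 2 + p.U x T 3 ≤ pr x y0 := by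
    rw [hpr]
    unfold pr
    nlinarith [mul_nonneg a0 (sub_nonneg.2 (hH 0)), mul_nonneg a1 (sub_nonneg.2 (hH 1)),
      mul_nonneg a2 (sub_nonneg.2 (hH 2)), mul_nonneg a3 (sub_nonneg.2 (hH 3))]
  rcases (by linarith : (0 : ℝ) ≤ pr x y0).eq_or_lt with h0 | h0
  · have hU : p.U x T = p.U 0 T := by
      have h00 : p.U 0 T = 0 := (p.Ul T).map_zero
      rw [h00]
      funext i
      fin_cases i <;> simp only [Fin.zero_eta, Fin.mk_one, Fin.reduceFinMk, Pi.zero_apply] <;>
        linarith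
    have hx0 : x = 0 := U_inj p T hU
    subst hx0
    simp [pr]
  · by_contra hneg
    push Not at hneg
    apply hT
    refine ⟨(pr x y0)⁻¹ • x, ?_, ?_, ?_⟩
    · change Cn (p.lab T) (p.U ((pr x y0)⁻¹ • x) T)
      rw [U_smul]
      have hc : 0 < (pr x y0)⁻¹ := inv_pos.2 h0
      obtain ⟨b0, b1, b2, b3, b4, b5, b6⟩ := hx
      simp only [Cn, Pi.smul_apply, smul_eq_mul]
      refine ⟨by positivity, by positivity, by positivity, by positivity, ?_, ?_, ?_⟩
      · rw [← mul_add, ← mul_add]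
        exact mul_le_mul_of_nonneg_left b4 hc.le
      · intro h
        rw [← mul_add]
        exact mul_le_mul_of_nonneg_left (b5 h) hc.le
      · intro h
        rw [← mul_add]
        exact mul_le_mul_of_nonneg_left (b6 h) hc.le
    · change pr ((pr x y0)⁻¹ • x) y0 = 1
      rw [pr_smul_left]
      exact inv_mul_cancel₀ h0.ne'
    · change pr ((pr x y0)⁻¹ • x) φ + τ ≤ 0
      rw [pr_smul_left]
      have h3 : (pr x y0)⁻¹ * (pr x φ + τ * pr x y0) < 0 :=
        mul_neg_of_pos_of_neg (inv_pos.2 h0) hneg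
      have h4 : (pr x y0)⁻¹ * (τ * pr x y0) = τ := by
        field_simp
      nlinarith [h3, h4]

end Pool.Agent.IC61
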