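import Pool.Agent.IC61.Al2

set_option autoImplicit false

/-!
# IC61/Al6: lower bounds for functionals on the atoms (MP_0d1f6d_an, helper61)

PROOF. Let `F t = p.H f t`. For every `x`: `pr x f = pr (p.U x t) (F t)` (`pr_path`).
(1) For `t ≥ T`: `0 ≤ F t 2`. By `U_surj` take `x` with `p.U x t = ![0, 0, 1, 0]`. It satisfies
`Cn l` for every label `l`, so by `back_path` `Cn (p.lab T) (p.U x T)`, so
`0 ≤ pr x f = pr (p.U x t) (F t) = F t 2`.
(2) For `t ≥ T` and `p.lab t ≠ .B`: `0 ≤ F t 3`, in the same way with `![0, 0, 0, 1]`.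
(3) Let `t1 ≥ T` be a switch (`hsw`). For `t > t1`: `0 ≤ F t 0 - F t 1`: right after a switch this is
`zH (p.lab t1) (F t1)`, that is `F t1 2`, or `F t1 3` in the label `K`, which is `≥ 0` by (1), (2);
Euclidean steps do not change it; at a later switch `s` it becomes `F s 2` or (label `K`) `F s 3`.
(4) Let `T' = t1 + 1` and `C = max 0 (-(minimum of the four atoms at time T'))`. Claim:
`AtGe (-C) (p.lab t) (F t)` for all `t ≥ T'`. Induction, with `0 ≤ F t 2`, `0 ≤ F t 3` (labels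
`≠ .B`), `0 ≤ w = F t 0 - F t 1`. Write `x = F t 1`, `gh = F t 2 - w`, `sg = F t 3 - gh`,
`ka = gh - F t 3`:
 - `e1`, label `A`, `S`, `B`: `w, x, gh` unchanged, `sg' = sg + F t 2 ≥ sg`.
 - `e1`, label `K`: `gh' = ka + F t 3 ≥ ka`, `sg' = F t 3 + w ≥ 0`.
 - `e2`, label `A`, `S`: `ka' = gh`, `g1' = F t 3 ≥ 0` (the label of `t` is not `B`).
 - `e2`, label `K`: `ka' = ka + F t 3`.
 - `zn`, labels `S`, `B`: `w' = F t 2 ≥ 0`, `x' = sg`, `gh' = w + x`, `sg' = gh`.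
 - `zw`, labels `S`, `B`: `w' = F t 2`, `x' = sg`, `gh' = x`, `sg' = gh`.
 - `zn`, label `K`: `w' = F t 3`, `x' = ka`, `gh' = x`, `sg' = F t 3 + w`.
 - `zw`, label `K`: `w' = F t 3`, `x' = ka`, `gh' = w + x`, `sg' = F t 3 + w`.
All are `≥ -C`. (`cases` on label and move, `simp [atH, stH, nl]`, `linarith`, as in
`AtGe_step` of Al2.)
-/

namespace Pool.Agent.IC61

private lemma al6_two (p : Path) (f : Fin 4 → ℝ) (T : ℕ)
    (hf : ∀ x, Cn (p.lab T) (p.U x T) → 0 ≤ pr x f) {t : ℕ} (ht : T ≤ t) : 0 ≤ p.H f t 2 := by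
  obtain ⟨x, hx⟩ := U_surj p t ![0, 0, 1, 0]
  have h1 : Cn (p.lab t) (p.U x t) := by
    rw [hx]
    generalize p.lab t = l
    cases l <;> simp [Cn]
  have h2 := hf x (back_path p x ht h1).1
  rw [← pr_path p x f t, hx] at h2
  simpa [pr] using h2

private lemma al6_three (p : Path) (f : Fin 4 → ℝ) (T : ℕ)
    (hf : ∀ x, Cn (p.lab T) (p.U x T) → 0 ≤ pr x f) {t : ℕ} (ht : T ≤ t)
    (hB : p.lab t ≠ .B) : 0 ≤ p.H f t 3 := by
  obtain ⟨x, hx⟩ := U_surj p t ![0, 0, 0, 1]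
  have h1 : Cn (p.lab t) (p.U x t) := by
    rw [hx]
    generalize p.lab t = l at hB
    cases l <;> simp [Cn] at hB ⊢
  have h2 := hf x (back_path p x ht h1).1
  rw [← pr_path p x f t, hx] at h2
  simpa [pr] using h2

/-- The new difference after a switch is nonnegative. -/
private lemma al6_wsw (p : Path) (f : Fin 4 → ℝ) (T : ℕ)
    (hf : ∀ x, Cn (p.lab T) (p.U x T) → 0 ≤ pr x f) {t : ℕ} (ht : T ≤ t) (hs : (p.mv t).sw) :
    0 ≤ p.H f (t + 1) 0 - p.H f (t + 1) 1 := by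
  have h2 := al6_two p f T hf ht
  have h3 := al6_three p f T hf ht
  have hv := p.valid t
  change 0 ≤ (stH _ _ (p.H f t)) 0 - (stH _ _ (p.H f t)) 1
  generalize p.mv t = m at *
  generalize p.lab t = l at *
  generalize p.H f t = k at *
  cases m <;> cases l <;> simp [Mv.sw, vm] at hs hv <;>
    simp [stH] at h2 h3 ⊢ <;> linarith

private lemma al6_w (p : Path) (f : Fin 4 → ℝ) (T : ℕ)
    (hf : ∀ x, Cn (p.lab T) (p.U x T) → 0 ≤ pr x f) {t1 : ℕ} (ht1 : T ≤ t1) (hs : (p.mv t1).sw)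
    {t : ℕ} (ht : t1 + 1 ≤ t) : 0 ≤ p.H f t 0 - p.H f t 1 := by
  induction t, ht using Nat.le_induction with
  | base => exact al6_wsw p f T hf ht1 hs
  | succ n hn ih =>
    by_cases hn' : (p.mv n).sw
    · exact al6_wsw p f T hf (by omega) hn'
    · change 0 ≤ (stH _ _ (p.H f n)) 0 - (stH _ _ (p.H f n)) 1
      generalize p.mv n = m at *
      generalize p.lab n = l at *
      generalize p.H f n = k at *
      cases m <;> simp [Mv.sw] at hn' <;> simp [stH] at ih ⊢ <;> linarith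

private lemma al6_step {C : ℝ} (hC : 0 ≤ C) (l : Lab) (m : Mv) (h : Fin 4 → ℝ) (hv : vm l m)
    (h2' : 0 ≤ h 2) (h3' : l ≠ .B → 0 ≤ h 3) (hw : 0 ≤ h 0 - h 1)
    (hA : AtGe (-C) l h) : AtGe (-C) (nl l m) (stH l m h) := by
  have h0 := hA 0
  have h1 := hA 1
  have h2 := hA 2
  have h3 := hA 3
  intro i
  cases l <;> cases m <;> simp [vm] at hv <;> fin_cases i <;>
    simp [atH, nl, stH] at h0 h1 h2 h3 h3' ⊢ <;> linarith

theorem atoms_ge (p : Path) (hsw : ∀ T, ∃ t, T ≤ t ∧ (p.mv t).sw) (f : Fin 4 → ℝ) (T : ℕ)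
    (hf : ∀ x, Cn (p.lab T) (p.U x T) → 0 ≤ pr x f) :
    ∃ C : ℝ, 0 ≤ C ∧ ∃ T', ∀ t, T' ≤ t → AtGe (-C) (p.lab t) (p.H f t) := by
  obtain ⟨t1, ht1, hs1⟩ := hsw T
  set a := atH (p.lab (t1 + 1)) (p.H f (t1 + 1)) with ha
  refine ⟨|a 0| + |a 1| + |a 2| + |a 3|, by positivity, t1 + 1, ?_⟩
  intro t ht
  induction t, ht using Nat.le_induction with
  | base =>
    intro i
    rw [← ha]
    have e0 := neg_abs_le (a 0)
    have e1 := neg_abs_le (a 1)
    have e2 := neg_abs_le (a 2)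
    have e3 := neg_abs_le (a 3)
    have p0 := abs_nonneg (a 0)
    have p1 := abs_nonneg (a 1)
    have p2 := abs_nonneg (a 2)
    have p3 := abs_nonneg (a 3)
    fin_cases i <;> simp only [Fin.zero_eta, Fin.mk_one, Fin.reduceFinMk] <;> linarith
  | succ n hn ih =>
    rw [p.next n]
    exact al6_step (by positivity) _ _ _ (p.valid n) (al6_two p f T hf (by omega))
      (al6_three p f T hf (by omega)) (al6_w p f T hf ht1 hs1 hn) ih

end Pool.Agent.IC61
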