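import Pool.Agent.IC61.Al2

set_option autoImplicit false

/-!
# IC61/Al8: the key inequality at a switch (MP_0d1f6d_an, helper61)

Pure real inequalities. Notation: for a vector `r ∈ {u, v}`: `η_r = r 0 + r 1`, `P_r = r 2 + r 3`,
`e_r = r 0 + r 2 = atU l r 0`, masses `m_r i = atU l r i * atH l h i ≥ 0`, `∑ i, m_r i = 1` (`pr_at`).
From `Sc`: `0 ≤ r i`, `r 2, r 3 ≤ η_r ≤ P_r ≤ 2 η_r`, `e_r ≤ 2 η_r`. `(MD)`: `m_u i * m_v i ≤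
δ (m_u i + m_v i)`; consequence (*): if `m_u i ≤ m_v i` then `m_u i ≤ 2 δ`, and vice versa.
By symmetry let `q` be the one of `u`, `v` with the smaller `η`, `p` the other one: `η_q ≤ η_p`
(prove the statement for an ordered pair `(p, q)` with `η_q ≤ η_p`, `Q p q = 0`, and apply it twice;
`Q v u = - Q u v`). `η_p > 0` because otherwise all entries of `p` vanish.

Let `g := 2` (`l ≠ K`) or `g := 3` (`l = K`) be the index of the atom with the coordinate `P`, and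
`z := 3` (`l ≠ K`) or `z := 2` (`l = K`) the last one; `atU l r z = zL l r`, `atH l h z = xN l h`.
(1) `m_q 1 = η_q * h 1 ≤ m_p 1`, so `m_q 1 ≤ 2 δ`.
(2) `P_q ≤ 2 η_q ≤ 2 η_p ≤ 2 P_p`, so `m_q g ≤ 2 m_p g` and `m_q g ≤ 4 δ` (if `m_q g ≤ m_p g`, by (*);
otherwise `m_p g ≤ 2 δ` by (*)).
(3) `m_q 0 ≤ 7 δ`. Suppose not. By (MD) `m_p 0 * (m_q 0 - δ) ≤ δ * m_q 0`, so `m_p 0 ≤ m_q 0 / 6`
(since `m_q 0 - δ ≥ 6 δ`), i.e. `6 e_p ≤ e_q` (`w > 0`). Isotropy `Q p q = 0` reads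
`p 0 * q 1 + p 2 * q 3 = p 1 * q 0 + p 3 * q 2`. LHS `≤ e_p * η_q`; `p 1 = η_p - p 0 ≥ η_p - e_p`,
`p 3 ≥ η_p - p 2 ≥ η_p - e_p`, so RHS `≥ (η_p - e_p) * e_q`. As `e_p ≤ e_q / 6 ≤ η_q / 3 ≤ η_p / 3`:
`(2/3) η_p e_q ≤ e_p η_p ≤ η_p e_q / 6`, contradiction as `e_q > 0`, `η_p > 0`.
(4) So `m_q z ≥ 1 - 13 δ`: first half of the conclusion.
(5) `m_p z ≤ 2 δ` (from (MD), as `m_q z ≥ 1 - 13 δ > 2 δ`, by (*)), so `zL p ≤ 3 δ * zL q` (divide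
by `xN > 0`: `zL p * xN ≤ 2 δ ≤ 3 δ (1 - 13 δ) ≤ 3 δ * zL q * xN`).
(6) `η_q ≤ 36 δ η_p`. One of `m_p 0`, `m_p 1`, `m_p g` is `≥ 1/4`.
 - `m_p 1 ≥ 1/4`: `η_q * h 1 = m_q 1 ≤ 2 δ ≤ 8 δ * m_p 1 = 8 δ * η_p * h 1`.
 - `m_p g ≥ 1/4`: then `m_q g ≤ 2 δ` (by (MD)/(*): `m_q g > m_p g ≥ 1/4` would give
   `m_p g ≤ 2 δ`), so `P_q ≤ 8 δ P_p ≤ 16 δ η_p` and `η_q ≤ P_q`.
 - `m_p 0 ≥ 1/4`: `m_q 0 ≤ 2 δ` in the same way, so `e_q ≤ 8 δ e_p ≤ 16 δ η_p`. Isotropy: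
   `p 0 * q 1 + p 2 * q 3 = p 1 * q 0 + p 3 * q 2 ≤ η_p * e_q`.
   `l ≠ K`: `p 3 = zL p ≤ 3 δ q 3 ≤ 3 δ η_q ≤ 3 δ η_p`, so `p 2 ≥ (1 - 3 δ) η_p` and
   `(1 - 3 δ) η_p * q 3 ≤ 16 δ η_p ^ 2`, `q 3 ≤ 17 δ η_p`; `η_q ≤ P_q = q 2 + q 3 ≤ e_q + q 3 ≤ 33 δ η_p`.
   `l = K`: `p 2 = zL p ≤ 3 δ * q 2 ≤ 3 δ * e_q ≤ 24 δ ^ 2 * e_p`, so `p 0 ≥ (99/100) e_p`, and
   `(99/100) e_p * q 1 ≤ η_p * e_q ≤ 8 δ e_p η_p`, `q 1 ≤ 9 δ η_p` (`e_p > 0`),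
   `η_q = q 0 + q 1 ≤ e_q + q 1 ≤ 25 δ η_p`.
(7) `zH ≤ 50 δ xN`. `l ≠ K`: `p 2 ≥ (1 - 3 δ) η_p` (as in (6)), and `p 2 * h 2 ≤ pr p h = 1`, so
`η_p * h 2 ≤ 1 / (1 - 3 δ)`; `1 - 13 δ ≤ q 3 * xN ≤ η_q * xN ≤ 36 δ η_p * xN`. Multiply:
`(1 - 13 δ) h 2 ≤ 36 δ * (η_p * h 2) * xN ≤ 36 δ / (1 - 3 δ) * xN`. `l = K`: `P_p * h 3 = m_p 3 ≤ 1`, so
`η_p * h 3 ≤ 1`, and `1 - 13 δ ≤ q 2 * xN ≤ η_q * xN ≤ 36 δ η_p * xN`; multiply by `h 3`.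
-/

namespace Pool.Agent.IC61

/-- The masses of every atom for `u`, `v` satisfy `M N ≤ δ (M + N)`. -/
def MD (δ : ℝ) (l : Lab) (u v h : Fin 4 → ℝ) : Prop :=
  ∀ i, (atU l u i * atH l h i) * (atU l v i * atH l h i)
    ≤ δ * (atU l u i * atH l h i + atU l v i * atH l h i)

private lemma Al8_star {a b δ : ℝ} (hδ : 0 < δ) (h : a * b ≤ δ * (a + b)) (hab : a ≤ b) :
    a ≤ 2 * δ := by
  by_contra hc
  push Not at hc
  have hb : 0 < b := by linarith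
  have h1 : 2 * δ * b < a * b := mul_lt_mul_of_pos_right hc hb
  have h2 : δ * (a + b) ≤ δ * (2 * b) := mul_le_mul_of_nonneg_left (by linarith) hδ.le
  linarith

/-- If `a` is large then `b` is small. -/
private lemma Al8_star2 {a b δ : ℝ} (hδ : 0 < δ) (h : a * b ≤ δ * (a + b)) (ha : 2 * δ < a) :
    b ≤ 2 * δ := by
  rcases le_total a b with hab | hab
  · have := Al8_star hδ h hab
    linarith
  · exact Al8_star hδ (by linarith [mul_comm a b]) hab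

private lemma Al8_first {p0 p1 p2 p3 q0 q1 q2 q3 w x G Z zp zq δ : ℝ}
    (hp0 : 0 ≤ p0) (hp2 : 0 ≤ p2)
    (hpP : p0 + p1 ≤ p2 + p3) (hq0 : 0 ≤ q0) (hq1 : 0 ≤ q1)
    (hq2 : 0 ≤ q2) (hq2' : q2 ≤ q0 + q1) (hq3' : q3 ≤ q0 + q1)
    (hη : q0 + q1 ≤ p0 + p1) (hηp : 0 < p0 + p1)
    (hQ : p0 * q1 - p1 * q0 + (p2 * q3 - p3 * q2) = 0)
    (hw : 1 ≤ w) (hx : 1 ≤ x) (hG : 1 ≤ G) (hZ : 1 ≤ Z)
    (hq : (q0 + q2) * w + (q0 + q1) * x + (q2 + q3) * G + zq * Z = 1)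
    (hδ : 0 < δ) (hδ1 : δ ≤ 1 / 1000)
    (M0 : ((q0 + q2) * w) * ((p0 + p2) * w) ≤ δ * ((q0 + q2) * w + (p0 + p2) * w))
    (M1 : ((q0 + q1) * x) * ((p0 + p1) * x) ≤ δ * ((q0 + q1) * x + (p0 + p1) * x))
    (Mg : ((q2 + q3) * G) * ((p2 + p3) * G) ≤ δ * ((q2 + q3) * G + (p2 + p3) * G))
    (Mz : (zq * Z) * (zp * Z) ≤ δ * (zq * Z + zp * Z)) :
    1 - 13 * δ ≤ zq * Z ∧ zp * Z ≤ 2 * δ ∧ zp ≤ 3 * δ * zq ∧ (q0 + q1) * x ≤ 2 * δ := by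
  have hw0 : 0 < w := by linarith
  have hG0 : 0 < G := by linarith
  have hZ0 : 0 < Z := by linarith
  have hx0 : 0 < x := by linarith
  -- (1)
  have s1 : (q0 + q1) * x ≤ 2 * δ :=
    Al8_star hδ M1 (mul_le_mul_of_nonneg_right hη hx0.le)
  -- (2)
  have s2 : (q2 + q3) * G ≤ 4 * δ := by
    have hPP : (q2 + q3) * G ≤ 2 * ((p2 + p3) * G) := by
      have : q2 + q3 ≤ 2 * (p2 + p3) := by linarith
      nlinarith [mul_le_mul_of_nonneg_right this hG0.le]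
    rcases le_total ((q2 + q3) * G) ((p2 + p3) * G) with h | h
    · have := Al8_star hδ Mg h
      linarith
    · have := Al8_star hδ (by linarith [mul_comm ((q2 + q3) * G) ((p2 + p3) * G)] :
        ((p2 + p3) * G) * ((q2 + q3) * G) ≤ δ * ((p2 + p3) * G + (q2 + q3) * G)) h
      linarith
  -- (3)
  have s3 : (q0 + q2) * w ≤ 7 * δ := by
    by_contra hc
    push Not at hc
    have hmp : 0 ≤ (p0 + p2) * w := mul_nonneg (by linarith) hw0.le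
    have h6 : 6 * ((p0 + p2) * w) ≤ (q0 + q2) * w := by
      have h1 : ((p0 + p2) * w) * (6 * δ) ≤ ((p0 + p2) * w) * ((q0 + q2) * w - δ) :=
        mul_le_mul_of_nonneg_left (by linarith) hmp
      have h2 : δ * (6 * ((p0 + p2) * w)) ≤ δ * ((q0 + q2) * w) := by nlinarith
      exact le_of_mul_le_mul_left h2 hδ
    have h6' : 6 * (p0 + p2) ≤ q0 + q2 := by
      have : (6 * (p0 + p2)) * w ≤ (q0 + q2) * w := by linarith
      exact le_of_mul_le_mul_right this hw0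
    have heq : 0 < q0 + q2 := by
      have : 0 < (q0 + q2) * w := by linarith
      exact pos_of_mul_pos_left this hw0.le
    have hL : p0 * q1 + p2 * q3 ≤ (p0 + p2) * (p0 + p1) := by
      have a1 : p0 * q1 ≤ p0 * (p0 + p1) := mul_le_mul_of_nonneg_left (by linarith) hp0
      have a2 : p2 * q3 ≤ p2 * (p0 + p1) := mul_le_mul_of_nonneg_left (by linarith) hp2
      linarith
    have hR : (p0 + p1 - (p0 + p2)) * (q0 + q2) ≤ p1 * q0 + p3 * q2 := by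
      have a1 : (p0 + p1 - (p0 + p2)) * q0 ≤ p1 * q0 :=
        mul_le_mul_of_nonneg_right (by linarith) hq0
      have a2 : (p0 + p1 - (p0 + p2)) * q2 ≤ p3 * q2 :=
        mul_le_mul_of_nonneg_right (by linarith) hq2
      linarith
    have h3 : 3 * (p0 + p2) ≤ p0 + p1 := by linarith
    have h4 : (2 / 3 * (p0 + p1)) * (q0 + q2) ≤ (p0 + p1 - (p0 + p2)) * (q0 + q2) :=
      mul_le_mul_of_nonneg_right (by linarith) heq.le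
    have h5 : (p0 + p2) * (p0 + p1) ≤ ((q0 + q2) / 6) * (p0 + p1) :=
      mul_le_mul_of_nonneg_right (by linarith) hηp.le
    have h7 : 0 < (p0 + p1) * (q0 + q2) := mul_pos hηp heq
    nlinarith
  -- (4)
  have s4 : 1 - 13 * δ ≤ zq * Z := by linarith
  -- (5)
  have s5 : zp * Z ≤ 2 * δ := Al8_star2 hδ Mz (by linarith)
  refine ⟨s4, s5, ?_, s1⟩
  have h8 : 2 * δ ≤ 3 * δ * (zq * Z) := by nlinarith
  have h9 : zp * Z ≤ (3 * δ * zq) * Z := by linarith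
  exact le_of_mul_le_mul_right h9 hZ0

private lemma Al8_eta {p0 p1 p2 p3 q0 q1 q2 q3 w x G Z zp zq δ : ℝ}
    (hz : (zp = p3 ∧ zq = q3) ∨ (zp = p2 ∧ zq = q2))
    (hp0 : 0 ≤ p0) (hp1 : 0 ≤ p1) (hp2 : 0 ≤ p2)
    (hp2' : p2 ≤ p0 + p1) (hp3' : p3 ≤ p0 + p1)
    (hpP : p0 + p1 ≤ p2 + p3) (hq0 : 0 ≤ q0) (hq1 : 0 ≤ q1)
    (hq2 : 0 ≤ q2) (hq3 : 0 ≤ q3) (hq3' : q3 ≤ q0 + q1)
    (hqP : q0 + q1 ≤ q2 + q3)
    (hη : q0 + q1 ≤ p0 + p1) (hηp : 0 < p0 + p1)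
    (hQ : p0 * q1 - p1 * q0 + (p2 * q3 - p3 * q2) = 0)
    (hw : 1 ≤ w) (hx : 1 ≤ x) (hG : 1 ≤ G) (hZ : 1 ≤ Z)
    (hp : (p0 + p2) * w + (p0 + p1) * x + (p2 + p3) * G + zp * Z = 1)
    (hδ : 0 < δ) (hδ1 : δ ≤ 1 / 1000)
    (M0 : ((q0 + q2) * w) * ((p0 + p2) * w) ≤ δ * ((q0 + q2) * w + (p0 + p2) * w))
    (Mg : ((q2 + q3) * G) * ((p2 + p3) * G) ≤ δ * ((q2 + q3) * G + (p2 + p3) * G))
    (s5 : zp * Z ≤ 2 * δ) (s6 : zp ≤ 3 * δ * zq) (s1 : (q0 + q1) * x ≤ 2 * δ) :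
    q0 + q1 ≤ 36 * δ * (p0 + p1) := by
  have hw0 : 0 < w := by linarith
  have hG0 : 0 < G := by linarith
  have hZ0 : 0 < Z := by linarith
  have hx0 : 0 < x := by linarith
  have hδη : 0 ≤ δ * (p0 + p1) := mul_nonneg hδ.le hηp.le
  rcases le_or_gt (1 / 4) ((p0 + p1) * x) with h | h
  · have h1 : (q0 + q1) * x ≤ (8 * δ * (p0 + p1)) * x := by nlinarith
    have := le_of_mul_le_mul_right h1 hx0
    linarith
  rcases le_or_gt (1 / 4) ((p2 + p3) * G) with h' | h'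
  · have h1 : (q2 + q3) * G ≤ 2 * δ :=
      Al8_star2 hδ (by linarith [mul_comm ((q2 + q3) * G) ((p2 + p3) * G)] :
        ((p2 + p3) * G) * ((q2 + q3) * G) ≤ δ * ((p2 + p3) * G + (q2 + q3) * G)) (by linarith)
    have h2 : (q2 + q3) * G ≤ (8 * δ * (p2 + p3)) * G := by nlinarith
    have h3 := le_of_mul_le_mul_right h2 hG0
    have h4 : 8 * δ * (p2 + p3) ≤ 8 * δ * (2 * (p0 + p1)) :=
      mul_le_mul_of_nonneg_left (by linarith) (by linarith)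
    linarith
  have h0 : 1 / 4 ≤ (p0 + p2) * w := by linarith
  have h1 : (q0 + q2) * w ≤ 2 * δ :=
    Al8_star2 hδ (by linarith [mul_comm ((q0 + q2) * w) ((p0 + p2) * w)] :
      ((p0 + p2) * w) * ((q0 + q2) * w) ≤ δ * ((p0 + p2) * w + (q0 + q2) * w)) (by linarith)
  have h2 : (q0 + q2) * w ≤ (8 * δ * (p0 + p2)) * w := by nlinarith
  have he := le_of_mul_le_mul_right h2 hw0
  have he2 : 8 * δ * (p0 + p2) ≤ 8 * δ * (2 * (p0 + p1)) :=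
    mul_le_mul_of_nonneg_left (by linarith) (by linarith)
  have hep : 0 < p0 + p2 := by
    have : 0 < (p0 + p2) * w := by linarith
    exact pos_of_mul_pos_left this hw0.le
  have hI : p0 * q1 + p2 * q3 ≤ (p0 + p1) * (q0 + q2) := by
    have a1 : p1 * q0 ≤ (p0 + p1) * q0 := mul_le_mul_of_nonneg_right (by linarith) hq0
    have a2 : p3 * q2 ≤ (p0 + p1) * q2 := mul_le_mul_of_nonneg_right hp3' hq2
    linarith
  rcases hz with ⟨hzp, hzq⟩ | ⟨hzp, hzq⟩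
  · rw [hzp, hzq] at s6
    have h3 : 3 * δ * q3 ≤ 3 * δ * (p0 + p1) :=
      mul_le_mul_of_nonneg_left (by linarith) (by linarith)
    have hp2'' : (1 - 3 * δ) * (p0 + p1) ≤ p2 := by linarith
    have h4 : ((1 - 3 * δ) * (p0 + p1)) * q3 ≤ p2 * q3 := mul_le_mul_of_nonneg_right hp2'' hq3
    have h5 : 0 ≤ p0 * q1 := mul_nonneg hp0 hq1
    have h6 : (p0 + p1) * (q0 + q2) ≤ (p0 + p1) * (16 * δ * (p0 + p1)) :=
      mul_le_mul_of_nonneg_left (by linarith) hηp.le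
    have h7 : (p0 + p1) * ((1 - 3 * δ) * q3) ≤ (p0 + p1) * (16 * δ * (p0 + p1)) := by linarith
    have h8 := le_of_mul_le_mul_left h7 hηp
    have h9 : 3 * δ * q3 ≤ 3 / 1000 * q3 := mul_le_mul_of_nonneg_right (by linarith) hq3
    linarith
  · rw [hzp, hzq] at s6
    have h3 : 3 * δ * q2 ≤ 3 * δ * (8 * δ * (p0 + p2)) :=
      mul_le_mul_of_nonneg_left (by linarith) (by linarith)
    have h3' : 3 * δ * (8 * δ * (p0 + p2)) ≤ 1 / 100 * (p0 + p2) := by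
      have : 3 * δ * (8 * δ) ≤ 1 / 100 := by
        have hdd : δ * δ ≤ δ * (1 / 1000) := mul_le_mul_of_nonneg_left hδ1 hδ.le
        linarith
      calc 3 * δ * (8 * δ * (p0 + p2)) = (3 * δ * (8 * δ)) * (p0 + p2) := by ring
        _ ≤ 1 / 100 * (p0 + p2) := mul_le_mul_of_nonneg_right this hep.le
    have hp0' : 99 / 100 * (p0 + p2) ≤ p0 := by linarith
    have h4 : (99 / 100 * (p0 + p2)) * q1 ≤ p0 * q1 := mul_le_mul_of_nonneg_right hp0' hq1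
    have h5 : 0 ≤ p2 * q3 := mul_nonneg hp2 hq3
    have h6 : (p0 + p1) * (q0 + q2) ≤ (p0 + p1) * (8 * δ * (p0 + p2)) :=
      mul_le_mul_of_nonneg_left he hηp.le
    have h7 : (p0 + p2) * (99 / 100 * q1) ≤ (p0 + p2) * (8 * δ * (p0 + p1)) := by linarith
    have h8 := le_of_mul_le_mul_left h7 hep
    linarith

private lemma Al8_nonK {p0 p1 p2 p3 q0 q1 q2 q3 w x G Z δ : ℝ}
    (hp0 : 0 ≤ p0) (hp1 : 0 ≤ p1)
    (hp2' : p2 ≤ p0 + p1) (hp3' : p3 ≤ p0 + p1)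
    (hpP : p0 + p1 ≤ p2 + p3) (hq0 : 0 ≤ q0) (hq1 : 0 ≤ q1)
    (hq2' : q2 ≤ q0 + q1) (hq3' : q3 ≤ q0 + q1)
    (hqP : q0 + q1 ≤ q2 + q3)
    (hη : q0 + q1 ≤ p0 + p1)
    (hQ : p0 * q1 - p1 * q0 + (p2 * q3 - p3 * q2) = 0)
    (hw : 1 ≤ w) (hx : 1 ≤ x) (hG : 1 ≤ G) (hZ : 1 ≤ Z)
    (hp : (p0 + p2) * w + (p0 + p1) * x + (p2 + p3) * G + p3 * Z = 1)
    (hq : (q0 + q2) * w + (q0 + q1) * x + (q2 + q3) * G + q3 * Z = 1)
    (hδ : 0 < δ) (hδ1 : δ ≤ 1 / 1000)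
    (M0 : ((q0 + q2) * w) * ((p0 + p2) * w) ≤ δ * ((q0 + q2) * w + (p0 + p2) * w))
    (M1 : ((q0 + q1) * x) * ((p0 + p1) * x) ≤ δ * ((q0 + q1) * x + (p0 + p1) * x))
    (Mg : ((q2 + q3) * G) * ((p2 + p3) * G) ≤ δ * ((q2 + q3) * G + (p2 + p3) * G))
    (Mz : (q3 * Z) * (p3 * Z) ≤ δ * (q3 * Z + p3 * Z)) :
    1 - 13 * δ ≤ q3 * Z ∧ G + w ≤ 50 * δ * Z := by
  have hp2 : 0 ≤ p2 := by linarith
  have hp3 : 0 ≤ p3 := by linarith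
  have hq2 : 0 ≤ q2 := by linarith
  have hq3 : 0 ≤ q3 := by linarith
  have hηp : 0 < p0 + p1 := by
    rcases lt_or_ge 0 (p0 + p1) with h | h
    · exact h
    · have e0 : p0 = 0 := by linarith
      have e1 : p1 = 0 := by linarith
      have e2 : p2 = 0 := by linarith
      have e3 : p3 = 0 := by linarith
      rw [e0, e1, e2, e3] at hp
      norm_num at hp
  obtain ⟨s4, s5, s6, s1⟩ := Al8_first hp0 hp2 hpP hq0 hq1 hq2 hq2' hq3' hη hηp hQ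
    hw hx hG hZ hq hδ hδ1 M0 M1 Mg Mz
  have s7 := Al8_eta (Or.inl ⟨rfl, rfl⟩) hp0 hp1 hp2 hp2' hp3' hpP hq0 hq1 hq2 hq3 hq3'
    hqP hη hηp hQ hw hx hG hZ hp hδ hδ1 M0 Mg s5 s6 s1
  refine ⟨s4, ?_⟩
  have h3 : 3 * δ * q3 ≤ 3 * δ * (p0 + p1) :=
    mul_le_mul_of_nonneg_left (by linarith) (by linarith)
  have hp2'' : (1 - 3 * δ) * (p0 + p1) ≤ p2 := by linarith
  have hGw : 0 ≤ G + w := by linarith
  have h4 : p2 * (G + w) ≤ 1 := by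
    have a1 : 0 ≤ p0 * w := mul_nonneg hp0 (by linarith)
    have a2 : 0 ≤ (p0 + p1) * x := mul_nonneg hηp.le (by linarith)
    have a3 : 0 ≤ p3 * G := mul_nonneg hp3 (by linarith)
    have a4 : 0 ≤ p3 * Z := mul_nonneg hp3 (by linarith)
    linarith
  have h5 : ((1 - 3 * δ) * (p0 + p1)) * (G + w) ≤ 1 :=
    (mul_le_mul_of_nonneg_right hp2'' hGw).trans h4
  have h6 : 1 - 13 * δ ≤ (36 * δ * (p0 + p1)) * Z :=
    s4.trans (mul_le_mul_of_nonneg_right (hq3'.trans s7) (by linarith))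
  have h7 : (1 - 13 * δ) * ((1 - 3 * δ) * (G + w)) ≤
      ((36 * δ * (p0 + p1)) * Z) * ((1 - 3 * δ) * (G + w)) :=
    mul_le_mul_of_nonneg_right h6 (mul_nonneg (by linarith) hGw)
  have h8 : ((36 * δ * (p0 + p1)) * Z) * ((1 - 3 * δ) * (G + w)) ≤ (36 * δ * Z) * 1 := by
    calc ((36 * δ * (p0 + p1)) * Z) * ((1 - 3 * δ) * (G + w))
        = (36 * δ * Z) * (((1 - 3 * δ) * (p0 + p1)) * (G + w)) := by ring
      _ ≤ (36 * δ * Z) * 1 := mul_le_mul_of_nonneg_left h5 (by positivity)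
  have h9 : 18 / 25 * (G + w) ≤ (1 - 13 * δ) * ((1 - 3 * δ) * (G + w)) := by
    have : 18 / 25 ≤ (1 - 13 * δ) * (1 - 3 * δ) := by
      have hdd : 0 ≤ δ * δ := mul_nonneg hδ.le hδ.le
      linarith
    calc 18 / 25 * (G + w) ≤ ((1 - 13 * δ) * (1 - 3 * δ)) * (G + w) :=
          mul_le_mul_of_nonneg_right this hGw
      _ = (1 - 13 * δ) * ((1 - 3 * δ) * (G + w)) := by ring
  linarith

private lemma Al8_K {p0 p1 p2 p3 q0 q1 q2 q3 w x G Z δ : ℝ}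
    (hp0 : 0 ≤ p0) (hp1 : 0 ≤ p1)
    (hp2' : p2 ≤ p0 + p1) (hp3' : p3 ≤ p0 + p1)
    (hpP : p0 + p1 ≤ p2 + p3) (hq0 : 0 ≤ q0) (hq1 : 0 ≤ q1)
    (hq2' : q2 ≤ q0 + q1) (hq3' : q3 ≤ q0 + q1)
    (hqP : q0 + q1 ≤ q2 + q3)
    (hη : q0 + q1 ≤ p0 + p1)
    (hQ : p0 * q1 - p1 * q0 + (p2 * q3 - p3 * q2) = 0)
    (hw : 1 ≤ w) (hx : 1 ≤ x) (hG : 1 ≤ G) (hZ : 1 ≤ Z)
    (hp : (p0 + p2) * w + (p0 + p1) * x + (p2 + p3) * G + p2 * Z = 1)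
    (hq : (q0 + q2) * w + (q0 + q1) * x + (q2 + q3) * G + q2 * Z = 1)
    (hδ : 0 < δ) (hδ1 : δ ≤ 1 / 1000)
    (M0 : ((q0 + q2) * w) * ((p0 + p2) * w) ≤ δ * ((q0 + q2) * w + (p0 + p2) * w))
    (M1 : ((q0 + q1) * x) * ((p0 + p1) * x) ≤ δ * ((q0 + q1) * x + (p0 + p1) * x))
    (Mg : ((q2 + q3) * G) * ((p2 + p3) * G) ≤ δ * ((q2 + q3) * G + (p2 + p3) * G))
    (Mz : (q2 * Z) * (p2 * Z) ≤ δ * (q2 * Z + p2 * Z)) :
    1 - 13 * δ ≤ q2 * Z ∧ G ≤ 50 * δ * Z := by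
  have hp2 : 0 ≤ p2 := by linarith
  have hp3 : 0 ≤ p3 := by linarith
  have hq2 : 0 ≤ q2 := by linarith
  have hq3 : 0 ≤ q3 := by linarith
  have hηp : 0 < p0 + p1 := by
    rcases lt_or_ge 0 (p0 + p1) with h | h
    · exact h
    · have e0 : p0 = 0 := by linarith
      have e1 : p1 = 0 := by linarith
      have e2 : p2 = 0 := by linarith
      have e3 : p3 = 0 := by linarith
      rw [e0, e1, e2, e3] at hp
      norm_num at hp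
  obtain ⟨s4, s5, s6, s1⟩ := Al8_first hp0 hp2 hpP hq0 hq1 hq2 hq2' hq3' hη hηp hQ
    hw hx hG hZ hq hδ hδ1 M0 M1 Mg Mz
  have s7 := Al8_eta (Or.inr ⟨rfl, rfl⟩) hp0 hp1 hp2 hp2' hp3' hpP hq0 hq1 hq2 hq3 hq3'
    hqP hη hηp hQ hw hx hG hZ hp hδ hδ1 M0 Mg s5 s6 s1
  refine ⟨s4, ?_⟩
  have hG0 : 0 ≤ G := by linarith
  have h4 : (p0 + p1) * G ≤ 1 := by
    have a0 : (p0 + p1) * G ≤ (p2 + p3) * G := mul_le_mul_of_nonneg_right hpP hG0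
    have a1 : 0 ≤ (p0 + p2) * w := mul_nonneg (by linarith) (by linarith)
    have a2 : 0 ≤ (p0 + p1) * x := mul_nonneg hηp.le (by linarith)
    have a4 : 0 ≤ p2 * Z := mul_nonneg hp2 (by linarith)
    linarith
  have h6 : 1 - 13 * δ ≤ (36 * δ * (p0 + p1)) * Z :=
    s4.trans (mul_le_mul_of_nonneg_right (hq2'.trans s7) (by linarith))
  have h7 : (1 - 13 * δ) * G ≤ ((36 * δ * (p0 + p1)) * Z) * G :=
    mul_le_mul_of_nonneg_right h6 hG0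
  have h8 : ((36 * δ * (p0 + p1)) * Z) * G ≤ (36 * δ * Z) * 1 := by
    calc ((36 * δ * (p0 + p1)) * Z) * G = (36 * δ * Z) * ((p0 + p1) * G) := by ring
      _ ≤ (36 * δ * Z) * 1 := mul_le_mul_of_nonneg_left h4 (by positivity)
  have h9 : 18 / 25 * G ≤ (1 - 13 * δ) * G :=
    mul_le_mul_of_nonneg_right (by linarith) hG0
  linarith

theorem key (l : Lab) (u v h : Fin 4 → ℝ) (hu : Sc u) (hv : Sc v) (hQ : Q u v = 0)
    (h1 : pr u h = 1) (h2 : pr v h = 1) (hA : AtGe 1 l h) {δ : ℝ} (hδ : 0 < δ)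
    (hδ1 : δ ≤ 1 / 1000) (hMD : MD δ l u v h) :
    (1 - 13 * δ ≤ zL l u * xN l h ∨ 1 - 13 * δ ≤ zL l v * xN l h) ∧
      zH l h ≤ 50 * δ * xN l h := by
  rw [← pr_at l u h] at h1
  rw [← pr_at l v h] at h2
  have A0 := hA 0
  have A1 := hA 1
  have A2 := hA 2
  have A3 := hA 3
  have M0 := hMD 0
  have M1 := hMD 1
  have M2 := hMD 2
  have M3 := hMD 3
  obtain ⟨u0, u1, u2, u3, u4⟩ := hu
  obtain ⟨v0, v1, v2, v3, v4⟩ := hv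
  by_cases hl : l = .K
  · subst hl
    simp only [atU, atH, pr, zL, xN, zH, Q, if_true, Matrix.cons_val] at *
    rcases le_total (u 0 + u 1) (v 0 + v 1) with hh | hh
    · have hm := Al8_K (p0 := v 0) (p1 := v 1) (p2 := v 2) (p3 := v 3) (q0 := u 0) (q1 := u 1)
        (q2 := u 2) (q3 := u 3) (w := h 0 - h 1) (x := h 1) (G := h 3)
        (Z := h 2 - (h 0 - h 1) - h 3) (δ := δ) v0 v1 v2 v3 v4 u0 u1 u2 u3 u4 hh
        (by linarith) A0 A1 A3 A2 (by linarith) (by linarith) hδ hδ1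
        (by linarith) (by linarith) (by linarith) (by linarith)
      exact ⟨Or.inl hm.1, hm.2⟩
    · have hm := Al8_K (p0 := u 0) (p1 := u 1) (p2 := u 2) (p3 := u 3) (q0 := v 0) (q1 := v 1)
        (q2 := v 2) (q3 := v 3) (w := h 0 - h 1) (x := h 1) (G := h 3)
        (Z := h 2 - (h 0 - h 1) - h 3) (δ := δ) u0 u1 u2 u3 u4 v0 v1 v2 v3 v4 hh
        (by linarith) A0 A1 A3 A2 (by linarith) (by linarith) hδ hδ1
        (by linarith) (by linarith) (by linarith) (by linarith)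
      exact ⟨Or.inr hm.1, hm.2⟩
  · simp only [atU, atH, pr, zL, xN, zH, Q, if_neg hl, Matrix.cons_val] at *
    rcases le_total (u 0 + u 1) (v 0 + v 1) with hh | hh
    · have hm := Al8_nonK (p0 := v 0) (p1 := v 1) (p2 := v 2) (p3 := v 3) (q0 := u 0) (q1 := u 1)
        (q2 := u 2) (q3 := u 3) (w := h 0 - h 1) (x := h 1) (G := h 2 - (h 0 - h 1))
        (Z := h 3 - (h 2 - (h 0 - h 1))) (δ := δ) v0 v1 v2 v3 v4 u0 u1 u2 u3 u4 hh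
        (by linarith) A0 A1 A2 A3 (by linarith) (by linarith) hδ hδ1
        (by linarith) (by linarith) (by linarith) (by linarith)
      exact ⟨Or.inl hm.1, by linarith [hm.2]⟩
    · have hm := Al8_nonK (p0 := u 0) (p1 := u 1) (p2 := u 2) (p3 := u 3) (q0 := v 0) (q1 := v 1)
        (q2 := v 2) (q3 := v 3) (w := h 0 - h 1) (x := h 1) (G := h 2 - (h 0 - h 1))
        (Z := h 3 - (h 2 - (h 0 - h 1))) (δ := δ) u0 u1 u2 u3 u4 v0 v1 v2 v3 v4 hh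
        (by linarith) A0 A1 A2 A3 (by linarith) (by linarith) hδ hδ1
        (by linarith) (by linarith) (by linarith) (by linarith)
      exact ⟨Or.inr hm.1, by linarith [hm.2]⟩

end Pool.Agent.IC61
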