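import Pool.Agent.IC61.Al4
import Pool.Agent.IC61.Al5
import Pool.Agent.IC61.Al6
import Pool.Agent.IC61.Al8

set_option autoImplicit false

/-!
# IC61/Al7: every atom is light for one of the two extreme vectors (MP_0d1f6d_an, helper61)

PROOF. Fix `δ > 0`, put `τ = δ / 2`. For `j : Fin 2` the functional `f j = φ j + τ • y0` satisfies
`0 ≤ pr x (f j)` for all `x` with `Cn (p.lab T) (p.U x T)` for some `T` (`compact_ge`,
`pr_add_right`, `pr_smul_right`), so by `atoms_ge` there are `C ≥ 0`, `T'` with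
`-C ≤ atH l (p.H (φ j) t) i + τ * atH l (p.H y0 t) i` for `t ≥ T'` and all `i` (`H_add`, `H_smul`,
`atH_add`, `atH_smul`). Take the maxima of `C` and `T'` over `j`. Write `u_k = p.U (c k) t`,
`U_k i = atU l u_k i ≥ 0` (from `Cn`), `Φ_j i = atH l (p.H (φ j) t) i`,
`Y i = atH l (p.H y0 t) i ≥ 1`.
By `pr_at`, `pr_path`: `∑ i, U_k i * Φ_j i = pr (c k) (φ j) = if k = j then 1 else 0`,
`∑ i, U_k i * Y i = pr (c k) y0 = 1` (since `y0 = φ 0 + φ 1`), `Φ_0 i + Φ_1 i = Y i`.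
For `k ≠ j` and each `i0`: `U_k i0 * Φ_j i0 = - ∑_{i ≠ i0} U_k i * Φ_j i
≤ ∑_{i ≠ i0} U_k i * (τ * Y i + C) ≤ τ + C * ∑ i, U_k i`. At a switch all `U_k i ≤ 2 η_k`
with `η_k = u_k 0 + u_k 1` (`Kinf_sc`, `Sc`), so `∑ i, U_k i ≤ 8 η_k`, and by `eta_small`
`8 C η_k ≤ τ` for late `t`. So `U_k i * Φ_j i ≤ 2 τ = δ` for `k ≠ j`, all `i`.
Finally with `M_k = U_k i * Y i ≥ 0`:
`M_0 * M_1 = U_0 i * U_1 i * Y i * (Φ_0 i + Φ_1 i) = M_0 * (U_1 i * Φ_0 i) + M_1 * (U_0 i * Φ_1 i)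
≤ δ * (M_0 + M_1)`.
-/

namespace Pool.Agent.IC61

/-- A functional which is nonnegative on the limit cone is almost nonnegative on late atoms. -/
private lemma Al7_fun (p : Path) (hsw : ∀ T, ∃ t, T ≤ t ∧ (p.mv t).sw) (ψ : Fin 4 → ℝ)
    (hψ : ∀ x ∈ p.Kinf, 0 ≤ pr x ψ) {τ : ℝ} (hτ : 0 < τ) :
    ∃ C : ℝ, 0 ≤ C ∧ ∃ T', ∀ t, T' ≤ t → ∀ i,
      -C ≤ atH (p.lab t) (p.H ψ t) i + τ * atH (p.lab t) (p.H y0 t) i := by
  obtain ⟨T, hT⟩ := compact_ge p ψ hψ hτ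
  obtain ⟨C, hC, T', h⟩ := atoms_ge p hsw (ψ + τ • y0) T (by
    intro x hx
    rw [pr_add_right, pr_smul_right]
    exact hT x hx)
  refine ⟨C, hC, T', fun t ht i => ?_⟩
  have h1 := h t ht i
  rw [H_add, H_smul, atH_add, atH_smul] at h1
  simpa [Pi.add_apply, Pi.smul_apply, smul_eq_mul] using h1

/-- The coordinates dual to the atoms, at a switch. -/
private lemma Al7_U (l : Lab) (u : Fin 4 → ℝ) (hc : Cn l u) (hs : Sc u) :
    (∀ i, 0 ≤ atU l u i) ∧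
      atU l u 0 + atU l u 1 + atU l u 2 + atU l u 3 ≤ 8 * (u 0 + u 1) := by
  obtain ⟨s0, s1, s2, s3, s4⟩ := hs
  obtain ⟨c0, c1, c2, c3, -⟩ := hc
  constructor
  · intro i
    cases l <;> fin_cases i <;> simp [atU] <;> linarith
  · cases l <;> simp [atU] <;> linarith

/-- The main inequality. -/
private lemma Al7_core (U Φ Y : Fin 4 → ℝ) {C τ : ℝ} (hτ : 0 < τ) (hC : 0 ≤ C)
    (h0 : pr U Φ = 0) (h1 : pr U Y = 1)
    (hU : ∀ i, 0 ≤ U i) (hY : ∀ i, 1 ≤ Y i) (hF : ∀ i, -C ≤ Φ i + τ * Y i)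
    (hs : C * (U 0 + U 1 + U 2 + U 3) ≤ τ) (i : Fin 4) : U i * Φ i ≤ 2 * τ := by
  have g : ∀ i, 0 ≤ U i * (Φ i + τ * Y i + C) := fun i =>
    mul_nonneg (hU i) (by linarith [hF i])
  have k : ∀ i, 0 ≤ τ * (U i * Y i) := fun i =>
    mul_nonneg hτ.le (mul_nonneg (hU i) (by linarith [hY i]))
  have m : ∀ i, 0 ≤ C * U i := fun i => mul_nonneg hC (hU i)
  have h1' : τ * pr U Y = τ := by rw [h1, mul_one]
  unfold pr at h0 h1'
  have g0 := g 0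
  have g1 := g 1
  have g2 := g 2
  have g3 := g 3
  have k0 := k 0
  have k1 := k 1
  have k2 := k 2
  have k3 := k 3
  have m0 := m 0
  have m1 := m 1
  have m2 := m 2
  have m3 := m 3
  fin_cases i
  · change U 0 * Φ 0 ≤ 2 * τ
    nlinarith
  · change U 1 * Φ 1 ≤ 2 * τ
    nlinarith
  · change U 2 * Φ 2 ≤ 2 * τ
    nlinarith
  · change U 3 * Φ 3 ≤ 2 * τ
    nlinarith

theorem MD_late (p : Path) (hsw : ∀ T, ∃ t, T ≤ t ∧ (p.mv t).sw)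
    (a : Fin 4 → ℝ) (hpos : ∀ t i, 0 < p.U a t i)
    (c φ : Fin 2 → Fin 4 → ℝ) (hc : ∀ i, c i ∈ p.Kinf)
    (hcφ : ∀ i j, pr (c i) (φ j) = if i = j then 1 else 0) (hφ : φ 0 + φ 1 = y0)
    (hφ0 : ∀ x ∈ p.Kinf, ∀ i, 0 ≤ pr x (φ i)) {δ : ℝ} (hδ : 0 < δ) :
    ∃ T, ∀ t, T ≤ t → (p.mv t).sw →
      MD δ (p.lab t) (p.U (c 0) t) (p.U (c 1) t) (p.H y0 t) := by
  have hτ : 0 < δ / 2 := by positivity
  obtain ⟨C0, hC0, T0, h0⟩ := Al7_fun p hsw (φ 0) (fun x hx => hφ0 x hx 0) hτ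
  obtain ⟨C1, hC1, T1, h1⟩ := Al7_fun p hsw (φ 1) (fun x hx => hφ0 x hx 1) hτ
  have hε0 : 0 < δ / 2 / (8 * (C1 + 1)) := by positivity
  have hε1 : 0 < δ / 2 / (8 * (C0 + 1)) := by positivity
  obtain ⟨T2, h2⟩ := eta_small p hsw a hpos (c 0) (hc 0) hε0
  obtain ⟨T3, h3⟩ := eta_small p hsw a hpos (c 1) (hc 1) hε1
  refine ⟨max (max T0 T1) (max T2 T3), fun t ht hts => ?_⟩
  have ht0 : T0 ≤ t := (le_max_left _ _).trans ((le_max_left _ _).trans ht)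
  have ht1 : T1 ≤ t := (le_max_right _ _).trans ((le_max_left _ _).trans ht)
  have ht2 : T2 ≤ t := (le_max_left _ _).trans ((le_max_right _ _).trans ht)
  have ht3 : T3 ≤ t := (le_max_right _ _).trans ((le_max_right _ _).trans ht)
  have hU0 := Al7_U (p.lab t) (p.U (c 0) t) (hc 0 t) (Kinf_sc p (hc 0) hts)
  have hU1 := Al7_U (p.lab t) (p.U (c 1) t) (hc 1 t) (Kinf_sc p (hc 1) hts)
  have hY : ∀ i, 1 ≤ atH (p.lab t) (p.H y0 t) i := AtGe_y0 p t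
  have hprY : ∀ k, pr (atU (p.lab t) (p.U (c k) t)) (atH (p.lab t) (p.H y0 t)) = 1 := by
    intro k
    rw [pr_at, pr_path, ← hφ, pr_add_right, hcφ, hcφ]
    fin_cases k <;> simp
  have hprΦ : ∀ k j, pr (atU (p.lab t) (p.U (c k) t)) (atH (p.lab t) (p.H (φ j) t))
      = if k = j then 1 else 0 := by
    intro k j
    rw [pr_at, pr_path, hcφ]
  have hsum : ∀ i, atH (p.lab t) (p.H (φ 0) t) i + atH (p.lab t) (p.H (φ 1) t) i
      = atH (p.lab t) (p.H y0 t) i := by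
    intro i
    rw [← hφ, H_add, atH_add]
    rfl
  have e2 := h2 t ht2
  have e3 := h3 t ht3
  rw [lt_div_iff₀ (by positivity)] at e2 e3
  have s0 : C1 * (atU (p.lab t) (p.U (c 0) t) 0 + atU (p.lab t) (p.U (c 0) t) 1
      + atU (p.lab t) (p.U (c 0) t) 2 + atU (p.lab t) (p.U (c 0) t) 3) ≤ δ / 2 := by
    have hη : 0 ≤ p.U (c 0) t 0 + p.U (c 0) t 1 := add_nonneg (hc 0 t).1 (hc 0 t).2.1
    have := mul_le_mul_of_nonneg_left hU0.2 hC1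
    nlinarith
  have s1 : C0 * (atU (p.lab t) (p.U (c 1) t) 0 + atU (p.lab t) (p.U (c 1) t) 1
      + atU (p.lab t) (p.U (c 1) t) 2 + atU (p.lab t) (p.U (c 1) t) 3) ≤ δ / 2 := by
    have hη : 0 ≤ p.U (c 1) t 0 + p.U (c 1) t 1 := add_nonneg (hc 1 t).1 (hc 1 t).2.1
    have := mul_le_mul_of_nonneg_left hU1.2 hC0
    nlinarith
  intro i
  have k0 := Al7_core _ _ _ hτ hC1 (by simpa using hprΦ 0 1) (hprY 0) hU0.1 hY (h1 t ht1) s0 i
  have k1 := Al7_core _ _ _ hτ hC0 (by simpa using hprΦ 1 0) (hprY 1) hU1.1 hY (h0 t ht0) s1 i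
  have a0 := hU0.1 i
  have a1 := hU1.1 i
  have aY := hY i
  have as := hsum i
  generalize atU (p.lab t) (p.U (c 0) t) i = U0 at *
  generalize atU (p.lab t) (p.U (c 1) t) i = U1 at *
  generalize atH (p.lab t) (p.H (φ 0) t) i = F0 at *
  generalize atH (p.lab t) (p.H (φ 1) t) i = F1 at *
  generalize atH (p.lab t) (p.H y0 t) i = Y at *
  have hM0 : 0 ≤ U0 * Y := mul_nonneg a0 (by linarith)
  have hM1 : 0 ≤ U1 * Y := mul_nonneg a1 (by linarith)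
  have e : U0 * Y * (U1 * Y) = U0 * Y * (U1 * F0) + U1 * Y * (U0 * F1) := by
    calc U0 * Y * (U1 * Y) = U0 * Y * U1 * (F0 + F1) := by rw [as]; ring
      _ = _ := by ring
  rw [e]
  have q0 := mul_le_mul_of_nonneg_left k1 hM0
  have q1 := mul_le_mul_of_nonneg_left k0 hM1
  linarith

end Pool.Agent.IC61
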