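import Pool.Agent.IC61.Al7

set_option autoImplicit false

/-!
# IC61/Al9: late switches (MP_0d1f6d_an, helper61)

PROOF. `δ := min (ε / 100) (1 / 1000)`. Take `c, φ` from `segment`, `T0` from `MD_late`. Let `t0 ≥ T0`
be a switch, `T := t0 + 1`. Let `t ≥ T` be a switch, and `s` the last switch before `t`
(`Nat.findGreatest` or strong induction: the largest `s < t` with `(p.mv s).sw`; `s ≥ t0 ≥ T0`). Apply
`key` at `s` to `u = p.U (c 0) s`, `v = p.U (c 1) s`, `h = p.H y0 s`: `Sc` from `Kinf_sc`, `Q = 0` from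
`Q_zero` and `Q_path`, `pr u h = pr (c 0) y0 = 1` (`pr_path`, `y0 = φ 0 + φ 1`, `pr_add_right`), `AtGe_y0`.
So for `q = 0` or `1`: `1 - 13 δ ≤ zL * xN` and `zH ≤ 50 δ xN` at time `s`.
By `H_sw` and `between`: at time `t`: `w := p.H y0 t 0 - p.H y0 t 1 = zH (at s)`,
`X := p.H y0 t 1 = xN (at s)`. Also `η := p.U (c q) t 0 + p.U (c q) t 1 = zL (p.lab s) (p.U (c q) s)`: the
sum of the first two lengths is unchanged by `e1`, `e2`, and equals `zL` after a switch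
(`cases` on the label and the move in `stL`). So `1 - 13 δ ≤ η X`, `w ≤ 50 δ X`.
At time `t`: the four masses `atU * atH` of `c q` are `≥ 0` and have sum `1` (`pr_at`), the one with
index 1 is `η X`, so the mass of the atom with coordinate `P` is `≤ 13 δ`: with `P ≥ η`
(`Kinf_sc`): `η * gh ≤ 13 δ` (label `≠ K`) or `η * g1 ≤ 13 δ` (label `K`). Multiply by `X`:
`(1 - 13 δ) gh ≤ η X gh ≤ 13 δ X`, so `gh ≤ 14 δ X`, and `zH = w + gh ≤ 64 δ X ≤ ε X`, resp.
`zH = g1 ≤ 14 δ X`.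
-/

namespace Pool.Agent.IC61

private lemma al9_eta (p : Path) (x : Fin 4 → ℝ) {s t : ℕ} (hs : (p.mv s).sw) (hst : s < t)
    (hno : ∀ r, s < r → r < t → ¬ (p.mv r).sw) :
    p.U x t 0 + p.U x t 1 = zL (p.lab s) (p.U x s) := by
  induction t, hst using Nat.le_induction with
  | base =>
    change (stL (p.lab s) (p.mv s) (p.U x s)) 0 + (stL (p.lab s) (p.mv s) (p.U x s)) 1 = _
    generalize p.mv s = m at *
    generalize p.lab s = l at *
    generalize p.U x s = u at *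
    cases m <;> cases l <;> simp [Mv.sw] at hs <;> simp [stL, zL] <;> ring
  | succ n hn ih =>
    have h1 := ih (fun r h1 h2 => hno r h1 (h2.trans (Nat.lt_succ_self n)))
    have h2 := hno n hn (Nat.lt_succ_self n)
    rw [← h1]
    change (stL (p.lab n) (p.mv n) (p.U x n)) 0 + (stL (p.lab n) (p.mv n) (p.U x n)) 1 = _
    generalize p.mv n = m at *
    cases m <;> simp [Mv.sw] at h2 <;> simp [stL]

private lemma al9_real {δ ε X w g η P m0 m1 : ℝ} (hδ : 0 < δ) (hδ1 : δ ≤ 1 / 1000)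
    (hδε : δ ≤ ε / 100) (hX : 0 < X) (hw : w ≤ 50 * δ * X) (hg : 0 ≤ g) (hηP : η ≤ P)
    (hηX : 1 - 13 * δ ≤ η * X) (hm0 : 0 ≤ m0) (hm1 : 0 ≤ m1) (hm2 : m0 + η * X + P * g + m1 = 1) :
    w + g ≤ ε * X ∧ g ≤ ε * X ∧ w ≤ ε * X := by
  have h1 : P * g ≤ 13 * δ := by linarith
  have h2 : η * g ≤ 13 * δ := le_trans (mul_le_mul_of_nonneg_right hηP hg) h1
  have h3 : (1 - 13 * δ) * g ≤ 13 * δ * X := by
    calc (1 - 13 * δ) * g ≤ (η * X) * g := mul_le_mul_of_nonneg_right hηX hg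
      _ = (η * g) * X := by ring
      _ ≤ 13 * δ * X := mul_le_mul_of_nonneg_right h2 hX.le
  have hδX : 0 < δ * X := mul_pos hδ hX
  have h4 : g ≤ 14 * (δ * X) := by
    by_contra hcon
    push Not at hcon
    have h5 : (1 - 13 * δ) * (14 * (δ * X)) < (1 - 13 * δ) * g :=
      mul_lt_mul_of_pos_left hcon (by linarith)
    have h6 : (1 - 13 * δ) * (14 * (δ * X)) = 14 * (δ * X) - 182 * δ * (δ * X) := by ring
    have h7 : δ * (δ * X) ≤ 1 / 1000 * (δ * X) := mul_le_mul_of_nonneg_right hδ1 hδX.le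
    nlinarith
  have h5 : δ * X ≤ ε / 100 * X := mul_le_mul_of_nonneg_right hδε hX.le
  refine ⟨?_, ?_, ?_⟩ <;> nlinarith

theorem late_switch (p : Path) (hsw : ∀ T, ∃ t, T ≤ t ∧ (p.mv t).sw)
    (a : Fin 4 → ℝ) (ha : a ∈ p.Kinf) (hpos : ∀ t i, 0 < p.U a t i)
    (b : Fin 4 → ℝ) (hb : b ∈ p.Kinf) (hab : ∀ κ : ℝ, b ≠ κ • a) {ε : ℝ} (hε : 0 < ε) :
    ∃ T, ∀ t, T ≤ t → (p.mv t).sw →
      zH (p.lab t) (p.H y0 t) ≤ ε * p.H y0 t 1 ∧
      p.H y0 t 0 - p.H y0 t 1 ≤ ε * p.H y0 t 1 := by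
  classical
  set δ : ℝ := min (ε / 100) (1 / 1000) with hδdef
  have hδ : 0 < δ := lt_min (by positivity) (by norm_num)
  have hδ1 : δ ≤ 1 / 1000 := min_le_right _ _
  have hδε : δ ≤ ε / 100 := min_le_left _ _
  obtain ⟨c, φ, hc, hcφ, hφ, hφ0⟩ := segment p hsw a ha hpos b hb hab
  obtain ⟨T0, hT0⟩ := MD_late p hsw a hpos c φ hc hcφ hφ hφ0 hδ
  obtain ⟨t0, ht0, hst0⟩ := hsw T0
  have hpr : ∀ q t, pr (p.U (c q) t) (p.H y0 t) = 1 := by
    intro q t
    rw [pr_path, ← hφ, pr_add_right, hcφ, hcφ]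
    fin_cases q <;> simp
  refine ⟨t0 + 1, fun t ht hst => ?_⟩
  -- the last switch before `t`
  set s : ℕ := Nat.findGreatest (fun s => (p.mv s).sw) (t - 1) with hs
  have hss : (p.mv s).sw :=
    Nat.findGreatest_spec (P := fun s => (p.mv s).sw) (m := t0) (by omega) hst0
  have hs0 : t0 ≤ s := Nat.le_findGreatest (by omega) hst0
  have hs1 : s ≤ t - 1 := Nat.findGreatest_le _
  have hslt : s < t := by omega
  have hno : ∀ r, s < r → r < t → ¬ (p.mv r).sw := fun r h1 h2 =>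
    Nat.findGreatest_is_greatest h1 (by omega)
  have hQ : Q (p.U (c 0) s) (p.U (c 1) s) = 0 := by
    have h1 := Q_path p (c 0) (c 1) s
    rw [Q_zero p hsw a hpos (hc 0) (hc 1), abs_zero] at h1
    exact abs_eq_zero.1 h1
  obtain ⟨hq, hz⟩ := key (p.lab s) (p.U (c 0) s) (p.U (c 1) s) (p.H y0 s)
    (Kinf_sc p (hc 0) hss) (Kinf_sc p (hc 1) hss) hQ (hpr 0 s) (hpr 1 s) (AtGe_y0 p s) hδ hδ1
    (hT0 s (by omega) hss)
  obtain ⟨e1, e2, -, -⟩ := H_sw p hss
  obtain ⟨b0, b1, -, -⟩ := between p hss hslt hno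
  rw [← b1] at e2
  rw [← b0, ← b1] at e1
  rw [← e2] at hq hz
  rw [← e1] at hz
  have hX : 0 < p.H y0 t 1 := lt_of_lt_of_le one_pos (H_ge_one p t 1)
  obtain ⟨q, hq⟩ : ∃ q : Fin 2, 1 - 13 * δ ≤ zL (p.lab s) (p.U (c q) s) * p.H y0 t 1 := by
    rcases hq with hq | hq
    · exact ⟨0, hq⟩
    · exact ⟨1, hq⟩
  rw [← al9_eta p (c q) hss hslt hno] at hq
  have hSc := Kinf_sc p (hc q) hst
  have hCn := hc q t
  have hat := AtGe_y0 p t
  have hp1 := hpr q t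
  rw [← pr_at (p.lab t)] at hp1
  generalize p.U (c q) t = u at *
  generalize p.H y0 t = h at *
  generalize p.lab t = l at *
  obtain ⟨s0, s1, s2, s3, s4⟩ := hSc
  obtain ⟨c0, c1, c2, c3, -⟩ := hCn
  have a0 := hat 0
  have a1 := hat 1
  have a2 := hat 2
  have a3 := hat 3
  by_cases hl : l = .K
  · subst hl
    simp [pr, atU, atH] at hp1 a0 a1 a2 a3
    have := al9_real (m0 := (u 0 + u 2) * (h 0 - h 1))
      (m1 := u 2 * (h 2 - (h 0 - h 1) - h 3)) (P := u 2 + u 3) (g := h 3) (η := u 0 + u 1)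
      (w := h 0 - h 1) hδ hδ1 hδε hX hz (by linarith) s4 hq
      (mul_nonneg (by linarith) (by linarith)) (mul_nonneg c2 (by linarith)) (by linarith)
    exact ⟨by simpa [zH] using this.2.1, this.2.2⟩
  · simp [pr, atU, atH, hl] at hp1 a0 a1 a2 a3
    have := al9_real (m0 := (u 0 + u 2) * (h 0 - h 1))
      (m1 := u 3 * (h 3 - (h 2 - (h 0 - h 1)))) (P := u 2 + u 3) (g := h 2 - (h 0 - h 1))
      (η := u 0 + u 1)
      (w := h 0 - h 1) hδ hδ1 hδε hX hz (by linarith) s4 hq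
      (mul_nonneg (by linarith) (by linarith)) (mul_nonneg c3 (by linarith)) (by linarith)
    refine ⟨?_, this.2.2⟩
    simp only [zH, hl, if_false]
    linarith [this.1]

end Pool.Agent.IC61
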