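import Mathlib

set_option autoImplicit false

/-!
# IC61/An0: definitions for the analytic part (MP_0d1f6d_an, helper61)
-/

namespace Pool.Agent.IC61

/-- A chain of derivatives `F 0, ..., F k` on `J` whose last member is within a factor two. -/
def Chain (J : Set ℝ) (k : ℕ) (b : ℝ) (F : ℕ → ℝ → ℝ) : Prop :=
  (∀ j < k, ∀ s ∈ J, HasDerivAt (F j) (F (j + 1) s) s) ∧ ContinuousOn (F k) J ∧
    ∀ s ∈ J, b ≤ |F k s| ∧ |F k s| ≤ 2 * b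

/-- Functions having a derivative of order at most `k0` of size at least `β`, within a factor
two. -/
def Tame (J : Set ℝ) (k0 : ℕ) (β : ℝ) (f : ℝ → ℝ) : Prop :=
  ∃ k ≤ k0, ∃ b ≥ β, ∃ F : ℕ → ℝ → ℝ, F 0 = f ∧ Chain J k b F

lemma Chain.mono {J J' : Set ℝ} {k : ℕ} {b : ℝ} {F : ℕ → ℝ → ℝ} (h : Chain J k b F)
    (hJ : J' ⊆ J) : Chain J' k b F :=
  ⟨fun j hj s hs => h.1 j hj s (hJ hs), h.2.1.mono hJ, fun s hs => h.2.2 s (hJ hs)⟩

lemma Tame.mono {J J' : Set ℝ} {k0 : ℕ} {β : ℝ} {f : ℝ → ℝ} (h : Tame J k0 β f)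
    (hJ : J' ⊆ J) : Tame J' k0 β f := by
  obtain ⟨k, hk, b, hb, F, hF, hC⟩ := h
  exact ⟨k, hk, b, hb, F, hF, hC.mono hJ⟩

lemma Chain.cont {J : Set ℝ} {k : ℕ} {b : ℝ} {F : ℕ → ℝ → ℝ} (h : Chain J k b F) {j : ℕ}
    (hj : j ≤ k) : ContinuousOn (F j) J := by
  rcases hj.lt_or_eq with hj | hj
  · exact fun s hs => (h.1 j hj s hs).continuousAt.continuousWithinAt
  · rw [hj]
    exact h.2.1

lemma Tame.cont {J : Set ℝ} {k0 : ℕ} {β : ℝ} {f : ℝ → ℝ} (h : Tame J k0 β f) :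
    ContinuousOn f J := by
  obtain ⟨k, hk, b, hb, F, hF, hC⟩ := h
  rw [← hF]
  exact hC.cont (Nat.zero_le k)

end Pool.Agent.IC61
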