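import Pool.Agent.IC61.An0

set_option autoImplicit false

/-!
# IC61/An1: a function which is small at many separated points is small (MP_0d1f6d_an, helper61)

PROOF. Induction on `k`, for all `F`, `η`, `x`.
`k = 0`: the point `x 0` gives `b ≤ |F 0 (x 0)| ≤ η`, and `|F 0 s| ≤ 2 b ≤ 2 η = (3 * 1 - 1) * 1 * η`.
`k + 1`: there are `2 ^ (k+1)` points. For `i < 2 ^ k` the mean value theorem
(`exists_hasDerivAt_eq_slope` on `[x (2 i), x (2 i + 1)]`, which is contained in `J` because `J` is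
`OrdConnected`) gives `ξ i` in `(x (2 i), x (2 i + 1))` with
`|F 1 (ξ i)| = |F 0 (x (2 i + 1)) - F 0 (x (2 i))| / (x (2 i + 1) - x (2 i)) ≤ 2 η / δ`.
`ξ i + δ ≤ ξ (i+1)` because `ξ i < x (2 i + 1)`, `x (2 i + 1) + δ ≤ x (2 i + 2) < ξ (i+1)`. The induction
hypothesis for the chain `fun j => F (j + 1)` (length `k`, same `b`), `η' = 2 η / δ`, `ξ` gives
`b ≤ (2/δ)^k * (2 η / δ) = (2/δ)^(k+1) * η` and `|F 1 s| ≤ (3 * 2^k - 1) * (L/δ)^k * (2 η / δ)` on `J`.
For `s ∈ J` the mean value inequality between `x 0` and `s` (`|s - x 0| ≤ L`; e.g.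
`Convex.norm_image_sub_le_of_norm_hasDerivWithin_le` on `J`, convex because `OrdConnected`) gives
`|F 0 s| ≤ η + L * (3 * 2^k - 1) * (L/δ)^k * (2 η / δ) = η + (3 * 2^(k+1) - 2) * (L/δ)^(k+1) * η
≤ (3 * 2^(k+1) - 1) * (L/δ)^(k+1) * η`, because `1 ≤ (L/δ)^(k+1)`, `0 ≤ η`.
-/

namespace Pool.Agent.IC61

theorem chain_bound (k : ℕ) {J : Set ℝ} (hJ : J.OrdConnected) {L : ℝ}
    (hL : ∀ x ∈ J, ∀ y ∈ J, |x - y| ≤ L) (F : ℕ → ℝ → ℝ) {b : ℝ} (hC : Chain J k b F)
    {δ η : ℝ} (hδ : 0 < δ) (hδL : δ ≤ L) (hη : 0 ≤ η) (x : ℕ → ℝ)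
    (hx : ∀ i < 2 ^ k, x i ∈ J ∧ |F 0 (x i)| ≤ η)
    (hgap : ∀ i, i + 1 < 2 ^ k → x i + δ ≤ x (i + 1)) :
    b ≤ (2 / δ) ^ k * η ∧ ∀ s ∈ J, |F 0 s| ≤ (3 * 2 ^ k - 1) * (L / δ) ^ k * η := by
  induction k generalizing F η x with
  | zero =>
    have h0 := hx 0 (by norm_num)
    have h1 := hC.2.2 (x 0) h0.1
    refine ⟨by rw [pow_zero, one_mul]; exact h1.1.trans h0.2, fun s hs => ?_⟩
    have h2 := (hC.2.2 s hs).2
    have h3 : b ≤ η := h1.1.trans h0.2
    rw [pow_zero, pow_zero]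
    linarith
  | succ k ih =>
    have hpow : 2 ^ (k + 1) = 2 * 2 ^ k := by rw [pow_succ]; ring
    have hgap2 : ∀ i < 2 ^ k, x (2 * i) + δ ≤ x (2 * i + 1) := fun i hi =>
      hgap (2 * i) (by omega)
    have hex : ∀ i, ∃ ξ, i < 2 ^ k → (ξ ∈ Set.Ioo (x (2 * i)) (x (2 * i + 1)) ∧
        |F 1 ξ| ≤ 2 * η / δ) := by
      intro i
      by_cases hi : i < 2 ^ k
      · have hg := hgap2 i hi
        have hlt : x (2 * i) < x (2 * i + 1) := by linarith
        have ha := hx (2 * i) (by omega)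
        have hb := hx (2 * i + 1) (by omega)
        have hsub : Set.Icc (x (2 * i)) (x (2 * i + 1)) ⊆ J := hJ.out ha.1 hb.1
        obtain ⟨ξ, hξ, hξ'⟩ := exists_hasDerivAt_eq_slope (F 0) (F 1) hlt
          ((hC.cont (Nat.zero_le _)).mono hsub)
          (fun y hy => hC.1 0 (Nat.succ_pos k) y (hsub (Set.Ioo_subset_Icc_self hy)))
        refine ⟨ξ, fun _ => ⟨hξ, ?_⟩⟩
        rw [hξ', abs_div, abs_of_pos (sub_pos.2 hlt)]
        have h1 : |F 0 (x (2 * i + 1)) - F 0 (x (2 * i))| ≤ 2 * η := by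
          refine (abs_sub _ _).trans ?_
          linarith [ha.2, hb.2]
        exact div_le_div₀ (by positivity) h1 hδ (by linarith)
      · exact ⟨0, fun h => absurd h hi⟩
    choose ξ hξ using hex
    have hC' : Chain J k b (fun j => F (j + 1)) :=
      ⟨fun j hj s hs => hC.1 (j + 1) (by omega) s hs, hC.2.1, hC.2.2⟩
    have hξJ : ∀ i < 2 ^ k, ξ i ∈ J := fun i hi =>
      hJ.out (hx (2 * i) (by omega)).1 (hx (2 * i + 1) (by omega)).1
        (Set.Ioo_subset_Icc_self (hξ i hi).1)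
    obtain ⟨h1, h2⟩ := ih (fun j => F (j + 1)) hC' (η := 2 * η / δ) (by positivity) ξ
      (fun i hi => ⟨hξJ i hi, (hξ i hi).2⟩) (fun i hi => by
        have a1 := (hξ i (by omega)).1.2
        have a2 := (hξ (i + 1) hi).1.1
        have a3 := hgap (2 * i + 1) (by omega)
        have e1 : 2 * i + 1 + 1 = 2 * (i + 1) := by ring
        rw [e1] at a3
        linarith)
    have hL0 : 0 < L := hδ.trans_le hδL
    have hx0 := hx 0 (by positivity)
    refine ⟨?_, fun s hs => ?_⟩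
    · refine h1.trans (le_of_eq ?_)
      rw [pow_succ]
      ring
    · set M : ℝ := (3 * 2 ^ k - 1) * (L / δ) ^ k * (2 * η / δ) with hM
      have h2k : (1 : ℝ) ≤ 2 ^ k := one_le_pow₀ (by norm_num)
      have hM0 : 0 ≤ M := by
        have : (0 : ℝ) ≤ 3 * 2 ^ k - 1 := by linarith
        positivity
      have h3 : ‖F 0 s - F 0 (x 0)‖ ≤ M * ‖s - x 0‖ := by
        refine Convex.norm_image_sub_le_of_norm_hasDerivWithin_le (f' := F 1)
          (fun y hy => (hC.1 0 (Nat.succ_pos k) y hy).hasDerivWithinAt) (fun y hy => ?_)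
          hJ.convex hx0.1 hs
        rw [Real.norm_eq_abs]
        exact h2 y hy
      rw [Real.norm_eq_abs, Real.norm_eq_abs] at h3
      have h4 : |F 0 s| ≤ η + M * L := by
        have h5 : |F 0 s| ≤ |F 0 s - F 0 (x 0)| + |F 0 (x 0)| := by
          have := abs_add_le (F 0 s - F 0 (x 0)) (F 0 (x 0))
          rwa [sub_add_cancel] at this
        have h6 : M * |s - x 0| ≤ M * L := mul_le_mul_of_nonneg_left (hL s hs _ hx0.1) hM0
        linarith [hx0.2]
      refine h4.trans ?_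
      have h7 : M * L = (3 * 2 ^ (k + 1) - 2) * (L / δ) ^ (k + 1) * η := by
        rw [hM, pow_succ, pow_succ]
        ring
      have h8 : 1 ≤ (L / δ) ^ (k + 1) := one_le_pow₀ ((one_le_div hδ).2 hδL)
      have h9 : η ≤ (L / δ) ^ (k + 1) * η := le_mul_of_one_le_left hη h8
      rw [h7]
      linarith

end Pool.Agent.IC61
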