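import Mathlib

set_option autoImplicit false

/-!
# IC61/An2: separated points in a set of positive measure (MP_0d1f6d_an, helper61)

PROOF. Induction on `N`, for all `E`. `N = 0`: trivial. `N + 1`: `E` is not empty, as its measure is
`> 0`; `E` is bounded below, so there is `x0 ∈ E` with `x0 < sInf E + δ` (`exists_lt_of_csInf_lt`). Let
`E' = E ∩ Set.Ici (x0 + δ)`. `E ⊆ Set.Icc (sInf E) (x0 + δ) ∪ E'`, so
`volume E ≤ ofReal (x0 + δ - sInf E) + volume E' ≤ ofReal (2 δ) + volume E'` (`measure_union_le`; no
measurability is needed), so `ofReal (2 * N * δ) < volume E'` (`ENNReal.ofReal_add`,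
`ENNReal.add_lt_add_iff_left` ...; careful with `⊤`: if `volume E' = ⊤` it is trivial). Apply the induction
hypothesis to `E'` and prepend `x0`:
`x n = if n = 0 then x0 else x' (n - 1)`; if `N ≥ 1`, `x' 0 ∈ E'` so `x0 + δ ≤ x' 0`.
-/

namespace Pool.Agent.IC61

open MeasureTheory

theorem exists_points (N : ℕ) (E : Set ℝ) (hE : BddBelow E) {δ : ℝ} (hδ : 0 < δ)
    (hvol : ENNReal.ofReal (2 * N * δ) < volume E) :
    ∃ x : ℕ → ℝ, (∀ i < N, x i ∈ E) ∧ ∀ i, i + 1 < N → x i + δ ≤ x (i + 1) := by
  induction N generalizing E with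
  | zero => exact ⟨fun _ => 0, fun i hi => absurd hi (Nat.not_lt_zero _),
      fun i hi => absurd hi (Nat.not_lt_zero _)⟩
  | succ N ih =>
    have hne : E.Nonempty := by
      by_contra h
      rw [Set.not_nonempty_iff_eq_empty] at h
      rw [h, measure_empty] at hvol
      exact absurd hvol not_lt_zero
    obtain ⟨x0, hx0, hx0'⟩ := exists_lt_of_csInf_lt hne
      (show sInf E < sInf E + δ by linarith)
    set E' : Set ℝ := E ∩ Set.Ici (x0 + δ) with hE'
    have hsub : E ⊆ Set.Icc (sInf E) (x0 + δ) ∪ E' := by
      intro y hy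
      by_cases h : x0 + δ ≤ y
      · exact Or.inr ⟨hy, h⟩
      · exact Or.inl ⟨csInf_le hE hy, (not_le.1 h).le⟩
    have h1 : volume E ≤ ENNReal.ofReal (2 * δ) + volume E' := by
      refine (measure_mono hsub).trans ((measure_union_le _ _).trans ?_)
      gcongr
      rw [Real.volume_Icc]
      exact ENNReal.ofReal_le_ofReal (by linarith)
    have h2 : ENNReal.ofReal (2 * N * δ) < volume E' := by
      have h3 : ENNReal.ofReal (2 * (N + 1 : ℕ) * δ) =
          ENNReal.ofReal (2 * δ) + ENNReal.ofReal (2 * N * δ) := by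
        rw [← ENNReal.ofReal_add (by positivity) (by positivity)]
        congr 1
        push_cast
        ring
      rw [h3] at hvol
      exact (ENNReal.add_lt_add_iff_left ENNReal.ofReal_ne_top).1 (hvol.trans_le h1)
    obtain ⟨x', hx1, hx2⟩ := ih E' (hE.mono Set.inter_subset_left) h2
    refine ⟨fun n => if n = 0 then x0 else x' (n - 1), fun i hi => ?_, fun i hi => ?_⟩
    · by_cases h : i = 0
      · simp only [h, if_true]
        exact hx0
      · simp only [h, if_false]
        exact (hx1 (i - 1) (by omega)).1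
    · have h4 : i + 1 ≠ 0 := Nat.succ_ne_zero i
      by_cases h : i = 0
      · subst h
        simp only [if_true, if_false, h4]
        exact (hx1 0 (by omega)).2
      · simp only [h, h4, if_false]
        have h5 := hx2 (i - 1) (by omega)
        have e1 : i - 1 + 1 = i := by omega
        have e2 : i + 1 - 1 = i := by omega
        rw [e1] at h5
        rw [e2]
        exact h5

end Pool.Agent.IC61
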