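import Pool.Agent.IC61.An1
import Pool.Agent.IC61.An2

set_option autoImplicit false

/-!
# IC61/An3: sublevel sets of tame functions; size of intervals (MP_0d1f6d_an, helper61)

PROOF of `good`, with `C = 12 * 4 ^ k0` (any `C` depending only on `k0` is fine).
Write `V = volume P`; if `κ ≥ 1` the bound follows from `V ≤ ofReal (C κ^..) * V` (`C ≥ 1`, `κ^.. ≥ 1`,
`one_le_mul`...). Let `κ < 1`. `P` is bounded: for `x, y ∈ P` we have `[x, y] ⊆ P`, so `|x - y| ≤ L :=
V.toReal`. Let `E = {s ∈ P | |f s| ≤ η}`, `η = κ * |f s1|`, `e = (volume E).toReal` (finite, `e ≤ L`). If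
`e = 0` the left side is `0`. Let `e > 0`, `Tame` gives `k ≤ k0, b ≥ β > 0, F`. Put `δ = e / (4 * 2 ^ k)`;
`volume E > ofReal (2 * 2^k * δ) = ofReal (e / 2)`, so `exists_points` (with `N = 2 ^ k`; push_cast) gives
points of `E` with gaps `≥ δ`; `δ ≤ e ≤ L`. `chain_bound` on `P` (`Chain.mono`) gives `b ≤ (2/δ)^k * η` and
`|f s1| ≤ (3 * 2^k - 1) * (L/δ)^k * κ * |f s1|`. The first one excludes `f s1 = 0` (then `η = 0`, `b ≤ 0`). So
`1 ≤ 3 * 2^k * (L/δ)^k * κ`, i.e. with `a = δ / L ∈ (0, 1]`: `a ^ k ≤ 3 * 2^k * κ ≤ 3 * 2^k0 * κ`, so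
`a ^ (k0 + 1) ≤ a ^ k ≤ 3 * 2^k0 * κ` and
`a ≤ (3 * 2^k0 * κ) ^ (1/(k0+1)) ≤ (3 * 2^k0) * κ ^ (1/(k0+1))` (`Real.rpow`; `t ^ (1/(k0+1)) ≤ t` for `t ≥ 1`).
`e = 4 * 2^k * δ = 4 * 2^k * a * L ≤ 4 * 2^k0 * 3 * 2^k0 * κ ^ (1/(k0+1)) * L`.
PROOF of `size`, with `C = (8 * 2 ^ k0) ^ k0`. `L = (volume P).toReal ≤ 1`. If `L = 0` the left side is
`0 ≤ C η`. Let `L > 0`; `δ = L / (4 * 2^k)`; as before with `E = P` (`exists_points`: `volume P = ofReal L >
ofReal (L/2)`; `P` is bounded below). `chain_bound` gives `b ≤ (2/δ)^k * η = (8 * 2^k / L)^k * η`, so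
`β * L^k ≤ (8 * 2^k)^k * η ≤ (8 * 2^k0)^k0 * η`, and `L^(k0+1) ≤ L^k` as `L ≤ 1`.
-/

namespace Pool.Agent.IC61

open MeasureTheory

/-- Two points of an interval of finite measure are at distance at most the measure. -/
lemma dist_le_volume {P : Set ℝ} (hP : P.OrdConnected) (hfin : volume P ≠ ⊤) {x y : ℝ}
    (hx : x ∈ P) (hy : y ∈ P) : |x - y| ≤ (volume P).toReal := by
  wlog h : x ≤ y generalizing x y with H
  · rw [abs_sub_comm]
    exact H hy hx (le_of_not_ge h)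
  have h1 : Set.Icc x y ⊆ P := hP.out hx hy
  have h2 : volume (Set.Icc x y) ≤ volume P := measure_mono h1
  rw [Real.volume_Icc] at h2
  have h3 : y - x ≤ (volume P).toReal := by
    have := ENNReal.toReal_mono hfin h2
    rwa [ENNReal.toReal_ofReal (by linarith)] at this
  rw [abs_le]
  constructor <;> linarith

lemma core {P E : Set ℝ} (hP : P.OrdConnected) (hfin : volume P ≠ ⊤) (hEP : E ⊆ P)
    {k : ℕ} {b : ℝ} {F : ℕ → ℝ → ℝ} (hC : Chain P k b F) {η : ℝ}
    (he : 0 < (volume E).toReal) (hη : 0 ≤ η) (hsmall : ∀ s ∈ E, |F 0 s| ≤ η) :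
    b ≤ (2 / ((volume E).toReal / (4 * 2 ^ k))) ^ k * η ∧ ∀ s ∈ P, |F 0 s| ≤
      (3 * 2 ^ k - 1) * ((volume P).toReal / ((volume E).toReal / (4 * 2 ^ k))) ^ k * η := by
  have hle : volume E ≤ volume P := measure_mono hEP
  have hfinE : volume E ≠ ⊤ := ne_top_of_le_ne_top hfin hle
  have hle' : (volume E).toReal ≤ (volume P).toReal := ENNReal.toReal_mono hfin hle
  set e := (volume E).toReal with he_def
  have heE : volume E = ENNReal.ofReal e := (ENNReal.ofReal_toReal hfinE).symm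
  have h2k : (1 : ℝ) ≤ 2 ^ k := one_le_pow₀ (by norm_num)
  have hden : (0 : ℝ) < 4 * 2 ^ k := by positivity
  have hδ : 0 < e / (4 * 2 ^ k) := div_pos he hden
  have hδe : e / (4 * 2 ^ k) ≤ e := div_le_self he.le (by linarith)
  have hne : E.Nonempty := by
    rw [Set.nonempty_iff_ne_empty]
    rintro rfl
    simp [he_def] at he
  obtain ⟨x0, hx0⟩ := hne
  have hbdd : BddBelow E := by
    refine ⟨x0 - (volume P).toReal, fun y hy => ?_⟩
    have := dist_le_volume hP hfin (hEP hx0) (hEP hy)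
    rw [abs_le] at this
    linarith [this.2]
  have hvol : ENNReal.ofReal (2 * ((2 ^ k : ℕ) : ℝ) * (e / (4 * 2 ^ k))) < volume E := by
    rw [heE]
    apply (ENNReal.ofReal_lt_ofReal_iff he).2
    have h : 2 * ((2 ^ k : ℕ) : ℝ) * (e / (4 * 2 ^ k)) = e / 2 := by
      push_cast
      field_simp
      norm_num
    rw [h]
    linarith
  obtain ⟨x, hxE, hgap⟩ := exists_points (2 ^ k) E hbdd hδ hvol
  exact chain_bound k hP (fun x hx y hy => dist_le_volume hP hfin hx hy) F hC hδ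
    (hδe.trans hle') hη x (fun i hi => ⟨hEP (hxE i hi), hsmall _ (hxE i hi)⟩) hgap

theorem good (k0 : ℕ) : ∃ C : ℝ, 1 ≤ C ∧ ∀ (J : Set ℝ) (β : ℝ) (f : ℝ → ℝ), 0 < β →
    Tame J k0 β f → ∀ P : Set ℝ, P ⊆ J → P.OrdConnected → volume P ≠ ⊤ → ∀ s1 ∈ P, ∀ κ : ℝ, 0 < κ →
    volume {s | s ∈ P ∧ |f s| ≤ κ * |f s1|} ≤
      ENNReal.ofReal (C * κ ^ ((1 : ℝ) / (k0 + 1))) * volume P := by
  have h4 : (1 : ℝ) ≤ 4 ^ k0 := one_le_pow₀ (by norm_num)
  refine ⟨12 * 4 ^ k0, by linarith, ?_⟩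
  intro J β f hβ hT P hPJ hP hfin s1 hs1 κ hκ
  set E : Set ℝ := {s | s ∈ P ∧ |f s| ≤ κ * |f s1|} with hE
  have hEP : E ⊆ P := fun s hs => hs.1
  have hle : volume E ≤ volume P := measure_mono hEP
  have hfinE : volume E ≠ ⊤ := ne_top_of_le_ne_top hfin hle
  have hr : (0 : ℝ) < 1 / ((k0 : ℝ) + 1) := by positivity
  rcases le_or_gt 1 κ with hκ1 | hκ1
  · refine hle.trans ?_
    have h1 : (1 : ℝ) ≤ 12 * 4 ^ k0 * κ ^ ((1 : ℝ) / (k0 + 1)) := by
      have h2 : (1 : ℝ) ≤ κ ^ ((1 : ℝ) / (k0 + 1)) := Real.one_le_rpow hκ1 hr.le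
      nlinarith
    calc volume P = 1 * volume P := (one_mul _).symm
      _ ≤ ENNReal.ofReal (12 * 4 ^ k0 * κ ^ ((1 : ℝ) / (k0 + 1))) * volume P := by
        gcongr
        exact ENNReal.one_le_ofReal.2 h1
  · have hTP : Tame P k0 β f := hT.mono hPJ
    obtain ⟨k, hk, b, hb, F, hF, hC⟩ := hTP
    have hL0 : 0 ≤ (volume P).toReal := ENNReal.toReal_nonneg
    have hκr : 0 < κ ^ ((1 : ℝ) / (k0 + 1)) := Real.rpow_pos_of_pos hκ _
    have key : (volume E).toReal ≤
        12 * 4 ^ k0 * κ ^ ((1 : ℝ) / (k0 + 1)) * (volume P).toReal := by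
      rcases (ENNReal.toReal_nonneg : 0 ≤ (volume E).toReal).eq_or_lt with h0 | he
      · rw [← h0]
        positivity
      · have hη : 0 ≤ κ * |f s1| := by positivity
        have hcore := core hP hfin hEP hC he hη (fun s hs => by rw [hF]; exact hs.2)
        have hle' : (volume E).toReal ≤ (volume P).toReal := ENNReal.toReal_mono hfin hle
        set e := (volume E).toReal with he_def
        set L := (volume P).toReal with hL_def
        have hLpos : 0 < L := he.trans_le hle'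
        have h2k : (1 : ℝ) ≤ 2 ^ k := one_le_pow₀ (by norm_num)
        have hden : (0 : ℝ) < 4 * 2 ^ k := by positivity
        have hδ : 0 < e / (4 * 2 ^ k) := div_pos he hden
        obtain ⟨hb1, hb2⟩ := hcore
        have hf : 0 < |f s1| := by
          rcases (abs_nonneg (f s1)).eq_or_lt with h | h
          · exfalso
            rw [← h] at hb1
            simp at hb1
            linarith
          · exact h
        have h3 := hb2 s1 hs1
        rw [hF] at h3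
        set a := (e / (4 * 2 ^ k)) / L with ha
        have ha0 : 0 < a := div_pos hδ hLpos
        have ha1 : a ≤ 1 := by
          rw [ha, div_le_one hLpos]
          exact (div_le_self he.le (by linarith)).trans hle'
        have hLδ : L / (e / (4 * 2 ^ k)) = a⁻¹ := by
          rw [ha, inv_div]
        rw [hLδ, inv_pow] at h3
        have hak : 0 < a ^ k := pow_pos ha0 k
        have h4' : a ^ k ≤ 3 * 2 ^ k * κ := by
          have h5 : |f s1| * a ^ k ≤ (3 * 2 ^ k - 1) * κ * |f s1| := by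
            calc |f s1| * a ^ k ≤ ((3 * 2 ^ k - 1) * (a ^ k)⁻¹ * (κ * |f s1|)) * a ^ k := by
                  gcongr
              _ = (3 * 2 ^ k - 1) * κ * |f s1| := by
                  field_simp
          have h6 : a ^ k ≤ (3 * 2 ^ k - 1) * κ := by
            have : a ^ k * |f s1| ≤ (3 * 2 ^ k - 1) * κ * |f s1| := by linarith
            exact le_of_mul_le_mul_right this hf
          nlinarith
        have h2k0 : (2 : ℝ) ^ k ≤ 2 ^ k0 := pow_le_pow_right₀ (by norm_num) hk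
        have h7 : a ^ (k0 + 1) ≤ 3 * 2 ^ k0 * κ := by
          calc a ^ (k0 + 1) ≤ a ^ k := pow_le_pow_of_le_one ha0.le ha1 (by omega)
            _ ≤ 3 * 2 ^ k * κ := h4'
            _ ≤ 3 * 2 ^ k0 * κ := by gcongr
        have h8 : a ≤ 3 * 2 ^ k0 * κ ^ ((1 : ℝ) / (k0 + 1)) := by
          have h9 : a = (a ^ (k0 + 1)) ^ ((1 : ℝ) / (k0 + 1)) := by
            have := Real.pow_rpow_inv_natCast ha0.le (Nat.succ_ne_zero k0)
            rw [one_div]
            push_cast at this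
            exact this.symm
          have hbase : (1 : ℝ) ≤ 3 * 2 ^ k0 := by
            have : (1 : ℝ) ≤ 2 ^ k0 := one_le_pow₀ (by norm_num)
            linarith
          calc a = (a ^ (k0 + 1)) ^ ((1 : ℝ) / (k0 + 1)) := h9
            _ ≤ (3 * 2 ^ k0 * κ) ^ ((1 : ℝ) / (k0 + 1)) :=
                Real.rpow_le_rpow (by positivity) h7 hr.le
            _ = (3 * 2 ^ k0) ^ ((1 : ℝ) / (k0 + 1)) * κ ^ ((1 : ℝ) / (k0 + 1)) :=
                Real.mul_rpow (by positivity) hκ.le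
            _ ≤ 3 * 2 ^ k0 * κ ^ ((1 : ℝ) / (k0 + 1)) := by
                gcongr
                calc (3 * 2 ^ k0 : ℝ) ^ ((1 : ℝ) / (k0 + 1)) ≤ (3 * 2 ^ k0 : ℝ) ^ (1 : ℝ) := by
                      apply Real.rpow_le_rpow_of_exponent_le hbase
                      rw [div_le_one (by positivity)]
                      have : (0 : ℝ) ≤ k0 := Nat.cast_nonneg k0
                      linarith
                  _ = 3 * 2 ^ k0 := Real.rpow_one _
        have h10 : e = 4 * 2 ^ k * a * L := by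
          rw [ha]
          field_simp
        have h44 : (4 : ℝ) ^ k0 = 2 ^ k0 * 2 ^ k0 := by
          rw [← mul_pow]
          norm_num
        calc e = 4 * 2 ^ k * a * L := h10
          _ ≤ 4 * 2 ^ k0 * (3 * 2 ^ k0 * κ ^ ((1 : ℝ) / (k0 + 1))) * L := by gcongr
          _ = 12 * 4 ^ k0 * κ ^ ((1 : ℝ) / (k0 + 1)) * L := by
            rw [h44]
            ring
    rw [← ENNReal.ofReal_toReal hfinE, ← ENNReal.ofReal_toReal hfin,
      ← ENNReal.ofReal_mul (by positivity)]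
    exact ENNReal.ofReal_le_ofReal key

theorem size (k0 : ℕ) : ∃ C : ℝ, 0 < C ∧ ∀ (J : Set ℝ) (β : ℝ) (f : ℝ → ℝ), 0 < β →
    Tame J k0 β f → ∀ P : Set ℝ, P ⊆ J → P.OrdConnected → volume P ≤ 1 → ∀ η : ℝ, 0 ≤ η →
    (∀ s ∈ P, |f s| ≤ η) → β * (volume P).toReal ^ (k0 + 1) ≤ C * η := by
  refine ⟨(8 * 2 ^ k0) ^ k0, by positivity, ?_⟩
  intro J β f hβ hT P hPJ hP hvol η hη hsmall
  have hfin : volume P ≠ ⊤ := ne_top_of_le_ne_top ENNReal.one_ne_top hvol
  have hL1 : (volume P).toReal ≤ 1 := by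
    have := ENNReal.toReal_mono ENNReal.one_ne_top hvol
    simpa using this
  obtain ⟨k, hk, b, hb, F, hF, hC⟩ := hT.mono hPJ
  rcases (ENNReal.toReal_nonneg : 0 ≤ (volume P).toReal).eq_or_lt with h0 | hL
  · rw [← h0, zero_pow (Nat.succ_ne_zero k0), mul_zero]
    positivity
  · have hcore := core hP hfin (subset_refl P) hC hL hη (fun s hs => by rw [hF]; exact hsmall s hs)
    obtain ⟨hb1, -⟩ := hcore
    set L := (volume P).toReal with hL_def
    have h1 : (2 / (L / (4 * 2 ^ k))) ^ k * η = (8 * 2 ^ k) ^ k * η / L ^ k := by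
      rw [show 2 / (L / (4 * 2 ^ k)) = (8 * 2 ^ k) / L by field_simp; norm_num, div_pow]
      ring
    rw [h1, le_div_iff₀ (pow_pos hL k)] at hb1
    have h2k0 : (2 : ℝ) ^ k ≤ 2 ^ k0 := pow_le_pow_right₀ (by norm_num) hk
    have h1k0 : (1 : ℝ) ≤ 2 ^ k0 := one_le_pow₀ (by norm_num)
    calc β * L ^ (k0 + 1) ≤ b * L ^ k := by
          have hb0 : 0 ≤ b := hβ.le.trans hb
          have : L ^ (k0 + 1) ≤ L ^ k := pow_le_pow_of_le_one hL.le hL1 (by omega)
          calc β * L ^ (k0 + 1) ≤ b * L ^ (k0 + 1) := by gcongr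
            _ ≤ b * L ^ k := by gcongr
      _ ≤ (8 * 2 ^ k) ^ k * η := hb1
      _ ≤ (8 * 2 ^ k0) ^ k0 * η := by
          gcongr ?_ * η
          calc (8 * 2 ^ k : ℝ) ^ k ≤ (8 * 2 ^ k0) ^ k := by gcongr
            _ ≤ (8 * 2 ^ k0) ^ k0 := pow_le_pow_right₀ (by linarith) hk

end Pool.Agent.IC61
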