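import Pool.Agent.IC61.An0

set_option autoImplicit false

/-!
# IC61/An4: the sign pieces of a tame function (MP_0d1f6d_an, helper61)

PROOF. Write `Q j = sgSet F k I σ j`. Downward induction on `j ≤ k` (`Nat.decreasingInduction` or induction on
`k - j`). `Q k = I` is `OrdConnected`. Let `j < k` and `Q (j+1)` be `OrdConnected`.
(1) On `Q (j+1)` the function `F (j+1)` is `≥ 0` everywhere or `≤ 0` everywhere: if `j + 1 < k` all the
values have the sign `σ (j+1)`. If `j + 1 = k`: `|F k s| ≥ b > 0` on `I ⊆ J`, `F k` is continuous on `I`, `I` is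
preconnected (`OrdConnected.isPreconnected`), so it has constant sign (intermediate value theorem:
`IsPreconnected.intermediate_value` would give a zero).
(2) So `F j` is monotone or antitone on `Q (j+1)`: `monotoneOn_of_deriv_nonneg` /
`antitoneOn_of_deriv_nonpos` on the convex set `Q (j+1)` (`Set.OrdConnected.convex`), the derivative
of `F j` at `s ∈ J` is `F (j+1) s` (`HasDerivAt.deriv`), interior points are points of the set.
(3) `Q j = {s ∈ Q (j+1) | SignType.sign (F j s) = σ j}` is `OrdConnected`: `s, t ∈ Q j`, `s ≤ r ≤ t`: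
`r ∈ Q (j+1)`, `F j r` is between `F j s` and `F j t` which have the same sign (`SignType.sign` is monotone:
`SignType.sign` as an order hom; use `le_antisymm`).
`sg_cover`: by definition (`σ i := SignType.sign (F i s)` for `i < k`).
`sg_abs`: on `Q 0`, `F 0` has the constant sign `σ 0` (`0 < k`), and is monotone or antitone, so `|F 0|` is
monotone or antitone (`abs_of_nonneg`, `abs_of_nonpos`); so `{a < |F 0| ≤ b}` is `OrdConnected`.
-/

namespace Pool.Agent.IC61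

/-- The points of `I` at which `F j, ..., F (k-1)` have the signs given by `σ`. -/
def sgSet (F : ℕ → ℝ → ℝ) (k : ℕ) (I : Set ℝ) (σ : ℕ → SignType) (j : ℕ) : Set ℝ :=
  {s | s ∈ I ∧ ∀ i, j ≤ i → i < k → SignType.sign (F i s) = σ i}

private lemma An4_mem_succ {F : ℕ → ℝ → ℝ} {k : ℕ} {I : Set ℝ} {σ : ℕ → SignType} {j : ℕ} {s : ℝ}
    (hs : s ∈ sgSet F k I σ j) : s ∈ sgSet F k I σ (j + 1) :=
  ⟨hs.1, fun i hi hik => hs.2 i (by omega) hik⟩

private lemma An4_mem_of {F : ℕ → ℝ → ℝ} {k : ℕ} {I : Set ℝ} {σ : ℕ → SignType} {j : ℕ} {s : ℝ}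
    (hs : s ∈ sgSet F k I σ (j + 1)) (h : SignType.sign (F j s) = σ j) : s ∈ sgSet F k I σ j := by
  refine ⟨hs.1, fun i hi hik => ?_⟩
  rcases hi.eq_or_lt with h1 | h1
  · rw [← h1]
    exact h
  · exact hs.2 i h1 hik

private lemma An4_sign {J : Set ℝ} {k : ℕ} {b : ℝ} {F : ℕ → ℝ → ℝ} (hb : 0 < b)
    (hC : Chain J k b F) {I : Set ℝ} (hI : I ⊆ J) (hIo : I.OrdConnected) (σ : ℕ → SignType)
    {j : ℕ} (hj : j < k) :
    (∀ s ∈ sgSet F k I σ (j + 1), 0 ≤ F (j + 1) s) ∨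
      (∀ s ∈ sgSet F k I σ (j + 1), F (j + 1) s ≤ 0) := by
  rcases (Nat.succ_le_of_lt hj).lt_or_eq with h1 | h1
  · have h2 : ∀ s ∈ sgSet F k I σ (j + 1), SignType.sign (F (j + 1) s) = σ (j + 1) :=
      fun s hs => hs.2 (j + 1) le_rfl h1
    rcases h3 : σ (j + 1) with _ | _ | _
    · left
      intro s hs
      have h4 := h2 s hs
      rw [h3] at h4
      exact (sign_eq_zero_iff.1 h4).ge
    · right
      intro s hs
      have h4 := h2 s hs
      rw [h3] at h4
      exact (sign_eq_neg_one_iff.1 h4).le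
    · left
      intro s hs
      have h4 := h2 s hs
      rw [h3] at h4
      exact (sign_eq_one_iff.1 h4).le
  · have h1' : j + 1 = k := h1
    by_contra hcon
    push Not at hcon
    obtain ⟨⟨s, hs, hs'⟩, t, ht, ht'⟩ := hcon
    rw [h1'] at hs' ht'
    have hcont : ContinuousOn (F k) I := hC.2.1.mono hI
    obtain ⟨r, hr, hr0⟩ := hIo.isPreconnected.intermediate_value hs.1 ht.1 hcont
      (⟨hs'.le, ht'.le⟩ : (0 : ℝ) ∈ Set.Icc (F k s) (F k t))
    have h2 := (hC.2.2 r (hI hr)).1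
    rw [hr0, abs_zero] at h2
    linarith

private lemma An4_mono {J : Set ℝ} {k : ℕ} {b : ℝ} {F : ℕ → ℝ → ℝ} (hb : 0 < b)
    (hC : Chain J k b F) {I : Set ℝ} (hI : I ⊆ J) (hIo : I.OrdConnected) (σ : ℕ → SignType)
    {j : ℕ} (hj : j < k) (hQ : (sgSet F k I σ (j + 1)).OrdConnected) :
    MonotoneOn (F j) (sgSet F k I σ (j + 1)) ∨ AntitoneOn (F j) (sgSet F k I σ (j + 1)) := by
  have hconv : Convex ℝ (sgSet F k I σ (j + 1)) := hQ.convex
  have hder : ∀ s ∈ sgSet F k I σ (j + 1), HasDerivAt (F j) (F (j + 1) s) s :=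
    fun s hs => hC.1 j hj s (hI hs.1)
  have hcont : ContinuousOn (F j) (sgSet F k I σ (j + 1)) :=
    fun s hs => (hder s hs).continuousAt.continuousWithinAt
  have hdiff : DifferentiableOn ℝ (F j) (interior (sgSet F k I σ (j + 1))) :=
    fun s hs => (hder s (interior_subset hs)).differentiableAt.differentiableWithinAt
  rcases An4_sign hb hC hI hIo σ hj with h | h
  · left
    refine monotoneOn_of_deriv_nonneg hconv hcont hdiff fun s hs => ?_
    rw [(hder s (interior_subset hs)).deriv]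
    exact h s (interior_subset hs)
  · right
    refine antitoneOn_of_deriv_nonpos hconv hcont hdiff fun s hs => ?_
    rw [(hder s (interior_subset hs)).deriv]
    exact h s (interior_subset hs)

lemma sg_ord {J : Set ℝ} {k : ℕ} {b : ℝ} {F : ℕ → ℝ → ℝ} (hb : 0 < b) (hC : Chain J k b F)
    {I : Set ℝ} (hI : I ⊆ J) (hIo : I.OrdConnected) (σ : ℕ → SignType) {j : ℕ} (hj : j ≤ k) :
    (sgSet F k I σ j).OrdConnected := by
  have key : ∀ m j : ℕ, j + m = k → (sgSet F k I σ j).OrdConnected := by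
    intro m
    induction m with
    | zero =>
      intro j hj
      have h1 : sgSet F k I σ j = I := by
        ext s
        refine ⟨fun h => h.1, fun h => ⟨h, fun i hi hik => ?_⟩⟩
        omega
      rw [h1]
      exact hIo
    | succ m ih =>
      intro j hj
      have hQ := ih (j + 1) (by omega)
      refine ⟨fun s hs t ht r hr => ?_⟩
      have hsQ := An4_mem_succ hs
      have htQ := An4_mem_succ ht
      have hrQ : r ∈ sgSet F k I σ (j + 1) := hQ.out hsQ htQ hr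
      refine An4_mem_of hrQ ?_
      have h1 := hs.2 j le_rfl (by omega)
      have h2 := ht.2 j le_rfl (by omega)
      rcases An4_mono hb hC hI hIo σ (by omega : j < k) hQ with h | h
      · refine le_antisymm ?_ ?_
        · rw [← h2]
          exact SignType.sign.monotone (h hrQ htQ hr.2)
        · rw [← h1]
          exact SignType.sign.monotone (h hsQ hrQ hr.1)
      · refine le_antisymm ?_ ?_
        · rw [← h1]
          exact SignType.sign.monotone (h hsQ hrQ hr.1)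
        · rw [← h2]
          exact SignType.sign.monotone (h hrQ htQ hr.2)
  exact key (k - j) j (by omega)

lemma sg_mono {J : Set ℝ} {k : ℕ} {b : ℝ} {F : ℕ → ℝ → ℝ} (hb : 0 < b) (hC : Chain J k b F)
    {I : Set ℝ} (hI : I ⊆ J) (hIo : I.OrdConnected) (σ : ℕ → SignType) {j : ℕ} (hj : j < k) :
    MonotoneOn (F j) (sgSet F k I σ (j + 1)) ∨ AntitoneOn (F j) (sgSet F k I σ (j + 1)) :=
  An4_mono hb hC hI hIo σ hj (sg_ord hb hC hI hIo σ hj)

lemma sg_cover {k : ℕ} {F : ℕ → ℝ → ℝ} {I : Set ℝ} {s : ℝ} (hs : s ∈ I) :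
    ∃ σ : ℕ → SignType, (∀ i, k ≤ i → σ i = 0) ∧ s ∈ sgSet F k I σ 0 := by
  refine ⟨fun i => if i < k then SignType.sign (F i s) else 0, fun i hi => ?_, hs,
    fun i _ hik => ?_⟩
  · exact if_neg (not_lt.2 hi)
  · exact (if_pos hik).symm

lemma sg_abs {J : Set ℝ} {k : ℕ} {b : ℝ} {F : ℕ → ℝ → ℝ} (hb : 0 < b) (hC : Chain J k b F)
    (hk : 0 < k) {I : Set ℝ} (hI : I ⊆ J) (hIo : I.OrdConnected) (σ : ℕ → SignType) (a c : ℝ) :
    {s | s ∈ sgSet F k I σ 0 ∧ a < |F 0 s| ∧ |F 0 s| ≤ c}.OrdConnected := by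
  have hQ := sg_ord hb hC hI hIo σ (Nat.zero_le k)
  refine ⟨fun s hs t ht r hr => ?_⟩
  have hrQ : r ∈ sgSet F k I σ 0 := hQ.out hs.1 ht.1 hr
  refine ⟨hrQ, ?_⟩
  obtain ⟨hs0, hs1, hs2⟩ := hs
  obtain ⟨ht0, ht1, ht2⟩ := ht
  have h1 := hs0.2 0 le_rfl hk
  have h2 := ht0.2 0 le_rfl hk
  have h3 := hrQ.2 0 le_rfl hk
  have hmon := sg_mono hb hC hI hIo σ hk
  have hsQ := An4_mem_succ hs0
  have htQ := An4_mem_succ ht0
  have hrQ' := An4_mem_succ hrQ
  have hbt : (F 0 s ≤ F 0 r ∧ F 0 r ≤ F 0 t) ∨ (F 0 t ≤ F 0 r ∧ F 0 r ≤ F 0 s) := by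
    rcases hmon with h | h
    · exact Or.inl ⟨h hsQ hrQ' hr.1, h hrQ' htQ hr.2⟩
    · exact Or.inr ⟨h hrQ' htQ hr.2, h hsQ hrQ' hr.1⟩
  have hsg : (0 ≤ F 0 s ∧ 0 ≤ F 0 t ∧ 0 ≤ F 0 r) ∨ (F 0 s ≤ 0 ∧ F 0 t ≤ 0 ∧ F 0 r ≤ 0) := by
    rcases h4 : σ 0 with _ | _ | _
    · rw [h4] at h1 h2 h3
      exact Or.inl ⟨(sign_eq_zero_iff.1 h1).ge, (sign_eq_zero_iff.1 h2).ge,
        (sign_eq_zero_iff.1 h3).ge⟩
    · rw [h4] at h1 h2 h3
      exact Or.inr ⟨(sign_eq_neg_one_iff.1 h1).le, (sign_eq_neg_one_iff.1 h2).le,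
        (sign_eq_neg_one_iff.1 h3).le⟩
    · rw [h4] at h1 h2 h3
      exact Or.inl ⟨(sign_eq_one_iff.1 h1).le, (sign_eq_one_iff.1 h2).le,
        (sign_eq_one_iff.1 h3).le⟩
  rcases hsg with ⟨h4, h5, h6⟩ | ⟨h4, h5, h6⟩
  · rw [abs_of_nonneg h4] at hs1 hs2
    rw [abs_of_nonneg h5] at ht1 ht2
    rw [abs_of_nonneg h6]
    rcases hbt with ⟨h7, h8⟩ | ⟨h7, h8⟩
    · exact ⟨by linarith, by linarith⟩
    · exact ⟨by linarith, by linarith⟩
  · rw [abs_of_nonpos h4] at hs1 hs2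
    rw [abs_of_nonpos h5] at ht1 ht2
    rw [abs_of_nonpos h6]
    rcases hbt with ⟨h7, h8⟩ | ⟨h7, h8⟩
    · exact ⟨by linarith, by linarith⟩
    · exact ⟨by linarith, by linarith⟩

end Pool.Agent.IC61
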