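import Pool.Agent.IC61.An3
import Pool.Agent.IC61.An4

set_option autoImplicit false

/-!
# IC61/An5: decomposition into pieces of bounded variation (MP_0d1f6d_an, helper61)

PROOF. Take `k, b, F` from `Tame`. If `k = 0`: `|f|` is in `[b, 2 b]`; take `P 0 = I`, `P n = ∅` for `n > 0`,
`m = b`; the sum is `(volume I)^(1/2)`.
Let `k > 0`. Index set `ι = (Fin k → SignType) × ℕ`, countable and infinite, so there is `e : ℕ ≃ ι`
(`nonempty_denumerable`, `Denumerable.eqv`); construct the family over `ι` and transport it (`Equiv.tsum_eq`).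
For `τ : Fin k → SignType` let `σ i = if h : i < k then τ ⟨i, h⟩ else 0`, `Q τ = sgSet F k I σ 0`. The sets
`Q τ` are pairwise disjoint, `OrdConnected` (`sg_ord`), contained in `I` and cover `I` (`sg_cover`).
If `Q τ` is not empty and `τ 0 ≠ 0`: `|f| > 0` on `Q τ` (the sign of `F 0 = f` is `τ 0`). `|f|` is bounded on
`Icc p0 q0` (compact, `Tame.cont`); let `M = sSup (|f| '' Q τ) > 0` and `s1 ∈ Q τ` with `|f s1| > M / 2`
(`exists_lt_of_lt_csSup`). For `j : ℕ` let `P (τ, j) = {s ∈ Q τ | M / 2^(j+1) < |f s| ∧ |f s| ≤ M / 2^j}`. It is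
`OrdConnected` (`sg_abs`), `m = M / 2^(j+1)`; for different `j` they are disjoint; they cover `Q τ` (for
`0 < |f s| ≤ M` take the largest `j` with `|f s| ≤ M / 2^j`, `exists_nat_pow_near` or `Nat.find`).
`P (τ, j) ⊆ {s ∈ Q τ | |f s| ≤ (2 / 2^j) * |f s1|}`, so by `good` (`C0` its constant, `α = 1/(k0+1)`):
`volume (P (τ, j)) ≤ ofReal (C0 * (2/2^j)^α) * volume (Q τ) ≤ ofReal (C0 * 2^α * r^j) * volume I`, where
`r = 2^(-α) < 1`. So `(volume (P (τ, j)))^(1/2) ≤ ofReal (sqrt (C0 * 2^α) * (sqrt r)^j) * (volume I)^(1/2)`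
(`ENNReal.rpow_le_rpow`, `ENNReal.mul_rpow_of_nonneg`, `ENNReal.ofReal_rpow_of_nonneg`), and the sum over `j`
is a geometric series (`ENNReal.tsum_geometric`, `ENNReal.tsum_mul_left`), the sum over `τ` has `3^k ≤ 3^k0`
terms (`ENNReal.tsum_prod`, `tsum_fintype`, card of `Fin k → SignType`). Any constant `C` depending only on `k0`
is fine.
Otherwise (`Q τ = ∅` or `τ 0 = 0`) let `P (τ, j) = ∅`. A point `s ∈ I` with `f s ≠ 0` is in some `Q τ` with
`τ 0 ≠ 0`. For an empty piece any `m > 0` is fine.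
-/

namespace Pool.Agent.IC61

open MeasureTheory

/-- The dyadic pieces of one set on which a tame function has no zero, or vanishes. -/
private lemma An5_one {k0 : ℕ} {C0 : ℝ}
    (good0 : ∀ (J : Set ℝ) (β : ℝ) (f : ℝ → ℝ), 0 < β →
      Tame J k0 β f → ∀ P : Set ℝ, P ⊆ J → P.OrdConnected → volume P ≠ ⊤ → ∀ s1 ∈ P, ∀ κ : ℝ, 0 < κ →
      volume {s | s ∈ P ∧ |f s| ≤ κ * |f s1|} ≤
        ENNReal.ofReal (C0 * κ ^ ((1 : ℝ) / (k0 + 1))) * volume P)
    {p0 q0 β : ℝ} {f : ℝ → ℝ} (hβ : 0 < β) (hT : Tame (Set.Icc p0 q0) k0 β f)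
    {Q : Set ℝ} (hQI : Q ⊆ Set.Icc p0 q0) (hQo : Q.OrdConnected)
    (hO : ∀ a c : ℝ, {s | s ∈ Q ∧ a < |f s| ∧ |f s| ≤ c}.OrdConnected)
    (hs : (∀ s ∈ Q, f s = 0) ∨ ∀ s ∈ Q, f s ≠ 0) :
    ∃ P : ℕ → Set ℝ, (∀ n, (P n).OrdConnected ∧ P n ⊆ Q) ∧
      (∀ m n, m ≠ n → Disjoint (P m) (P n)) ∧ {s | s ∈ Q ∧ f s ≠ 0} ⊆ ⋃ n, P n ∧
      (∀ n, ∃ m : ℝ, 0 < m ∧ ∀ s ∈ P n, m ≤ |f s| ∧ |f s| ≤ 2 * m) ∧
      ∀ n, volume (P n) ≤
        ENNReal.ofReal (C0 * (2 / 2 ^ n) ^ ((1 : ℝ) / (k0 + 1))) * volume Q := by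
  have hempty : (∀ s ∈ Q, f s = 0) → ∃ P : ℕ → Set ℝ, (∀ n, (P n).OrdConnected ∧ P n ⊆ Q) ∧
      (∀ m n, m ≠ n → Disjoint (P m) (P n)) ∧ {s | s ∈ Q ∧ f s ≠ 0} ⊆ ⋃ n, P n ∧
      (∀ n, ∃ m : ℝ, 0 < m ∧ ∀ s ∈ P n, m ≤ |f s| ∧ |f s| ≤ 2 * m) ∧
      ∀ n, volume (P n) ≤
        ENNReal.ofReal (C0 * (2 / 2 ^ n) ^ ((1 : ℝ) / (k0 + 1))) * volume Q := by
    intro h0
    refine ⟨fun _ => ∅, fun n => ⟨Set.ordConnected_empty, Set.empty_subset _⟩, ?_, ?_, ?_, ?_⟩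
    · intro m n _
      exact disjoint_bot_left
    · rintro s ⟨hs1, hs2⟩
      exact absurd (h0 s hs1) hs2
    · intro n
      exact ⟨1, one_pos, fun s hs => absurd hs (Set.notMem_empty s)⟩
    · intro n
      simp
  rcases hs with hs | hs
  · exact hempty hs
  rcases Q.eq_empty_or_nonempty with hQe | hQn
  · apply hempty
    intro s hs'
    rw [hQe] at hs'
    exact absurd hs' (Set.notMem_empty s)
  -- the bound
  have hcont : ContinuousOn (fun s => |f s|) (Set.Icc p0 q0) := (hT.cont).abs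
  have hbdd0 : BddAbove ((fun s => |f s|) '' Set.Icc p0 q0) :=
    (isCompact_Icc.image_of_continuousOn hcont).bddAbove
  have hbdd : BddAbove ((fun s => |f s|) '' Q) := hbdd0.mono (Set.image_mono hQI)
  have hne : ((fun s => |f s|) '' Q).Nonempty := hQn.image _
  set M := sSup ((fun s => |f s|) '' Q) with hM
  have hle : ∀ s ∈ Q, |f s| ≤ M := fun s hs => le_csSup hbdd ⟨s, hs, rfl⟩
  have hMpos : 0 < M := by
    obtain ⟨s, hs'⟩ := hQn
    exact (abs_pos.mpr (hs s hs')).trans_le (hle s hs')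
  obtain ⟨y, ⟨s1, hs1, rfl⟩, hy⟩ := exists_lt_of_lt_csSup hne (half_lt_self hMpos)
  have hy' : M / 2 < |f s1| := hy
  have hvol : volume Q ≠ ⊤ := by
    refine ne_top_of_le_ne_top ?_ (measure_mono hQI)
    rw [Real.volume_Icc]
    exact ENNReal.ofReal_ne_top
  refine ⟨fun n => {s | s ∈ Q ∧ M / 2 ^ (n + 1) < |f s| ∧ |f s| ≤ M / 2 ^ n},
    fun n => ⟨hO _ _, fun s hs => hs.1⟩, ?_, ?_, ?_, ?_⟩
  · have key : ∀ m n, m < n → Disjoint {s | s ∈ Q ∧ M / 2 ^ (m + 1) < |f s| ∧ |f s| ≤ M / 2 ^ m}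
        {s | s ∈ Q ∧ M / 2 ^ (n + 1) < |f s| ∧ |f s| ≤ M / 2 ^ n} := by
      intro m n hmn
      rw [Set.disjoint_left]
      rintro s ⟨_, ha, _⟩ ⟨_, _, hb⟩
      have h2 : M / 2 ^ n ≤ M / 2 ^ (m + 1) :=
        div_le_div_of_nonneg_left hMpos.le (by positivity)
          (pow_le_pow_right₀ (by norm_num) hmn)
      linarith
    intro m n hmn
    rcases lt_or_gt_of_ne hmn with h | h
    · exact key m n h
    · exact (key n m h).symm
  · rintro s ⟨hsQ, hs0⟩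
    have hpos : 0 < |f s| := abs_pos.mpr hs0
    have hex : ∃ n : ℕ, M / 2 ^ (n + 1) < |f s| := by
      obtain ⟨n, hn⟩ := exists_pow_lt_of_lt_one (div_pos hpos hMpos) (by norm_num : (1 / 2 : ℝ) < 1)
      refine ⟨n, ?_⟩
      have h1 : M * (1 / 2) ^ n < |f s| := by
        rw [lt_div_iff₀ hMpos] at hn
        linarith [mul_comm M ((1 / 2 : ℝ) ^ n)]
      have h2 : M / 2 ^ (n + 1) ≤ M * (1 / 2) ^ n := by
        rw [one_div, inv_pow, ← div_eq_mul_inv]
        exact div_le_div_of_nonneg_left hMpos.le (by positivity)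
          (pow_le_pow_right₀ (by norm_num) (Nat.le_succ n))
      linarith
    classical
    refine Set.mem_iUnion.mpr ⟨Nat.find hex, hsQ, Nat.find_spec hex, ?_⟩
    rcases Nat.eq_zero_or_pos (Nat.find hex) with h0 | h0
    · rw [h0, pow_zero, div_one]
      exact hle s hsQ
    · have h1 := Nat.find_min hex (Nat.sub_lt h0 one_pos)
      have h2 : Nat.find hex - 1 + 1 = Nat.find hex := Nat.sub_add_cancel h0
      rw [h2] at h1
      exact not_lt.mp h1
  · intro n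
    refine ⟨M / 2 ^ (n + 1), by positivity, ?_⟩
    rintro s ⟨_, ha, hb⟩
    refine ⟨ha.le, hb.trans ?_⟩
    rw [pow_succ]
    have h2 : (0 : ℝ) < 2 ^ n := by positivity
    have : 2 * (M / (2 ^ n * 2)) = M / 2 ^ n := by field_simp
    rw [this]
  · intro n
    have h2 : (0 : ℝ) < 2 ^ n := by positivity
    refine le_trans (measure_mono ?_)
      (good0 (Set.Icc p0 q0) β f hβ hT Q hQI hQo hvol s1 hs1 (2 / 2 ^ n) (by positivity))
    rintro s ⟨hsQ, _, hb⟩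
    refine ⟨hsQ, hb.trans ?_⟩
    have h3 : M / 2 ^ n = (2 / 2 ^ n) * (M / 2) := by field_simp
    rw [h3]
    exact mul_le_mul_of_nonneg_left hy'.le (by positivity)

theorem pieces (k0 : ℕ) : ∃ C : NNReal, ∀ (p0 q0 β : ℝ) (f : ℝ → ℝ), 0 < β →
    Tame (Set.Icc p0 q0) k0 β f → ∀ I : Set ℝ, I ⊆ Set.Icc p0 q0 → I.OrdConnected →
    ∃ P : ℕ → Set ℝ, (∀ n, (P n).OrdConnected ∧ P n ⊆ I) ∧
      (∀ m n, m ≠ n → Disjoint (P m) (P n)) ∧ {s | s ∈ I ∧ f s ≠ 0} ⊆ ⋃ n, P n ∧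
      (∀ n, ∃ m : ℝ, 0 < m ∧ ∀ s ∈ P n, m ≤ |f s| ∧ |f s| ≤ 2 * m) ∧
      ∑' n, (volume (P n)) ^ ((1 : ℝ) / 2) ≤ C * (volume I) ^ ((1 : ℝ) / 2) := by
  obtain ⟨C0, hC0, good0⟩ := good k0
  have hhalf : (0 : ℝ) ≤ 1 / 2 := by norm_num
  set α : ℝ := (1 : ℝ) / (k0 + 1) with hα
  have hαpos : 0 < α := by positivity
  set A : ENNReal := ENNReal.ofReal (C0 * 2 ^ α) with hA
  set R : ENNReal := ENNReal.ofReal ((1 / 2 : ℝ) ^ α) with hR
  have hR1 : R < 1 := by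
    rw [hR, ← ENNReal.ofReal_one]
    exact (ENNReal.ofReal_lt_ofReal_iff one_pos).mpr
      (Real.rpow_lt_one (by norm_num) (by norm_num) hαpos)
  have hRs : R ^ ((1 : ℝ) / 2) < 1 := ENNReal.rpow_lt_one hR1 (by norm_num)
  set G : ENNReal := A ^ ((1 : ℝ) / 2) * (1 - R ^ ((1 : ℝ) / 2))⁻¹ with hG
  have hGtop : G ≠ ⊤ := by
    refine ENNReal.mul_ne_top (ENNReal.rpow_ne_top_of_nonneg hhalf ENNReal.ofReal_ne_top) ?_
    rw [Ne, ENNReal.inv_eq_top, tsub_eq_zero_iff_le, not_le]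
    exact hRs
  set Ci : ENNReal := 1 + 3 ^ k0 * G with hCi
  have hCitop : Ci ≠ ⊤ := by
    refine ENNReal.add_ne_top.mpr ⟨ENNReal.one_ne_top, ENNReal.mul_ne_top ?_ hGtop⟩
    exact ENNReal.pow_ne_top (by norm_num)
  refine ⟨Ci.toNNReal, ?_⟩
  rw [ENNReal.coe_toNNReal hCitop]
  intro p0 q0 β f hβ hT I hI hIo
  obtain ⟨k, hk, b, hb, F, hF, hC⟩ := id hT
  have hbpos : 0 < b := hβ.trans_le hb
  rcases Nat.eq_zero_or_pos k with hk0 | hkpos
  · subst hk0
    refine ⟨fun n => if n = 0 then I else ∅, ?_, ?_, ?_, ?_, ?_⟩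
    · intro n
      by_cases hn : n = 0
      · simp only [hn, if_true]
        exact ⟨hIo, le_rfl⟩
      · simp only [hn, if_false]
        exact ⟨Set.ordConnected_empty, Set.empty_subset _⟩
    · intro m n hmn
      by_cases hn : n = 0
      · have hm : m ≠ 0 := fun h => hmn (h.trans hn.symm)
        simp only [hm, if_false]
        exact disjoint_bot_left
      · simp only [hn, if_false]
        exact disjoint_bot_right
    · rintro s ⟨hs, _⟩
      exact Set.mem_iUnion.mpr ⟨0, by simpa using hs⟩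
    · intro n
      by_cases hn : n = 0
      · refine ⟨b, hbpos, fun s hs => ?_⟩
        simp only [hn, if_true] at hs
        have := hC.2.2 s (hI hs)
        rw [hF] at this
        exact this
      · refine ⟨1, one_pos, fun s hs => ?_⟩
        simp only [hn, if_false] at hs
        exact absurd hs (Set.notMem_empty s)
    · rw [tsum_eq_single 0]
      · simp only [if_true]
        calc volume I ^ ((1 : ℝ) / 2) = 1 * volume I ^ ((1 : ℝ) / 2) := (one_mul _).symm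
          _ ≤ Ci * volume I ^ ((1 : ℝ) / 2) := mul_le_mul_left (le_add_of_nonneg_right zero_le) _
      · intro n hn
        simp only [hn, if_false, measure_empty]
        exact ENNReal.zero_rpow_of_pos (by norm_num)
  -- the sign vectors
  set sg : (Fin k → SignType) → ℕ → SignType := fun τ i => if h : i < k then τ ⟨i, h⟩ else 0 with hsg
  set Qs : (Fin k → SignType) → Set ℝ := fun τ => sgSet F k I (sg τ) 0 with hQs
  have hQI : ∀ τ, Qs τ ⊆ I := fun τ s hs => hs.1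
  have hsgn : ∀ τ, ∀ s ∈ Qs τ, ∀ i : Fin k, SignType.sign (F i s) = τ i := by
    intro τ s hs i
    have := hs.2 i (Nat.zero_le _) i.2
    rw [this]
    simp [hsg]
  have hone : ∀ τ, ∃ P : ℕ → Set ℝ, (∀ n, (P n).OrdConnected ∧ P n ⊆ Qs τ) ∧
      (∀ m n, m ≠ n → Disjoint (P m) (P n)) ∧ {s | s ∈ Qs τ ∧ f s ≠ 0} ⊆ ⋃ n, P n ∧
      (∀ n, ∃ m : ℝ, 0 < m ∧ ∀ s ∈ P n, m ≤ |f s| ∧ |f s| ≤ 2 * m) ∧
      ∀ n, volume (P n) ≤
        ENNReal.ofReal (C0 * (2 / 2 ^ n) ^ ((1 : ℝ) / (k0 + 1))) * volume (Qs τ) := by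
    intro τ
    apply An5_one good0 hβ hT ((hQI τ).trans hI)
      (sg_ord hbpos hC hI hIo (sg τ) (Nat.zero_le k))
    · intro a c
      have := sg_abs hbpos hC hkpos hI hIo (sg τ) a c
      rw [hF] at this
      exact this
    · have h0 : ∀ s ∈ Qs τ, SignType.sign (f s) = τ ⟨0, hkpos⟩ := by
        intro s hs
        have := hsgn τ s hs ⟨0, hkpos⟩
        rw [← hF]
        exact this
      by_cases hτ : τ ⟨0, hkpos⟩ = 0
      · left
        intro s hs
        have := h0 s hs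
        rw [hτ] at this
        exact sign_eq_zero_iff.mp this
      · right
        intro s hs hfs
        apply hτ
        rw [← h0 s hs, hfs, sign_zero]
  choose P hP1 hP2 hP3 hP4 hP5 using hone
  obtain ⟨hden⟩ := nonempty_denumerable ((Fin k → SignType) × ℕ)
  have e : ℕ ≃ (Fin k → SignType) × ℕ := (Denumerable.eqv _).symm
  refine ⟨fun n => P (e n).1 (e n).2, ?_, ?_, ?_, ?_, ?_⟩
  · intro n
    exact ⟨(hP1 _ _).1, ((hP1 _ _).2).trans (hQI _)⟩
  · intro m n hmn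
    by_cases h1 : (e m).1 = (e n).1
    · have h2 : (e m).2 ≠ (e n).2 := fun h2 => hmn (e.injective (Prod.ext h1 h2))
      simp only [h1]
      exact hP2 _ _ _ h2
    · rw [Set.disjoint_left]
      intro s hs1 hs2
      apply h1
      funext i
      rw [← hsgn _ s ((hP1 _ _).2 hs1) i, ← hsgn _ s ((hP1 _ _).2 hs2) i]
  · rintro s ⟨hs, hs0⟩
    obtain ⟨σ, hσ0, hσ⟩ := sg_cover (k := k) (F := F) hs
    have hmem : s ∈ Qs (fun i => σ i) := by
      refine ⟨hs, fun i _ hi => ?_⟩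
      rw [hσ.2 i (Nat.zero_le _) hi]
      simp [hsg, hi]
    obtain ⟨n, hn⟩ := Set.mem_iUnion.mp (hP3 (fun i => σ i) ⟨hmem, hs0⟩)
    refine Set.mem_iUnion.mpr ⟨e.symm (fun i => σ i, n), ?_⟩
    simp only [Equiv.apply_symm_apply]
    exact hn
  · intro n
    exact hP4 _ _
  · have hreal : ∀ n : ℕ, C0 * (2 / 2 ^ n) ^ α = (C0 * 2 ^ α) * ((1 / 2 : ℝ) ^ α) ^ n := by
      intro n
      have h1 : (2 : ℝ) / 2 ^ n = 2 * (1 / 2) ^ n := by
        rw [one_div, inv_pow, div_eq_mul_inv]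
      rw [h1, Real.mul_rpow (by norm_num) (by positivity), ← Real.rpow_natCast ((1 / 2 : ℝ)) n,
        ← Real.rpow_mul (by norm_num), ← Real.rpow_natCast ((1 / 2 : ℝ) ^ α) n,
        ← Real.rpow_mul (by norm_num), mul_comm (n : ℝ) α, mul_assoc]
    have hb1 : ∀ τ n, volume (P τ n) ≤ A * R ^ n * volume I := by
      intro τ n
      refine (hP5 τ n).trans ?_
      rw [hreal n, ENNReal.ofReal_mul (by positivity), ENNReal.ofReal_pow (by positivity)]
      exact mul_le_mul_right (measure_mono (hQI τ)) _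
    have hb2 : ∀ τ n, volume (P τ n) ^ ((1 : ℝ) / 2) ≤
        A ^ ((1 : ℝ) / 2) * (R ^ ((1 : ℝ) / 2)) ^ n * volume I ^ ((1 : ℝ) / 2) := by
      intro τ n
      refine (ENNReal.rpow_le_rpow (hb1 τ n) hhalf).trans ?_
      rw [ENNReal.mul_rpow_of_nonneg _ _ hhalf, ENNReal.mul_rpow_of_nonneg _ _ hhalf,
        ← ENNReal.rpow_natCast, ← ENNReal.rpow_natCast, ← ENNReal.rpow_mul, ← ENNReal.rpow_mul,
        mul_comm (n : ℝ) ((1 : ℝ) / 2)]
    have hs1 : ∀ τ, ∑' n, volume (P τ n) ^ ((1 : ℝ) / 2) ≤ G * volume I ^ ((1 : ℝ) / 2) := by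
      intro τ
      refine (ENNReal.tsum_le_tsum (hb2 τ)).trans ?_
      rw [ENNReal.tsum_mul_right, ENNReal.tsum_mul_left, ENNReal.tsum_geometric]
    calc ∑' n, volume (P (e n).1 (e n).2) ^ ((1 : ℝ) / 2)
        = ∑' x : (Fin k → SignType) × ℕ, volume (P x.1 x.2) ^ ((1 : ℝ) / 2) :=
          e.tsum_eq (fun x => volume (P x.1 x.2) ^ ((1 : ℝ) / 2))
      _ = ∑' τ, ∑' n, volume (P τ n) ^ ((1 : ℝ) / 2) :=
          ENNReal.tsum_prod (f := fun τ n => volume (P τ n) ^ ((1 : ℝ) / 2))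
      _ ≤ ∑' _ : Fin k → SignType, G * volume I ^ ((1 : ℝ) / 2) := ENNReal.tsum_le_tsum hs1
      _ = (3 : ENNReal) ^ k * (G * volume I ^ ((1 : ℝ) / 2)) := by
          rw [tsum_fintype, Finset.sum_const, Finset.card_univ, Fintype.card_fun, Fintype.card_fin,
            nsmul_eq_mul]
          congr 1
          have : Fintype.card SignType = 3 := rfl
          rw [this]
          norm_num
      _ ≤ 3 ^ k0 * (G * volume I ^ ((1 : ℝ) / 2)) := by
          gcongr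
          norm_num
      _ = (3 ^ k0 * G) * volume I ^ ((1 : ℝ) / 2) := (mul_assoc _ _ _).symm
      _ ≤ Ci * volume I ^ ((1 : ℝ) / 2) := by
          gcongr
          exact le_add_of_nonneg_left zero_le

end Pool.Agent.IC61
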