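import Pool.Agent.IC61.An0

set_option autoImplicit false

/-!
# IC61/An6: combinations of the coordinates of an analytic curve are locally tame
(MP_0d1f6d_an, helper61)

PROOF. For `c : Fin 4 → ℝ` and `j : ℕ` let `G c j s = ∑ i, c i * iteratedDeriv j (fun s => u s i) s`. For
`s ∈ J`: all `iteratedDeriv j (u · i)` are analytic at `s`, and `HasDerivAt (G c j) (G c (j+1) s) s`
(`iteratedDeriv_succ`, `HasDerivAt.sum`, ...).
(1) For every `c ≠ 0` there is `k` with `G c k s0 ≠ 0`. Otherwise the analytic function `f = G c 0` has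
`iteratedDeriv k f s0 = 0` for all `k`, so its power series at `s0` vanishes and `f = 0` near `s0`, and by
the identity theorem (`AnalyticOnNhd.eqOn_zero_of_preconnected_of_eventuallyEq_zero`) `f = 0` on `J`,
contradicting `hind`. (One way: if `f` is not eventually `0` near `s0`,
`AnalyticAt.exists_eventuallyEq_pow_smul_nonzero_iff` gives `f s = (s - s0)^n • g s`, `g s0 ≠ 0`; the `n`-th
derivative at `s0` is `n! g s0 ≠ 0`. Or: Mathlib has `AnalyticAt.hasFPowerSeriesAt` with the coefficients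
`iteratedDeriv n f s0 / n!`.)
(2) For `c` in the unit sphere `S` of `Fin 4 → ℝ` (sup norm, `isCompact_sphere`) let `k c` be as in (1),
`v = |G c (k c) s0| > 0`. `(c', s) ↦ G c' (k c) s` is continuous at `(c, s0)` (finite sum of products, the
iterated derivatives are continuous at `s0`), so there are a neighborhood `N c` of `c` and `r c > 0` with
`(3/4) v ≤ |G c' (k c) s| ≤ (3/2) v` and `s ∈ J` for `c' ∈ N c`, `|s - s0| ≤ r c`. Finitely many `N c` cover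
`S` (`IsCompact.elim_nhds_subcover`); `k0 = max`, `β = min (3/4) v`, `r = min (1/2) (min r c)`, `p0 = s0 - r`,
`q0 = s0 + r`. (The finite set is not empty since `S` is not; or add default values.)
(3) Let `R = ‖c‖ ≥ 1` (as `|c i| ≥ 1`), `c' = R⁻¹ • c ∈ S`, in `N d`, `k = k d`, `v = |G d k s0|`: for
`|s - s0| ≤ r`: `|G c k s| = R * |G c' k s| ∈ [R (3/4) v, 2 R (3/4) v]`; `b = R * (3/4) * v ≥ β`,
`F j s = G c j s`.
-/

namespace Pool.Agent.IC61

open Topology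

/-- The derivatives of the combinations. -/
private noncomputable def a6G (u : ℝ → Fin 4 → ℝ) (c : Fin 4 → ℝ) (j : ℕ) (s : ℝ) : ℝ :=
  ∑ i, c i * iteratedDeriv j (fun s => u s i) s

private lemma a6_anal {J : Set ℝ} {u : ℝ → Fin 4 → ℝ}
    (hu : ∀ i, AnalyticOnNhd ℝ (fun s => u s i) J) (i : Fin 4) (j : ℕ) :
    AnalyticOnNhd ℝ (iteratedDeriv j (fun s => u s i)) J := by
  rw [iteratedDeriv_eq_iterate]
  exact (hu i).iterated_deriv j

private lemma a6_deriv {J : Set ℝ} {u : ℝ → Fin 4 → ℝ}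
    (hu : ∀ i, AnalyticOnNhd ℝ (fun s => u s i) J) (c : Fin 4 → ℝ) (j : ℕ) {s : ℝ}
    (hs : s ∈ J) : HasDerivAt (a6G u c j) (a6G u c (j + 1) s) s := by
  have h : ∀ i : Fin 4, HasDerivAt (fun s => c i * iteratedDeriv j (fun s => u s i) s)
      (c i * iteratedDeriv (j + 1) (fun s => u s i) s) s := by
    intro i
    rw [iteratedDeriv_succ]
    exact ((a6_anal hu i j s hs).differentiableAt.hasDerivAt).const_mul (c i)
  have h2 := HasDerivAt.fun_sum (u := Finset.univ) (fun i _ => h i)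
  exact h2

private lemma a6_iter {J : Set ℝ} (hJ : IsOpen J) {u : ℝ → Fin 4 → ℝ}
    (hu : ∀ i, AnalyticOnNhd ℝ (fun s => u s i) J) (c : Fin 4 → ℝ) (j : ℕ) :
    ∀ s ∈ J, iteratedDeriv j (a6G u c 0) s = a6G u c j s := by
  induction j with
  | zero => intro s _; rw [iteratedDeriv_zero]
  | succ j ih =>
    intro s hs
    rw [iteratedDeriv_succ]
    have h1 : iteratedDeriv j (a6G u c 0) =ᶠ[𝓝 s] a6G u c j := by
      filter_upwards [hJ.mem_nhds hs] with y hy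
      exact ih y hy
    rw [h1.deriv_eq]
    exact (a6_deriv hu c j hs).deriv

private lemma a6_zero (u : ℝ → Fin 4 → ℝ) (c : Fin 4 → ℝ) (s : ℝ) :
    a6G u c 0 s = ∑ i, c i * u s i := by
  simp [a6G, iteratedDeriv_zero]

private lemma a6_exists {J : Set ℝ} (hJ : IsOpen J) (hJc : J.OrdConnected)
    {u : ℝ → Fin 4 → ℝ}
    (hu : ∀ i, AnalyticOnNhd ℝ (fun s => u s i) J)
    (hind : ∀ c : Fin 4 → ℝ, c ≠ 0 → ∃ s ∈ J, ∑ i, c i * u s i ≠ 0) {s0 : ℝ} (hs0 : s0 ∈ J)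
    {c : Fin 4 → ℝ} (hc : c ≠ 0) : ∃ k, a6G u c k s0 ≠ 0 := by
  by_contra hcon
  push Not at hcon
  have hf : AnalyticOnNhd ℝ (a6G u c 0) J := by
    have h1 : a6G u c 0 = fun s => ∑ i, c i * u s i := funext (a6_zero u c)
    rw [h1]
    exact Finset.analyticOnNhd_fun_sum _ fun i _ => (analyticOnNhd_const.mul (hu i))
  have h1 := (hf s0 hs0).hasFPowerSeriesAt
  have h2 : (fun n : ℕ => iteratedDeriv n (a6G u c 0) s0 / (n.factorial : ℝ)) = fun _ => 0 := by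
    funext n
    rw [a6_iter hJ hu c n s0 hs0, hcon n, zero_div]
  rw [h2] at h1
  have h3 : FormalMultilinearSeries.ofScalars ℝ (fun _ : ℕ => (0 : ℝ)) =
      (0 : FormalMultilinearSeries ℝ ℝ ℝ) := by
    ext n
    simp [FormalMultilinearSeries.ofScalars]
  rw [h3] at h1
  have h4 := h1.eventually_eq_zero
  have h5 : Set.EqOn (a6G u c 0) 0 J :=
    hf.eqOn_zero_of_preconnected_of_eventuallyEq_zero hJc.isPreconnected hs0 h4
  obtain ⟨s, hs, hs'⟩ := hind c hc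
  rw [← a6_zero] at hs'
  exact hs' (h5 hs)

private lemma a6_local {J : Set ℝ} (hJ : IsOpen J) (hJc : J.OrdConnected)
    {u : ℝ → Fin 4 → ℝ}
    (hu : ∀ i, AnalyticOnNhd ℝ (fun s => u s i) J)
    (hind : ∀ c : Fin 4 → ℝ, c ≠ 0 → ∃ s ∈ J, ∑ i, c i * u s i ≠ 0) {s0 : ℝ} (hs0 : s0 ∈ J)
    {c : Fin 4 → ℝ} (hc : c ≠ 0) : ∃ (k : ℕ) (v r : ℝ) (U : Set (Fin 4 → ℝ)), 0 < v ∧ 0 < r ∧
      U ∈ 𝓝 c ∧ ∀ c' ∈ U, ∀ s, |s - s0| ≤ r → s ∈ J ∧ 3 / 4 * v ≤ |a6G u c' k s| ∧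
        |a6G u c' k s| ≤ 3 / 2 * v := by
  obtain ⟨k, hk⟩ := a6_exists hJ hJc hu hind hs0 hc
  have hv : 0 < |a6G u c k s0| := abs_pos.2 hk
  have hcont : ContinuousAt (fun z : (Fin 4 → ℝ) × ℝ => a6G u z.1 k z.2) (c, s0) := by
    unfold a6G
    refine tendsto_finsetSum _ fun i _ => ?_
    have h1 : ContinuousAt (fun z : (Fin 4 → ℝ) × ℝ => z.1 i) (c, s0) := by fun_prop
    have h2 : ContinuousAt (fun z : (Fin 4 → ℝ) × ℝ =>
        iteratedDeriv k (fun s => u s i) z.2) (c, s0) := by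
      have h3 : ContinuousAt (iteratedDeriv k (fun s => u s i)) s0 :=
        (a6_anal hu i k s0 hs0).continuousAt
      exact ContinuousAt.comp (f := fun z : (Fin 4 → ℝ) × ℝ => z.2)
        (g := iteratedDeriv k (fun s => u s i)) h3 continuousAt_snd
    exact (h1.mul h2)
  have habs := hcont.abs
  have hW : {z : (Fin 4 → ℝ) × ℝ | 3 / 4 * |a6G u c k s0| < |a6G u z.1 k z.2| ∧
      |a6G u z.1 k z.2| < 3 / 2 * |a6G u c k s0|} ∈ 𝓝 (c, s0) := by
    have h1 := habs.eventually (Ioo_mem_nhds (show 3 / 4 * |a6G u c k s0| < |a6G u c k s0| by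
      linarith) (show |a6G u c k s0| < 3 / 2 * |a6G u c k s0| by linarith))
    filter_upwards [h1] with z hz
    exact hz
  obtain ⟨U, hU, V, hV, hUV⟩ := mem_nhds_prod_iff.1 hW
  obtain ⟨r, hr, hrV⟩ := Metric.nhds_basis_closedBall.mem_iff.1
    (Filter.inter_mem hV (hJ.mem_nhds hs0))
  refine ⟨k, |a6G u c k s0|, r, U, hv, hr, hU, fun c' hc' s hs => ?_⟩
  have h1 : s ∈ Metric.closedBall s0 r := by
    rw [Metric.mem_closedBall, Real.dist_eq]
    exact hs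
  have h2 := hrV h1
  have h3 : (c', s) ∈ U ×ˢ V := ⟨hc', h2.1⟩
  have h4 := hUV h3
  exact ⟨h2.2, h4.1.le, h4.2.le⟩

private lemma a6_smul (u : ℝ → Fin 4 → ℝ) (c : Fin 4 → ℝ) (R : ℝ) (k : ℕ) (s : ℝ) :
    a6G u (R • c) k s = R * a6G u c k s := by
  unfold a6G
  rw [Finset.mul_sum]
  refine Finset.sum_congr rfl fun i _ => ?_
  rw [Pi.smul_apply, smul_eq_mul]
  ring

theorem local_tame {J : Set ℝ} (hJ : IsOpen J) (hJc : J.OrdConnected) (u : ℝ → Fin 4 → ℝ)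
    (hu : ∀ i, AnalyticOnNhd ℝ (fun s => u s i) J)
    (hind : ∀ c : Fin 4 → ℝ, c ≠ 0 → ∃ s ∈ J, ∑ i, c i * u s i ≠ 0) {s0 : ℝ} (hs0 : s0 ∈ J) :
    ∃ (p0 q0 β : ℝ) (k0 : ℕ), p0 < s0 ∧ s0 < q0 ∧ q0 - p0 ≤ 1 ∧ Set.Icc p0 q0 ⊆ J ∧ 0 < β ∧
      ∀ c : Fin 4 → ℝ, (∃ i, 1 ≤ |c i|) →
        Tame (Set.Icc p0 q0) k0 β (fun s => ∑ i, c i * u s i) := by
  have hloc : ∀ c : Fin 4 → ℝ, ∃ (k : ℕ) (v r : ℝ) (U : Set (Fin 4 → ℝ)), c ≠ 0 → (0 < v ∧
      0 < r ∧ U ∈ 𝓝 c ∧ ∀ c' ∈ U, ∀ s, |s - s0| ≤ r → s ∈ J ∧ 3 / 4 * v ≤ |a6G u c' k s| ∧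
        |a6G u c' k s| ≤ 3 / 2 * v) := by
    intro c
    by_cases hc : c = 0
    · exact ⟨0, 0, 0, ∅, fun h => absurd hc h⟩
    · obtain ⟨k, v, r, U, h⟩ := a6_local hJ hJc hu hind hs0 hc
      exact ⟨k, v, r, U, fun _ => h⟩
  choose k v r U hU using hloc
  have hS0 : ∀ c ∈ Metric.sphere (0 : Fin 4 → ℝ) 1, c ≠ 0 := by
    rintro c hc rfl
    simp at hc
  obtain ⟨t, ht, hcov⟩ := (isCompact_sphere (0 : Fin 4 → ℝ) 1).elim_nhds_subcover U
    fun c hc => (hU c (hS0 c hc)).2.2.1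
  have hne : t.Nonempty := by
    have h1 : (fun _ : Fin 4 => (1 : ℝ)) ∈ Metric.sphere (0 : Fin 4 → ℝ) 1 := by
      rw [mem_sphere_zero_iff_norm, pi_norm_const, norm_one]
    have h2 := hcov h1
    simp only [Set.mem_iUnion] at h2
    obtain ⟨d, hd, _⟩ := h2
    exact ⟨d, hd⟩
  have hv : 0 < t.inf' hne v := by
    rw [Finset.lt_inf'_iff]
    exact fun d hd => (hU d (hS0 d (ht d hd))).1
  have hr : 0 < t.inf' hne r := by
    rw [Finset.lt_inf'_iff]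
    exact fun d hd => (hU d (hS0 d (ht d hd))).2.1
  set r0 : ℝ := min (1 / 2) (t.inf' hne r) with hr0
  have hr0p : 0 < r0 := lt_min (by norm_num) hr
  have hr0h : r0 ≤ 1 / 2 := min_le_left _ _
  have hr0d : ∀ d ∈ t, r0 ≤ r d := fun d hd => (min_le_right _ _).trans (Finset.inf'_le r hd)
  have hI : ∀ s ∈ Set.Icc (s0 - r0) (s0 + r0), |s - s0| ≤ r0 := by
    intro s hs
    rw [abs_le]
    constructor <;> linarith [hs.1, hs.2]
  obtain ⟨d0, hd0⟩ := hne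
  have hIJ : Set.Icc (s0 - r0) (s0 + r0) ⊆ J := by
    intro s hs
    have h1 := hU d0 (hS0 d0 (ht d0 hd0))
    exact (h1.2.2.2 d0 (mem_of_mem_nhds h1.2.2.1) s ((hI s hs).trans (hr0d d0 hd0))).1
  refine ⟨s0 - r0, s0 + r0, 3 / 4 * t.inf' ⟨d0, hd0⟩ v, t.sup k, by linarith, by linarith,
    by linarith, hIJ, by linarith, ?_⟩
  rintro c ⟨i, hi⟩
  have hR : 1 ≤ ‖c‖ := by
    have := norm_le_pi_norm c i
    rw [Real.norm_eq_abs] at this
    linarith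
  have hR0 : 0 < ‖c‖ := by linarith
  have hc' : ‖c‖⁻¹ • c ∈ Metric.sphere (0 : Fin 4 → ℝ) 1 := by
    rw [mem_sphere_zero_iff_norm, norm_smul, norm_inv, norm_norm, inv_mul_cancel₀ hR0.ne']
  have h2 := hcov hc'
  simp only [Set.mem_iUnion] at h2
  obtain ⟨d, hd, hd'⟩ := h2
  have h3 := hU d (hS0 d (ht d hd))
  have hvd : t.inf' ⟨d0, hd0⟩ v ≤ v d := Finset.inf'_le v hd
  have hcc : ∀ j s, a6G u c j s = ‖c‖ * a6G u (‖c‖⁻¹ • c) j s := by
    intro j s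
    rw [← a6_smul, smul_smul, mul_inv_cancel₀ hR0.ne', one_smul]
  refine ⟨k d, Finset.le_sup hd, ‖c‖ * (3 / 4 * v d), ?_, a6G u c, funext (a6_zero u c),
    fun j _ s hs => a6_deriv hu c j (hIJ hs), ?_, fun s hs => ?_⟩
  · have h4 : 0 < v d := h3.1
    show 3 / 4 * t.inf' ⟨d0, hd0⟩ v ≤ ‖c‖ * (3 / 4 * v d)
    nlinarith
  · exact fun s hs => (a6_deriv hu c _ (hIJ hs)).continuousAt.continuousWithinAt
  · obtain ⟨_, h5, h6⟩ := h3.2.2.2 _ hd' s ((hI s hs).trans (hr0d d hd))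
    rw [hcc, abs_mul, abs_of_pos hR0]
    constructor
    · exact mul_le_mul_of_nonneg_left h5 hR0.le
    · calc ‖c‖ * |a6G u (‖c‖⁻¹ • c) (k d) s| ≤ ‖c‖ * (3 / 2 * v d) :=
          mul_le_mul_of_nonneg_left h6 hR0.le
        _ = 2 * (‖c‖ * (3 / 4 * v d)) := by ring

end Pool.Agent.IC61
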