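import Pool.Agent.IC61.Al1

set_option autoImplicit false

/-!
# IC61/Cl0: classes (MP_0d1f6d_an, helper61)
-/

namespace Pool.Agent.IC61

/-- A class: the integral vector of the curve `w` and the matrix of the projection to the span of
`g2`, `g1`. -/
abbrev Cls := (Fin 4 → ℤ) × (Fin 4 → Fin 4 → ℤ)

/-- The real vector of an integral vector. -/
def cv (z : Fin 4 → ℤ) : Fin 4 → ℝ := fun i => (z i : ℝ)

/-- The integral symplectic form. -/
def QZ (u v : Fin 4 → ℤ) : ℤ := u 0 * v 1 - u 1 * v 0 + (u 2 * v 3 - u 3 * v 2)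

/-- The coefficients of the linear form `QZ g ·`. -/
def row (g : Fin 4 → ℤ) : Fin 4 → ℤ := ![-g 1, g 0, -g 3, g 2]

/-- `e = (ξ1, ξ2, g2, g1)` is a symplectic basis up to the sign `o`. -/
def Sp (o : ℤ) (e : Fin 4 → Fin 4 → ℤ) : Prop :=
  (o = 1 ∨ o = -1) ∧ QZ (e 0) (e 1) = o ∧ QZ (e 2) (e 3) = o ∧ QZ (e 0) (e 2) = 0 ∧
    QZ (e 0) (e 3) = 0 ∧ QZ (e 1) (e 2) = 0 ∧ QZ (e 1) (e 3) = 0 ∧
    ∀ i j, o * (row (e 2) j * e 3 i - row (e 3) j * e 2 i)
      + o * (row (e 0) j * e 1 i - row (e 1) j * e 0 i) = if i = j then 1 else 0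

/-- The class of a basis. -/
def cls (o : ℤ) (e : Fin 4 → Fin 4 → ℤ) : Cls :=
  (e 0 - e 1, fun i j => o * (row (e 2) j * e 3 i - row (e 3) j * e 2 i))

/-- The action of a matrix on real vectors. -/
def act (P : Fin 4 → Fin 4 → ℤ) (u : Fin 4 → ℝ) : Fin 4 → ℝ := fun i => ∑ j, (P i j : ℝ) * u j

/-- The action of a matrix on integral vectors. -/
def actZ (P : Fin 4 → Fin 4 → ℤ) (z : Fin 4 → ℤ) : Fin 4 → ℤ := fun i => ∑ j, P i j * z j

/-- The height of an integral vector. -/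
def yv (z : Fin 4 → ℤ) : ℝ := pr (cv z) y0

/-- The classes of symplectic bases with `y ξ2, y g2 > 0`. -/
def IsC (c : Cls) : Prop := ∃ o e, Sp o e ∧ c = cls o e ∧ 0 < yv (e 1) ∧ 0 < yv (e 2)

/-- The candidates for the next curve. -/
def lat (c : Cls) (z : Fin 4 → ℤ) : Prop :=
  IsC c ∧ actZ c.2 z = z ∧ 0 < yv z ∧ ∃ ζ, actZ c.2 ζ = ζ ∧ QZ z ζ = 1

/-- The next class. -/
def nxt (c : Cls) (z : Fin 4 → ℤ) (b : Bool) : Cls :=
  (z, fun i j => (if i = j then 1 else 0) - c.2 i j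
    - (if b = true then 1 else -1) * (row z j * c.1 i - row c.1 j * z i))

/-- The signed length of the slit. -/
def fx (c : Cls) (u : Fin 4 → ℝ) : ℝ := Q (cv c.1) u

/-- The area over the complement of the slit. -/
def fA (c : Cls) (u : Fin 4 → ℝ) : ℝ := pr (act c.2 u) y0

/-- The area over the slit. -/
def fB (c : Cls) (u : Fin 4 → ℝ) : ℝ := pr u y0 - pr (act c.2 u) y0

/-- The standard basis. -/
def E0 : Fin 4 → Fin 4 → ℤ := fun i j => if i = j then 1 else 0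

/-- The next curve at a switch. -/
def zv (l : Lab) (e : Fin 4 → Fin 4 → ℤ) : Fin 4 → ℤ := if l = .K then e 3 else e 2

end Pool.Agent.IC61
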