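import Pool.Agent.IC61.Cl0

set_option autoImplicit false

/-!
# IC61/Cl1: the classes under the moves (MP_0d1f6d_an, helper61)

All statements are polynomial identities in the entries of the four vectors `e 0, ..., e 3`, checked case by
case over the labels and the moves (the new sign is `o' = o`, except at a switch with label `K`: `o' = -o`).
With `x ⊗ y` for the matrix `row y j * x i`: the last condition of `Sp` is
`o (e3 ⊗ e2 - e2 ⊗ e3 + e1 ⊗ e0 - e0 ⊗ e1) = 1`, and the left side is the same expression for the new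
basis. In `cls_sw` one uses it to replace `1 - Π` by `o (e1 ⊗ e0 - e0 ⊗ e1)`; for example for `zn`, label `≠ K`:
`(e2 + e1) ⊗ (e2 + e0) - (e2 + e0) ⊗ (e2 + e1) = (e1 ⊗ e0 - e0 ⊗ e1) - (v ⊗ e2 - e2 ⊗ v)`, `v = e0 - e1`.
-/

namespace Pool.Agent.IC61

lemma QZ_add_left (a b c : Fin 4 → ℤ) : QZ (a + b) c = QZ a c + QZ b c := by
  simp only [QZ, Pi.add_apply]; ring

lemma QZ_add_right (a b c : Fin 4 → ℤ) : QZ a (b + c) = QZ a b + QZ a c := by
  simp only [QZ, Pi.add_apply]; ring

lemma QZ_sub_left (a b c : Fin 4 → ℤ) : QZ (a - b) c = QZ a c - QZ b c := by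
  simp only [QZ, Pi.sub_apply]; ring

lemma QZ_sub_right (a b c : Fin 4 → ℤ) : QZ a (b - c) = QZ a b - QZ a c := by
  simp only [QZ, Pi.sub_apply]; ring

lemma QZ_self (a : Fin 4 → ℤ) : QZ a a = 0 := by
  simp only [QZ]; ring

lemma QZ_swap (a b : Fin 4 → ℤ) : QZ b a = -QZ a b := by
  simp only [QZ]; ring

lemma row_add (a b : Fin 4 → ℤ) (j : Fin 4) : row (a + b) j = row a j + row b j := by
  fin_cases j <;> simp [row] <;> ring

lemma row_sub (a b : Fin 4 → ℤ) (j : Fin 4) : row (a - b) j = row a j - row b j := by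
  fin_cases j <;> simp [row] <;> ring

lemma Sp_E0 : Sp 1 E0 := by
  unfold Sp
  decide

/-- A change of basis preserving the form up to the sign. -/
lemma Sp_mk {o o' : ℤ} {e f : Fin 4 → Fin 4 → ℤ} (ho : o' = 1 ∨ o' = -1)
    (h01 : QZ (f 0) (f 1) = o') (h23 : QZ (f 2) (f 3) = o') (h02 : QZ (f 0) (f 2) = 0)
    (h03 : QZ (f 0) (f 3) = 0) (h12 : QZ (f 1) (f 2) = 0) (h13 : QZ (f 1) (f 3) = 0)
    (h : Sp o e)
    (hT : ∀ i j, o' * (row (f 2) j * f 3 i - row (f 3) j * f 2 i)
      + o' * (row (f 0) j * f 1 i - row (f 1) j * f 0 i) =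
      o * (row (e 2) j * e 3 i - row (e 3) j * e 2 i)
      + o * (row (e 0) j * e 1 i - row (e 1) j * e 0 i)) : Sp o' f :=
  ⟨ho, h01, h23, h02, h03, h12, h13, fun i j => (hT i j).trans (h.2.2.2.2.2.2.2 i j)⟩

/-- Euclidean steps do not change the class. -/
lemma Sp_e {o : ℤ} {l : Lab} {m : Mv} {e : Fin 4 → Fin 4 → ℤ} (hm : ¬ m.sw) (h : Sp o e) :
    Sp o (stH l m e) ∧ cls o (stH l m e) = cls o e := by
  have h' := h
  obtain ⟨ho, h01, h23, h02, h03, h12, h13, hT⟩ := h'
  have h32 := QZ_swap (e 2) (e 3)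
  cases m with
  | e1 =>
    constructor
    · refine Sp_mk ho ?_ ?_ ?_ ?_ ?_ ?_ h ?_
      · exact h01
      · change QZ (e 2) (e 3 + e 2) = o
        rw [QZ_add_right, QZ_self]; linarith
      · exact h02
      · change QZ (e 0) (e 3 + e 2) = 0
        rw [QZ_add_right]; linarith
      · exact h12
      · change QZ (e 1) (e 3 + e 2) = 0
        rw [QZ_add_right]; linarith
      · intro i j
        change o * (row (e 2) j * (e 3 + e 2) i - row (e 3 + e 2) j * e 2 i)
          + o * (row (e 0) j * e 1 i - row (e 1) j * e 0 i) = _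
        rw [row_add, Pi.add_apply]; ring
    · unfold cls
      refine Prod.ext rfl ?_
      funext i j
      change o * (row (e 2) j * (e 3 + e 2) i - row (e 3 + e 2) j * e 2 i) = _
      rw [row_add, Pi.add_apply]; ring
  | e2 =>
    constructor
    · refine Sp_mk ho ?_ ?_ ?_ ?_ ?_ ?_ h ?_
      · exact h01
      · change QZ (e 2 + e 3) (e 3) = o
        rw [QZ_add_left, QZ_self]; linarith
      · change QZ (e 0) (e 2 + e 3) = 0
        rw [QZ_add_right]; linarith
      · exact h03
      · change QZ (e 1) (e 2 + e 3) = 0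
        rw [QZ_add_right]; linarith
      · exact h13
      · intro i j
        change o * (row (e 2 + e 3) j * e 3 i - row (e 3) j * (e 2 + e 3) i)
          + o * (row (e 0) j * e 1 i - row (e 1) j * e 0 i) = _
        rw [row_add, Pi.add_apply]; ring
    · unfold cls
      refine Prod.ext rfl ?_
      funext i j
      change o * (row (e 2 + e 3) j * e 3 i - row (e 3) j * (e 2 + e 3) i) = _
      rw [row_add, Pi.add_apply]; ring
  | zn => exact absurd (Or.inl rfl) hm
  | zw => exact absurd (Or.inr rfl) hm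

lemma b_eq {o : ℤ} (ho : o = 1 ∨ o = -1) {b : Bool} (hb : b = true ↔ o = 1) :
    (if b = true then (1 : ℤ) else -1) = o := by
  rcases ho with rfl | rfl
  · rw [if_pos (hb.2 rfl)]
  · rw [if_neg (fun h => by have := hb.1 h; omega)]

/-- The class after a switch. -/
lemma Sp_sw {o : ℤ} {l : Lab} {m : Mv} {e : Fin 4 → Fin 4 → ℤ} (hm : m.sw) (h : Sp o e) :
    ∃ o', Sp o' (stH l m e) ∧ ∀ b : Bool, (b = true ↔ o = 1) →
      cls o' (stH l m e) = nxt (cls o e) (zv l e) b := by
  have h' := h
  obtain ⟨ho, h01, h23, h02, h03, h12, h13, hT⟩ := h'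
  have h32 := QZ_swap (e 2) (e 3)
  have h10 := QZ_swap (e 0) (e 1)
  have h20 := QZ_swap (e 0) (e 2)
  have h30 := QZ_swap (e 0) (e 3)
  have h21 := QZ_swap (e 1) (e 2)
  have h31 := QZ_swap (e 1) (e 3)
  have ho' : -o = 1 ∨ -o = -1 := by rcases ho with rfl | rfl <;> simp
  by_cases hl : l = .K
  · subst hl
    refine ⟨-o, ?_, ?_⟩
    · rcases hm with rfl | rfl
      · refine Sp_mk ho' ?_ ?_ ?_ ?_ ?_ ?_ h ?_
        · change QZ (e 2 + (e 1 - e 0)) (e 2 + (e 1 - e 0) - e 3) = -o
          simp only [QZ_add_left, QZ_add_right, QZ_sub_left, QZ_sub_right, QZ_self]; linarith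
        · change QZ (e 3 + e 1) (e 3 + e 0) = -o
          simp only [QZ_add_left, QZ_add_right, QZ_sub_left, QZ_sub_right, QZ_self]; linarith
        · change QZ (e 2 + (e 1 - e 0)) (e 3 + e 1) = 0
          simp only [QZ_add_left, QZ_add_right, QZ_sub_left, QZ_sub_right, QZ_self]; linarith
        · change QZ (e 2 + (e 1 - e 0)) (e 3 + e 0) = 0
          simp only [QZ_add_left, QZ_add_right, QZ_sub_left, QZ_sub_right, QZ_self]; linarith
        · change QZ (e 2 + (e 1 - e 0) - e 3) (e 3 + e 1) = 0
          simp only [QZ_add_left, QZ_add_right, QZ_sub_left, QZ_sub_right, QZ_self]; linarith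
        · change QZ (e 2 + (e 1 - e 0) - e 3) (e 3 + e 0) = 0
          simp only [QZ_add_left, QZ_add_right, QZ_sub_left, QZ_sub_right, QZ_self]; linarith
        · intro i j
          change -o * (row (e 3 + e 1) j * (e 3 + e 0) i - row (e 3 + e 0) j * (e 3 + e 1) i)
            + -o * (row (e 2 + (e 1 - e 0)) j * (e 2 + (e 1 - e 0) - e 3) i
              - row (e 2 + (e 1 - e 0) - e 3) j * (e 2 + (e 1 - e 0)) i) = _
          simp only [row_add, row_sub, Pi.add_apply, Pi.sub_apply]; ring
      · refine Sp_mk ho' ?_ ?_ ?_ ?_ ?_ ?_ h ?_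
        · change QZ (e 2 + (e 1 - e 0)) (e 2 + (e 1 - e 0) - e 3) = -o
          simp only [QZ_add_left, QZ_add_right, QZ_sub_left, QZ_sub_right, QZ_self]; linarith
        · change QZ (e 3 + e 0) (e 3 + e 0 - (e 1 - e 0)) = -o
          simp only [QZ_add_left, QZ_add_right, QZ_sub_left, QZ_sub_right, QZ_self]; linarith
        · change QZ (e 2 + (e 1 - e 0)) (e 3 + e 0) = 0
          simp only [QZ_add_left, QZ_add_right, QZ_sub_left, QZ_sub_right, QZ_self]; linarith
        · change QZ (e 2 + (e 1 - e 0)) (e 3 + e 0 - (e 1 - e 0)) = 0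
          simp only [QZ_add_left, QZ_add_right, QZ_sub_left, QZ_sub_right, QZ_self]; linarith
        · change QZ (e 2 + (e 1 - e 0) - e 3) (e 3 + e 0) = 0
          simp only [QZ_add_left, QZ_add_right, QZ_sub_left, QZ_sub_right, QZ_self]; linarith
        · change QZ (e 2 + (e 1 - e 0) - e 3) (e 3 + e 0 - (e 1 - e 0)) = 0
          simp only [QZ_add_left, QZ_add_right, QZ_sub_left, QZ_sub_right, QZ_self]; linarith
        · intro i j
          change -o * (row (e 3 + e 0) j * (e 3 + e 0 - (e 1 - e 0)) i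
              - row (e 3 + e 0 - (e 1 - e 0)) j * (e 3 + e 0) i)
            + -o * (row (e 2 + (e 1 - e 0)) j * (e 2 + (e 1 - e 0) - e 3) i
              - row (e 2 + (e 1 - e 0) - e 3) j * (e 2 + (e 1 - e 0)) i) = _
          simp only [row_add, row_sub, Pi.add_apply, Pi.sub_apply]; ring
    · intro b hb
      have hbo := b_eq ho hb
      unfold cls nxt
      rcases hm with rfl | rfl
      · refine Prod.ext ?_ ?_
        · change (e 2 + (e 1 - e 0)) - (e 2 + (e 1 - e 0) - e 3) = e 3
          abel
        · funext i j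
          change -o * (row (e 3 + e 1) j * (e 3 + e 0) i - row (e 3 + e 0) j * (e 3 + e 1) i) =
            (if i = j then 1 else 0) - o * (row (e 2) j * e 3 i - row (e 3) j * e 2 i)
              - (if b = true then 1 else -1) * (row (e 3) j * (e 0 - e 1) i
                - row (e 0 - e 1) j * e 3 i)
          rw [hbo, ← hT i j]
          simp only [row_add, row_sub, Pi.add_apply, Pi.sub_apply]; ring
      · refine Prod.ext ?_ ?_
        · change (e 2 + (e 1 - e 0)) - (e 2 + (e 1 - e 0) - e 3) = e 3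
          abel
        · funext i j
          change -o * (row (e 3 + e 0) j * (e 3 + e 0 - (e 1 - e 0)) i
              - row (e 3 + e 0 - (e 1 - e 0)) j * (e 3 + e 0) i) =
            (if i = j then 1 else 0) - o * (row (e 2) j * e 3 i - row (e 3) j * e 2 i)
              - (if b = true then 1 else -1) * (row (e 3) j * (e 0 - e 1) i
                - row (e 0 - e 1) j * e 3 i)
          rw [hbo, ← hT i j]
          simp only [row_add, row_sub, Pi.add_apply, Pi.sub_apply]; ring
  · have hzv : zv l e = e 2 := if_neg hl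
    have hzn : stH l .zn e = ![e 3 + (e 0 - e 1), e 3 + (e 0 - e 1) - e 2, e 2 + e 0, e 2 + e 1] := by
      simp [stH, hl]
    have hzw : stH l .zw e =
        ![e 3 + (e 0 - e 1), e 3 + (e 0 - e 1) - e 2, e 2 + e 1, e 2 + e 1 - (e 0 - e 1)] := by
      simp [stH, hl]
    refine ⟨o, ?_, ?_⟩
    · rcases hm with rfl | rfl
      · rw [hzn]
        refine Sp_mk ho ?_ ?_ ?_ ?_ ?_ ?_ h ?_
        · change QZ (e 3 + (e 0 - e 1)) (e 3 + (e 0 - e 1) - e 2) = o
          simp only [QZ_add_left, QZ_add_right, QZ_sub_left, QZ_sub_right, QZ_self]; linarith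
        · change QZ (e 2 + e 0) (e 2 + e 1) = o
          simp only [QZ_add_left, QZ_add_right, QZ_sub_left, QZ_sub_right, QZ_self]; linarith
        · change QZ (e 3 + (e 0 - e 1)) (e 2 + e 0) = 0
          simp only [QZ_add_left, QZ_add_right, QZ_sub_left, QZ_sub_right, QZ_self]; linarith
        · change QZ (e 3 + (e 0 - e 1)) (e 2 + e 1) = 0
          simp only [QZ_add_left, QZ_add_right, QZ_sub_left, QZ_sub_right, QZ_self]; linarith
        · change QZ (e 3 + (e 0 - e 1) - e 2) (e 2 + e 0) = 0
          simp only [QZ_add_left, QZ_add_right, QZ_sub_left, QZ_sub_right, QZ_self]; linarith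
        · change QZ (e 3 + (e 0 - e 1) - e 2) (e 2 + e 1) = 0
          simp only [QZ_add_left, QZ_add_right, QZ_sub_left, QZ_sub_right, QZ_self]; linarith
        · intro i j
          change o * (row (e 2 + e 0) j * (e 2 + e 1) i - row (e 2 + e 1) j * (e 2 + e 0) i)
            + o * (row (e 3 + (e 0 - e 1)) j * (e 3 + (e 0 - e 1) - e 2) i
              - row (e 3 + (e 0 - e 1) - e 2) j * (e 3 + (e 0 - e 1)) i) = _
          simp only [row_add, row_sub, Pi.add_apply, Pi.sub_apply]; ring
      · rw [hzw]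
        refine Sp_mk ho ?_ ?_ ?_ ?_ ?_ ?_ h ?_
        · change QZ (e 3 + (e 0 - e 1)) (e 3 + (e 0 - e 1) - e 2) = o
          simp only [QZ_add_left, QZ_add_right, QZ_sub_left, QZ_sub_right, QZ_self]; linarith
        · change QZ (e 2 + e 1) (e 2 + e 1 - (e 0 - e 1)) = o
          simp only [QZ_add_left, QZ_add_right, QZ_sub_left, QZ_sub_right, QZ_self]; linarith
        · change QZ (e 3 + (e 0 - e 1)) (e 2 + e 1) = 0
          simp only [QZ_add_left, QZ_add_right, QZ_sub_left, QZ_sub_right, QZ_self]; linarith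
        · change QZ (e 3 + (e 0 - e 1)) (e 2 + e 1 - (e 0 - e 1)) = 0
          simp only [QZ_add_left, QZ_add_right, QZ_sub_left, QZ_sub_right, QZ_self]; linarith
        · change QZ (e 3 + (e 0 - e 1) - e 2) (e 2 + e 1) = 0
          simp only [QZ_add_left, QZ_add_right, QZ_sub_left, QZ_sub_right, QZ_self]; linarith
        · change QZ (e 3 + (e 0 - e 1) - e 2) (e 2 + e 1 - (e 0 - e 1)) = 0
          simp only [QZ_add_left, QZ_add_right, QZ_sub_left, QZ_sub_right, QZ_self]; linarith
        · intro i j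
          change o * (row (e 2 + e 1) j * (e 2 + e 1 - (e 0 - e 1)) i
              - row (e 2 + e 1 - (e 0 - e 1)) j * (e 2 + e 1) i)
            + o * (row (e 3 + (e 0 - e 1)) j * (e 3 + (e 0 - e 1) - e 2) i
              - row (e 3 + (e 0 - e 1) - e 2) j * (e 3 + (e 0 - e 1)) i) = _
          simp only [row_add, row_sub, Pi.add_apply, Pi.sub_apply]; ring
    · intro b hb
      have hbo := b_eq ho hb
      rw [hzv]
      unfold cls nxt
      rcases hm with rfl | rfl
      · rw [hzn]
        refine Prod.ext ?_ ?_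
        · change (e 3 + (e 0 - e 1)) - (e 3 + (e 0 - e 1) - e 2) = e 2
          abel
        · funext i j
          change o * (row (e 2 + e 0) j * (e 2 + e 1) i - row (e 2 + e 1) j * (e 2 + e 0) i) =
            (if i = j then 1 else 0) - o * (row (e 2) j * e 3 i - row (e 3) j * e 2 i)
              - (if b = true then 1 else -1) * (row (e 2) j * (e 0 - e 1) i
                - row (e 0 - e 1) j * e 2 i)
          rw [hbo, ← hT i j]
          simp only [row_add, row_sub, Pi.add_apply, Pi.sub_apply]; ring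
      · rw [hzw]
        refine Prod.ext ?_ ?_
        · change (e 3 + (e 0 - e 1)) - (e 3 + (e 0 - e 1) - e 2) = e 2
          abel
        · funext i j
          change o * (row (e 2 + e 1) j * (e 2 + e 1 - (e 0 - e 1)) i
              - row (e 2 + e 1 - (e 0 - e 1)) j * (e 2 + e 1) i) =
            (if i = j then 1 else 0) - o * (row (e 2) j * e 3 i - row (e 3) j * e 2 i)
              - (if b = true then 1 else -1) * (row (e 2) j * (e 0 - e 1) i
                - row (e 0 - e 1) j * e 2 i)
          rw [hbo, ← hT i j]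
          simp only [row_add, row_sub, Pi.add_apply, Pi.sub_apply]; ring

end Pool.Agent.IC61
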