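import Pool.Agent.IC61.Cl0

set_option autoImplicit false

/-!
# IC61/Cl2: candidates for the next curve (MP_0d1f6d_an, helper61)

PROOF. `Q (cv z) (cv z') = (QZ z z' : ℝ)`, `actZ (cls o e).2 z = o (QZ (e 2) z) e 3 - o (QZ (e 3) z) e 2`, the
same for `act` and real vectors with `Q (cv (e 2)) u`.
`lat_zv`: `z = e 2` (label `≠ K`): `actZ` of it is `- o * QZ (e 3) (e 2) * e 2 = e 2`; `ζ = o • e 3`. `z = e 3`
(label `K`): `ζ = - o • e 2`.
`lat_det`: let `c = cls o e`, `a = e 2`, `b = e 3`. `r = act c.2 u` is a real combination of `cv a`, `cv b`, and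
`z`, `z'`, `ζ` are integral combinations of `a`, `b` (because `actZ c.2 z = z`). For three vectors `p, q, r` in
the span of two vectors: (*) `Q p q • r + Q q r • p + Q r p • q = 0` (alternating in three vectors of a plane;
write them as combinations of `cv a`, `cv b` and `ring`).
(1) `Q (cv z) u = Q (cv z) r`: `z = α a + β b`, and `Q (cv a) r = Q (cv a) u`, because
`Q (cv a) r = o * Q (cv a) u * QZ a b = Q (cv a) u` and `Q (cv b) r = - o * Q (cv b) u * QZ b a = Q (cv b) u`.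
(2) `QZ z z' ≠ 0`: otherwise (*) for `z, ζ, z'` (`QZ z ζ = 1`): `z' = QZ z' ζ • z` (up to sign `z' = m • z` with
an integer `m`), and in the same way `z = m' • z'`. So `yv z' = m * yv z`, `yv z = m' * yv z'`, `m * m' = 1`
(`yv z > 0`), both positive, so `m = 1` and `z = z'`, a contradiction.
(3) (*) for `cv z, r, cv z'`: `Q (cv z) r • cv z' - Q (cv z') r • cv z = Q (cv z) (cv z') • r` up to sign; apply
`pr · y0`: `|fA c u| ≤ |QZ z z'| * |pr r y0| = |Q (cv z) u * yv z' - Q (cv z') u * yv z|`.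
`lat_forms`: `fx (cls o e) u = ∑ row v j * u j`, `v = e 0 - e 1`, not zero since `QZ v (e 1) = o ≠ 0`.
`fA (cls o e) u = ∑ j, (∑ i, y0 i * P i j) * u j`, the coefficients are integers (`y0 = ![2, 1, 2, 2]`), not all
zero because the form takes the value `yv (e 2) > 0` at `u = cv (e 2)` (`act` of it is `cv (e 2)`). `fB`: the
coefficients `y0 j - ...`; the value at `u = cv (e 1)` is `yv (e 1) > 0` (`act` of it is `0`, because
`QZ (e 2) (e 1) = QZ (e 3) (e 1) = 0`). For `z`: `row z`, not zero since `z ≠ 0` (`yv z > 0`).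
-/

namespace Pool.Agent.IC61

lemma sum_row2 (g z : Fin 4 → ℤ) : ∑ j, row g j * z j = QZ g z := by
  simp only [Fin.sum_univ_four, row, QZ, Matrix.cons_val_zero, Matrix.cons_val_one,
    Matrix.cons_val]
  ring

lemma sum_rowR2 (g : Fin 4 → ℤ) (u : Fin 4 → ℝ) : Q (cv g) u = ∑ j, (row g j : ℝ) * u j := by
  simp only [Fin.sum_univ_four, row, Q, cv, Matrix.cons_val_zero, Matrix.cons_val_one,
    Matrix.cons_val]
  push_cast
  ring

lemma actZ_cls2 (o : ℤ) (e : Fin 4 → Fin 4 → ℤ) (z : Fin 4 → ℤ) (i : Fin 4) :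
    actZ (cls o e).2 z i = o * QZ (e 2) z * e 3 i - o * QZ (e 3) z * e 2 i := by
  rw [← sum_row2, ← sum_row2]
  simp only [actZ, cls, Fin.sum_univ_four]
  ring

lemma act_cls2 (o : ℤ) (e : Fin 4 → Fin 4 → ℤ) (u : Fin 4 → ℝ) (i : Fin 4) :
    act (cls o e).2 u i = o * Q (cv (e 2)) u * (e 3 i : ℝ) - o * Q (cv (e 3)) u * (e 2 i : ℝ) := by
  rw [sum_rowR2, sum_rowR2]
  simp only [act, cls, Fin.sum_univ_four]
  push_cast
  ring

lemma Q_cv2 (g z : Fin 4 → ℤ) : Q (cv g) (cv z) = (QZ g z : ℝ) := by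
  simp only [Q, cv, QZ]
  push_cast
  ring

lemma fA_cls2 (o : ℤ) (e : Fin 4 → Fin 4 → ℤ) (u : Fin 4 → ℝ) :
    fA (cls o e) u = o * Q (cv (e 2)) u * yv (e 3) - o * Q (cv (e 3)) u * yv (e 2) := by
  simp only [fA, pr, act_cls2, yv, cv]
  ring

lemma QZ_anti2 (a b : Fin 4 → ℤ) : QZ a b = -QZ b a := by
  simp only [QZ]; ring

lemma QZ_smul2 (a b : Fin 4 → ℤ) (m : ℤ) : QZ a (fun i => m * b i) = m * QZ a b := by
  simp only [QZ]; ring

lemma oo2 {o : ℤ} (ho : o = 1 ∨ o = -1) : o * o = 1 := by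
  rcases ho with rfl | rfl <;> norm_num

lemma lat_zv {o : ℤ} {l : Lab} {e : Fin 4 → Fin 4 → ℤ} (h : Sp o e) (h1 : 0 < yv (e 1))
    (h2 : 0 < yv (e 2)) (h3 : 0 < yv (e 3)) : lat (cls o e) (zv l e) := by
  have hC : IsC (cls o e) := ⟨o, e, h, rfl, h1, h2⟩
  obtain ⟨ho, h01, h23, h02, h03, h12, h13, -⟩ := h
  have hoo := oo2 ho
  have s2 : QZ (e 2) (e 2) = 0 := by simp only [QZ]; ring
  have s3 : QZ (e 3) (e 3) = 0 := by simp only [QZ]; ring
  have h32 : QZ (e 3) (e 2) = -o := by rw [QZ_anti2, h23]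
  have f2 : actZ (cls o e).2 (e 2) = e 2 := by
    funext i
    rw [actZ_cls2, s2, h32]
    linear_combination (e 2 i) * hoo
  have f3 : actZ (cls o e).2 (e 3) = e 3 := by
    funext i
    rw [actZ_cls2, s3, h23]
    linear_combination (e 3 i) * hoo
  by_cases hl : l = .K
  · have hz : zv l e = e 3 := if_pos hl
    rw [hz]
    refine ⟨hC, f3, h3, fun i => -o * e 2 i, ?_, ?_⟩
    · funext i
      rw [actZ_cls2, QZ_smul2, QZ_smul2, s2, h32]
      linear_combination (-o * e 2 i) * hoo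
    · rw [QZ_smul2, h32]
      linear_combination hoo
  · have hz : zv l e = e 2 := if_neg hl
    rw [hz]
    refine ⟨hC, f2, h2, fun i => o * e 3 i, ?_, ?_⟩
    · funext i
      rw [actZ_cls2, QZ_smul2, QZ_smul2, s3, h23]
      linear_combination (o * e 3 i) * hoo
    · rw [QZ_smul2, h23]
      exact hoo

/-- A fixed vector in terms of the basis. -/
lemma fix2 {o : ℤ} {e : Fin 4 → Fin 4 → ℤ} {z : Fin 4 → ℤ} (hz : actZ (cls o e).2 z = z) :
    ∃ α β : ℤ, z = fun i => α * e 3 i - β * e 2 i := by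
  refine ⟨o * QZ (e 2) z, o * QZ (e 3) z, ?_⟩
  funext i
  rw [← actZ_cls2, hz]

lemma QZ_lin2 {o : ℤ} {e : Fin 4 → Fin 4 → ℤ} (h23 : QZ (e 2) (e 3) = o) (α β γ δ : ℤ) :
    QZ (fun i => α * e 3 i - β * e 2 i) (fun i => γ * e 3 i - δ * e 2 i) =
      o * (α * δ - β * γ) := by
  rw [← h23]
  simp only [QZ]
  ring

lemma Q_lin2 (e : Fin 4 → Fin 4 → ℤ) (α β : ℤ) (u : Fin 4 → ℝ) :
    Q (cv (fun i => α * e 3 i - β * e 2 i)) u = α * Q (cv (e 3)) u - β * Q (cv (e 2)) u := by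
  simp only [Q, cv]
  push_cast
  ring

lemma yv_lin2 (e : Fin 4 → Fin 4 → ℤ) (α β : ℤ) :
    yv (fun i => α * e 3 i - β * e 2 i) = α * yv (e 3) - β * yv (e 2) := by
  simp only [yv, pr, cv]
  push_cast
  ring

theorem lat_det {c : Cls} {z z' : Fin 4 → ℤ} (h : lat c z) (h' : lat c z') (hne : z ≠ z')
    (u : Fin 4 → ℝ) : |fA c u| ≤ |Q (cv z) u| * yv z' + |Q (cv z') u| * yv z := by
  obtain ⟨⟨o, e, hS, rfl, -, -⟩, hz, hy, ζ, hζ, h1⟩ := h
  obtain ⟨-, hz', hy', ζ', hζ', h1'⟩ := h'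
  obtain ⟨ho, -, h23, -, -, -, -, -⟩ := hS
  have hoo := oo2 ho
  obtain ⟨α, β, rfl⟩ := fix2 hz
  obtain ⟨α', β', rfl⟩ := fix2 hz'
  obtain ⟨γ, δ, rfl⟩ := fix2 hζ
  obtain ⟨γ', δ', rfl⟩ := fix2 hζ'
  rw [QZ_lin2 h23] at h1 h1'
  rw [yv_lin2] at hy hy'
  have hD : α * β' - α' * β ≠ 0 := by
    intro hD
    apply hne
    have m1 : o * (α' * δ - β' * γ) * α = α' := by
      linear_combination α' * h1 + (-o * γ) * hD
    have m2 : o * (α' * δ - β' * γ) * β = β' := by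
      linear_combination β' * h1 - (o * δ) * hD
    have m3 : o * (α * δ' - β * γ') * α' = α := by
      linear_combination α * h1' + (o * γ') * hD
    have m4 : o * (α * δ' - β * γ') * β' = β := by
      linear_combination β * h1' + (o * δ') * hD
    generalize o * (α' * δ - β' * γ) = m at m1 m2
    generalize o * (α * δ' - β * γ') = m' at m3 m4
    subst m1 m2
    push_cast at hy'
    have hm : 0 < (m : ℝ) := by
      have : 0 < (m : ℝ) * (α * yv (e 3) - β * yv (e 2)) := by linarith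
      by_contra hcon
      have := mul_nonpos_of_nonpos_of_nonneg (not_lt.1 hcon) hy.le
      linarith
    have hm0 : 0 < m := by exact_mod_cast hm
    have hmm : m' * m = 1 := by
      by_contra hcon
      have e1 : (m' * m - 1) * α = 0 := by linear_combination m3
      have e2 : (m' * m - 1) * β = 0 := by linear_combination m4
      have hc : m' * m - 1 ≠ 0 := fun h => hcon (by linarith)
      have ea := (mul_eq_zero.1 e1).resolve_left hc
      have eb := (mul_eq_zero.1 e2).resolve_left hc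
      rw [ea, eb] at hy
      norm_num at hy
    have hm1 : m = 1 := by
      rcases Int.eq_one_or_neg_one_of_mul_eq_one (by rw [mul_comm]; exact hmm : m * m' = 1) with
        h | h
      · exact h
      · omega
    subst hm1
    funext i
    ring
  have hD1 : (1 : ℝ) ≤ |((α * β' - α' * β : ℤ) : ℝ)| := by
    have := Int.one_le_abs hD
    exact_mod_cast this
  have hoR : ((o : ℝ)) * o = 1 := by exact_mod_cast hoo
  have key : Q (cv (fun i => α * e 3 i - β * e 2 i)) u * (α' * yv (e 3) - β' * yv (e 2)) -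
      Q (cv (fun i => α' * e 3 i - β' * e 2 i)) u * (α * yv (e 3) - β * yv (e 2)) =
      o * (((α * β' - α' * β : ℤ) : ℝ) * fA (cls o e) u) := by
    rw [Q_lin2, Q_lin2, fA_cls2]
    push_cast
    linear_combination (-(α * β' - α' * β) * (Q (cv (e 2)) u * yv (e 3) -
      Q (cv (e 3)) u * yv (e 2))) * hoR
  have hoA : |(o : ℝ)| = 1 := by
    rcases ho with rfl | rfl <;> simp
  have k2 := congrArg abs key
  rw [abs_mul, hoA, one_mul, abs_mul] at k2
  have k3 : |fA (cls o e) u| ≤ |((α * β' - α' * β : ℤ) : ℝ)| * |fA (cls o e) u| :=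
    le_mul_of_one_le_left (abs_nonneg _) hD1
  rw [← k2] at k3
  refine k3.trans ((abs_sub _ _).trans ?_)
  rw [abs_mul, abs_mul, abs_of_pos hy, abs_of_pos hy', yv_lin2, yv_lin2]

theorem lat_forms {c : Cls} {z : Fin 4 → ℤ} (h : lat c z) :
    (∃ n : Fin 4 → ℤ, n ≠ 0 ∧ ∀ u, fx c u = ∑ i, (n i : ℝ) * u i) ∧
    (∃ n : Fin 4 → ℤ, n ≠ 0 ∧ ∀ u, fA c u = ∑ i, (n i : ℝ) * u i) ∧
    (∃ n : Fin 4 → ℤ, n ≠ 0 ∧ ∀ u, fB c u = ∑ i, (n i : ℝ) * u i) ∧
    (∃ n : Fin 4 → ℤ, n ≠ 0 ∧ ∀ u, Q (cv z) u = ∑ i, (n i : ℝ) * u i) := by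
  obtain ⟨⟨o, e, hS, rfl, hy1, hy2⟩, hz, hy, ζ, hζ, h1⟩ := h
  obtain ⟨ho, h01, h23, h02, h03, h12, h13, -⟩ := hS
  have hoo := oo2 ho
  have s2 : QZ (e 2) (e 2) = 0 := by simp only [QZ]; ring
  have s1 : QZ (e 1) (e 1) = 0 := by simp only [QZ]; ring
  have h32 : QZ (e 3) (e 2) = -o := by rw [QZ_anti2, h23]
  have h21 : QZ (e 2) (e 1) = 0 := by rw [QZ_anti2, h12]; rfl
  have h31 : QZ (e 3) (e 1) = 0 := by rw [QZ_anti2, h13]; rfl
  have hoR : ((o : ℝ)) * o = 1 := by exact_mod_cast hoo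
  have hA : ∀ u, fA (cls o e) u =
      ∑ j, ((∑ i, (cls o e).2 i j * (![2, 1, 2, 2] : Fin 4 → ℤ) i : ℤ) : ℝ) * u j := by
    intro u
    simp only [fA, pr, act, y0, Fin.sum_univ_four, Matrix.cons_val_zero, Matrix.cons_val_one,
      Matrix.cons_val]
    push_cast
    ring
  have hB : ∀ u, fB (cls o e) u =
      ∑ j, (((![2, 1, 2, 2] : Fin 4 → ℤ) j -
        ∑ i, (cls o e).2 i j * (![2, 1, 2, 2] : Fin 4 → ℤ) i : ℤ) : ℝ) * u j := by
    intro u
    have : fB (cls o e) u = pr u y0 - fA (cls o e) u := rfl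
    rw [this, hA u]
    simp only [pr, y0, Fin.sum_univ_four, Matrix.cons_val_zero, Matrix.cons_val_one,
      Matrix.cons_val]
    push_cast
    ring
  refine ⟨⟨row (cls o e).1, ?_, fun u => sum_rowR2 _ u⟩, ⟨_, ?_, hA⟩, ⟨_, ?_, hB⟩,
    ⟨row z, ?_, fun u => sum_rowR2 _ u⟩⟩
  · intro h0
    have h2 : QZ (e 0 - e 1) (e 1) = 0 := by
      rw [← sum_row2]
      have : row (e 0 - e 1) = 0 := h0
      rw [this]
      simp
    have h3 : QZ (e 0 - e 1) (e 1) = QZ (e 0) (e 1) - QZ (e 1) (e 1) := by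
      simp only [QZ, Pi.sub_apply]
      ring
    rw [h3, h01, s1] at h2
    rcases ho with rfl | rfl <;> norm_num at h2
  · intro h0
    have h2 := hA (cv (e 2))
    rw [fA_cls2, Q_cv2, Q_cv2, s2, h32] at h2
    have h3 : ∀ j, ((∑ i, (cls o e).2 i j * (![2, 1, 2, 2] : Fin 4 → ℤ) i : ℤ) : ℝ) = 0 := by
      intro j
      have := congrFun h0 j
      rw [this]
      simp
    simp only [h3, zero_mul, Finset.sum_const_zero] at h2
    push_cast at h2
    have h4 : yv (e 2) = 0 := by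
      linear_combination h2 - yv (e 2) * hoR
    rw [h4] at hy2
    exact lt_irrefl _ hy2
  · intro h0
    have h2 := hB (cv (e 1))
    have h5 : fB (cls o e) (cv (e 1)) = yv (e 1) - fA (cls o e) (cv (e 1)) := rfl
    rw [h5, fA_cls2, Q_cv2, Q_cv2, h21, h31] at h2
    have h3 : ∀ j, (((![2, 1, 2, 2] : Fin 4 → ℤ) j -
        ∑ i, (cls o e).2 i j * (![2, 1, 2, 2] : Fin 4 → ℤ) i : ℤ) : ℝ) = 0 := by
      intro j
      have := congrFun h0 j
      rw [this]
      simp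
    simp only [h3, zero_mul, Finset.sum_const_zero] at h2
    push_cast at h2
    have h4 : yv (e 1) = 0 := by
      linear_combination h2
    rw [h4] at hy1
    exact lt_irrefl _ hy1
  · intro h0
    rw [← sum_row2, h0] at h1
    simp at h1

end Pool.Agent.IC61
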