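import Pool.Agent.IC61.Al2
import Pool.Agent.IC61.Cl1

set_option autoImplicit false

/-!
# IC61/Cl3: lengths and heights in terms of the basis (MP_0d1f6d_an, helper61)

PROOF. `Sp_path`: induction on `t`: `Sp_E0`; `Sp_e` or `Sp_sw` (excluded middle on `(p.mv t).sw`).
`H_yv`: `yv` is additive (`yv (a + b) = yv a + yv b`, `yv (a - b) = yv a - yv b`), and `yv (E0 i) = y0 i`; induction
on `t`: for every label, move and `h : Fin 4 → Fin 4 → ℤ`: `yv (stH l m h i) = stH l m (fun i => yv (h i)) i`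
(cases, `fin_cases i`, simp, linearity).
`expand`: for every `t` and `j`: `u j = ∑ i, p.U u t i * (p.H E0 t i j : ℝ)`: induction on `t` as in
`pr_step`, or: the function `h ↦ (p.H h t)` commutes with the additive map `Fin 4 → ℤ ∋ z ↦ (z j : ℝ)`, so
the right side is `pr (p.U u t) (p.H (fun i => (E0 i j : ℝ)) t) = pr u (fun i => (E0 i j : ℝ)) = u j` (`pr_path`).
`fx_eq`: `Q (cv (e 0 - e 1)) u = ∑ i, U i * Q (cv (e 0 - e 1)) (cv (e i))` (`expand`, `Q` is linear in the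
second variable); `QZ (e 0 - e 1) (e 0) = - QZ (e 1) (e 0) = o`, `QZ (e 0 - e 1) (e 1) = o`, the others vanish.
`fA_eq`: `act (cls o e).2 u = o * Q (cv (e 2)) u • cv (e 3) - o * Q (cv (e 3)) u • cv (e 2)`,
`Q (cv (e 2)) u = U 3 * o`, `Q (cv (e 3)) u = - U 2 * o`; apply `pr · y0`.
`fB_eq`: `pr u y0 = ∑ i, U i * yv (e i)` (`expand` and linearity, or `pr_path` and `H_yv`), minus `fA_eq`.
-/

namespace Pool.Agent.IC61

lemma Sp_path (p : Path) (t : ℕ) : ∃ o, Sp o (p.H E0 t) := by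
  induction t with
  | zero => exact ⟨1, Sp_E0⟩
  | succ t ih =>
    obtain ⟨o, h⟩ := ih
    by_cases hm : (p.mv t).sw
    · obtain ⟨o', h', _⟩ := Sp_sw (l := p.lab t) hm h
      exact ⟨o', h'⟩
    · exact ⟨o, (Sp_e (l := p.lab t) hm h).1⟩

lemma yv_add3 (a b : Fin 4 → ℤ) : yv (a + b) = yv a + yv b := by
  simp [yv, pr, cv]; ring

lemma yv_sub3 (a b : Fin 4 → ℤ) : yv (a - b) = yv a - yv b := by
  simp [yv, pr, cv]; ring

lemma stH_yv (l : Lab) (m : Mv) (h : Fin 4 → Fin 4 → ℤ) (i : Fin 4) :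
    yv (stH l m h i) = stH l m (fun i => yv (h i)) i := by
  cases m <;> cases l <;> fin_cases i <;> simp [stH, yv_add3, yv_sub3]

lemma yv_E0 (i : Fin 4) : yv (E0 i) = y0 i := by
  fin_cases i <;> simp [yv, pr, cv, E0, y0]

lemma H_yv (p : Path) (t : ℕ) (i : Fin 4) : p.H y0 t i = yv (p.H E0 t i) := by
  induction t generalizing i with
  | zero => exact (yv_E0 i).symm
  | succ t ih =>
    change stH (p.lab t) (p.mv t) (p.H y0 t) i = yv (stH (p.lab t) (p.mv t) (p.H E0 t) i)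
    rw [stH_yv]
    congr 1
    funext k
    exact ih k

lemma stH_cast (l : Lab) (m : Mv) (h : Fin 4 → Fin 4 → ℤ) (i j : Fin 4) :
    ((stH l m h i j : ℤ) : ℝ) = stH l m (fun i => ((h i j : ℤ) : ℝ)) i := by
  cases m <;> cases l <;> fin_cases i <;> simp [stH]

lemma H_cast (p : Path) (t : ℕ) (i j : Fin 4) :
    ((p.H E0 t i j : ℤ) : ℝ) = p.H (fun i => ((E0 i j : ℤ) : ℝ)) t i := by
  induction t generalizing i with
  | zero => rfl
  | succ t ih =>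
    change ((stH (p.lab t) (p.mv t) (p.H E0 t) i j : ℤ) : ℝ) = stH (p.lab t) (p.mv t) _ i
    rw [stH_cast]
    congr 1
    funext k
    exact ih k

lemma expand (p : Path) (u : Fin 4 → ℝ) (t : ℕ) (j : Fin 4) :
    u j = ∑ i, p.U u t i * (p.H E0 t i j : ℝ) := by
  have h := pr_path p u (fun i => ((E0 i j : ℤ) : ℝ)) t
  have h1 : pr u (fun i => ((E0 i j : ℤ) : ℝ)) = u j := by
    fin_cases j <;> simp [pr, E0]
  rw [h1] at h
  rw [← h, Fin.sum_univ_four]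
  simp only [H_cast, pr]

lemma Q_cv (p : Path) (u : Fin 4 → ℝ) (t : ℕ) (z : Fin 4 → ℤ) :
    Q (cv z) u = p.U u t 0 * (QZ z (p.H E0 t 0) : ℝ) + p.U u t 1 * (QZ z (p.H E0 t 1) : ℝ) +
      p.U u t 2 * (QZ z (p.H E0 t 2) : ℝ) + p.U u t 3 * (QZ z (p.H E0 t 3) : ℝ) := by
  have h0 := expand p u t 0
  have h1 := expand p u t 1
  have h2 := expand p u t 2
  have h3 := expand p u t 3
  rw [Fin.sum_univ_four] at h0 h1 h2 h3
  unfold Q cv QZ
  rw [h0, h1, h2, h3]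
  push_cast
  ring

lemma QZ_sub3 (a b c : Fin 4 → ℤ) : QZ (a - b) c = QZ a c - QZ b c := by
  simp [QZ]; ring

lemma QZ_self3 (a : Fin 4 → ℤ) : QZ a a = 0 := by
  simp [QZ]; ring

lemma QZ_anti3 (a b : Fin 4 → ℤ) : QZ a b = -QZ b a := by
  simp [QZ]; ring

lemma fx_eq (p : Path) (u : Fin 4 → ℝ) (t : ℕ) {o : ℤ} (h : Sp o (p.H E0 t)) :
    fx (cls o (p.H E0 t)) u = o * (p.U u t 0 + p.U u t 1) := by
  obtain ⟨_, h01, h23, h02, h03, h12, h13, _⟩ := h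
  have e : fx (cls o (p.H E0 t)) u = Q (cv (p.H E0 t 0 - p.H E0 t 1)) u := rfl
  have h10 : QZ (p.H E0 t 1) (p.H E0 t 0) = -o := by rw [QZ_anti3, h01]
  rw [e, Q_cv p u t]
  simp only [QZ_sub3, QZ_self3, h01, h02, h03, h12, h13, h10]
  push_cast
  ring

lemma act_cls (p : Path) (u : Fin 4 → ℝ) (t : ℕ) {o : ℤ} (h : Sp o (p.H E0 t)) (i : Fin 4) :
    act (cls o (p.H E0 t)).2 u i =
      p.U u t 2 * (p.H E0 t 2 i : ℝ) + p.U u t 3 * (p.H E0 t 3 i : ℝ) := by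
  obtain ⟨ho, h01, h23, h02, h03, h12, h13, _⟩ := h
  have h20 : QZ (p.H E0 t 2) (p.H E0 t 0) = 0 := by rw [QZ_anti3, h02]; rfl
  have h21 : QZ (p.H E0 t 2) (p.H E0 t 1) = 0 := by rw [QZ_anti3, h12]; rfl
  have h30 : QZ (p.H E0 t 3) (p.H E0 t 0) = 0 := by rw [QZ_anti3, h03]; rfl
  have h31 : QZ (p.H E0 t 3) (p.H E0 t 1) = 0 := by rw [QZ_anti3, h13]; rfl
  have h32 : QZ (p.H E0 t 3) (p.H E0 t 2) = -o := by rw [QZ_anti3, h23]
  have e2 : Q (cv (p.H E0 t 2)) u = p.U u t 3 * o := by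
    rw [Q_cv p u t]
    simp only [QZ_self3, h20, h21, h23]
    push_cast
    ring
  have e3 : Q (cv (p.H E0 t 3)) u = -(p.U u t 2 * o) := by
    rw [Q_cv p u t]
    simp only [QZ_self3, h30, h31, h32]
    push_cast
    ring
  have e : act (cls o (p.H E0 t)).2 u i = o * Q (cv (p.H E0 t 2)) u * (p.H E0 t 3 i : ℝ) -
      o * Q (cv (p.H E0 t 3)) u * (p.H E0 t 2 i : ℝ) := by
    simp only [act, cls, Fin.sum_univ_four]
    simp [row, Q, cv]
    ring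
  have ho2 : (o : ℝ) * o = 1 := by
    rcases ho with rfl | rfl <;> simp
  rw [e, e2, e3]
  linear_combination (p.U u t 2 * (p.H E0 t 2 i : ℝ) + p.U u t 3 * (p.H E0 t 3 i : ℝ)) * ho2

lemma fA_eq (p : Path) (u : Fin 4 → ℝ) (t : ℕ) {o : ℤ} (h : Sp o (p.H E0 t)) :
    fA (cls o (p.H E0 t)) u = p.U u t 2 * p.H y0 t 2 + p.U u t 3 * p.H y0 t 3 := by
  unfold fA
  rw [H_yv, H_yv]
  simp only [pr, act_cls p u t h, yv, cv]
  ring

lemma fB_eq (p : Path) (u : Fin 4 → ℝ) (t : ℕ) {o : ℤ} (h : Sp o (p.H E0 t)) :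
    fB (cls o (p.H E0 t)) u = p.U u t 0 * p.H y0 t 0 + p.U u t 1 * p.H y0 t 1 := by
  have hA := fA_eq p u t h
  have hp := pr_path p u y0 t
  unfold fA at hA
  unfold fB
  rw [hA, ← hp]
  simp only [pr]
  ring

end Pool.Agent.IC61
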