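import Pool.Agent.IC61.Al1

set_option autoImplicit false

/-!
# IC61/Gd2: transport of a pair of monotone functions, reflection (MP_0d1f6d_an, helper61)

PROOF. Write `η = u 0 + u 1`, `P = u 2 + u 3`, `η ≤ P`, and `σ = v 0 + v 1`, `Π = v 2 + v 3`. From the
relations: `h (u 0) = v 0`, `k (u 1) = v 1`, `h η = k η = σ` (`(g2)` at `η`; `(g1)` at `u 0`),
`h P = Π = k P` (`(g4)` at `u 2` with `k (u 2) = v 2`; `(g3)` at `P`), `h (u 3) = v 3`, `k (u 2) = v 2`.
Define `h' x = σ - h (η - x)` for `x ≤ η` and `h' x = σ + Π - h (P + η - x)` for `x > η`, and `k'` in the same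
way from `k`. (At `x = η` both formulas give `σ`: `h 0 = 0`, `h P = Π`.) Then `h' 0 = 0`, `k' 0 = 0`
(`h η = σ`), and `h'`, `k'` are monotone on `[0, P]`. The new data are `u' = (u 1, u 0, u 3, u 2)`,
`v' = (v 1, v 0, v 3, v 2)`.
`(g1')`, `0 ≤ x ≤ u 1`: `k' (x + u 0) = σ - k (η - x - u 0) = σ - k (u 1 - x)`, to be
`h' x + v 0 = σ - h (η - x) + v 0`: this is `(g2)` at `η - x ∈ [u 0, η]`: `k (η - x - u 0) = h (η - x) - v 0`.
`(g2')`, `u 1 ≤ x ≤ η`: `k' (x - u 1) = σ - k (η - x + u 1)`, to be `h' x - v 1 = σ - h (η - x) - v 1`: this is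
`(g1)` at `η - x ∈ [0, u 0]`.
`(g3')`, `η ≤ x ≤ P`: `k' x = σ + Π - k (P + η - x)`, `P + η - x ∈ [η, P]`, `(g3)` (at `x = η` use `k P = h P`).
`(g4')`, `0 ≤ x ≤ u 3`: `h' (x + u 2) = k' x + v 2`. `(g5')`, `u 3 ≤ x ≤ P`: `h' (x - u 3) = k' x - v 3`.
The point `x` of the new circle is the point `ζ(x) = η - x` (`x ≤ η`) or `P + η - x` (`x > η`) of the old
circle. In `(g4')` the old relation to be used is `(g5)` or `(g4)` at the appropriate point:
Let `0 ≤ x ≤ u 3`. Case `x ≤ η`, `x + u 2 ≤ η`: `h' (x + u 2) = σ - h (η - x - u 2)`, `(g5)` at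
`η - x ≥ u 2`: `h (η - x - u 2) = k (η - x) - v 2`. Case `x ≤ η`, `x + u 2 > η`: `h' = σ + Π - h (P + η - x - u 2)
= σ + Π - h (η - x + u 3)`, `(g4)` at `η - x ∈ [0, u 2]`: `= k (η - x) + v 3`; and `Π - v 3 = v 2`. Case
`x > η` (so `x + u 2 > η`, `x + u 2 ≤ P`): `h' = σ + Π - h (P + η - x - u 2)`, `(g5)` at
`P + η - x ∈ [u 2, P]` (`P - x ≥ u 2`): `h (P + η - x - u 2) = k (P + η - x) - v 2`.
Let `u 3 ≤ x ≤ P`. Case `x ≤ η`: `h' (x - u 3) = σ - h (η - x + u 3)`, `(g4)` at `η - x ≤ u 2` (`η - x ≤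
η - u 3 ≤ P - u 3 = u 2`): `= k (η - x) + v 3`. Case `x > η`, `x - u 3 ≤ η`: `h' = σ - h (η - x + u 3)`;
`P + η - x ∈ [η, P)`, `η - x + u 3 = (P + η - x) - u 2 ≥ 0`, `(g5)` at `P + η - x ≥ u 2`: `h (P + η - x - u 2) =
k (P + η - x) - v 2`, and `σ - (k (..) - v 2) = σ + Π - k (..) - v 3`. Case `x > η`, `x - u 3 > η`: `h' = σ + Π -
h (P + η - x + u 3)`, `(g4)` at `P + η - x ∈ [0, u 2]` (`P + η - x < P - u 3`): `= k (P + η - x) + v 3`.
-/

namespace Pool.Agent.IC61

/-- the reflected function -/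
private noncomputable def mirF (f : ℝ → ℝ) (η P σ ϖ : ℝ) (x : ℝ) : ℝ :=
  open Classical in if x ≤ η then σ - f (η - x) else σ + ϖ - f (P + η - x)

private lemma mirF_le {f : ℝ → ℝ} {η P σ ϖ x : ℝ} (h : x ≤ η) :
    mirF f η P σ ϖ x = σ - f (η - x) := if_pos h

private lemma mirF_gt {f : ℝ → ℝ} {η P σ ϖ x : ℝ} (h : η < x) :
    mirF f η P σ ϖ x = σ + ϖ - f (P + η - x) := if_neg (not_le.2 h)

private lemma mirF_ge {f : ℝ → ℝ} {η P σ ϖ x : ℝ} (h0 : f 0 = 0) (hP : f P = ϖ) (h : η ≤ x) :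
    mirF f η P σ ϖ x = σ + ϖ - f (P + η - x) := by
  rcases h.eq_or_lt with rfl | h
  · rw [mirF_le le_rfl, sub_self, h0, add_sub_cancel_right, hP]
    ring
  · exact mirF_gt h

private lemma mirF_mono {f : ℝ → ℝ} {η P σ ϖ : ℝ} (h0 : f 0 = 0) (hP : f P = ϖ) (hη : 0 ≤ η)
    (hηP : η ≤ P) (hf : MonotoneOn f (Set.Icc 0 P)) :
    MonotoneOn (mirF f η P σ ϖ) (Set.Icc 0 P) := by
  intro x hx y hy hxy
  rcases le_or_gt y η with h1 | h1
  · rw [mirF_le h1, mirF_le (hxy.trans h1)]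
    have := hf (a := η - y) (b := η - x) ⟨by linarith, by linarith [hy.1]⟩
      ⟨by linarith, by linarith [hx.1]⟩ (by linarith)
    linarith
  · rw [mirF_gt h1]
    rcases le_or_gt x η with h2 | h2
    · rw [mirF_le h2]
      have h3 := hf (a := 0) (b := η - x) ⟨le_rfl, by linarith⟩
        ⟨by linarith, by linarith [hx.1]⟩ (by linarith)
      have h4 := hf (a := P + η - y) (b := P) ⟨by linarith [hy.2], by linarith⟩
        ⟨by linarith, le_rfl⟩ (by linarith)
      rw [h0] at h3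
      rw [hP] at h4
      linarith
    · rw [mirF_gt h2]
      have := hf (a := P + η - y) (b := P + η - x) ⟨by linarith [hy.2], by linarith⟩
        ⟨by linarith [hx.2], by linarith⟩ (by linarith)
      linarith

lemma GD_mir {u v : Fin 4 → ℝ} (hpos : ∀ i, 0 < u i) (h1 : u 0 + u 1 ≤ u 2 + u 3)
    (hG : GD u v) : GD ![u 1, u 0, u 3, u 2] ![v 1, v 0, v 3, v 2] := by
  obtain ⟨h, k, mh, mk, h00, k00, g1, g2, g3, g4, g5⟩ := hG
  have p0 := hpos 0
  have p1 := hpos 1
  have p2 := hpos 2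
  have p3 := hpos 3
  have a1 : k (u 1) = v 1 := by
    have := g1 0 le_rfl p0.le
    rw [zero_add, h00, zero_add] at this
    exact this
  have a2 : h (u 0) = v 0 := by
    have := g2 (u 0) le_rfl (by linarith)
    rw [sub_self, k00] at this
    linarith
  have a3 : k (u 0 + u 1) = v 0 + v 1 := by
    have := g1 (u 0) p0.le le_rfl
    rw [a2] at this
    exact this
  have a4 : h (u 0 + u 1) = v 0 + v 1 := by
    rw [← g3 _ le_rfl h1, a3]
  have a5 : k (u 2) = v 2 := by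
    have := g5 (u 2) le_rfl (by linarith)
    rw [sub_self, h00] at this
    linarith
  have a6 : h (u 3) = v 3 := by
    have := g4 0 le_rfl p2.le
    rw [zero_add, k00, zero_add] at this
    exact this
  have a7 : h (u 2 + u 3) = v 2 + v 3 := by
    have := g4 (u 2) p2.le le_rfl
    rw [a5] at this
    exact this
  have a8 : k (u 2 + u 3) = v 2 + v 3 := by
    rw [g3 _ h1 le_rfl, a7]
  have eP : u 3 + u 2 = u 2 + u 3 := add_comm _ _
  have eη : u 1 + u 0 = u 0 + u 1 := add_comm _ _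
  refine ⟨mirF h (u 0 + u 1) (u 2 + u 3) (v 0 + v 1) (v 2 + v 3),
    mirF k (u 0 + u 1) (u 2 + u 3) (v 0 + v 1) (v 2 + v 3), ?_, ?_, ?_, ?_, ?_, ?_, ?_, ?_, ?_⟩
  · show MonotoneOn _ (Set.Icc 0 (u 3 + u 2))
    rw [eP]
    exact mirF_mono h00 a7 (by linarith) h1 mh
  · show MonotoneOn _ (Set.Icc 0 (u 3 + u 2))
    rw [eP]
    exact mirF_mono k00 a8 (by linarith) h1 mk
  · rw [mirF_le (by linarith), sub_zero, a4, sub_self]
  · rw [mirF_le (by linarith), sub_zero, a3, sub_self]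
  · intro x x0 x1
    change x ≤ u 1 at x1
    show mirF k _ _ _ _ (x + u 0) = mirF h _ _ _ _ x + v 0
    rw [mirF_le (by linarith), mirF_le (by linarith)]
    have := g2 (u 0 + u 1 - x) (by linarith) (by linarith)
    have e : u 0 + u 1 - (x + u 0) = u 0 + u 1 - x - u 0 := by ring
    rw [e, this]
    ring
  · intro x x0 x1
    change u 1 ≤ x at x0
    change x ≤ u 1 + u 0 at x1
    show mirF k _ _ _ _ (x - u 1) = mirF h _ _ _ _ x - v 1
    rw [mirF_le (by linarith), mirF_le (by linarith)]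
    have := g1 (u 0 + u 1 - x) (by linarith) (by linarith)
    have e : u 0 + u 1 - (x - u 1) = u 0 + u 1 - x + u 1 := by ring
    rw [e, this]
    ring
  · intro x x0 x1
    change u 1 + u 0 ≤ x at x0
    change x ≤ u 3 + u 2 at x1
    rw [mirF_ge k00 a8 (by linarith), mirF_ge h00 a7 (by linarith)]
    rw [g3 _ (by linarith) (by linarith)]
  · intro x x0 x1
    change x ≤ u 3 at x1
    show mirF h _ _ _ _ (x + u 2) = mirF k _ _ _ _ x + v 2
    rcases le_or_gt x (u 0 + u 1) with c1 | c1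
    · rw [mirF_le c1]
      rcases le_or_gt (x + u 2) (u 0 + u 1) with c2 | c2
      · rw [mirF_le c2]
        have := g5 (u 0 + u 1 - x) (by linarith) (by linarith)
        have e : u 0 + u 1 - (x + u 2) = u 0 + u 1 - x - u 2 := by ring
        rw [e, this]
        ring
      · rw [mirF_gt c2]
        have := g4 (u 0 + u 1 - x) (by linarith) (by linarith)
        have e : u 2 + u 3 + (u 0 + u 1) - (x + u 2) = u 0 + u 1 - x + u 3 := by ring
        rw [e, this]
        ring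
    · rw [mirF_gt c1, mirF_gt (by linarith)]
      have := g5 (u 2 + u 3 + (u 0 + u 1) - x) (by linarith) (by linarith)
      have e : u 2 + u 3 + (u 0 + u 1) - (x + u 2) = u 2 + u 3 + (u 0 + u 1) - x - u 2 := by ring
      rw [e, this]
      ring
  · intro x x0 x1
    change u 3 ≤ x at x0
    change x ≤ u 3 + u 2 at x1
    show mirF h _ _ _ _ (x - u 3) = mirF k _ _ _ _ x - v 3
    rcases le_or_gt x (u 0 + u 1) with c1 | c1
    · rw [mirF_le c1, mirF_le (by linarith)]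
      have := g4 (u 0 + u 1 - x) (by linarith) (by linarith)
      have e : u 0 + u 1 - (x - u 3) = u 0 + u 1 - x + u 3 := by ring
      rw [e, this]
      ring
    · rw [mirF_gt c1]
      rcases le_or_gt (x - u 3) (u 0 + u 1) with c2 | c2
      · rw [mirF_le c2]
        have := g5 (u 2 + u 3 + (u 0 + u 1) - x) (by linarith) (by linarith)
        have e : u 0 + u 1 - (x - u 3) = u 2 + u 3 + (u 0 + u 1) - x - u 2 := by ring
        rw [e, this]
        ring
      · rw [mirF_gt c2]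
        have := g4 (u 2 + u 3 + (u 0 + u 1) - x) (by linarith) (by linarith)
        have e : u 2 + u 3 + (u 0 + u 1) - (x - u 3) = u 2 + u 3 + (u 0 + u 1) - x + u 3 := by ring
        rw [e, this]
        ring

end Pool.Agent.IC61
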