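import Pool.Agent.IC61.Al1

set_option autoImplicit false

/-!
# IC61/Gd3: transport of a pair of monotone functions, the switches (MP_0d1f6d_an, helper61)

PROOF. `η = u 0 + u 1`, `P = u 2 + u 3`, `al = η - u 3 ≥ 0`. From the relations: `h (u 0) = v 0`,
`k (u 1) = v 1`, `h η = k η = v 0 + v 1`, `k (u 2) = v 2`, and `k al = v 0 + v 1 - v 3` (`(g4)` at `al`, `al ≤ u 2`
because `η ≤ P`: `h η = k al + v 3`). New circle `[0, η]`, new slit `[0, u 3]`. Put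
`k' = h`, `h' y = k (y + al) - k al` for `y ≤ u 3` and `h' y = k (y - u 3) + v 3` for `y > u 3`.
(At `y = u 3`: `k η - k al = v 3 = k 0 + v 3`.) `h'` is monotone on `[0, η]`, `h' 0 = 0`. New lengths:
`b = u 2 + u 3 - η`, `c = η - u 2`, `b + c = u 3`; `σ1' = v 2 + v 3 - (v 0 + v 1)`, `σ2' = v 0 + v 1 - v 2`.
`(g1')`, `0 ≤ x ≤ b`: `k' (x + c) = h (x + c)`, to be `h' x + σ2' = k (x + al) - k al + σ2'` (`x ≤ b ≤ u 3`, as
`c ≥ 0`). `x + al ≤ u 2`, so `(g4)`: `h (x + al + u 3) = k (x + al) + v 3`, `x + al + u 3 = x + η ∈ [η, P]`;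
`(g3)`: `k (x + η) = h (x + η)`; `x + η ≥ u 2`, `(g5)`: `h (x + η - u 2) = k (x + η) - v 2`. So
`h (x + c) = k (x + al) + v 3 - v 2`, and `- k al + σ2' = - (v 0 + v 1 - v 3) + v 0 + v 1 - v 2 = v 3 - v 2`.
`(g2')`, `b ≤ x ≤ u 3`: `h (x - b)` to be `k (x + al) - k al - σ1'`; `x + al ∈ [u 2, η]`, `(g5)`:
`h (x + al - u 2) = k (x + al) - v 2`, `x + al - u 2 = x - b`, and `k al + σ1' = v 2`.
`(g3')`, `u 3 ≤ x ≤ η`: `h x = k (x - u 3) + v 3`: `(g4)` at `x - u 3 ∈ [0, al] ⊆ [0, u 2]` (at `x = u 3` the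
first formula gives the same).
`zn` (`u 3 ≤ u 0`; `l1' = u 0 - u 3`, `l2' = u 1 + u 3`, `λ1' = v 0 - v 3`, `λ2' = v 1 + v 3`):
`(g4')`, `0 ≤ x ≤ u 0 - u 3`: `h' (x + u 1 + u 3) = k (x + u 1) + v 3 = h x + v 1 + v 3` by `(g1)`.
`(g5')`, `u 0 - u 3 ≤ x ≤ η`: `h' (x - u 0 + u 3)` to be `h x - (v 0 - v 3)`. If `x ≤ u 0`: `= k (x - u 0 + u 3 + al)
- k al = k (x + u 1) - k al = h x + v 1 - (v 0 + v 1 - v 3)`. If `x > u 0`: `= k (x - u 0) + v 3 = h x - v 0 + v 3`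
by `(g2)`.
`zw` (`u 0 ≤ u 3`; `l1' = 2 u 0 + u 1 - u 3`, `l2' = u 3 - u 0`, `λ` the same with `v`):
`(g4')`, `0 ≤ x ≤ l1' = u 0 + al`: `h' (x + u 3 - u 0)` to be `h x + v 3 - v 0`. If `x ≤ u 0`: `= k (x + u 3 - u 0 +
al) - k al = k (x + u 1) - k al = h x + v 1 - (v 0 + v 1 - v 3)`. If `x > u 0`: `= k (x - u 0) + v 3 = h x - v 0 +
v 3`. `(g5')`, `u 0 + al ≤ x ≤ η`: `h' (x - u 0 - al) = k (x - u 0) - k al = h x - v 0 - (v 0 + v 1 - v 3)`, as
`x - u 0 - al ≤ u 1 - al = u 3 - u 0 ≤ u 3`; this is `h x - (2 v 0 + v 1 - v 3)`.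
The last theorem: for the label `K` first apply `GD_mir`-free hypothesis `hm`: the lemma is stated with the
reflection as a hypothesis so that this module does not depend on Gd2.
-/

namespace Pool.Agent.IC61

/-- The new function `h'`. -/
private noncomputable def g3h (u v : Fin 4 → ℝ) (k : ℝ → ℝ) (y : ℝ) : ℝ :=
  if y ≤ u 3 then k (y + (u 0 + u 1 - u 3)) - k (u 0 + u 1 - u 3) else k (y - u 3) + v 3

private lemma g3_core {u v : Fin 4 → ℝ} (hpos : ∀ i, 0 < u i) (hS : Sc u) {h k : ℝ → ℝ}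
    (km : MonotoneOn k (Set.Icc 0 (u 2 + u 3)))
    (h0 : h 0 = 0) (k0 : k 0 = 0)
    (g1 : ∀ x, 0 ≤ x → x ≤ u 0 → k (x + u 1) = h x + v 1)
    (g2 : ∀ x, u 0 ≤ x → x ≤ u 0 + u 1 → k (x - u 0) = h x - v 0)
    (g3 : ∀ x, u 0 + u 1 ≤ x → x ≤ u 2 + u 3 → k x = h x)
    (g4 : ∀ x, 0 ≤ x → x ≤ u 2 → h (x + u 3) = k x + v 3)
    (g5 : ∀ x, u 2 ≤ x → x ≤ u 2 + u 3 → h (x - u 2) = k x - v 2) :
    k (u 0 + u 1 - u 3) = v 0 + v 1 - v 3 ∧
    MonotoneOn (g3h u v k) (Set.Icc 0 (u 0 + u 1)) ∧ g3h u v k 0 = 0 ∧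
    (∀ x, 0 ≤ x → x ≤ u 2 + u 3 - u 0 - u 1 →
      h (x + (u 0 + u 1 - u 2)) = g3h u v k x + (v 0 + v 1 - v 2)) ∧
    (∀ x, u 2 + u 3 - u 0 - u 1 ≤ x → x ≤ u 3 →
      h (x - (u 2 + u 3 - u 0 - u 1)) = g3h u v k x - (v 2 + v 3 - v 0 - v 1)) ∧
    (∀ x, u 3 ≤ x → x ≤ u 0 + u 1 → h x = g3h u v k x) := by
  obtain ⟨s1, s2, s3, s4, s5⟩ := hS
  have p0 := hpos 0
  have p1 := hpos 1
  have p2 := hpos 2
  have p3 := hpos 3
  have ku1 : k (u 1) = v 1 := by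
    have := g1 0 le_rfl p0.le
    rw [zero_add, h0, zero_add] at this
    exact this
  have hη : h (u 0 + u 1) = v 0 + v 1 := by
    have := g2 (u 0 + u 1) (by linarith) le_rfl
    rw [add_sub_cancel_left, ku1] at this
    linarith
  have kη : k (u 0 + u 1) = v 0 + v 1 := by rw [g3 _ le_rfl s5, hη]
  have kal : k (u 0 + u 1 - u 3) = v 0 + v 1 - v 3 := by
    have := g4 (u 0 + u 1 - u 3) (by linarith) (by linarith)
    rw [sub_add_cancel, hη] at this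
    linarith
  have hu3 : h (u 3) = v 3 := by
    have := g4 0 le_rfl p2.le
    rw [zero_add, k0, zero_add] at this
    exact this
  refine ⟨kal, ?_, ?_, ?_, ?_, ?_⟩
  · intro y hy z hz hyz
    unfold g3h
    obtain ⟨y1, y2⟩ := hy
    obtain ⟨z1, z2⟩ := hz
    by_cases hz3 : z ≤ u 3
    · rw [if_pos (hyz.trans hz3), if_pos hz3]
      have := km (a := y + (u 0 + u 1 - u 3)) ⟨by linarith, by linarith⟩
        (b := z + (u 0 + u 1 - u 3)) ⟨by linarith, by linarith⟩ (by linarith)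
      linarith
    · rw [not_le] at hz3
      rw [if_neg hz3.not_ge]
      by_cases hy3 : y ≤ u 3
      · rw [if_pos hy3]
        have a1 := km (a := y + (u 0 + u 1 - u 3)) ⟨by linarith, by linarith⟩
          (b := u 0 + u 1) ⟨by linarith, by linarith⟩ (by linarith)
        have a2 := km (a := 0) ⟨by linarith, by linarith⟩
          (b := z - u 3) ⟨by linarith, by linarith⟩ (by linarith)
        linarith
      · rw [not_le] at hy3
        rw [if_neg hy3.not_ge]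
        have a2 := km (a := y - u 3) ⟨by linarith, by linarith⟩
          (b := z - u 3) ⟨by linarith, by linarith⟩ (by linarith)
        linarith
  · unfold g3h
    rw [if_pos p3.le, zero_add, sub_self]
  · intro x x1 x2
    unfold g3h
    rw [if_pos (by linarith)]
    have a1 := g4 (x + (u 0 + u 1 - u 3)) (by linarith) (by linarith)
    have a2 := g3 (x + (u 0 + u 1)) (by linarith) (by linarith)
    have a3 := g5 (x + (u 0 + u 1)) (by linarith) (by linarith)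
    have e1 : x + (u 0 + u 1 - u 3) + u 3 = x + (u 0 + u 1) := by ring
    have e2 : x + (u 0 + u 1) - u 2 = x + (u 0 + u 1 - u 2) := by ring
    rw [e1] at a1
    rw [e2] at a3
    linarith
  · intro x x1 x2
    unfold g3h
    rw [if_pos x2]
    have a1 := g5 (x + (u 0 + u 1 - u 3)) (by linarith) (by linarith)
    have e1 : x + (u 0 + u 1 - u 3) - u 2 = x - (u 2 + u 3 - u 0 - u 1) := by ring
    rw [e1] at a1
    linarith
  · intro x x1 x2
    unfold g3h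
    by_cases hx : x ≤ u 3
    · have hx' : x = u 3 := le_antisymm hx x1
      subst hx'
      rw [if_pos le_rfl]
      have e1 : u 3 + (u 0 + u 1 - u 3) = u 0 + u 1 := by ring
      rw [e1]
      linarith
    · rw [if_neg hx]
      have a1 := g4 (x - u 3) (by linarith) (by linarith)
      rw [sub_add_cancel] at a1
      exact a1

lemma GD_zn {u v : Fin 4 → ℝ} (hpos : ∀ i, 0 < u i) (hS : Sc u) (h1 : u 3 ≤ u 0) (hG : GD u v) :
    GD ![u 2 + u 3 - u 0 - u 1, u 0 + u 1 - u 2, u 0 - u 3, u 1 + u 3]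
      ![v 2 + v 3 - v 0 - v 1, v 0 + v 1 - v 2, v 0 - v 3, v 1 + v 3] := by
  obtain ⟨h, k, hm, km, h0, k0, g1, g2, g3, g4, g5⟩ := hG
  obtain ⟨kal, c1, c2, c3, c4, c5⟩ := g3_core hpos hS km h0 k0 g1 g2 g3 g4 g5
  have hS' := hS
  obtain ⟨s1, s2, s3, s4, s5⟩ := hS'
  have p0 := hpos 0
  have p1 := hpos 1
  have p2 := hpos 2
  have p3 := hpos 3
  refine ⟨g3h u v k, h, ?_, ?_, c2, h0, ?_, ?_, ?_, ?_, ?_⟩
  · show MonotoneOn (g3h u v k) (Set.Icc 0 ((u 0 - u 3) + (u 1 + u 3)))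
    have e : (u 0 - u 3) + (u 1 + u 3) = u 0 + u 1 := by ring
    rw [e]
    exact c1
  · show MonotoneOn h (Set.Icc 0 ((u 0 - u 3) + (u 1 + u 3)))
    have e : (u 0 - u 3) + (u 1 + u 3) = u 0 + u 1 := by ring
    rw [e]
    exact hm.mono (Set.Icc_subset_Icc_right s5)
  · exact c3
  · show ∀ x, u 2 + u 3 - u 0 - u 1 ≤ x → x ≤ (u 2 + u 3 - u 0 - u 1) + (u 0 + u 1 - u 2) →
      h (x - (u 2 + u 3 - u 0 - u 1)) = g3h u v k x - (v 2 + v 3 - v 0 - v 1)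
    intro x x1 x2
    exact c4 x x1 (by linarith)
  · show ∀ x, (u 2 + u 3 - u 0 - u 1) + (u 0 + u 1 - u 2) ≤ x → x ≤ (u 0 - u 3) + (u 1 + u 3) →
      h x = g3h u v k x
    intro x x1 x2
    exact c5 x (by linarith) (by linarith)
  · show ∀ x, 0 ≤ x → x ≤ u 0 - u 3 → g3h u v k (x + (u 1 + u 3)) = h x + (v 1 + v 3)
    intro x x1 x2
    unfold g3h
    rw [if_neg (by linarith)]
    have a1 := g1 x x1 (by linarith)
    have e1 : x + (u 1 + u 3) - u 3 = x + u 1 := by ring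
    rw [e1]
    linarith
  · show ∀ x, u 0 - u 3 ≤ x → x ≤ (u 0 - u 3) + (u 1 + u 3) →
      g3h u v k (x - (u 0 - u 3)) = h x - (v 0 - v 3)
    intro x x1 x2
    unfold g3h
    by_cases hx : x ≤ u 0
    · rw [if_pos (by linarith)]
      have a1 := g1 x (by linarith) hx
      have e1 : x - (u 0 - u 3) + (u 0 + u 1 - u 3) = x + u 1 := by ring
      rw [e1]
      linarith
    · rw [not_le] at hx
      rw [if_neg (by linarith)]
      have a1 := g2 x hx.le (by linarith)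
      have e1 : x - (u 0 - u 3) - u 3 = x - u 0 := by ring
      rw [e1]
      linarith

lemma GD_zw {u v : Fin 4 → ℝ} (hpos : ∀ i, 0 < u i) (hS : Sc u) (h1 : u 0 ≤ u 3) (hG : GD u v) :
    GD ![u 2 + u 3 - u 0 - u 1, u 0 + u 1 - u 2, 2 * u 0 + u 1 - u 3, u 3 - u 0]
      ![v 2 + v 3 - v 0 - v 1, v 0 + v 1 - v 2, 2 * v 0 + v 1 - v 3, v 3 - v 0] := by
  obtain ⟨h, k, hm, km, h0, k0, g1, g2, g3, g4, g5⟩ := hG
  obtain ⟨kal, c1, c2, c3, c4, c5⟩ := g3_core hpos hS km h0 k0 g1 g2 g3 g4 g5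
  have hS' := hS
  obtain ⟨s1, s2, s3, s4, s5⟩ := hS'
  have p0 := hpos 0
  have p1 := hpos 1
  have p2 := hpos 2
  have p3 := hpos 3
  refine ⟨g3h u v k, h, ?_, ?_, c2, h0, ?_, ?_, ?_, ?_, ?_⟩
  · show MonotoneOn (g3h u v k) (Set.Icc 0 ((2 * u 0 + u 1 - u 3) + (u 3 - u 0)))
    have e : (2 * u 0 + u 1 - u 3) + (u 3 - u 0) = u 0 + u 1 := by ring
    rw [e]
    exact c1
  · show MonotoneOn h (Set.Icc 0 ((2 * u 0 + u 1 - u 3) + (u 3 - u 0)))
    have e : (2 * u 0 + u 1 - u 3) + (u 3 - u 0) = u 0 + u 1 := by ring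
    rw [e]
    exact hm.mono (Set.Icc_subset_Icc_right s5)
  · exact c3
  · show ∀ x, u 2 + u 3 - u 0 - u 1 ≤ x → x ≤ (u 2 + u 3 - u 0 - u 1) + (u 0 + u 1 - u 2) →
      h (x - (u 2 + u 3 - u 0 - u 1)) = g3h u v k x - (v 2 + v 3 - v 0 - v 1)
    intro x x1 x2
    exact c4 x x1 (by linarith)
  · show ∀ x, (u 2 + u 3 - u 0 - u 1) + (u 0 + u 1 - u 2) ≤ x →
      x ≤ (2 * u 0 + u 1 - u 3) + (u 3 - u 0) → h x = g3h u v k x
    intro x x1 x2
    exact c5 x (by linarith) (by linarith)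
  · show ∀ x, 0 ≤ x → x ≤ 2 * u 0 + u 1 - u 3 →
      g3h u v k (x + (u 3 - u 0)) = h x + (v 3 - v 0)
    intro x x1 x2
    unfold g3h
    by_cases hx : x ≤ u 0
    · rw [if_pos (by linarith)]
      have a1 := g1 x (by linarith) hx
      have e1 : x + (u 3 - u 0) + (u 0 + u 1 - u 3) = x + u 1 := by ring
      rw [e1]
      linarith
    · rw [not_le] at hx
      rw [if_neg (by linarith)]
      have a1 := g2 x hx.le (by linarith)
      have e1 : x + (u 3 - u 0) - u 3 = x - u 0 := by ring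
      rw [e1]
      linarith
  · show ∀ x, 2 * u 0 + u 1 - u 3 ≤ x → x ≤ (2 * u 0 + u 1 - u 3) + (u 3 - u 0) →
      g3h u v k (x - (2 * u 0 + u 1 - u 3)) = h x - (2 * v 0 + v 1 - v 3)
    intro x x1 x2
    unfold g3h
    rw [if_pos (by linarith)]
    have a1 := g2 x (by linarith) (by linarith)
    have e1 : x - (2 * u 0 + u 1 - u 3) + (u 0 + u 1 - u 3) = x - u 0 := by ring
    rw [e1]
    linarith

end Pool.Agent.IC61
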