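import Pool.Agent.IC61.Gd1
import Pool.Agent.IC61.Gd2
import Pool.Agent.IC61.Gd3

set_option autoImplicit false

/-!
# IC61/Gd4: transport along all moves (MP_0d1f6d_an, helper61)
-/

namespace Pool.Agent.IC61

lemma GD_step {l : Lab} {m : Mv} {u v : Fin 4 → ℝ} (hpos : ∀ i, 0 < u i)
    (hη : u 0 + u 1 ≤ u 2 + u 3) (hadm : Adm l m u) (hG : GD u v) :
    GD (stL l m u) (stL l m v) := by
  cases m with
  | e1 => exact GD_e1 hpos hadm.1 hadm.2 hG
  | e2 => exact GD_e2 hpos hadm.1 hadm.2 hG
  | zn =>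
    obtain ⟨hS, h1, h2⟩ := hadm
    by_cases hl : l = .K
    · have h3 := GD_zn (u := ![u 1, u 0, u 3, u 2]) (v := ![v 1, v 0, v 3, v 2])
        (by intro i; fin_cases i <;> simp <;> exact hpos _)
        (by
          obtain ⟨a1, a2, a3, a4, a5⟩ := hS
          unfold Sc
          simp
          refine ⟨a2, a1, ?_, ?_, ?_⟩ <;> linarith)
        (by simpa using h2 hl) (GD_mir hpos hη hG)
      simp only [stL, hl, if_true]
      convert h3 using 2 <;> simp <;> (repeat' apply And.intro) <;> ring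
    · have h3 := GD_zn hpos hS (h1 hl) hG
      simp only [stL, hl, if_false]
      exact h3
  | zw =>
    obtain ⟨hS, h1, h2⟩ := hadm
    by_cases hl : l = .K
    · have h3 := GD_zw (u := ![u 1, u 0, u 3, u 2]) (v := ![v 1, v 0, v 3, v 2])
        (by intro i; fin_cases i <;> simp <;> exact hpos _)
        (by
          obtain ⟨a1, a2, a3, a4, a5⟩ := hS
          unfold Sc
          simp
          refine ⟨a2, a1, ?_, ?_, ?_⟩ <;> linarith)
        (by simpa using h2 hl) (GD_mir hpos hη hG)
      simp only [stL, hl, if_true]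
      convert h3 using 2 <;> simp <;> (repeat' apply And.intro) <;> ring
    · have h3 := GD_zw hpos hS (h1 hl) hG
      simp only [stL, hl, if_false]
      exact h3

/-- Along a path whose moves are admissible for `u`. -/
lemma GD_path (p : Path) {u v : Fin 4 → ℝ} (hpos : ∀ t i, 0 < p.U u t i)
    (hC : ∀ t, Cn (p.lab t) (p.U u t)) (hadm : ∀ t, Adm (p.lab t) (p.mv t) (p.U u t))
    (hG : GD u v) (t : ℕ) : GD (p.U u t) (p.U v t) := by
  induction t with
  | zero => exact hG
  | succ t ih => exact GD_step (hpos t) (hC t).2.2.2.2.1 (hadm t) ih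

/-- The vector `v` has the same path. -/
theorem GD_Kinf (p : Path) {u v : Fin 4 → ℝ} (hpos : ∀ t i, 0 < p.U u t i)
    (hC : ∀ t, Cn (p.lab t) (p.U u t)) (hadm : ∀ t, Adm (p.lab t) (p.mv t) (p.U u t))
    (hG : GD u v) : v ∈ p.Kinf :=
  fun t => GD_Cn (hpos t) (hC t) (GD_path p hpos hC hadm hG t)

end Pool.Agent.IC61
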