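import Pool.Agent.IC61.Pe1

set_option autoImplicit false

/-!
# IC61/Pe2: existence of the path (MP_0d1f6d_an, helper61)

PROOF. Define the states `S : ℕ → Lab × (Fin 4 → ℝ)` by `S 0 = (.S, u)`,
`S (t+1) = (nl (S t).1 (mvf (S t).1 (S t).2), stL (S t).1 (mvf ..) (S t).2)`. By induction `Irr (S t).2` and
`Cn (S t).1 (S t).2` (`Irr_step`, `forward`, `mvf_ok`; `Cn .S u` from `hpos`, `hη`). Let
`p = ⟨fun t => (S t).1, fun t => mvf (S t).1 (S t).2, rfl, .., fun t => rfl⟩`. `p.U u t = (S t).2` by induction.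
Positivity: `pos_of_Cn`.
Infinitely many switches: suppose that no move at a time `≥ T` is a switch. For `t ≥ T` write `x = p.U u t 2`,
`y = p.U u t 3`; `η = p.U u t 0 + p.U u t 1` is constant, `η > 0`. `e1`: `(x, y) ↦ (x - y, y)`, made only if
`η ≤ x`; `e2`: `(x, y) ↦ (x, y - x)`, made only if `η ≤ y` (`Adm`).
(a) There is `t1 ≥ T` with `x < η` or `y < η`: otherwise each step decreases `x + y` by at least `η`, so
`x + y ≤ (x + y at T) - n η` at time `T + n`, contradiction to `x + y > 0`.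
(b) If `y < η` at time `t1`: all later moves are `e1` (since `y` stays the same and `e2` needs `η ≤ y`), so
`x` decreases by the constant `y > 0` at each step and becomes negative, contradiction. If `x < η`: all later
moves are `e2`, symmetric.
-/

namespace Pool.Agent.IC61

private def Eu (η : ℝ) (x y : ℕ → ℝ) (t : ℕ) : Prop :=
  0 < x t ∧ 0 < y t ∧
    ((η ≤ x t ∧ x (t + 1) = x t - y t ∧ y (t + 1) = y t) ∨
      (η ≤ y t ∧ y (t + 1) = y t - x t ∧ x (t + 1) = x t))

private lemma Eu_swap {η : ℝ} {x y : ℕ → ℝ} {t : ℕ} (h : Eu η x y t) : Eu η y x t :=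
  ⟨h.2.1, h.1, h.2.2.symm⟩

private lemma Eu_small {η : ℝ} {x y : ℕ → ℝ} {t1 : ℕ} (h : ∀ t, t1 ≤ t → Eu η x y t)
    (hy : y t1 < η) : False := by
  have key : ∀ n : ℕ, y (t1 + n) = y t1 ∧ x (t1 + n) = x t1 - n * y t1 := by
    intro n
    induction n with
    | zero => simp
    | succ n ih =>
      obtain ⟨ih1, ih2⟩ := ih
      rcases (h (t1 + n) (Nat.le_add_right _ _)).2.2 with ⟨_, h2, h3⟩ | ⟨h1, _, _⟩
      · refine ⟨?_, ?_⟩
        · rw [← Nat.add_assoc, h3, ih1]
        · rw [← Nat.add_assoc, h2, ih1, ih2]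
          push_cast
          ring
      · rw [ih1] at h1
        exact absurd h1 (not_le.2 hy)
  have hy0 : 0 < y t1 := (h t1 le_rfl).2.1
  obtain ⟨n, hn⟩ := exists_nat_gt (x t1 / y t1)
  rw [div_lt_iff₀ hy0] at hn
  have h1 := (h (t1 + n) (Nat.le_add_right _ _)).1
  rw [(key n).2] at h1
  linarith

private lemma Eu_false {η : ℝ} (hη : 0 < η) {x y : ℕ → ℝ} {T : ℕ}
    (h : ∀ t, T ≤ t → Eu η x y t) : False := by
  have hbig : ∀ t, T ≤ t → η ≤ x t ∧ η ≤ y t := by
    intro t ht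
    constructor
    · by_contra hcon
      exact Eu_small (x := y) (y := x) (t1 := t) (fun s hs => Eu_swap (h s (ht.trans hs)))
        (not_le.1 hcon)
    · by_contra hcon
      exact Eu_small (t1 := t) (fun s hs => h s (ht.trans hs)) (not_le.1 hcon)
  have key : ∀ n : ℕ, x (T + n) + y (T + n) ≤ x T + y T - n * η := by
    intro n
    induction n with
    | zero => simp
    | succ n ih =>
      have h0 := hbig (T + n) (Nat.le_add_right _ _)
      rw [← Nat.add_assoc]
      push_cast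
      rcases (h (T + n) (Nat.le_add_right _ _)).2.2 with ⟨_, h2, h3⟩ | ⟨_, h2, h3⟩
      · rw [h2, h3]
        linarith [h0.1, h0.2]
      · rw [h2, h3]
        linarith [h0.1, h0.2]
  obtain ⟨n, hn⟩ := exists_nat_gt ((x T + y T) / η)
  rw [div_lt_iff₀ hη] at hn
  have h1 := h (T + n) (Nat.le_add_right _ _)
  have h2 := key n
  linarith [h1.1, h1.2.1]

private noncomputable def stt (u : Fin 4 → ℝ) : ℕ → Lab × (Fin 4 → ℝ)
  | 0 => (.S, u)
  | t + 1 => (nl (stt u t).1 (mvf (stt u t).1 (stt u t).2),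
      stL (stt u t).1 (mvf (stt u t).1 (stt u t).2) (stt u t).2)

theorem exists_path (u : Fin 4 → ℝ) (hpos : ∀ i, 0 < u i) (hη : u 0 + u 1 < u 2 + u 3)
    (hI : Irr u) : ∃ p : Path, (∀ t i, 0 < p.U u t i) ∧ (∀ t, Cn (p.lab t) (p.U u t)) ∧
      (∀ t, Adm (p.lab t) (p.mv t) (p.U u t)) ∧ ∀ T, ∃ t, T ≤ t ∧ (p.mv t).sw := by
  have hinv : ∀ t, Irr (stt u t).2 ∧ Cn (stt u t).1 (stt u t).2 := by
    intro t
    induction t with
    | zero =>
      refine ⟨hI, (hpos 0).le, (hpos 1).le, (hpos 2).le, (hpos 3).le, hη.le, ?_, ?_⟩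
      · intro h
        exact absurd h (by simp [stt])
      · intro h
        exact absurd h (by simp [stt])
    | succ t ih =>
      have hok := mvf_ok ih.1 ih.2
      exact ⟨Irr_step _ _ ih.1, forward ih.2 hok.1 hok.2⟩
  let p : Path := ⟨fun t => (stt u t).1, fun t => mvf (stt u t).1 (stt u t).2, rfl,
    fun t => (mvf_ok (hinv t).1 (hinv t).2).1, fun t => rfl⟩
  have hU : ∀ t, p.U u t = (stt u t).2 := by
    intro t
    induction t with
    | zero => rfl
    | succ t ih =>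
      change stL (p.lab t) (p.mv t) (p.U u t) = stL _ _ (stt u t).2
      rw [ih]
  have hCn : ∀ t, Cn (p.lab t) (p.U u t) := by
    intro t
    rw [hU t]
    exact (hinv t).2
  have hAdm : ∀ t, Adm (p.lab t) (p.mv t) (p.U u t) := by
    intro t
    rw [hU t]
    exact (mvf_ok (hinv t).1 (hinv t).2).2
  have hp : ∀ t i, 0 < p.U u t i := by
    intro t i
    rw [hU t]
    exact pos_of_Cn (hinv t).1 (hinv t).2 i
  refine ⟨p, hp, hCn, hAdm, fun T => ?_⟩
  by_contra hcon
  push Not at hcon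
  have hmv : ∀ t, T ≤ t → p.mv t = .e1 ∨ p.mv t = .e2 := by
    intro t ht
    have h1 := hcon t ht
    cases hm : p.mv t with
    | e1 => exact Or.inl rfl
    | e2 => exact Or.inr rfl
    | zn => exact absurd (Or.inl hm) h1
    | zw => exact absurd (Or.inr hm) h1
  have hstep : ∀ t, p.U u (t + 1) = stL (p.lab t) (p.mv t) (p.U u t) := fun t => rfl
  have hsum : ∀ n, p.U u (T + n) 0 = p.U u T 0 ∧ p.U u (T + n) 1 = p.U u T 1 := by
    intro n
    induction n with
    | zero => exact ⟨rfl, rfl⟩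
    | succ n ih =>
      rw [← Nat.add_assoc, hstep]
      rcases hmv (T + n) (Nat.le_add_right _ _) with h | h
      · rw [h]
        exact ⟨ih.1, ih.2⟩
      · rw [h]
        exact ⟨ih.1, ih.2⟩
  refine Eu_false (η := p.U u T 0 + p.U u T 1) (add_pos (hp T 0) (hp T 1))
    (x := fun t => p.U u t 2) (y := fun t => p.U u t 3) (T := T) ?_
  intro t ht
  obtain ⟨n, rfl⟩ := Nat.exists_eq_add_of_le ht
  have h0 := (hsum n).1
  have h1 := (hsum n).2
  refine ⟨hp _ 2, hp _ 3, ?_⟩
  have ha := hAdm (T + n)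
  rcases hmv (T + n) ht with h | h
  · left
    rw [h] at ha
    have ha2 : p.U u (T + n) 0 + p.U u (T + n) 1 ≤ p.U u (T + n) 2 := ha.2
    rw [h0, h1] at ha2
    refine ⟨ha2, ?_, ?_⟩
    · change p.U u (T + n + 1) 2 = _
      rw [hstep, h]
      rfl
    · change p.U u (T + n + 1) 3 = _
      rw [hstep, h]
      rfl
  · right
    rw [h] at ha
    have ha2 : p.U u (T + n) 0 + p.U u (T + n) 1 ≤ p.U u (T + n) 3 := ha.2
    rw [h0, h1] at ha2
    refine ⟨ha2, ?_, ?_⟩
    · change p.U u (T + n + 1) 3 = _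
      rw [hstep, h]
      rfl
    · change p.U u (T + n + 1) 2 = _
      rw [hstep, h]
      rfl

end Pool.Agent.IC61
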