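import Pool.Agent.IC61.Al9
import Pool.Agent.IC61.Gd4
import Pool.Agent.IC61.Pe2
import Pool.Agent.IC61.Cl2
import Pool.Agent.IC61.Cl3

set_option autoImplicit false

/-!
# IC61/Cl4: two invariant measures give a bad path of classes (MP_0d1f6d_an, helper61)

PROOF. `exists_path` gives `p`. `u ∈ p.Kinf` (the third fact), `v ∈ p.Kinf` by `GD_Kinf`. Let
`δ = min (ε / 4) 1` and `T` from `late_switch` (`a = u`, `b = v`, `δ`).
Switch times: `τ 0` = the first switch `≥ T`, `τ (n+1)` = the first switch `≥ τ n + 1` (`Nat.find`), so there is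
no switch strictly between `τ n` and `τ (n+1)`.
For `t : ℕ` let `o t = QZ (p.H E0 t 0) (p.H E0 t 1)`; by `Sp_path` (and the second condition of `Sp`)
`Sp (o t) (p.H E0 t)`. Let `cs n = cls (o (τ n)) (p.H E0 (τ n))`, `zs n = zv (p.lab (τ n)) (p.H E0 (τ n))`.
(0) `lat`: `lat_zv`, `H_yv`, `H_ge_one`.
(1) `cs (n+1) = nxt (cs n) (zs n) b`, `b = decide (o (τ n) = 1)`: by `Sp_sw` the class at time `τ n + 1` is
`nxt ..` (its sign is `o (τ n + 1)` by the second condition of `Sp`), and by `Sp_e` it does not change up to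
`τ (n+1)` (induction). `fx (cs n) u = o * (U 0 + U 1)` (`fx_eq`), `U i > 0`, `o = ± 1`, so `0 < fx ↔ o = 1`.
Notation at `t = τ n`: `U i = p.U u t i`, `X i = p.H y0 t i ≥ 1`, `w = X 0 - X 1 > 0` (`AtGe_y0`, index 0 of
`atH`), and `U', X'` at `t' = τ (n+1)`. `|fx| = U 0 + U 1`, `fB = U 0 * X 0 + U 1 * X 1`, `fA = U 2 * X 2 + U 3 * X 3`
(`fx_eq`, `fA_eq`, `fB_eq`). `late_switch`: `zH ≤ δ X 1`, `w ≤ δ X 1`, the same at `t'`.
(2) `yv (zs n) = zH (p.lab t) X ≤ δ X 1` (`H_yv`), and `fB ≥ (U 0 + U 1) * X 1` as `X 0 ≥ X 1`; so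
`yv (zs n) * |fx| ≤ δ fB`.
(3) `fB ≤ (U 0 + U 1) * X 0 ≤ (U 0 + U 1) * 2 * X 1` (`X 0 = X 1 + w ≤ 2 X 1`), and by `between`
`X 1 ≤ X' 2`, `X 1 ≤ X' 3`, so `X 1 ≤ zH' ≤ δ X' 1`. `fB' ≥ (U' 0 + U' 1) * X' 1`. So
`fB * |fx'| ≤ 2 δ (U 0 + U 1) X' 1 (U' 0 + U' 1) ≤ 2 δ fB' * |fx|`.
(4) `fB (cs (n+1)) u ≤ fA (cs n) u`: `cs (n+1)` is the class at time `t + 1`, so by `fB_eq` at time `t + 1`
`fB (cs (n+1)) u = U⁺ 0 * X⁺ 0 + U⁺ 1 * X⁺ 1` with the values at `t + 1`, which are given by `stL`, `stH`. Label `≠ K`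
(both `zn` and `zw`): `U⁺ 0 = P - η`, `U⁺ 1 = η - U 2`, `X⁺ 0 = X 3 + w`, `X⁺ 1 = X 3 + w - X 2`, and
`fA - fB⁺ = η * X 2 - U 3 * w ≥ 0` because `U 3 ≤ η` (`Sc`, `Kinf_sc` or `Adm`), `w ≤ X 2` (`H_sw`). Label `K`:
`U⁺ 0 = P - η`, `U⁺ 1 = η - U 3`, `X⁺ 0 = X 2 - w`, `X⁺ 1 = X 2 - w - X 3`, `fA - fB⁺ = η * X 3 + U 2 * w ≥ 0`.
(5) `fA, fB > 0`, `fx ≠ 0`; `fB = pr u y0 - fA ≤ pr u y0` by definition.
-/

namespace Pool.Agent.IC61

private lemma cl4_Sp (p : Path) (t : ℕ) :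
    Sp (QZ (p.H E0 t 0) (p.H E0 t 1)) (p.H E0 t) := by
  obtain ⟨o, ho⟩ := Sp_path p t
  have h : QZ (p.H E0 t 0) (p.H E0 t 1) = o := ho.2.1
  rw [h]
  exact ho

private lemma cl4_cls (p : Path) {s t : ℕ} (hst : s ≤ t)
    (hno : ∀ r, s ≤ r → r < t → ¬ (p.mv r).sw) :
    cls (QZ (p.H E0 t 0) (p.H E0 t 1)) (p.H E0 t) =
      cls (QZ (p.H E0 s 0) (p.H E0 s 1)) (p.H E0 s) := by
  induction t, hst using Nat.le_induction with
  | base => rfl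
  | succ n hn ih =>
    have h1 := ih (fun r h1 h2 => hno r h1 (h2.trans (Nat.lt_succ_self n)))
    have hm := hno n hn (Nat.lt_succ_self n)
    obtain ⟨h2, h3⟩ := Sp_e (l := p.lab n) hm (cl4_Sp p n)
    have h4 : p.H E0 (n + 1) = stH (p.lab n) (p.mv n) (p.H E0 n) := rfl
    have h5 : QZ (p.H E0 (n + 1) 0) (p.H E0 (n + 1) 1) = QZ (p.H E0 n 0) (p.H E0 n 1) := by
      rw [h4]
      exact h2.2.1
    rw [h5, ← h1, ← h3, h4]

private lemma cl4_sw (p : Path) {t : ℕ} (hm : (p.mv t).sw) (b : Bool)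
    (hb : b = true ↔ QZ (p.H E0 t 0) (p.H E0 t 1) = 1) :
    cls (QZ (p.H E0 (t + 1) 0) (p.H E0 (t + 1) 1)) (p.H E0 (t + 1)) =
      nxt (cls (QZ (p.H E0 t 0) (p.H E0 t 1)) (p.H E0 t)) (zv (p.lab t) (p.H E0 t)) b := by
  obtain ⟨o', h1, h2⟩ := Sp_sw (l := p.lab t) hm (cl4_Sp p t)
  have h4 : p.H E0 (t + 1) = stH (p.lab t) (p.mv t) (p.H E0 t) := rfl
  have h5 : QZ (p.H E0 (t + 1) 0) (p.H E0 (t + 1) 1) = o' := by
    rw [h4]
    exact h1.2.1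
  rw [h5, h4]
  exact h2 b hb

private lemma cl4_pm {o : ℤ} (h : o = 1 ∨ o = -1) {s : ℝ} (hs : 0 < s) :
    (0 < (o : ℝ) * s ↔ o = 1) ∧ |(o : ℝ) * s| = s ∧ (o : ℝ) * s ≠ 0 := by
  rcases h with rfl | rfl
  · refine ⟨?_, ?_, ?_⟩
    · simp [hs]
    · simp [abs_of_pos hs]
    · simp [hs.ne']
  · refine ⟨?_, ?_, ?_⟩
    · constructor
      · intro h
        push_cast at h
        linarith
      · intro h
        norm_num at h
    · simp [abs_of_pos hs]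
    · simp [hs.ne']

private lemma cl4_fB (l : Lab) (m : Mv) (hm : m.sw) (U X : Fin 4 → ℝ) (hS : Sc U)
    (h2 : 0 ≤ U 2) (hX3 : 0 ≤ X 3)
    (hw : 0 ≤ X 0 - X 1) (hz : X 0 - X 1 ≤ zH l X) :
    (stL l m U) 0 * (stH l m X) 0 + (stL l m U) 1 * (stH l m X) 1 ≤ U 2 * X 2 + U 3 * X 3 := by
  obtain ⟨s0, s1, s2, s3, s4⟩ := hS
  by_cases hl : l = .K
  · have hm' : (stL l m U) 0 = U 2 + U 3 - U 0 - U 1 ∧ (stL l m U) 1 = U 0 + U 1 - U 3 ∧
        (stH l m X) 0 = X 2 + (X 1 - X 0) ∧ (stH l m X) 1 = X 2 + (X 1 - X 0) - X 3 := by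
      rcases hm with rfl | rfl <;> simp [stL, stH, hl]
    obtain ⟨e1, e2, e3, e4⟩ := hm'
    rw [e1, e2, e3, e4]
    have f1 : 0 ≤ U 2 * (X 0 - X 1) := mul_nonneg h2 hw
    have f2 : 0 ≤ (U 0 + U 1) * X 3 := mul_nonneg (by linarith) hX3
    nlinarith
  · have hm' : (stL l m U) 0 = U 2 + U 3 - U 0 - U 1 ∧ (stL l m U) 1 = U 0 + U 1 - U 2 ∧
        (stH l m X) 0 = X 3 + (X 0 - X 1) ∧ (stH l m X) 1 = X 3 + (X 0 - X 1) - X 2 := by
      rcases hm with rfl | rfl <;> simp [stL, stH, hl]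
    obtain ⟨e1, e2, e3, e4⟩ := hm'
    rw [e1, e2, e3, e4]
    simp only [zH, hl, if_false] at hz
    have f1 : U 3 * (X 0 - X 1) ≤ (U 0 + U 1) * X 2 :=
      mul_le_mul s3 hz hw (by linarith)
    nlinarith

theorem bad_path (u : Fin 4 → ℝ) (hpos : ∀ i, 0 < u i) (hη : u 0 + u 1 < u 2 + u 3)
    (hI : Irr u) (v : Fin 4 → ℝ) (hG : GD u v) (hnp : ∀ κ : ℝ, v ≠ κ • u) {ε : ℝ} (hε : 0 < ε) :
    ∃ (cs : ℕ → Cls) (zs : ℕ → Fin 4 → ℤ), ∀ n, lat (cs n) (zs n) ∧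
      (∃ b : Bool, (b = true ↔ 0 < fx (cs n) u) ∧ cs (n + 1) = nxt (cs n) (zs n) b) ∧
      yv (zs n) * |fx (cs n) u| ≤ ε * fB (cs n) u ∧
      fB (cs n) u * |fx (cs (n + 1)) u| ≤ ε * fB (cs (n + 1)) u * |fx (cs n) u| ∧
      fB (cs (n + 1)) u ≤ fA (cs n) u ∧ 0 < fA (cs n) u ∧ 0 < fB (cs n) u ∧ fx (cs n) u ≠ 0 ∧
      fB (cs n) u ≤ pr u y0 := by
  classical
  obtain ⟨p, hP, hC, hadm, hsw⟩ := exists_path u hpos hη hI
  have huK : u ∈ p.Kinf := hC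
  have hvK : v ∈ p.Kinf := GD_Kinf p hP hC hadm hG
  set δ : ℝ := min (ε / 4) 1 with hδdef
  have hδ : 0 < δ := lt_min (by positivity) one_pos
  have hδε : δ ≤ ε / 4 := min_le_left _ _
  have hδ1 : δ ≤ 1 := min_le_right _ _
  obtain ⟨T, hT⟩ := late_switch p hsw u huK hP v hvK hnp hδ
  let nx : ℕ → ℕ := fun t => Nat.find (hsw t)
  have nx1 : ∀ t, t ≤ nx t := fun t => (Nat.find_spec (hsw t)).1
  have nx2 : ∀ t, (p.mv (nx t)).sw := fun t => (Nat.find_spec (hsw t)).2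
  have nx3 : ∀ t r, t ≤ r → r < nx t → ¬ (p.mv r).sw := fun t r h1 h2 h3 =>
    Nat.find_min (hsw t) h2 ⟨h1, h3⟩
  let τ : ℕ → ℕ := fun n => Nat.rec (nx T) (fun _ t => nx (t + 1)) n
  have τ0 : τ 0 = nx T := rfl
  have τs : ∀ n, τ (n + 1) = nx (τ n + 1) := fun n => rfl
  have τsw : ∀ n, (p.mv (τ n)).sw := by
    intro n
    cases n with
    | zero => exact nx2 T
    | succ n => exact nx2 _
  have τlt : ∀ n, τ n < τ (n + 1) := fun n => nx1 (τ n + 1)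
  have τT : ∀ n, T ≤ τ n := by
    intro n
    induction n with
    | zero => exact nx1 T
    | succ n ih => exact ih.trans (τlt n).le
  have τno : ∀ n r, τ n < r → r < τ (n + 1) → ¬ (p.mv r).sw := fun n r h1 h2 =>
    nx3 (τ n + 1) r h1 h2
  let o : ℕ → ℤ := fun t => QZ (p.H E0 t 0) (p.H E0 t 1)
  have hSp : ∀ t, Sp (o t) (p.H E0 t) := fun t => cl4_Sp p t
  let C : ℕ → Cls := fun t => cls (o t) (p.H E0 t)
  have hC1 : ∀ n, C (τ (n + 1)) = C (τ n + 1) := fun n =>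
    cl4_cls p (τlt n) (fun r h1 h2 => τno n r h1 h2)
  have hUs : ∀ t, 0 < p.U u t 0 + p.U u t 1 := fun t => add_pos (hP t 0) (hP t 1)
  have hfx : ∀ t, fx (C t) u = (o t : ℝ) * (p.U u t 0 + p.U u t 1) := fun t =>
    fx_eq p u t (hSp t)
  have hfA : ∀ t, fA (C t) u = p.U u t 2 * p.H y0 t 2 + p.U u t 3 * p.H y0 t 3 := fun t =>
    fA_eq p u t (hSp t)
  have hfB : ∀ t, fB (C t) u = p.U u t 0 * p.H y0 t 0 + p.U u t 1 * p.H y0 t 1 := fun t =>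
    fB_eq p u t (hSp t)
  have hX : ∀ t i, 0 < p.H y0 t i := fun t i => lt_of_lt_of_le one_pos (H_ge_one p t i)
  have hw : ∀ t, p.H y0 t 1 < p.H y0 t 0 := by
    intro t
    have h := AtGe_y0 p t 0
    have h' : atH (p.lab t) (p.H y0 t) 0 = p.H y0 t 0 - p.H y0 t 1 := by
      unfold atH
      split_ifs <;> rfl
    rw [h'] at h
    linarith
  have hfAp : ∀ t, 0 < fA (C t) u := by
    intro t
    rw [hfA]
    exact add_pos (mul_pos (hP t 2) (hX t 2)) (mul_pos (hP t 3) (hX t 3))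
  have hfBp : ∀ t, 0 < fB (C t) u := by
    intro t
    rw [hfB]
    exact add_pos (mul_pos (hP t 0) (hX t 0)) (mul_pos (hP t 1) (hX t 1))
  have hfBge : ∀ t, (p.U u t 0 + p.U u t 1) * p.H y0 t 1 ≤ fB (C t) u := by
    intro t
    rw [hfB]
    have := mul_le_mul_of_nonneg_left (hw t).le (hP t 0).le
    linarith
  have hfBle : ∀ t, fB (C t) u ≤ (p.U u t 0 + p.U u t 1) * p.H y0 t 0 := by
    intro t
    rw [hfB]
    have := mul_le_mul_of_nonneg_left (hw t).le (hP t 1).le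
    linarith
  have habs : ∀ t, |fx (C t) u| = p.U u t 0 + p.U u t 1 := by
    intro t
    rw [hfx]
    exact (cl4_pm (hSp t).1 (hUs t)).2.1
  have hyz : ∀ t, yv (zv (p.lab t) (p.H E0 t)) = zH (p.lab t) (p.H y0 t) := by
    intro t
    unfold zv zH
    split_ifs
    · exact (H_yv p t 3).symm
    · exact (H_yv p t 2).symm
  refine ⟨fun n => C (τ n), fun n => zv (p.lab (τ n)) (p.H E0 (τ n)), fun n => ?_⟩
  have hTn := hT (τ n) (τT n) (τsw n)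
  have hTn' := hT (τ (n + 1)) (τT (n + 1)) (τsw (n + 1))
  refine ⟨?_, ?_, ?_, ?_, ?_, hfAp _, hfBp _, ?_, ?_⟩
  · refine lat_zv (hSp (τ n)) ?_ ?_ ?_
    · rw [← H_yv]; exact hX _ _
    · rw [← H_yv]; exact hX _ _
    · rw [← H_yv]; exact hX _ _
  · refine ⟨decide (o (τ n) = 1), ?_, ?_⟩
    · rw [decide_eq_true_iff]
      change _ ↔ 0 < fx (C (τ n)) u
      rw [hfx]
      exact (cl4_pm (hSp (τ n)).1 (hUs (τ n))).1.symm
    · change C (τ (n + 1)) = _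
      rw [hC1]
      exact cl4_sw p (τsw n) _ (by rw [decide_eq_true_iff])
  · change yv (zv (p.lab (τ n)) (p.H E0 (τ n))) * |fx (C (τ n)) u| ≤ ε * fB (C (τ n)) u
    rw [hyz, habs]
    have h1 := mul_le_mul_of_nonneg_right hTn.1 (hUs (τ n)).le
    have h2 := mul_le_mul_of_nonneg_left (hfBge (τ n)) hδ.le
    have h3 : δ * fB (C (τ n)) u ≤ ε * fB (C (τ n)) u :=
      mul_le_mul_of_nonneg_right (by linarith) (hfBp _).le
    linarith
  · change fB (C (τ n)) u * |fx (C (τ (n + 1))) u| ≤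
      ε * fB (C (τ (n + 1))) u * |fx (C (τ n)) u|
    rw [habs, habs]
    obtain ⟨-, -, b2, b3⟩ := between p (τsw n) (τlt n) (τno n)
    have hz : p.H y0 (τ n) 1 ≤ zH (p.lab (τ (n + 1))) (p.H y0 (τ (n + 1))) := by
      unfold zH
      split_ifs
      · exact b3
      · exact b2
    have h1 : p.H y0 (τ n) 1 ≤ δ * p.H y0 (τ (n + 1)) 1 := hz.trans hTn'.1
    have h2 : p.H y0 (τ n) 0 ≤ 2 * p.H y0 (τ n) 1 := by
      have h3 := hTn.2
      have h4 : δ * p.H y0 (τ n) 1 ≤ 1 * p.H y0 (τ n) 1 :=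
        mul_le_mul_of_nonneg_right hδ1 (hX _ _).le
      linarith
    set s := p.U u (τ n) 0 + p.U u (τ n) 1 with hs
    set s' := p.U u (τ (n + 1)) 0 + p.U u (τ (n + 1)) 1 with hs'
    have hs0 : 0 < s := hUs _
    have hs0' : 0 < s' := hUs _
    have h5 : fB (C (τ n)) u ≤ s * (2 * (δ * p.H y0 (τ (n + 1)) 1)) := by
      refine (hfBle (τ n)).trans (mul_le_mul_of_nonneg_left ?_ hs0.le)
      linarith
    have h6 : s' * p.H y0 (τ (n + 1)) 1 ≤ fB (C (τ (n + 1))) u := hfBge (τ (n + 1))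
    calc fB (C (τ n)) u * s' ≤ s * (2 * (δ * p.H y0 (τ (n + 1)) 1)) * s' :=
          mul_le_mul_of_nonneg_right h5 hs0'.le
      _ = 2 * δ * s * (s' * p.H y0 (τ (n + 1)) 1) := by ring
      _ ≤ 2 * δ * s * fB (C (τ (n + 1))) u := mul_le_mul_of_nonneg_left h6 (by positivity)
      _ ≤ ε * s * fB (C (τ (n + 1))) u := by
          refine mul_le_mul_of_nonneg_right ?_ (hfBp _).le
          exact mul_le_mul_of_nonneg_right (by linarith) hs0.le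
      _ = ε * fB (C (τ (n + 1))) u * s := by ring
  · change fB (C (τ (n + 1))) u ≤ fA (C (τ n)) u
    rw [hC1, hfB, hfA]
    have hz := (H_sw p (τsw n)).2.2.1
    exact cl4_fB (p.lab (τ n)) (p.mv (τ n)) (τsw n) (p.U u (τ n)) (p.H y0 (τ n))
      (Kinf_sc p huK (τsw n)) (hP _ 2).le (hX _ 3).le
      (by linarith [hw (τ n)]) (by linarith)
  · change fx (C (τ n)) u ≠ 0
    rw [hfx]
    exact (cl4_pm (hSp (τ n)).1 (hUs (τ n))).2.2
  · change fB (C (τ n)) u ≤ pr u y0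
    have h1 : fB (C (τ n)) u = pr u y0 - fA (C (τ n)) u := rfl
    rw [h1]
    linarith [hfAp (τ n)]

end Pool.Agent.IC61
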