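import Mathlib

set_option autoImplicit false

/-!
# IC61/Defs: an induction for interval exchanges of four intervals

(MP_0d1f6d_an, helper61, note 1467.)  Lengths `u = (s1, s2, l1, l2)`, `η = s1 + s2 ≤ P = l1 + l2`:
the map of the circle `[0, P)` which first rotates the slit `[0, η)` by `s2` (mod `η`) and then
rotates the circle by `l2` (mod `P`).  Heights (or classes) `h = (ξ1, ξ2, g2, g1)` are dual to the
lengths: `∑ u i • h i` is invariant under all moves.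
-/

namespace Pool.Agent.IC61

/-- Labels: `A` after `zn` before the first `e2`; `K` last move `e2`; `S` after an `e2`, last move
`e1` (also the initial label); `B` after `zw`. -/
inductive Lab | A | K | S | B
deriving DecidableEq

/-- The moves: two Euclidean steps and two switches. -/
inductive Mv | e1 | e2 | zn | zw
deriving DecidableEq

/-- Action of the moves on lengths `(s1, s2, l1, l2)`. With label `K` the switches are preceded by
the reflection `(s1, s2, l1, l2) ↦ (s2, s1, l2, l1)`. -/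
def stL (l : Lab) (m : Mv) (u : Fin 4 → ℝ) : Fin 4 → ℝ :=
  match m with
  | .e1 => ![u 0, u 1, u 2 - u 3, u 3]
  | .e2 => ![u 0, u 1, u 2, u 3 - u 2]
  | .zn => if l = .K then ![u 2 + u 3 - u 0 - u 1, u 0 + u 1 - u 3, u 1 - u 2, u 0 + u 2]
      else ![u 2 + u 3 - u 0 - u 1, u 0 + u 1 - u 2, u 0 - u 3, u 1 + u 3]
  | .zw => if l = .K then ![u 2 + u 3 - u 0 - u 1, u 0 + u 1 - u 3, 2 * u 1 + u 0 - u 2, u 2 - u 1]
      else ![u 2 + u 3 - u 0 - u 1, u 0 + u 1 - u 2, 2 * u 0 + u 1 - u 3, u 3 - u 0]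

/-- Action of the moves on heights `(ξ1, ξ2, g2, g1)`, with values in any additive group. -/
def stH {E : Type*} [AddCommGroup E] (l : Lab) (m : Mv) (h : Fin 4 → E) : Fin 4 → E :=
  match m with
  | .e1 => ![h 0, h 1, h 2, h 3 + h 2]
  | .e2 => ![h 0, h 1, h 2 + h 3, h 3]
  | .zn => if l = .K then ![h 2 + (h 1 - h 0), h 2 + (h 1 - h 0) - h 3, h 3 + h 1, h 3 + h 0]
      else ![h 3 + (h 0 - h 1), h 3 + (h 0 - h 1) - h 2, h 2 + h 0, h 2 + h 1]
  | .zw => if l = .K then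
        ![h 2 + (h 1 - h 0), h 2 + (h 1 - h 0) - h 3, h 3 + h 0, h 3 + h 0 - (h 1 - h 0)]
      else ![h 3 + (h 0 - h 1), h 3 + (h 0 - h 1) - h 2, h 2 + h 1, h 2 + h 1 - (h 0 - h 1)]

/-- The next label. -/
def nl (l : Lab) (m : Mv) : Lab :=
  match m with
  | .zn => .A
  | .zw => .B
  | .e2 => .K
  | .e1 => match l with
    | .A => .A
    | .K => .S
    | .S => .S
    | .B => .B

/-- The admissible moves. -/
def vm (l : Lab) (m : Mv) : Prop :=
  match l with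
  | .A => m = .e1 ∨ m = .e2
  | .B => m ≠ .e2
  | _ => True

/-- `m` is a switch. -/
def Mv.sw (m : Mv) : Prop := m = .zn ∨ m = .zw

/-- Paths of the automaton. -/
structure Path where
  lab : ℕ → Lab
  mv : ℕ → Mv
  lab0 : lab 0 = .S
  valid : ∀ t, vm (lab t) (mv t)
  next : ∀ t, lab (t + 1) = nl (lab t) (mv t)

/-- Lengths along a path. -/
def Path.U (p : Path) (u : Fin 4 → ℝ) : ℕ → Fin 4 → ℝ
  | 0 => u
  | t + 1 => stL (p.lab t) (p.mv t) (p.U u t)

/-- Heights along a path. -/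
def Path.H (p : Path) {E : Type*} [AddCommGroup E] (h : Fin 4 → E) : ℕ → Fin 4 → E
  | 0 => h
  | t + 1 => stH (p.lab t) (p.mv t) (p.H h t)

/-- The pairing of lengths and heights. -/
def pr (u h : Fin 4 → ℝ) : ℝ := u 0 * h 0 + u 1 * h 1 + u 2 * h 2 + u 3 * h 3

/-- The symplectic form. -/
def Q (u v : Fin 4 → ℝ) : ℝ := u 0 * v 1 - u 1 * v 0 + (u 2 * v 3 - u 3 * v 2)

/-- The cones of the labels. -/
def Cn (l : Lab) (u : Fin 4 → ℝ) : Prop :=
  0 ≤ u 0 ∧ 0 ≤ u 1 ∧ 0 ≤ u 2 ∧ 0 ≤ u 3 ∧ u 0 + u 1 ≤ u 2 + u 3 ∧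
    (l = .A → u 0 + u 1 ≤ u 3) ∧ (l = .B → u 3 ≤ u 0 + u 1)

/-- The cone at a switch. -/
def Sc (u : Fin 4 → ℝ) : Prop :=
  0 ≤ u 0 ∧ 0 ≤ u 1 ∧ u 2 ≤ u 0 + u 1 ∧ u 3 ≤ u 0 + u 1 ∧ u 0 + u 1 ≤ u 2 + u 3

/-- The length vectors having the path `p`. -/
def Path.Kinf (p : Path) : Set (Fin 4 → ℝ) := {u | ∀ t, Cn (p.lab t) (p.U u t)}

/-- Inequalities on the lengths under which the move `m` is made. -/
def Adm (l : Lab) (m : Mv) (u : Fin 4 → ℝ) : Prop :=
  match m with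
  | .e1 => u 3 ≤ u 2 ∧ u 0 + u 1 ≤ u 2
  | .e2 => u 2 ≤ u 3 ∧ u 0 + u 1 ≤ u 3
  | .zn => Sc u ∧ (l ≠ .K → u 3 ≤ u 0) ∧ (l = .K → u 2 ≤ u 1)
  | .zw => Sc u ∧ (l ≠ .K → u 0 ≤ u 3) ∧ (l = .K → u 1 ≤ u 2)

/-- Two monotone functions `h`, `k` on `[0, P]` which transform under the two rotations by the
translations `v` when the points are translated by `u` (distribution functions of an invariant
measure before and after the rotation of the slit). -/
def GD (u v : Fin 4 → ℝ) : Prop :=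
  ∃ h k : ℝ → ℝ, MonotoneOn h (Set.Icc 0 (u 2 + u 3)) ∧ MonotoneOn k (Set.Icc 0 (u 2 + u 3)) ∧
    h 0 = 0 ∧ k 0 = 0 ∧
    (∀ x, 0 ≤ x → x ≤ u 0 → k (x + u 1) = h x + v 1) ∧
    (∀ x, u 0 ≤ x → x ≤ u 0 + u 1 → k (x - u 0) = h x - v 0) ∧
    (∀ x, u 0 + u 1 ≤ x → x ≤ u 2 + u 3 → k x = h x) ∧
    (∀ x, 0 ≤ x → x ≤ u 2 → h (x + u 3) = k x + v 3) ∧
    (∀ x, u 2 ≤ x → x ≤ u 2 + u 3 → h (x - u 2) = k x - v 2)

/-- The heights of the atoms: `w = ξ1 - ξ2`, `x = ξ2`, `gh = g2 - w`, `sg = g1 - gh`; for the label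
`K` the last two are `ka = gh - g1` and `g1`. -/
def atH (l : Lab) (h : Fin 4 → ℝ) : Fin 4 → ℝ :=
  if l = .K then ![h 0 - h 1, h 1, h 2 - (h 0 - h 1) - h 3, h 3]
  else ![h 0 - h 1, h 1, h 2 - (h 0 - h 1), h 3 - (h 2 - (h 0 - h 1))]

/-- The coordinates of a length vector dual to the atoms. -/
def atU (l : Lab) (u : Fin 4 → ℝ) : Fin 4 → ℝ :=
  if l = .K then ![u 0 + u 2, u 0 + u 1, u 2, u 2 + u 3]
  else ![u 0 + u 2, u 0 + u 1, u 2 + u 3, u 3]

/-- All atoms have height at least `c`. -/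
def AtGe (c : ℝ) (l : Lab) (h : Fin 4 → ℝ) : Prop := ∀ i, c ≤ atH l h i

/-- The height of the next curve at a switch. -/
def zH (l : Lab) (h : Fin 4 → ℝ) : ℝ := if l = .K then h 3 else h 2

/-- The height of `ξ2` after a switch. -/
def xN (l : Lab) (h : Fin 4 → ℝ) : ℝ :=
  if l = .K then h 2 - (h 0 - h 1) - h 3 else h 3 - (h 2 - (h 0 - h 1))

/-- The length of the next slit at a switch. -/
def zL (l : Lab) (u : Fin 4 → ℝ) : ℝ := if l = .K then u 2 else u 3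

/-- The heights used to measure classes. -/
def y0 : Fin 4 → ℝ := ![2, 1, 2, 2]

end Pool.Agent.IC61
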