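import Pool.Agent.IC61.Al1

set_option autoImplicit false

/-!
# IC61/Gd1: transport of a pair of monotone functions, Euclidean steps (MP_0d1f6d_an, helper61)

PROOF. The same functions `h`, `k` work.
`e1` (`u 3 ≤ u 2`, `u 0 + u 1 ≤ u 2`; new `l1' = u 2 - u 3`, `P' = u 2`): monotonicity, `h 0 = k 0 = 0` and
the first three relations are restrictions (`P' = u 2 ≤ P`). `(g4')`, `0 ≤ x ≤ u 2 - u 3`: old `(g4)`.
`(g5')`, `u 2 - u 3 ≤ x ≤ u 2`: to show `h (x - (u 2 - u 3)) = k x - (v 2 - v 3)`. By `(g4)` `h (x + u 3) =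
k x + v 3` (`0 ≤ x ≤ u 2`); `x + u 3 ≥ u 2 ≥ u 0 + u 1` so by `(g3)` `k (x + u 3) = h (x + u 3)`; by `(g5)` at
`x + u 3 ∈ [u 2, u 2 + u 3]`: `h (x + u 3 - u 2) = k (x + u 3) - v 2`. Combine.
`e2` (`u 2 ≤ u 3`, `u 0 + u 1 ≤ u 3`; new `l2' = u 3 - u 2`, `P' = u 3`): `(g4')`, `0 ≤ x ≤ u 2`:
`h (x + (u 3 - u 2)) = k x + (v 3 - v 2)`: by `(g4)` `h (x + u 3) = k x + v 3`, `x + u 3 ≥ u 3 ≥ u 0 + u 1` so
`k (x + u 3) = h (x + u 3)` by `(g3)`, and `x + u 3 ≥ u 2`, so `(g5)`: `h (x + u 3 - u 2) =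
k (x + u 3) - v 2`. `(g5')`, `u 2 ≤ x ≤ u 3`: old `(g5)`.
`GD_Cn`: with `h, k`: `v 3 = h (u 3)` (`(g4)` at 0), `v 2 = k (u 2)` (`(g5)` at `u 2`), `v 0 = h (u 0)` (`(g2)` at
`u 0`), `v 1 = k (u 1)` (`(g1)` at 0), `h (u 0 + u 1) = v 0 + v 1` (`(g2)` at `u 0 + u 1` and `k (u 1) = v 1`),
`h (u 2 + u 3) = v 2 + v 3` (`(g4)` at `u 2`); monotonicity gives everything.
-/

namespace Pool.Agent.IC61

lemma GD_e1 {u v : Fin 4 → ℝ} (hpos : ∀ i, 0 < u i) (h1 : u 3 ≤ u 2) (h2 : u 0 + u 1 ≤ u 2)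
    (hG : GD u v) : GD ![u 0, u 1, u 2 - u 3, u 3] ![v 0, v 1, v 2 - v 3, v 3] := by
  obtain ⟨h, k, hm, km, hh0, hk0, g1, g2, g3, g4, g5⟩ := hG
  have p0 := hpos 0
  have p1 := hpos 1
  have p2 := hpos 2
  have p3 := hpos 3
  have hsub : Set.Icc 0 (u 2 - u 3 + u 3) ⊆ Set.Icc 0 (u 2 + u 3) :=
    Set.Icc_subset_Icc_right (by linarith)
  have G3 : ∀ x, u 0 + u 1 ≤ x → x ≤ u 2 - u 3 + u 3 → k x = h x :=
    fun x hx hx' => g3 x hx (by linarith)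
  have G4 : ∀ x, 0 ≤ x → x ≤ u 2 - u 3 → h (x + u 3) = k x + v 3 :=
    fun x hx hx' => g4 x hx (by linarith)
  have G5 : ∀ x, u 2 - u 3 ≤ x → x ≤ u 2 - u 3 + u 3 →
      h (x - (u 2 - u 3)) = k x - (v 2 - v 3) := by
    intro x hx hx'
    have a4 := g4 x (by linarith) (by linarith)
    have a3 := g3 (x + u 3) (by linarith) (by linarith)
    have a5 := g5 (x + u 3) (by linarith) (by linarith)
    have e : x - (u 2 - u 3) = x + u 3 - u 2 := by ring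
    rw [e, a5, a3, a4]
    ring
  exact ⟨h, k, hm.mono hsub, km.mono hsub, hh0, hk0, g1, g2, G3, G4, G5⟩

lemma GD_e2 {u v : Fin 4 → ℝ} (hpos : ∀ i, 0 < u i) (h1 : u 2 ≤ u 3) (h2 : u 0 + u 1 ≤ u 3)
    (hG : GD u v) : GD ![u 0, u 1, u 2, u 3 - u 2] ![v 0, v 1, v 2, v 3 - v 2] := by
  obtain ⟨h, k, hm, km, hh0, hk0, g1, g2, g3, g4, g5⟩ := hG
  have p0 := hpos 0
  have p1 := hpos 1
  have p2 := hpos 2
  have p3 := hpos 3
  have hsub : Set.Icc 0 (u 2 + (u 3 - u 2)) ⊆ Set.Icc 0 (u 2 + u 3) :=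
    Set.Icc_subset_Icc_right (by linarith)
  have G3 : ∀ x, u 0 + u 1 ≤ x → x ≤ u 2 + (u 3 - u 2) → k x = h x :=
    fun x hx hx' => g3 x hx (by linarith)
  have G4 : ∀ x, 0 ≤ x → x ≤ u 2 → h (x + (u 3 - u 2)) = k x + (v 3 - v 2) := by
    intro x hx hx'
    have a4 := g4 x hx hx'
    have a3 := g3 (x + u 3) (by linarith) (by linarith)
    have a5 := g5 (x + u 3) (by linarith) (by linarith)
    have e : x + (u 3 - u 2) = x + u 3 - u 2 := by ring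
    rw [e, a5, a3, a4]
    ring
  have G5 : ∀ x, u 2 ≤ x → x ≤ u 2 + (u 3 - u 2) → h (x - u 2) = k x - v 2 :=
    fun x hx hx' => g5 x hx (by linarith)
  exact ⟨h, k, hm.mono hsub, km.mono hsub, hh0, hk0, g1, g2, G3, G4, G5⟩

/-- The inequalities of the cones pass from `u` to `v`. -/
lemma GD_Cn {l : Lab} {u v : Fin 4 → ℝ} (hpos : ∀ i, 0 < u i) (hC : Cn l u) (hG : GD u v) :
    Cn l v := by
  obtain ⟨h, k, hm, km, hh0, hk0, g1, g2, g3, g4, g5⟩ := hG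
  obtain ⟨-, -, -, -, c5, c6, c7⟩ := hC
  have p0 := hpos 0
  have p1 := hpos 1
  have p2 := hpos 2
  have p3 := hpos 3
  have a0 : v 0 = h (u 0) := by
    have := g2 (u 0) le_rfl (by linarith)
    rw [sub_self, hk0] at this
    linarith
  have a1 : v 1 = k (u 1) := by
    have := g1 0 le_rfl p0.le
    rw [zero_add, hh0, zero_add] at this
    exact this.symm
  have a2 : v 2 = k (u 2) := by
    have := g5 (u 2) le_rfl (by linarith)
    rw [sub_self, hh0] at this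
    linarith
  have a3 : v 3 = h (u 3) := by
    have := g4 0 le_rfl p2.le
    rw [zero_add, hk0, zero_add] at this
    exact this.symm
  have a4 : v 0 + v 1 = h (u 0 + u 1) := by
    have := g2 (u 0 + u 1) (by linarith) le_rfl
    rw [add_sub_cancel_left, ← a1] at this
    linarith
  have a5 : v 2 + v 3 = h (u 2 + u 3) := by
    have := g4 (u 2) p2.le le_rfl
    rw [this, ← a2]
  have hmono : ∀ x y, 0 ≤ x → x ≤ y → y ≤ u 2 + u 3 → h x ≤ h y := fun x y hx hxy hy =>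
    hm ⟨hx, hxy.trans hy⟩ ⟨hx.trans hxy, hy⟩ hxy
  have kmono : ∀ x y, 0 ≤ x → x ≤ y → y ≤ u 2 + u 3 → k x ≤ k y := fun x y hx hxy hy =>
    km ⟨hx, hxy.trans hy⟩ ⟨hx.trans hxy, hy⟩ hxy
  refine ⟨?_, ?_, ?_, ?_, ?_, fun hl => ?_, fun hl => ?_⟩
  · rw [a0, ← hh0]; exact hmono _ _ le_rfl p0.le (by linarith)
  · rw [a1, ← hk0]; exact kmono _ _ le_rfl p1.le (by linarith)
  · rw [a2, ← hk0]; exact kmono _ _ le_rfl p2.le (by linarith)
  · rw [a3, ← hh0]; exact hmono _ _ le_rfl p3.le (by linarith)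
  · rw [a4, a5]; exact hmono _ _ (by linarith) c5 le_rfl
  · rw [a4, a3]; exact hmono _ _ (by linarith) (c6 hl) (by linarith)
  · rw [a4, a3]; exact hmono _ _ p3.le (c7 hl) c5

end Pool.Agent.IC61
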