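import Pool.Agent.IC61.Al1

set_option autoImplicit false

/-!
# IC61/Pe1: the induction step (MP_0d1f6d_an, helper61)

PROOF.
`Irr_step`: for every label and move and `n : Fin 4 → ℤ` one has `∑ i, n i * (stL l m u) i = ∑ i, n' i * u i` with
explicit integers `n'` (linear in `n`), e.g. for `e1`: `n' = ![n 0, n 1, n 2, n 3 - n 2]`; `n' = 0` implies `n = 0`
(the moves are invertible over the integers; `omega` from the four equations).
`forward`: case by case, linear inequalities. E.g. `zn`, label `≠ K`: the new vector is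
`(u2 + u3 - η, η - u2, u0 - u3, u1 + u3)`, `η = u0 + u1`: nonnegative because of `Sc` and `u3 ≤ u0`; the sum of the
first two is `u3 ≤ η` = the sum of the last two; label `A`: `u3 ≤ u1 + u3`. `zw`: `(u2 + u3 - η, η - u2, 2u0 + u1 - u3,
u3 - u0)`: `2u0 + u1 - u3 = u0 + (η - u3)`; label `B`: `u3 - u0 ≤ u3`. `e1`, label `A`, `B`: the last length and `η`
are unchanged. (`cases l <;> cases m <;> simp [...] at * <;> (repeat' apply And.intro) <;> linarith`.)
`pos_of_Cn`: `0 ≤ u i` by `Cn` and `u i ≠ 0` by `Irr` with the unit vector.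
`mvf_ok`: label `A`: `η ≤ u3`; if `u3 ≤ u2` the move is `e1`, otherwise `u2 < u3` and it is `e2`. Label `B`: `e2` would
need `η ≤ u3`, with `u3 ≤ η` (`Cn`) `u0 + u1 - u3 = 0`, excluded by `Irr`. If the move is a switch then neither
`u3 ≤ u2 ∧ η ≤ u2` nor `u2 ≤ u3 ∧ η ≤ u3`, so `u2 < η` and `u3 < η`: `Sc`. For the label `A` a switch does not
occur.
-/

namespace Pool.Agent.IC61

/-- Rational independence. -/
def Irr (u : Fin 4 → ℝ) : Prop := ∀ n : Fin 4 → ℤ, n ≠ 0 → ∑ i, (n i : ℝ) * u i ≠ 0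

open Classical in
/-- The choice of the move. -/
noncomputable def mvf (l : Lab) (u : Fin 4 → ℝ) : Mv :=
  if u 3 ≤ u 2 ∧ u 0 + u 1 ≤ u 2 then .e1
  else if u 2 ≤ u 3 ∧ u 0 + u 1 ≤ u 3 then .e2
  else if l = .K then (if u 2 ≤ u 1 then .zn else .zw)
  else (if u 3 ≤ u 0 then .zn else .zw)

private lemma Irr_of {u v : Fin 4 → ℝ} (h : Irr u) (T : (Fin 4 → ℤ) → (Fin 4 → ℤ))
    (hT : ∀ n : Fin 4 → ℤ, ∑ i, (n i : ℝ) * v i = ∑ i, (T n i : ℝ) * u i)
    (h0 : ∀ n, T n = 0 → n = 0) : Irr v := by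
  intro n hn hs
  rw [hT] at hs
  exact h (T n) (fun h' => hn (h0 n h')) hs

private lemma eq_zero4 {n : Fin 4 → ℤ} (h0 : n 0 = 0) (h1 : n 1 = 0) (h2 : n 2 = 0)
    (h3 : n 3 = 0) : n = 0 := by
  funext i
  fin_cases i <;> assumption

private lemma four {n : Fin 4 → ℤ} (h : n = 0) : n 0 = 0 ∧ n 1 = 0 ∧ n 2 = 0 ∧ n 3 = 0 := by
  subst h
  exact ⟨rfl, rfl, rfl, rfl⟩

lemma Irr_step (l : Lab) (m : Mv) {u : Fin 4 → ℝ} (h : Irr u) : Irr (stL l m u) := by
  cases m with
  | e1 =>
    refine Irr_of h (fun n => ![n 0, n 1, n 2, n 3 - n 2]) ?_ ?_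
    · intro n
      simp [Fin.sum_univ_four, stL]
      ring
    · intro n hn
      obtain ⟨h0, h1, h2, h3⟩ := four hn
      simp at h0 h1 h2 h3
      exact eq_zero4 (by omega) (by omega) (by omega) (by omega)
  | e2 =>
    refine Irr_of h (fun n => ![n 0, n 1, n 2 - n 3, n 3]) ?_ ?_
    · intro n
      simp [Fin.sum_univ_four, stL]
      ring
    · intro n hn
      obtain ⟨h0, h1, h2, h3⟩ := four hn
      simp at h0 h1 h2 h3
      exact eq_zero4 (by omega) (by omega) (by omega) (by omega)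
  | zn =>
    by_cases hl : l = .K
    · refine Irr_of h (fun n => ![-n 0 + n 1 + n 3, -n 0 + n 1 + n 2, n 0 - n 2 + n 3, n 0 - n 1])
        ?_ ?_
      · intro n
        simp [Fin.sum_univ_four, stL, hl]
        ring
      · intro n hn
        obtain ⟨h0, h1, h2, h3⟩ := four hn
        simp at h0 h1 h2 h3
        exact eq_zero4 (by omega) (by omega) (by omega) (by omega)
    · refine Irr_of h (fun n => ![-n 0 + n 1 + n 2, -n 0 + n 1 + n 3, n 0 - n 1, n 0 - n 2 + n 3])
        ?_ ?_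
      · intro n
        simp [Fin.sum_univ_four, stL, hl]
        ring
      · intro n hn
        obtain ⟨h0, h1, h2, h3⟩ := four hn
        simp at h0 h1 h2 h3
        exact eq_zero4 (by omega) (by omega) (by omega) (by omega)
  | zw =>
    by_cases hl : l = .K
    · refine Irr_of h (fun n => ![-n 0 + n 1 + n 2, -n 0 + n 1 + 2 * n 2 - n 3, n 0 - n 2 + n 3,
        n 0 - n 1]) ?_ ?_
      · intro n
        simp [Fin.sum_univ_four, stL, hl]
        ring
      · intro n hn
        obtain ⟨h0, h1, h2, h3⟩ := four hn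
        simp at h0 h1 h2 h3
        exact eq_zero4 (by omega) (by omega) (by omega) (by omega)
    · refine Irr_of h (fun n => ![-n 0 + n 1 + 2 * n 2 - n 3, -n 0 + n 1 + n 2, n 0 - n 1,
        n 0 - n 2 + n 3]) ?_ ?_
      · intro n
        simp [Fin.sum_univ_four, stL, hl]
        ring
      · intro n hn
        obtain ⟨h0, h1, h2, h3⟩ := four hn
        simp at h0 h1 h2 h3
        exact eq_zero4 (by omega) (by omega) (by omega) (by omega)

lemma forward {l : Lab} {m : Mv} {u : Fin 4 → ℝ} (hC : Cn l u) (hv : vm l m) (ha : Adm l m u) :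
    Cn (nl l m) (stL l m u) := by
  unfold Cn Adm Sc at *
  cases l <;> cases m <;> simp [vm, nl, stL] at hv ha hC ⊢ <;>
    (try obtain ⟨h1, h2, h3, h4, h5⟩ := hC) <;> (try obtain ⟨h5, h6⟩ := h5) <;>
    (try obtain ⟨g1, g2⟩ := ha) <;> (try obtain ⟨g3, g1⟩ := g1) <;>
    (try obtain ⟨g4, g1⟩ := g1) <;> (try obtain ⟨g5, g1⟩ := g1) <;>
    (try obtain ⟨g6, g1⟩ := g1) <;>
    (repeat' apply And.intro) <;> linarith

lemma pos_of_Cn {l : Lab} {u : Fin 4 → ℝ} (hI : Irr u) (hC : Cn l u) (i : Fin 4) : 0 < u i := by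
  have h0 : 0 ≤ u i := by
    obtain ⟨h0, h1, h2, h3, -⟩ := hC
    fin_cases i <;> assumption
  have h1 : u i ≠ 0 := by
    have h2 := hI (Pi.single i 1) (by
      intro h
      have := congrFun h i
      simp at this)
    intro h
    apply h2
    rw [Finset.sum_eq_single i]
    · simp [h]
    · intro j _ hj
      simp [Pi.single_eq_of_ne hj]
    · intro hi
      exact absurd (Finset.mem_univ i) hi
  exact lt_of_le_of_ne h0 (Ne.symm h1)

private lemma ne_eta {u : Fin 4 → ℝ} (hI : Irr u) : u 0 + u 1 ≠ u 3 := by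
  intro h
  refine hI ![1, 1, 0, -1] ?_ ?_
  · intro h'
    have := congrFun h' 0
    simp at this
  · simp [Fin.sum_univ_four]
    linarith

lemma mvf_ok {l : Lab} {u : Fin 4 → ℝ} (hI : Irr u) (hC : Cn l u) :
    vm l (mvf l u) ∧ Adm l (mvf l u) u := by
  obtain ⟨h0, h1, h2, h3, h4, hA, hB⟩ := hC
  have hne := ne_eta hI
  unfold mvf
  by_cases c1 : u 3 ≤ u 2 ∧ u 0 + u 1 ≤ u 2
  · rw [if_pos c1]
    refine ⟨?_, c1⟩
    cases l <;> simp [vm]
  · rw [if_neg c1]
    by_cases c2 : u 2 ≤ u 3 ∧ u 0 + u 1 ≤ u 3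
    · rw [if_pos c2]
      refine ⟨?_, c2⟩
      cases l with
      | A => simp [vm]
      | K => simp [vm]
      | S => simp [vm]
      | B => exact absurd (le_antisymm c2.2 (hB rfl)) hne
    · rw [if_neg c2]
      have hlA : l ≠ .A := by
        intro hl
        have h5 := hA hl
        rcases le_total (u 3) (u 2) with h6 | h6
        · exact c1 ⟨h6, h5.trans h6⟩
        · exact c2 ⟨h6, h5⟩
      have hSc : Sc u := by
        refine ⟨h0, h1, ?_, ?_, h4⟩
        · by_contra h5
          push Not at h5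
          rcases le_total (u 3) (u 2) with h6 | h6
          · exact c1 ⟨h6, h5.le⟩
          · exact c2 ⟨h6, h5.le.trans h6⟩
        · by_contra h5
          push Not at h5
          rcases le_total (u 3) (u 2) with h6 | h6
          · exact c1 ⟨h6, h5.le.trans h6⟩
          · exact c2 ⟨h6, h5.le⟩
      by_cases hK : l = .K
      · rw [if_pos hK]
        subst hK
        by_cases c3 : u 2 ≤ u 1
        · rw [if_pos c3]
          exact ⟨by simp [vm], hSc, fun h => absurd rfl h, fun _ => c3⟩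
        · rw [if_neg c3]
          exact ⟨by simp [vm], hSc, fun h => absurd rfl h, fun _ => (not_le.1 c3).le⟩
      · rw [if_neg hK]
        by_cases c3 : u 3 ≤ u 0
        · rw [if_pos c3]
          refine ⟨?_, hSc, fun _ => c3, fun h => absurd h hK⟩
          cases l <;> simp [vm] at hlA hK ⊢
        · rw [if_neg c3]
          refine ⟨?_, hSc, fun _ => (not_le.1 c3).le, fun h => absurd h hK⟩
          cases l <;> simp [vm] at hlA hK ⊢

end Pool.Agent.IC61
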