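import Pool.Agent.H51.IetDefs
import Pool.Agent.IC61.Cl0
import Pool.Agent.IC61.Pe1

set_option autoImplicit false

/-!
# IC61/It0: interval exchanges of four intervals, definitions (MP_0d1f6d_an, helper61)
-/

namespace Pool.Agent.IC61

open Pool.Agent.H51.Iet

/-- A monotone function which transforms under the interval exchange with lengths `a` by the
translation lengths computed from `b` (the distribution function of an invariant measure). The
relations are required on the closed intervals. -/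
def HRel (σ : Equiv.Perm (Fin 4)) (a b : Fin 4 → ℝ) : Prop :=
  ∃ h : ℝ → ℝ, MonotoneOn h (Set.Icc 0 (len a)) ∧
    (∀ i, h (left a i) = left b i ∧ h (left a i + a i) = left b i + b i) ∧
    ∀ i x, left a i ≤ x → x ≤ left a i + a i →
      h (x + (leftImage σ a i - left a i)) = h x + (leftImage σ b i - left b i)

/-- `b` is not a multiple of `a`. -/
def NP (a b : Fin 4 → ℝ) : Prop := ∀ κ : ℝ, b ≠ κ • a

/-- Integral matrices with an integral inverse. -/
def Uni (M : Fin 4 → Fin 4 → ℤ) : Prop :=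
  ∃ N : Fin 4 → Fin 4 → ℤ, (∀ a, act N (act M a) = a) ∧ ∀ a, act M (act N a) = a

/-- Analytic curves contained in no proper linear subspace. -/
def GC (J : Set ℝ) (a : ℝ → Fin 4 → ℝ) : Prop :=
  (∀ i, AnalyticOnNhd ℝ (fun s => a s i) J) ∧
    ∀ c : Fin 4 → ℝ, c ≠ 0 → ∃ s ∈ J, ∑ i, c i * a s i ≠ 0

def s4321 : Equiv.Perm (Fin 4) := ⟨![3, 2, 1, 0], ![3, 2, 1, 0], by decide, by decide⟩
def s2431 : Equiv.Perm (Fin 4) := ⟨![1, 3, 2, 0], ![3, 0, 2, 1], by decide, by decide⟩
def s4132 : Equiv.Perm (Fin 4) := ⟨![3, 0, 2, 1], ![1, 3, 2, 0], by decide, by decide⟩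
def s3241 : Equiv.Perm (Fin 4) := ⟨![2, 1, 3, 0], ![3, 1, 0, 2], by decide, by decide⟩
def s4213 : Equiv.Perm (Fin 4) := ⟨![3, 1, 0, 2], ![2, 1, 3, 0], by decide, by decide⟩
def s2413 : Equiv.Perm (Fin 4) := ⟨![1, 3, 0, 2], ![2, 0, 3, 1], by decide, by decide⟩
def s3142 : Equiv.Perm (Fin 4) := ⟨![2, 0, 3, 1], ![1, 3, 0, 2], by decide, by decide⟩

end Pool.Agent.IC61
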