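import Pool.Agent.H51.IetMeasure
import Pool.Agent.IC61.It0

set_option autoImplicit false

/-!
# IC61/It1: the relations of the distribution function of an invariant measure
(MP_0d1f6d_an, helper61)

PROOF. (Most of this is in `Pool/Agent/H51/IetMeasure.lean`, `uniquelyErgodic_of_rank`.) Let `μ` be an
invariant probability measure with `μ (Ico 0 (len a)) = 1`, not equal to normalized Lebesgue measure;
`b j = (μ (Iv a j)).toReal`, `h = Fm μ`.
(1) `h` is monotone. `h (left a i) = left b i`: `Fm μ x = ∑ j, (μ (Iio x ∩ Iv a j)).toReal` (`measure_eq_sum`), for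
`x = left a i` the term is `b j` if `j < i` (`left_add_le`: `Iv a j ⊆ Iio x`) and `0` otherwise. In the same way
`h (left a i + a i) = left b i + b i`.
(2) The relation for `left a i ≤ x < left a i + a i` is `Fm_increment` with `iet_apply`. At the right endpoint
`x = left a i + a i`: take a strictly increasing sequence `u n → x` with `left a i ≤ u n < x`; both sides are
left continuous (`leftCont_Fm`; the translate of a left continuous function is left continuous, the
sequence `u n + t` is strictly increasing), so the relation passes to the limit (`tendsto_nhds_unique`).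
(3) `NP a b`: suppose `b = κ • a`. Then `leftImage σ b i - left b i = κ * (leftImage σ a i - left a i)`, so
`H x = Fm μ x - κ x` is invariant (`Fm_increment`, `iet_apply`), left continuous (`leftCont_sub`), and constant on
`[0, len a)` by `const_of_invariant` (aperiodicity: `aperiodic σ hσ (by norm_num) ha hind`; `hind : Indep a` follows
from `Irr a`). From here on it is word for word the end of the proof of `uniquelyErgodic_of_rank`
(`Fm μ x = κ x` on `[0, len a]`, `κ = 1 / len a`, comparison of the two measures): `μ` is normalized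
Lebesgue measure, a contradiction. `len a > 0` as all `a i > 0`.
-/

namespace Pool.Agent.IC61

open Pool.Agent.H51.Iet

open MeasureTheory Filter Topology

section

variable {σ : Equiv.Perm (Fin 4)} {a : Fin 4 → ℝ} {μ : Measure ℝ}

private lemma Fm_left (ha : ∀ i, 0 < a i) [IsProbabilityMeasure μ]
    (hμ : μ (Set.Ico 0 (len a)) = 1) (i : Fin 4) :
    Fm μ (left a i) = left (fun j => (μ (Iv a j)).toReal) i := by
  unfold Fm
  rw [measure_eq_sum ha hμ measurableSet_Iio]
  unfold left
  apply Finset.sum_congr rfl
  intro j _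
  by_cases h : j < i
  · rw [if_pos h]
    congr 2
    ext y
    simp only [Set.mem_inter_iff, Set.mem_Iio, and_iff_right_iff_imp]
    intro hy
    exact lt_of_lt_of_le hy.2 (left_add_le ha h)
  · rw [if_neg h]
    have h4 : Set.Iio (∑ j : Fin 4, if j < i then a j else 0) ∩ Iv a j = ∅ := by
      rw [Set.eq_empty_iff_forall_notMem]
      rintro y ⟨h4, h5⟩
      have h7 : left a i ≤ left a j := by
        rcases (not_lt.1 h).lt_or_eq with h8 | h8
        · exact le_trans (by linarith [ha i]) (left_add_le ha h8)
        · rw [h8]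
      have h6 : left a i ≤ y := h7.trans h5.1
      exact absurd h4 (not_lt.2 h6)
    rw [h4, measure_empty, ENNReal.toReal_zero]

private lemma Fm_left_add (ha : ∀ i, 0 < a i) [IsProbabilityMeasure μ]
    (hμ : μ (Set.Ico 0 (len a)) = 1) (i : Fin 4) :
    Fm μ (left a i + a i) = left (fun j => (μ (Iv a j)).toReal) i + (μ (Iv a i)).toReal := by
  have h0 : left (fun j => (μ (Iv a j)).toReal) i + (μ (Iv a i)).toReal
      = ∑ j, if j ≤ i then (μ (Iv a j)).toReal else 0 := by
    have h1 : (μ (Iv a i)).toReal = ∑ j, if j = i then (μ (Iv a j)).toReal else 0 := by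
      rw [Finset.sum_ite_eq' Finset.univ i]
      simp
    unfold left
    rw [h1, ← Finset.sum_add_distrib]
    apply Finset.sum_congr rfl
    intro j _
    rcases lt_trichotomy j i with h | h | h
    · rw [if_pos h, if_neg h.ne, if_pos h.le, add_zero]
    · subst h
      simp
    · rw [if_neg (not_lt.2 h.le), if_neg h.ne', if_neg (not_le.2 h), add_zero]
  rw [h0]
  unfold Fm
  rw [measure_eq_sum ha hμ measurableSet_Iio]
  apply Finset.sum_congr rfl
  intro j _
  by_cases h : j ≤ i
  · rw [if_pos h]
    congr 2
    ext y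
    simp only [Set.mem_inter_iff, Set.mem_Iio, and_iff_right_iff_imp]
    intro hy
    rcases h.lt_or_eq with h8 | h8
    · have h9 := left_add_le ha h8
      have h10 := ha i
      have h11 := hy.2
      linarith
    · rw [← h8]
      exact hy.2
  · rw [if_neg h]
    have h4 : Set.Iio (left a i + a i) ∩ Iv a j = ∅ := by
      rw [Set.eq_empty_iff_forall_notMem]
      rintro y ⟨h4, h5⟩
      have h6 := (left_add_le ha (not_le.1 h)).trans h5.1
      exact absurd h4 (not_lt.2 h6)
    rw [h4, measure_empty, ENNReal.toReal_zero]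

private lemma Fm_rel (ha : ∀ i, 0 < a i) [IsProbabilityMeasure μ]
    (hμ : μ (Set.Ico 0 (len a)) = 1) (hinv : μ.map (iet σ a) = μ) (i : Fin 4) {x : ℝ}
    (h1 : left a i ≤ x) (h2 : x ≤ left a i + a i) :
    Fm μ (x + (leftImage σ a i - left a i)) = Fm μ x
      + (leftImage σ (fun j => (μ (Iv a j)).toReal) i - left (fun j => (μ (Iv a j)).toReal) i) := by
  have key : ∀ z, left a i ≤ z → z < left a i + a i →
      Fm μ (z + (leftImage σ a i - left a i)) = Fm μ z
      + (leftImage σ (fun j => (μ (Iv a j)).toReal) i
        - left (fun j => (μ (Iv a j)).toReal) i) := by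
    intro z hz1 hz2
    have h3 := Fm_increment (σ := σ) ha hμ hinv (x := z) (i := i) ⟨hz1, hz2⟩
    have h4 : iet σ a z = z + (leftImage σ a i - left a i) := by
      rw [iet_apply σ ha ⟨hz1, hz2⟩]
    rw [h4] at h3
    linarith
  rcases h2.lt_or_eq with h | h
  · exact key x h1 h
  · have hlt : left a i < x := by
      have := ha i
      linarith
    obtain ⟨u, hu1, hu2, hu3⟩ := exists_seq_strictMono_tendsto' hlt
    have h3 := leftCont_Fm μ u x hu1 hu3
    have h4 : StrictMono fun n => u n + (leftImage σ a i - left a i) := by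
      intro m n hmn
      have := hu1 hmn
      simp only
      linarith
    have h5 := leftCont_Fm μ _ (x + (leftImage σ a i - left a i)) h4 (hu3.add_const _)
    have h6 : (fun n => Fm μ (u n + (leftImage σ a i - left a i))) = fun n => Fm μ (u n)
      + (leftImage σ (fun j => (μ (Iv a j)).toReal) i
        - left (fun j => (μ (Iv a j)).toReal) i) := by
      funext n
      exact key (u n) (hu2 n).1.le (lt_of_lt_of_eq (hu2 n).2 h)
    rw [h6] at h5
    exact tendsto_nhds_unique h5 (h3.add_const _)

private lemma lebesgue_of_inv (ha : ∀ i, 0 < a i)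
    (haper : ∀ x ∈ Set.Ico 0 (len a), ∀ m, 0 < m → (iet σ a)^[m] x ≠ x)
    [hprob : IsProbabilityMeasure μ] (hμ : μ (Set.Ico 0 (len a)) = 1) (hlen : 0 < len a) (κ : ℝ)
    (hHinv : ∀ x ∈ Set.Ico 0 (len a), (fun x => Fm μ x - κ * x) (iet σ a x)
      = (fun x => Fm μ x - κ * x) x) :
    μ = (ENNReal.ofReal (len a))⁻¹ • volume.restrict (Set.Ico 0 (len a)) := by
  have h0mem : (0 : ℝ) ∈ Set.Ico 0 (len a) := ⟨le_rfl, hlen⟩
  have hconst := fun x hx => const_of_invariant σ ha haper (fun x => Fm μ x - κ * x)
    (leftCont_sub _ (leftCont_Fm μ) κ) hHinv (x := x) (y := 0) hx h0mem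
  have hF0 : Fm μ 0 = 0 := by
    unfold Fm
    have h1 : μ (Set.Iio 0) = 0 := by
      have h2 : μ (Set.Ico 0 (len a))ᶜ = 0 := by
        rw [prob_compl_eq_zero_iff measurableSet_Ico]
        exact hμ
      apply measure_mono_null _ h2
      intro z hz hz'
      exact absurd hz (not_lt.2 hz'.1)
    rw [h1, ENNReal.toReal_zero]
  have hFx : ∀ x ∈ Set.Icc 0 (len a), Fm μ x = κ * x := by
    intro x hx
    rcases hx.2.lt_or_eq with h | h
    · have h1 := hconst x ⟨hx.1, h⟩
      simp only [hF0, mul_zero, sub_zero] at h1
      linarith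
    · -- the right endpoint, by left continuity
      obtain ⟨u, hu1, hu2, hu3⟩ := exists_seq_strictMono_tendsto' hlen
      have h2 := leftCont_Fm μ u (len a) hu1 hu3
      have h3 : Tendsto (fun n => κ * u n) atTop (𝓝 (κ * len a)) := hu3.const_mul κ
      have h4 : (fun n => Fm μ (u n)) = fun n => κ * u n := by
        funext n
        have h5 := hconst (u n) ⟨(hu2 n).1.le, (hu2 n).2⟩
        simp only [hF0, mul_zero, sub_zero] at h5
        linarith
      rw [h4] at h2
      rw [h]
      exact tendsto_nhds_unique h2 h3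
  have hFlen : Fm μ (len a) = 1 := by
    unfold Fm
    have h1 : μ (Set.Iio (len a)) = 1 := by
      apply le_antisymm prob_le_one
      rw [← hμ]
      exact measure_mono (fun z hz => hz.2)
    rw [h1, ENNReal.toReal_one]
  have hκlen : κ * len a = 1 := by
    rw [← hFx (len a) ⟨hlen.le, le_rfl⟩]
    exact hFlen
  have hκ' : κ = (len a)⁻¹ := by
    field_simp
    exact hκlen
  -- comparison of the two measures
  have hfin : IsFiniteMeasure ((ENNReal.ofReal (len a))⁻¹ • volume.restrict (Set.Ico 0 (len a))) := by
    refine ⟨?_⟩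
    rw [Measure.smul_apply, Measure.restrict_apply MeasurableSet.univ, Set.univ_inter,
      Real.volume_Ico, sub_zero, smul_eq_mul,
      ENNReal.inv_mul_cancel (by simpa using hlen) ENNReal.ofReal_ne_top]
    exact ENNReal.one_lt_top
  have key : ∀ x, (μ (Set.Iio x)) = ((ENNReal.ofReal (len a))⁻¹ • volume.restrict (Set.Ico 0 (len a)))
      (Set.Iio x) := by
    intro x
    have h1 : μ (Set.Iio x) = ENNReal.ofReal (Fm μ x) := by
      unfold Fm
      rw [ENNReal.ofReal_toReal (measure_ne_top _ _)]
    rw [h1, Measure.smul_apply, Measure.restrict_apply measurableSet_Iio, smul_eq_mul]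
    have h2 : Set.Iio x ∩ Set.Ico 0 (len a) = Set.Ico 0 (min x (len a)) := by
      ext z
      simp only [Set.mem_inter_iff, Set.mem_Iio, Set.mem_Ico, lt_min_iff]
      tauto
    rw [h2, Real.volume_Ico, sub_zero]
    rcases le_total x 0 with hx | hx
    · have h3 : Fm μ x = 0 := by
        apply le_antisymm _ (Fm_nonneg μ x)
        rw [← hF0]
        exact Fm_mono μ hx
      rw [h3, ENNReal.ofReal_of_nonpos (le_trans (min_le_left _ _) hx), mul_zero,
        ENNReal.ofReal_zero]
    · have h3 : Fm μ x = κ * min x (len a) := by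
        rcases le_total x (len a) with hx' | hx'
        · rw [min_eq_left hx']
          exact hFx x ⟨hx, hx'⟩
        · rw [min_eq_right hx', hκlen]
          apply le_antisymm (Fm_le_one μ x)
          rw [← hFlen]
          exact Fm_mono μ hx'
      rw [h3, hκ', ENNReal.ofReal_mul (by positivity), ENNReal.ofReal_inv_of_pos hlen]
  apply Measure.ext_of_Ici
  intro x
  have h1 : Set.Ici x = (Set.Iio x)ᶜ := by
    ext z
    simp
  rw [h1, measure_compl measurableSet_Iio (measure_ne_top _ _),
    measure_compl measurableSet_Iio (measure_ne_top _ _), key x]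
  congr 1
  rw [measure_univ, Measure.smul_apply, Measure.restrict_apply MeasurableSet.univ, Set.univ_inter,
      Real.volume_Ico, sub_zero, smul_eq_mul,
      ENNReal.inv_mul_cancel (by simpa using hlen) ENNReal.ofReal_ne_top]

end

theorem exists_HRel (σ : Equiv.Perm (Fin 4)) (hσ : IrreduciblePerm σ) {a : Fin 4 → ℝ}
    (ha : ∀ i, 0 < a i) (hI : Irr a) (hne : ¬ UniquelyErgodic σ a) :
    ∃ b, HRel σ a b ∧ NP a b := by
  unfold UniquelyErgodic at hne
  push Not at hne
  obtain ⟨μ, hprob, hμ, hinv, hneq⟩ := hne
  have hind : Indep a := by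
    intro c hc
    by_contra h
    exact hI c h hc
  have haper := aperiodic σ hσ (by norm_num) ha hind
  have hlen : 0 < len a := by
    unfold len
    apply Finset.sum_pos (fun i _ => ha i)
    exact ⟨0, Finset.mem_univ _⟩
  refine ⟨fun j => (μ (Iv a j)).toReal, ⟨Fm μ, ?_, ?_, ?_⟩, ?_⟩
  · intro x _ y _ hxy
    exact Fm_mono μ hxy
  · intro i
    exact ⟨Fm_left ha hμ i, Fm_left_add ha hμ i⟩
  · intro i x h1 h2
    exact Fm_rel ha hμ hinv i h1 h2
  · intro κ hκ
    apply hneq
    apply lebesgue_of_inv (σ := σ) ha haper hμ hlen κ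
    intro x hx
    obtain ⟨i, hi⟩ := exists_idx hx
    have h1 := Fm_increment ha hμ hinv hi
    have h2 := iet_apply σ ha hi
    rw [hκ] at h1
    have h3 : leftImage σ (κ • a) i = κ * leftImage σ a i := by
      unfold leftImage
      rw [Finset.mul_sum]
      apply Finset.sum_congr rfl
      intro j _
      simp only [Pi.smul_apply, smul_eq_mul]
      split_ifs <;> simp
    have h4 : left (κ • a) i = κ * left a i := by
      unfold left
      rw [Finset.mul_sum]
      apply Finset.sum_congr rfl
      intro j _
      simp only [Pi.smul_apply, smul_eq_mul]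
      split_ifs <;> simp
    rw [h3, h4] at h1
    simp only
    have h5 : Fm μ (iet σ a x) = Fm μ x + (κ * leftImage σ a i - κ * left a i) := by linarith
    rw [h5, h2]
    ring

end Pool.Agent.IC61
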