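import Pool.Agent.H51.IetBasic
import Pool.Agent.IC61.It0

set_option autoImplicit false

/-!
# IC61/It2: inverse and reflection (MP_0d1f6d_an, helper61)

PROOF.
`HRel_symm`: let `a' k = a (σ.symm k)`, `b' k = b (σ.symm k)`. For `k = σ i`: `a' k = a i`, `left a' k = leftImage σ a i`
(`leftImage_eq`), and `leftImage σ.symm a' k = left a i` (from the definitions, sum over `j` re-indexed by `σ`),
`len a' = len a` (`len_perm`). The same function `h` works: `h (left a' k) = h (leftImage σ a i) =
h (left a i) + leftImage σ b i - left b i = leftImage σ b i` by the relation at `x = left a i`; right endpoints: the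
relation at `x = left a i + a i`. The relation for `k` and `y`, `left a' k ≤ y ≤ left a' k + a' k`: put
`x = y - (leftImage σ a i - left a i)` in the relation for `i`.
`HRel_rev`: let `a' k = a (Fin.rev k)`, `b' k = b (Fin.rev k)`, `L = len a`, `τ k = Fin.rev (σ (Fin.rev k))`. For
`i = Fin.rev k`: `left a' k = L - left a i - a i`, `leftImage τ a' k = L - leftImage σ a i - a i`, the same for `b`
(for `Fin 4` by cases and `Fin.sum_univ_four`, or in general by re-indexing with `Fin.rev`). Take
`h' x = len b - h (L - x)`. It is monotone on `[0, L]`; `h' (left a' k) = len b - h (left a i + a i) = len b - left b i -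
b i = left b' k`, and similarly for right endpoints. Relation: for `x` in the closed interval of `k`, `y = L - x`
is in the closed interval of `i`, and the translation of `k` is minus the translation of `i`:
`h' (x + t') = len b - h (L - x - t') = len b - h (y + t) = len b - h y - t_b = h' x + t'_b`.
-/

namespace Pool.Agent.IC61

open Pool.Agent.H51.Iet

lemma HRel_symm {σ : Equiv.Perm (Fin 4)} {a b : Fin 4 → ℝ} (ha : ∀ i, 0 < a i)
    (h : HRel σ a b) : HRel σ.symm (fun k => a (σ.symm k)) (fun k => b (σ.symm k)) := by
  obtain ⟨h, hmono, hend, hrel⟩ := h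
  have hl : ∀ (c : Fin 4 → ℝ) (k : Fin 4),
      left (fun k => c (σ.symm k)) k = leftImage σ c (σ.symm k) := by
    intro c k
    rw [leftImage_eq, Equiv.apply_symm_apply]
  have hr : ∀ (c : Fin 4 → ℝ) (k : Fin 4),
      leftImage σ.symm (fun k => c (σ.symm k)) k = left c (σ.symm k) := by
    intro c k
    rw [leftImage_eq]
    simp
  refine ⟨h, ?_, ?_, ?_⟩
  · rw [len_perm]
    exact hmono
  · intro k
    have hpos := ha (σ.symm k)
    have h1 := hrel (σ.symm k) (left a (σ.symm k)) le_rfl (by linarith)
    have h2 := hrel (σ.symm k) (left a (σ.symm k) + a (σ.symm k)) (by linarith) le_rfl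
    rw [(hend (σ.symm k)).1] at h1
    rw [(hend (σ.symm k)).2] at h2
    rw [hl a k, hl b k]
    constructor
    · have e1 : left a (σ.symm k) + (leftImage σ a (σ.symm k) - left a (σ.symm k)) =
          leftImage σ a (σ.symm k) := by ring
      rw [e1] at h1
      rw [h1]
      ring
    · have e1 : left a (σ.symm k) + a (σ.symm k) +
          (leftImage σ a (σ.symm k) - left a (σ.symm k)) =
          leftImage σ a (σ.symm k) + a (σ.symm k) := by ring
      rw [e1] at h2
      change h (leftImage σ a (σ.symm k) + a (σ.symm k)) =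
        leftImage σ b (σ.symm k) + b (σ.symm k)
      rw [h2]
      ring
  · intro k y hy1 hy2
    rw [hl a k] at hy1 hy2
    rw [hl a k, hl b k, hr a k, hr b k]
    change y ≤ leftImage σ a (σ.symm k) + a (σ.symm k) at hy2
    have h1 := hrel (σ.symm k) (y + (left a (σ.symm k) - leftImage σ a (σ.symm k)))
      (by linarith) (by linarith)
    have e1 : y + (left a (σ.symm k) - leftImage σ a (σ.symm k)) +
        (leftImage σ a (σ.symm k) - left a (σ.symm k)) = y := by ring
    rw [e1] at h1
    linarith

private lemma It2_left (c : Fin 4 → ℝ) (k : Fin 4) :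
    left (fun k => c (Fin.rev k)) k = len c - left c (Fin.rev k) - c (Fin.rev k) := by
  fin_cases k <;> simp [left, len, Fin.sum_univ_four, Fin.rev, Fin.lt_def] <;> ring

private lemma It2_leftImage (σ τ : Equiv.Perm (Fin 4)) (hτ : ∀ k, τ k = Fin.rev (σ (Fin.rev k)))
    (c : Fin 4 → ℝ) (k : Fin 4) :
    leftImage τ (fun k => c (Fin.rev k)) k =
      len c - leftImage σ c (Fin.rev k) - c (Fin.rev k) := by
  unfold leftImage len
  have h1 : (∑ j : Fin 4, if τ j < τ k then c (Fin.rev j) else 0) =
      ∑ j : Fin 4, if σ (Fin.rev k) < σ j then c j else 0 := by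
    rw [← Equiv.sum_comp Fin.revPerm (fun j => if σ (Fin.rev k) < σ j then c j else 0)]
    apply Finset.sum_congr rfl
    intro j _
    have h0 : τ j < τ k ↔ σ (Fin.rev k) < σ (Fin.rev j) := by
      rw [hτ j, hτ k, Fin.rev_lt_rev]
    simp only [Fin.revPerm_apply, h0]
  have h2 : (∑ j : Fin 4, c j) = (∑ j : Fin 4, if σ j < σ (Fin.rev k) then c j else 0) +
      (∑ j : Fin 4, if j = Fin.rev k then c j else 0) +
      (∑ j : Fin 4, if σ (Fin.rev k) < σ j then c j else 0) := by
    rw [← Finset.sum_add_distrib, ← Finset.sum_add_distrib]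
    apply Finset.sum_congr rfl
    intro j _
    rcases lt_trichotomy (σ j) (σ (Fin.rev k)) with h | h | h
    · have h3 : j ≠ Fin.rev k := by
        rintro rfl
        exact lt_irrefl _ h
      rw [if_pos h, if_neg h3, if_neg (not_lt.2 h.le)]
      ring
    · have h3 : j = Fin.rev k := σ.injective h
      rw [if_neg (not_lt.2 h.ge), if_pos h3, if_neg (not_lt.2 h.le)]
      ring
    · have h3 : j ≠ Fin.rev k := by
        rintro rfl
        exact lt_irrefl _ h
      rw [if_neg (not_lt.2 h.le), if_neg h3, if_pos h]
      ring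
  rw [h1, h2, Finset.sum_ite_eq' Finset.univ (Fin.rev k) c, if_pos (Finset.mem_univ _)]
  ring

private lemma It2_len (c : Fin 4 → ℝ) : len (fun k => c (Fin.rev k)) = len c := by
  unfold len
  exact Equiv.sum_comp Fin.revPerm c

lemma HRel_rev {σ τ : Equiv.Perm (Fin 4)} (hτ : ∀ k, τ k = Fin.rev (σ (Fin.rev k)))
    {a b : Fin 4 → ℝ} (ha : ∀ i, 0 < a i) (h : HRel σ a b) :
    HRel τ (fun k => a (Fin.rev k)) (fun k => b (Fin.rev k)) := by
  obtain ⟨h, hmono, hend, hrel⟩ := h
  refine ⟨fun x => len b - h (len a - x), ?_, ?_, ?_⟩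
  · rw [It2_len]
    intro x hx y hy hxy
    have h1 : len a - y ∈ Set.Icc 0 (len a) := ⟨by linarith [hy.2], by linarith [hy.1]⟩
    have h2 : len a - x ∈ Set.Icc 0 (len a) := ⟨by linarith [hx.2], by linarith [hx.1]⟩
    have h3 := hmono h1 h2 (by linarith)
    change len b - h (len a - x) ≤ len b - h (len a - y)
    linarith
  · intro k
    have e1 := It2_left a k
    have e2 := It2_left b k
    constructor
    · change len b - h (len a - left (fun k => a (Fin.rev k)) k) = left (fun k => b (Fin.rev k)) k
      rw [e1, e2]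
      have e3 : len a - (len a - left a (Fin.rev k) - a (Fin.rev k)) =
          left a (Fin.rev k) + a (Fin.rev k) := by ring
      rw [e3, (hend (Fin.rev k)).2]
      ring
    · change len b - h (len a - (left (fun k => a (Fin.rev k)) k + a (Fin.rev k))) =
        left (fun k => b (Fin.rev k)) k + b (Fin.rev k)
      rw [e1, e2]
      have e3 : len a - (len a - left a (Fin.rev k) - a (Fin.rev k) + a (Fin.rev k)) =
          left a (Fin.rev k) := by ring
      rw [e3, (hend (Fin.rev k)).1]
      ring
  · intro k x hx1 hx2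
    change x ≤ left (fun k => a (Fin.rev k)) k + a (Fin.rev k) at hx2
    rw [It2_left a k] at hx1 hx2
    rw [It2_left a k, It2_left b k, It2_leftImage σ τ hτ a k, It2_leftImage σ τ hτ b k]
    have h1 := hrel (Fin.rev k) (len a - x) (by linarith) (by linarith)
    change len b - h (len a - (x + (len a - leftImage σ a (Fin.rev k) - a (Fin.rev k) -
      (len a - left a (Fin.rev k) - a (Fin.rev k))))) = len b - h (len a - x) +
      (len b - leftImage σ b (Fin.rev k) - b (Fin.rev k) -
      (len b - left b (Fin.rev k) - b (Fin.rev k)))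
    have e1 : len a - (x + (len a - leftImage σ a (Fin.rev k) - a (Fin.rev k) -
        (len a - left a (Fin.rev k) - a (Fin.rev k)))) =
        len a - x + (leftImage σ a (Fin.rev k) - left a (Fin.rev k)) := by ring
    rw [e1, h1]
    ring

end Pool.Agent.IC61
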