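import Pool.Agent.H51.IetBasic
import Pool.Agent.IC61.It0

set_option autoImplicit false

/-!
# IC61/It3: two inverse Rauzy steps (MP_0d1f6d_an, helper61)

PROOF. Write `p = a`, `q = b`, `L = p0 + p1 + p2 + p3`, `Λ = q0 + q1 + q2 + q3`, `h` the given function; `h L = Λ`
(right endpoint of the last interval), `h 0 = 0` (left endpoint of the first one). In both cases the new function is
`g x = h x` for `x ≤ L`, `g x = h (x - L) + Λ` for `x > L`; it is monotone on `[0, L + ℓ]` (`ℓ = p0` resp. `p2`) since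
`h ≥ 0`. (Make the relations explicit by `simp [left, leftImage, Fin.sum_univ_four]` and `decide`.)
`step_A`: `s2431`: the images are in the order `I3 I0 I2 I1`; relations of `h`:
`x ∈ [0, p0]: h (x + p3) = h x + q3`; `x ∈ [p0, p0+p1]: h (x + p3 + p2) = h x + q3 + q2`;
`x ∈ [p0+p1, p0+p1+p2]: h (x + p3 - p1) = h x + q3 - q1`; `x ∈ [p0+p1+p2, L]: h (x - p0 - p1 - p2) = h x - q0 - q1 - q2`.
New lengths `(p0, p1, p2, p3 + p0)`, permutation `s4321`, total length `L + p0`.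
`I0`: `x ∈ [0, p0]`: `g (x + L) = h x + Λ` (for `x = 0` : `h L = Λ`). `I1`, `I2`: the same as the old relations (the
translations and the numbers agree, e.g. `q2 + (q3 + q0) - q0 = q2 + q3`; all points are `≤ L`).
`I3`: `x ∈ [p0+p1+p2, L + p0]`: for `x ≤ L` the old relation; for `x > L`: `g (x - p0 - p1 - p2) = h ((x - L) + p3) =
h (x - L) + q3 = g x - q0 - q1 - q2` by the old relation of `I0`.
Endpoints: the left endpoints are the same; the last right endpoint `L + p0`: `g = h p0 + Λ = q0 + Λ`.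
`step_B`: `s2413`: order `I2 I0 I3 I1`; relations of `h`: `x ∈ [0, p0]: h (x + p2) = h x + q2`;
`x ∈ [p0, p0+p1]: h (x + p2 + p3) = h x + q2 + q3`; `x ∈ [p0+p1, p0+p1+p2]: h (x - p0 - p1) = h x - q0 - q1`;
`x ∈ [p0+p1+p2, L]: h (x - p1) = h x - q1`.
New lengths `(p0, p1 + p2, p3, p2)`, permutation `s2431`, total length `L + p2`.
`I0`: `x ∈ [0, p0]`: translation `p2`: old. `I1`: `x ∈ [p0, p0+p1+p2]`, translation `p2 + p3`: for `x ≤ p0 + p1` old
(`x + p2 + p3 ≤ L`); for `x ≥ p0 + p1`: `x + p2 + p3 ≥ L`, `g (x + p2 + p3) = h (x - p0 - p1) + Λ = h x - q0 - q1 + Λ =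
h x + q2 + q3`. `I2`: `x ∈ [p0+p1+p2, L]`, translation `p2 - p1 - p2 = - p1`: old relation of `I3`. `I3`: `x ∈ [L, L+p2]`:
`g (x - L) = h (x - L) = g x - Λ`. Endpoints: `h (p0) = q0`, `h (p0+p1+p2) = q0+q1+q2`, `h L = Λ`,
`g (L + p2) = h p2 + Λ`, `h p2 = q2` (relation of `I0` at `x = 0`).
-/

namespace Pool.Agent.IC61

open Pool.Agent.H51.Iet

private lemma i3_iff {σ : Equiv.Perm (Fin 4)} {a b : Fin 4 → ℝ} : HRel σ a b ↔
    ∃ h : ℝ → ℝ, MonotoneOn h (Set.Icc 0 (a 0 + a 1 + a 2 + a 3)) ∧ h 0 = 0 ∧ h (a 0) = b 0 ∧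
      h (a 0 + a 1) = b 0 + b 1 ∧ h (a 0 + a 1 + a 2) = b 0 + b 1 + b 2 ∧
      h (a 0 + a 1 + a 2 + a 3) = b 0 + b 1 + b 2 + b 3 ∧
      (∀ x, 0 ≤ x → x ≤ a 0 → h (x + leftImage σ a 0) = h x + leftImage σ b 0) ∧
      (∀ x, a 0 ≤ x → x ≤ a 0 + a 1 →
        h (x + (leftImage σ a 1 - a 0)) = h x + (leftImage σ b 1 - b 0)) ∧
      (∀ x, a 0 + a 1 ≤ x → x ≤ a 0 + a 1 + a 2 →
        h (x + (leftImage σ a 2 - (a 0 + a 1))) = h x + (leftImage σ b 2 - (b 0 + b 1))) ∧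
      (∀ x, a 0 + a 1 + a 2 ≤ x → x ≤ a 0 + a 1 + a 2 + a 3 →
        h (x + (leftImage σ a 3 - (a 0 + a 1 + a 2))) =
          h x + (leftImage σ b 3 - (b 0 + b 1 + b 2))) := by
  have l0 : ∀ a : Fin 4 → ℝ, left a 0 = 0 := fun a => by simp [left]
  have l1 : ∀ a : Fin 4 → ℝ, left a 1 = a 0 := fun a => by simp [left]
  have l2 : ∀ a : Fin 4 → ℝ, left a 2 = a 0 + a 1 := fun a => by
    simp [left, Fin.sum_univ_four]
  have l3 : ∀ a : Fin 4 → ℝ, left a 3 = a 0 + a 1 + a 2 := fun a => by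
    simp [left, Fin.sum_univ_four]
  have ll : ∀ a : Fin 4 → ℝ, len a = a 0 + a 1 + a 2 + a 3 := fun a => by
    simp [len, Fin.sum_univ_four]
  unfold HRel
  rw [ll]
  refine exists_congr fun h => ?_
  simp only [Fin.forall_fin_succ, Fin.forall_fin_zero, Fin.succ_zero_eq_one, and_true,
    Fin.succ_one_eq_two, l0, l1, l2, zero_add, sub_zero]
  have e3 : (Fin.succ (2 : Fin 3)) = (3 : Fin 4) := rfl
  simp only [e3, l3]
  constructor
  · rintro ⟨h1, ⟨⟨h2, h3⟩, ⟨h4, h5⟩, ⟨h6, h7⟩, h8, h9⟩, r0, r1, r2, r3⟩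
    exact ⟨h1, h2, h3, h5, h7, h9, r0, r1, r2, r3⟩
  · rintro ⟨h1, h2, h3, h5, h7, h9, r0, r1, r2, r3⟩
    exact ⟨h1, ⟨⟨h2, h3⟩, ⟨h3, h5⟩, ⟨h5, h7⟩, h7, h9⟩, r0, r1, r2, r3⟩

private lemma i3_li4321 (a : Fin 4 → ℝ) : leftImage s4321 a 0 = a 1 + a 2 + a 3 ∧
    leftImage s4321 a 1 = a 2 + a 3 ∧ leftImage s4321 a 2 = a 3 ∧ leftImage s4321 a 3 = 0 := by
  have h : ∀ j, s4321 j = ![3, 2, 1, 0] j := fun _ => rfl
  refine ⟨?_, ?_, ?_, ?_⟩ <;> unfold leftImage <;> rw [Fin.sum_univ_four] <;> simp [h]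

private lemma i3_li2431 (a : Fin 4 → ℝ) : leftImage s2431 a 0 = a 3 ∧
    leftImage s2431 a 1 = a 0 + a 2 + a 3 ∧ leftImage s2431 a 2 = a 0 + a 3 ∧
      leftImage s2431 a 3 = 0 := by
  have h : ∀ j, s2431 j = ![1, 3, 2, 0] j := fun _ => rfl
  refine ⟨?_, ?_, ?_, ?_⟩ <;> unfold leftImage <;> rw [Fin.sum_univ_four] <;> simp [h]

private lemma i3_li2413 (a : Fin 4 → ℝ) : leftImage s2413 a 0 = a 2 ∧
    leftImage s2413 a 1 = a 0 + a 2 + a 3 ∧ leftImage s2413 a 2 = 0 ∧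
      leftImage s2413 a 3 = a 0 + a 2 := by
  have h : ∀ j, s2413 j = ![1, 3, 0, 2] j := fun _ => rfl
  refine ⟨?_, ?_, ?_, ?_⟩ <;> unfold leftImage <;> rw [Fin.sum_univ_four] <;> simp [h]

private lemma i3_glue {h : ℝ → ℝ} {L l Λ : ℝ} (hlL : l ≤ L) (hL0 : 0 ≤ L)
    (hm : MonotoneOn h (Set.Icc 0 L)) (h0 : h 0 = 0) (hL : h L = Λ) :
    ∃ g : ℝ → ℝ, MonotoneOn g (Set.Icc 0 (L + l)) ∧ (∀ x, x ≤ L → g x = h x) ∧
      ∀ x, L ≤ x → g x = h (x - L) + Λ := by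
  classical
  have e1 : ∀ x, x ≤ L → (fun x => if x ≤ L then h x else h (x - L) + Λ) x = h x :=
    fun x hx => if_pos hx
  have e2 : ∀ x, L ≤ x → (fun x => if x ≤ L then h x else h (x - L) + Λ) x = h (x - L) + Λ := by
    intro x hx
    rcases eq_or_lt_of_le hx with rfl | hx
    · simp [h0, hL]
    · exact if_neg (not_le.2 hx)
  refine ⟨fun x => if x ≤ L then h x else h (x - L) + Λ, ?_, e1, e2⟩
  intro x hx y hy hxy
  rcases le_total y L with hyL | hyL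
  · rw [e1 y hyL, e1 x (hxy.trans hyL)]
    exact hm ⟨hx.1, hxy.trans hyL⟩ ⟨hy.1, hyL⟩ hxy
  · rw [e2 y hyL]
    have hyl : y - L ∈ Set.Icc 0 L := ⟨by linarith, by linarith [hy.2]⟩
    rcases le_total x L with hxL | hxL
    · rw [e1 x hxL]
      have h1 := hm ⟨hx.1, hxL⟩ ⟨hL0, le_refl L⟩ hxL
      have h2 := hm ⟨le_refl 0, hL0⟩ hyl hyl.1
      rw [h0] at h2
      rw [hL] at h1
      linarith
    · rw [e2 x hxL]
      have h1 := hm (a := x - L) ⟨by linarith, by linarith [hx.2]⟩ hyl (by linarith)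
      linarith

lemma step_A {a b : Fin 4 → ℝ} (ha : ∀ i, 0 < a i) (h : HRel s2431 a b) :
    HRel s4321 ![a 0, a 1, a 2, a 3 + a 0] ![b 0, b 1, b 2, b 3 + b 0] := by
  rw [i3_iff] at h ⊢
  obtain ⟨h, hm, h0, h1, h2, h3, h4, r0, r1, r2, r3⟩ := h
  have p0 := ha 0
  have p1 := ha 1
  have p2 := ha 2
  have p3 := ha 3
  obtain ⟨g, gm, g1, g2⟩ := i3_glue (l := a 0) (by linarith) (by linarith) hm h0 h4
  simp only [(i3_li2431 a).1, (i3_li2431 b).1] at r0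
  simp only [(i3_li2431 a).2.1, (i3_li2431 b).2.1] at r1
  simp only [(i3_li2431 a).2.2.1, (i3_li2431 b).2.2.1] at r2
  simp only [(i3_li2431 a).2.2.2, (i3_li2431 b).2.2.2] at r3
  simp only [(i3_li4321 _).1, (i3_li4321 _).2.1, (i3_li4321 _).2.2.1, (i3_li4321 _).2.2.2]
  simp only [Matrix.cons_val]
  refine ⟨g, ?_, ?_, ?_, ?_, ?_, ?_, ?_, ?_, ?_, ?_⟩
  · rw [← add_assoc]
    exact gm
  · rw [g1 _ (by linarith), h0]
  · rw [g1 _ (by linarith), h1]
  · rw [g1 _ (by linarith), h2]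
  · rw [g1 _ (by linarith), h3]
  · rw [g2 _ (by linarith), show a 0 + a 1 + a 2 + (a 3 + a 0) - (a 0 + a 1 + a 2 + a 3) = a 0 by
      ring, h1]
    ring
  · intro x hx0 hx1
    rw [g2 _ (by linarith), g1 _ (by linarith),
      show x + (a 1 + a 2 + (a 3 + a 0)) - (a 0 + a 1 + a 2 + a 3) = x by ring]
    ring
  · intro x hx0 hx1
    rw [g1 _ (by linarith), g1 _ (by linarith)]
    have := r1 x hx0 hx1
    rw [show x + (a 2 + (a 3 + a 0) - a 0) = x + (a 0 + a 2 + a 3 - a 0) by ring, this]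
    ring
  · intro x hx0 hx1
    rw [g1 _ (by linarith), g1 _ (by linarith)]
    have := r2 x hx0 hx1
    rw [show x + (a 3 + a 0 - (a 0 + a 1)) = x + (a 0 + a 3 - (a 0 + a 1)) by ring, this]
    ring
  · intro x hx0 hx1
    rcases le_total x (a 0 + a 1 + a 2 + a 3) with hL | hL
    · rw [g1 _ (by linarith), g1 _ (by linarith)]
      exact r3 x hx0 hL
    · rw [g1 _ (by linarith), g2 _ (by linarith)]
      have := r0 (x - (a 0 + a 1 + a 2 + a 3)) (by linarith) (by linarith)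
      rw [show x + (0 - (a 0 + a 1 + a 2)) = x - (a 0 + a 1 + a 2 + a 3) + a 3 by ring, this]
      ring

lemma step_B {a b : Fin 4 → ℝ} (ha : ∀ i, 0 < a i) (h : HRel s2413 a b) :
    HRel s2431 ![a 0, a 1 + a 2, a 3, a 2] ![b 0, b 1 + b 2, b 3, b 2] := by
  rw [i3_iff] at h ⊢
  obtain ⟨h, hm, h0, h1, h2, h3, h4, r0, r1, r2, r3⟩ := h
  have p0 := ha 0
  have p1 := ha 1
  have p2 := ha 2
  have p3 := ha 3
  obtain ⟨g, gm, g1, g2⟩ := i3_glue (l := a 2) (by linarith) (by linarith) hm h0 h4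
  simp only [(i3_li2413 a).1, (i3_li2413 b).1] at r0
  simp only [(i3_li2413 a).2.1, (i3_li2413 b).2.1] at r1
  simp only [(i3_li2413 a).2.2.1, (i3_li2413 b).2.2.1] at r2
  simp only [(i3_li2413 a).2.2.2, (i3_li2413 b).2.2.2] at r3
  simp only [(i3_li2431 _).1, (i3_li2431 _).2.1, (i3_li2431 _).2.2.1, (i3_li2431 _).2.2.2]
  simp only [Matrix.cons_val]
  have hb2 : h (a 2) = b 2 := by
    have := r0 0 le_rfl p0.le
    rw [zero_add, h0, zero_add] at this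
    exact this
  refine ⟨g, ?_, ?_, ?_, ?_, ?_, ?_, ?_, ?_, ?_, ?_⟩
  · rw [show a 0 + (a 1 + a 2) + a 3 + a 2 = a 0 + a 1 + a 2 + a 3 + a 2 by ring]
    exact gm
  · rw [g1 _ (by linarith), h0]
  · rw [g1 _ (by linarith), h1]
  · rw [g1 _ (by linarith), ← add_assoc, h3]
    ring
  · rw [g1 _ (by linarith), ← add_assoc, h4]
    ring
  · rw [g2 _ (by linarith), show a 0 + (a 1 + a 2) + a 3 + a 2 - (a 0 + a 1 + a 2 + a 3) = a 2 by
      ring, hb2]
    ring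
  · intro x hx0 hx1
    rw [g1 _ (by linarith), g1 _ (by linarith)]
    exact r0 x hx0 hx1
  · intro x hx0 hx1
    rcases le_total x (a 0 + a 1) with hL | hL
    · rw [g1 _ (by linarith), g1 _ (by linarith)]
      have := r1 x hx0 hL
      rw [show x + (a 0 + a 3 + a 2 - a 0) = x + (a 0 + a 2 + a 3 - a 0) by ring, this]
      ring
    · rw [g2 _ (by linarith), g1 _ (by linarith)]
      have := r2 x hL (by linarith)
      rw [show x + (a 0 + a 3 + a 2 - a 0) - (a 0 + a 1 + a 2 + a 3) = x + (0 - (a 0 + a 1)) by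
        ring, this]
      ring
  · intro x hx0 hx1
    rw [g1 _ (by linarith), g1 _ (by linarith)]
    have := r3 x (by linarith) (by linarith)
    rw [show x + (a 0 + a 2 - (a 0 + (a 1 + a 2))) = x + (a 0 + a 2 - (a 0 + a 1 + a 2)) by ring,
      this]
    ring
  · intro x hx0 hx1
    rw [g1 _ (by linarith), g2 _ (by linarith),
      show x + (0 - (a 0 + (a 1 + a 2) + a 3)) = x - (a 0 + a 1 + a 2 + a 3) by ring]
    ring

end Pool.Agent.IC61
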