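import Pool.Agent.H51.IetBasic
import Pool.Agent.IC61.It0

set_option autoImplicit false

/-!
# IC61/It4: the normal form of the permutation (4321) (MP_0d1f6d_an, helper61)

PROOF. `h` as in `HRel s4321 a b`; `p = a0 + a1`, `q = a2 + a3`, `p < q`, `L = p + q`. The relations are
`(R0) x ∈ [0, a0]: h (x + a1 + a2 + a3) = h x + b1 + b2 + b3`; `(R1) x ∈ [a0, p]: h (x + q - a0) = h x + b2 + b3 - b0`;
`(R2) x ∈ [p, p + a2]: h (x + a3 - p) = h x + b3 - b0 - b1`; `(R3) x ∈ [p + a2, L]: h (x - p - a2) = h x - b0 - b1 - b2`.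
(`simp [left, leftImage, Fin.sum_univ_four]` and `decide`.) Endpoints: `h 0 = 0`, `h p = b0 + b1`, `h L = b0 + b1 + b2 + b3`,
`h q = b2 + b3` (`(R1)` at `x = a0`, `h a0 = b0`). Define `k x = h (q + x) - h q` for `x ≤ p` and `k x = h x` for
`x > p`; at `x = p` both agree (`h L - h q = b0 + b1 = h p`). `k 0 = 0`, `k` is monotone on `[0, q]`. In both cases `u 0 = a0`,
`u 1 = a1`, `u 2 + u 3 = q`, `v 0 = b0`, `v 1 = b1`.
`(g1)`, `x ∈ [0, a0]`: `k (x + a1) = h (q + x + a1) - h q = h x + b1 + b2 + b3 - h q = h x + b1` by `(R0)`.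
`(g2)`, `x ∈ [a0, p]`: `k (x - a0) = h (q + x - a0) - h q = h x - b0` by `(R1)`.
`(g3)`, `x ∈ [p, q]`: definition.
CASE 1 (`p < a3`; `u 2 = p + a2`, `u 3 = a3 - p`). `(g4)`, `0 ≤ x ≤ p + a2`: if `x ≤ p`: `q + x ≥ p + a2`, `(R3)` at `q + x`:
`h (x + a3 - p) = h (q + x) - b0 - b1 - b2 = k x + b3 - b0 - b1`; if `x ≥ p`: `(R2)`. `(g5)`, `p + a2 ≤ x ≤ q`: `k x = h x`
and `(R3)`.
CASE 2 (`a3 < p`; `u 2 = p - a3`, `u 3 = a2 + 2 a3 - p = q - p + a3`). `(g4)`, `0 ≤ x ≤ p - a3`: `q + x ∈ [p, p + a2]`,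
`(R2)` at `q + x`: `h (q + x + a3 - p) = h (q + x) + b3 - b0 - b1 = k x + b2 + 2 b3 - b0 - b1`. `(g5)`, `p - a3 ≤ x ≤ q`:
if `x ≤ p`: `q + x ≥ p + a2`, `(R3)` at `q + x`: `h (x + a3 - p) = h (q + x) - b0 - b1 - b2 = k x + b3 - b0 - b1`; if
`x ≥ p`: `x ≤ q < p + a2`, `(R2)`: `h (x + a3 - p) = h x + b3 - b0 - b1`.
-/

namespace Pool.Agent.IC61

open Pool.Agent.H51.Iet

private lemma unpack {a b : Fin 4 → ℝ} (h : HRel s4321 a b) :
    ∃ h : ℝ → ℝ, MonotoneOn h (Set.Icc 0 (a 0 + a 1 + a 2 + a 3)) ∧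
      h 0 = 0 ∧ h (a 0) = b 0 ∧ h (a 0 + a 1) = b 0 + b 1 ∧
      h (a 0 + a 1 + a 2 + a 3) = b 0 + b 1 + b 2 + b 3 ∧
      (∀ x, 0 ≤ x → x ≤ a 0 → h (x + (a 1 + a 2 + a 3)) = h x + (b 1 + b 2 + b 3)) ∧
      (∀ x, a 0 ≤ x → x ≤ a 0 + a 1 → h (x + (a 2 + a 3 - a 0)) = h x + (b 2 + b 3 - b 0)) ∧
      (∀ x, a 0 + a 1 ≤ x → x ≤ a 0 + a 1 + a 2 →
        h (x + (a 3 - a 0 - a 1)) = h x + (b 3 - b 0 - b 1)) ∧
      (∀ x, a 0 + a 1 + a 2 ≤ x → x ≤ a 0 + a 1 + a 2 + a 3 →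
        h (x - (a 0 + a 1 + a 2)) = h x - (b 0 + b 1 + b 2)) := by
  obtain ⟨h, hm, he, hr⟩ := h
  have e0 := he 0
  have e1 := he 1
  have e2 := he 2
  have e3 := he 3
  have r0 := hr 0
  have r1 := hr 1
  have r2 := hr 2
  have r3 := hr 3
  have hl : len a = a 0 + a 1 + a 2 + a 3 := by
    unfold len
    rw [Fin.sum_univ_four]
  rw [hl] at hm
  have l0 : ∀ c : Fin 4 → ℝ, left c 0 = 0 := by
    intro c
    simp [left]
  have l1 : ∀ c : Fin 4 → ℝ, left c 1 = c 0 := by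
    intro c
    simp [left]
  have l2 : ∀ c : Fin 4 → ℝ, left c 2 = c 0 + c 1 := by
    intro c
    simp [left, Fin.sum_univ_four]
  have l3 : ∀ c : Fin 4 → ℝ, left c 3 = c 0 + c 1 + c 2 := by
    intro c
    have h1 : ((0 : Fin 4) < 3) := by decide
    have h2 : ((1 : Fin 4) < 3) := by decide
    have h3 : ((2 : Fin 4) < 3) := by decide
    simp [left, Fin.sum_univ_four, h1, h2, h3]
  have i0 : ∀ c : Fin 4 → ℝ, leftImage s4321 c 0 = c 1 + c 2 + c 3 := by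
    intro c
    have h0 : ¬ (s4321 0 < s4321 0) := by decide
    have h1 : (s4321 1 < s4321 0) := by decide
    have h2 : (s4321 2 < s4321 0) := by decide
    have h3 : (s4321 3 < s4321 0) := by decide
    unfold leftImage
    rw [Fin.sum_univ_four, if_neg h0, if_pos h1, if_pos h2, if_pos h3]
    ring
  have i1 : ∀ c : Fin 4 → ℝ, leftImage s4321 c 1 = c 2 + c 3 := by
    intro c
    have h0 : ¬ (s4321 0 < s4321 1) := by decide
    have h1 : ¬ (s4321 1 < s4321 1) := by decide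
    have h2 : (s4321 2 < s4321 1) := by decide
    have h3 : (s4321 3 < s4321 1) := by decide
    unfold leftImage
    rw [Fin.sum_univ_four, if_neg h0, if_neg h1, if_pos h2, if_pos h3]
    ring
  have i2 : ∀ c : Fin 4 → ℝ, leftImage s4321 c 2 = c 3 := by
    intro c
    have h0 : ¬ (s4321 0 < s4321 2) := by decide
    have h1 : ¬ (s4321 1 < s4321 2) := by decide
    have h2 : ¬ (s4321 2 < s4321 2) := by decide
    have h3 : (s4321 3 < s4321 2) := by decide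
    unfold leftImage
    rw [Fin.sum_univ_four, if_neg h0, if_neg h1, if_neg h2, if_pos h3]
    ring
  have i3 : ∀ c : Fin 4 → ℝ, leftImage s4321 c 3 = 0 := by
    intro c
    have h0 : ¬ (s4321 0 < s4321 3) := by decide
    have h1 : ¬ (s4321 1 < s4321 3) := by decide
    have h2 : ¬ (s4321 2 < s4321 3) := by decide
    have h3 : ¬ (s4321 3 < s4321 3) := by decide
    unfold leftImage
    rw [Fin.sum_univ_four, if_neg h0, if_neg h1, if_neg h2, if_neg h3]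
    ring
  simp only [l0, l1, l2, l3, i0, i1, i2, i3] at e0 e1 e2 e3 r0 r1 r2 r3
  refine ⟨h, hm, e0.1, e1.1, e2.1, e3.2, ?_, ?_, ?_, ?_⟩
  · intro x h1 h2
    have h3 := r0 x h1 (by linarith)
    rw [sub_zero, sub_zero] at h3
    exact h3
  · intro x h1 h2
    exact r1 x h1 h2
  · intro x h1 h2
    have h3 := r2 x h1 h2
    rw [show x + (a 3 - a 0 - a 1) = x + (a 3 - (a 0 + a 1)) by ring, h3]
    ring
  · intro x h1 h2
    have h3 := r3 x h1 h2
    rw [show x - (a 0 + a 1 + a 2) = x + (0 - (a 0 + a 1 + a 2)) by ring, h3]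
    ring

/-- The second function. -/
private noncomputable def kf (h : ℝ → ℝ) (p q : ℝ) (x : ℝ) : ℝ :=
  if x ≤ p then h (q + x) - h q else h x

private lemma kf_le {h : ℝ → ℝ} {p q x : ℝ} (hx : x ≤ p) : kf h p q x = h (q + x) - h q :=
  if_pos hx

private lemma kf_ge {h : ℝ → ℝ} {p q x : ℝ} (hp : h (q + p) - h q = h p) (hx : p ≤ x) :
    kf h p q x = h x := by
  rcases hx.lt_or_eq with h1 | h1
  · exact if_neg (not_le.2 h1)
  · rw [← h1, kf_le le_rfl, hp]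

private lemma kf_mono {h : ℝ → ℝ} {p q : ℝ} (h0 : 0 ≤ p) (hpq : p ≤ q)
    (hm : MonotoneOn h (Set.Icc 0 (p + q)))
    (hp : h (q + p) - h q = h p) : MonotoneOn (kf h p q) (Set.Icc 0 q) := by
  intro x hx y hy hxy
  rcases le_total y p with h1 | h1
  · rw [kf_le (hxy.trans h1), kf_le h1]
    have := hm (a := q + x) (b := q + y) ⟨by linarith [hx.1], by linarith⟩
      ⟨by linarith [hy.1], by linarith⟩ (by linarith)
    linarith
  · rcases le_total x p with h2 | h2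
    · rw [kf_le h2, kf_ge hp h1]
      have h3 := hm (a := q + x) (b := q + p) ⟨by linarith [hx.1], by linarith⟩
        ⟨by linarith, by linarith⟩ (by linarith)
      have h4 := hm (a := p) (b := y) ⟨h0, by linarith⟩ ⟨hy.1, by linarith [hy.2]⟩ h1
      linarith
    · rw [kf_ge hp h2, kf_ge hp h1]
      exact hm ⟨hx.1, by linarith [hx.2]⟩ ⟨hy.1, by linarith [hy.2]⟩ hxy

lemma GD_case1 {a b : Fin 4 → ℝ} (ha : ∀ i, 0 < a i) (h1 : a 0 + a 1 < a 2 + a 3)
    (h2 : a 0 + a 1 < a 3) (h : HRel s4321 a b) :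
    GD ![a 0, a 1, a 0 + a 1 + a 2, a 3 - a 0 - a 1]
      ![b 0, b 1, b 0 + b 1 + b 2, b 3 - b 0 - b 1] := by
  have ha0 := ha 0
  have ha1 := ha 1
  have ha2 := ha 2
  have ha3 := ha 3
  obtain ⟨h, hm, z0, z1, z2, z4, r0, r1, r2, r3⟩ := unpack h
  have hq : h (a 2 + a 3) = b 2 + b 3 := by
    have h3 := r1 (a 0) le_rfl (by linarith)
    rw [show a 0 + (a 2 + a 3 - a 0) = a 2 + a 3 by ring, z1] at h3
    linarith
  have hp : h (a 2 + a 3 + (a 0 + a 1)) - h (a 2 + a 3) = h (a 0 + a 1) := by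
    rw [show a 2 + a 3 + (a 0 + a 1) = a 0 + a 1 + a 2 + a 3 by ring, z4, hq, z2]
    ring
  have hm' : MonotoneOn h (Set.Icc 0 (a 0 + a 1 + (a 2 + a 3))) := by
    rw [show a 0 + a 1 + (a 2 + a 3) = a 0 + a 1 + a 2 + a 3 by ring]
    exact hm
  have kl : ∀ x, x ≤ a 0 + a 1 → kf h (a 0 + a 1) (a 2 + a 3) x = h (a 2 + a 3 + x) - (b 2 + b 3) := by
    intro x hx
    rw [kf_le hx, hq]
  have kg : ∀ x, a 0 + a 1 ≤ x → kf h (a 0 + a 1) (a 2 + a 3) x = h x := fun x hx => kf_ge hp hx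
  have hs : a 0 + a 1 + a 2 + (a 3 - a 0 - a 1) = a 2 + a 3 := by ring
  refine ⟨h, kf h (a 0 + a 1) (a 2 + a 3), ?_, ?_, z0, ?_, ?_, ?_, ?_, ?_, ?_⟩
  · simp only [Matrix.cons_val]
    rw [hs]
    exact hm.mono (Set.Icc_subset_Icc_right (by linarith))
  · simp only [Matrix.cons_val]
    rw [hs]
    exact kf_mono (by linarith) h1.le hm' hp
  · rw [kl 0 (by linarith), add_zero, hq, sub_self]
  · simp only [Matrix.cons_val]
    intro x hx1 hx2
    rw [kl (x + a 1) (by linarith), show a 2 + a 3 + (x + a 1) = x + (a 1 + a 2 + a 3) by ring,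
      r0 x hx1 hx2]
    ring
  · simp only [Matrix.cons_val]
    intro x hx1 hx2
    rw [kl (x - a 0) (by linarith), show a 2 + a 3 + (x - a 0) = x + (a 2 + a 3 - a 0) by ring,
      r1 x hx1 hx2]
    ring
  · simp only [Matrix.cons_val]
    intro x hx1 hx2
    exact kg x hx1
  · simp only [Matrix.cons_val]
    intro x hx1 hx2
    rw [show x + (a 3 - a 0 - a 1) = x + (a 3 - a 0 - a 1) from rfl]
    rcases le_total x (a 0 + a 1) with hx | hx
    · rw [kl x hx]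
      have h3 := r3 (a 2 + a 3 + x) (by linarith) (by linarith)
      rw [show a 2 + a 3 + x - (a 0 + a 1 + a 2) = x + (a 3 - a 0 - a 1) by ring] at h3
      rw [h3]
      ring
    · rw [kg x hx, r2 x hx (by linarith)]
  · simp only [Matrix.cons_val]
    intro x hx1 hx2
    rw [kg x (by linarith), r3 x hx1 (by linarith)]

lemma GD_case2 {a b : Fin 4 → ℝ} (ha : ∀ i, 0 < a i) (h1 : a 0 + a 1 < a 2 + a 3)
    (h2 : a 3 < a 0 + a 1) (h : HRel s4321 a b) :
    GD ![a 0, a 1, a 0 + a 1 - a 3, a 2 + 2 * a 3 - a 0 - a 1]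
      ![b 0, b 1, b 0 + b 1 - b 3, b 2 + 2 * b 3 - b 0 - b 1] := by
  have ha0 := ha 0
  have ha1 := ha 1
  have ha2 := ha 2
  have ha3 := ha 3
  obtain ⟨h, hm, z0, z1, z2, z4, r0, r1, r2, r3⟩ := unpack h
  have hq : h (a 2 + a 3) = b 2 + b 3 := by
    have h3 := r1 (a 0) le_rfl (by linarith)
    rw [show a 0 + (a 2 + a 3 - a 0) = a 2 + a 3 by ring, z1] at h3
    linarith
  have hp : h (a 2 + a 3 + (a 0 + a 1)) - h (a 2 + a 3) = h (a 0 + a 1) := by
    rw [show a 2 + a 3 + (a 0 + a 1) = a 0 + a 1 + a 2 + a 3 by ring, z4, hq, z2]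
    ring
  have hm' : MonotoneOn h (Set.Icc 0 (a 0 + a 1 + (a 2 + a 3))) := by
    rw [show a 0 + a 1 + (a 2 + a 3) = a 0 + a 1 + a 2 + a 3 by ring]
    exact hm
  have kl : ∀ x, x ≤ a 0 + a 1 → kf h (a 0 + a 1) (a 2 + a 3) x = h (a 2 + a 3 + x) - (b 2 + b 3) := by
    intro x hx
    rw [kf_le hx, hq]
  have kg : ∀ x, a 0 + a 1 ≤ x → kf h (a 0 + a 1) (a 2 + a 3) x = h x := fun x hx => kf_ge hp hx
  have hs : a 0 + a 1 - a 3 + (a 2 + 2 * a 3 - a 0 - a 1) = a 2 + a 3 := by ring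
  refine ⟨h, kf h (a 0 + a 1) (a 2 + a 3), ?_, ?_, z0, ?_, ?_, ?_, ?_, ?_, ?_⟩
  · simp only [Matrix.cons_val]
    rw [hs]
    exact hm.mono (Set.Icc_subset_Icc_right (by linarith))
  · simp only [Matrix.cons_val]
    rw [hs]
    exact kf_mono (by linarith) h1.le hm' hp
  · rw [kl 0 (by linarith), add_zero, hq, sub_self]
  · simp only [Matrix.cons_val]
    intro x hx1 hx2
    rw [kl (x + a 1) (by linarith), show a 2 + a 3 + (x + a 1) = x + (a 1 + a 2 + a 3) by ring,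
      r0 x hx1 hx2]
    ring
  · simp only [Matrix.cons_val]
    intro x hx1 hx2
    rw [kl (x - a 0) (by linarith), show a 2 + a 3 + (x - a 0) = x + (a 2 + a 3 - a 0) by ring,
      r1 x hx1 hx2]
    ring
  · simp only [Matrix.cons_val]
    intro x hx1 hx2
    exact kg x hx1
  · simp only [Matrix.cons_val]
    intro x hx1 hx2
    rw [kl x (by linarith)]
    have h3 := r2 (a 2 + a 3 + x) (by linarith) (by linarith)
    rw [show a 2 + a 3 + x + (a 3 - a 0 - a 1) = x + (a 2 + 2 * a 3 - a 0 - a 1) by ring] at h3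
    rw [h3]
    ring
  · simp only [Matrix.cons_val]
    intro x hx1 hx2
    rcases le_total x (a 0 + a 1) with hx | hx
    · rw [kl x hx]
      have h3 := r3 (a 2 + a 3 + x) (by linarith) (by linarith)
      rw [show a 2 + a 3 + x - (a 0 + a 1 + a 2) = x - (a 0 + a 1 - a 3) by ring] at h3
      rw [h3]
      ring
    · rw [kg x hx, show x - (a 0 + a 1 - a 3) = x + (a 3 - a 0 - a 1) by ring,
        r2 x hx (by linarith)]
      ring

end Pool.Agent.IC61
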