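import Pool.Agent.IC61.It0

set_option autoImplicit false

/-!
# IC61/It5: the irreducible permutations of four letters (MP_0d1f6d_an, helper61)

PROOF. `rank_pf`: let `A` be antisymmetric with
`A 0 1 * A 2 3 - A 0 2 * A 1 3 + A 0 3 * A 1 2 = 0`. If all `A i j = 0` the rank is `0`. Otherwise some
`A i j ≠ 0`, and for all `k, l`: `A i j * A k l = A i k * A j l - A i l * A j k` (a consequence of the Pfaffian
relation and antisymmetry: case check), so `A` is a sum of two matrices of rank at most one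
(`Matrix.vecMulVec`, `Matrix.rank_add_le`, `Matrix.rank_vecMulVec_le`). (Or: determinant `= Pf ^ 2 = 0`, and
use the four 3 x 3 minors.)
`classify`: there are 24 permutations of `Fin 4`; 11 are reducible; for 6 of the 13 irreducible ones the
Pfaffian of the translation matrix vanishes, the other 7 are the listed ones. Let
`AZ' σ i j : ℤ = (if σ j < σ i then 1 else 0) - (if j < i then 1 else 0)`, so
`translationMatrix σ i j = (AZ' σ i j : ℝ)` (`AZ` in `Pool/Agent/H51/IetProof.lean`). Then by `decide` (revert `σ`):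
for all `σ : Equiv.Perm (Fin 4)`: irreducible (`∀ k < 4, 0 < k → ∃ i : Fin 4, (i : ℕ) < k ∧ k ≤ σ i`) implies
`Pf = 0` or `σ` is one of the seven. (If `decide` over `Equiv.Perm (Fin 4)` is too slow: determine `σ 0, ..., σ 3`
by cases and use `Equiv.ext`.)
-/

namespace Pool.Agent.IC61

open Pool.Agent.H51.Iet

private lemma It5_plucker (A : Matrix (Fin 4) (Fin 4) ℝ) (hA : ∀ i j, A j i = - A i j)
    (hP : A 0 1 * A 2 3 - A 0 2 * A 1 3 + A 0 3 * A 1 2 = 0) (i j k l : Fin 4) :
    A i j * A k l = A i k * A j l - A i l * A j k := by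
  have h0 : ∀ i, A i i = 0 := fun i => by
    have := hA i i
    linarith
  have h10 : A 1 0 = - A 0 1 := hA 0 1
  have h20 : A 2 0 = - A 0 2 := hA 0 2
  have h30 : A 3 0 = - A 0 3 := hA 0 3
  have h21 : A 2 1 = - A 1 2 := hA 1 2
  have h31 : A 3 1 = - A 1 3 := hA 1 3
  have h32 : A 3 2 = - A 2 3 := hA 2 3
  fin_cases i <;> fin_cases j <;> fin_cases k <;> fin_cases l <;>
    simp only [Fin.zero_eta, Fin.mk_one, Fin.reduceFinMk, h0, h10, h20, h30, h21, h31, h32] <;>
    first
      | ring1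
      | linear_combination hP
      | linear_combination -hP

lemma rank_pf (A : Matrix (Fin 4) (Fin 4) ℝ) (hA : ∀ i j, A j i = - A i j)
    (hP : A 0 1 * A 2 3 - A 0 2 * A 1 3 + A 0 3 * A 1 2 = 0) : A.rank ≤ 2 := by
  by_cases h : ∃ i j, A i j ≠ 0
  · obtain ⟨i, j, hij⟩ := h
    have hdec : A = (Matrix.of fun k (c : Fin 2) => ![A i k / A i j, - A j k / A i j] c) *
        (Matrix.of fun (c : Fin 2) l => ![A j l, A i l] c) := by
      ext k l
      rw [Matrix.mul_apply, Fin.sum_univ_two]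
      simp only [Matrix.of_apply, Matrix.cons_val_zero, Matrix.cons_val_one]
      have h1 := It5_plucker A hA hP i j k l
      field_simp
      linarith
    rw [hdec]
    refine (Matrix.rank_mul_le_left _ _).trans ?_
    have h1 := Matrix.rank_le_card_width
      (Matrix.of fun (k : Fin 4) (c : Fin 2) => ![A i k / A i j, - A j k / A i j] c)
    rw [Fintype.card_fin] at h1
    exact h1
  · push Not at h
    have : A = 0 := by
      ext i j
      exact h i j
    rw [this, Matrix.rank_zero]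
    omega

private def It5_AZ (σ : Equiv.Perm (Fin 4)) (i j : Fin 4) : ℤ :=
  (if σ j < σ i then 1 else 0) - (if j < i then 1 else 0)

private def It5_Pf (σ : Equiv.Perm (Fin 4)) : ℤ :=
  It5_AZ σ 0 1 * It5_AZ σ 2 3 - It5_AZ σ 0 2 * It5_AZ σ 1 3 + It5_AZ σ 0 3 * It5_AZ σ 1 2

private lemma It5_dec : ∀ σ : Equiv.Perm (Fin 4),
    (¬ ∀ i : Fin 4, (i : ℕ) < 1 → (σ i : ℕ) < 1) → (¬ ∀ i : Fin 4, (i : ℕ) < 2 → (σ i : ℕ) < 2) →
    (¬ ∀ i : Fin 4, (i : ℕ) < 3 → (σ i : ℕ) < 3) →
    It5_Pf σ = 0 ∨ σ = s4321 ∨ σ = s2431 ∨ σ = s4132 ∨ σ = s3241 ∨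
      σ = s4213 ∨ σ = s2413 ∨ σ = s3142 := by
  decide +kernel

private lemma It5_antisymm (σ : Equiv.Perm (Fin 4)) (i j : Fin 4) :
    It5_AZ σ j i = - It5_AZ σ i j := by
  unfold It5_AZ
  rcases lt_trichotomy i j with h | h | h
  · rcases lt_trichotomy (σ i) (σ j) with h' | h' | h'
    · rw [if_pos h, if_pos h', if_neg (not_lt.2 h.le), if_neg (not_lt.2 h'.le)]
      ring
    · exact absurd (σ.injective h') (ne_of_lt h)
    · rw [if_pos h, if_neg (not_lt.2 h'.le), if_neg (not_lt.2 h.le), if_pos h']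
      ring
  · subst h
    simp
  · rcases lt_trichotomy (σ i) (σ j) with h' | h' | h'
    · rw [if_neg (not_lt.2 h.le), if_pos h', if_pos h, if_neg (not_lt.2 h'.le)]
      ring
    · exact absurd (σ.injective h') (ne_of_gt h)
    · rw [if_neg (not_lt.2 h.le), if_neg (not_lt.2 h'.le), if_pos h, if_pos h']
      ring

private lemma It5_cast (σ : Equiv.Perm (Fin 4)) (i j : Fin 4) :
    translationMatrix σ i j = (It5_AZ σ i j : ℝ) := by
  unfold translationMatrix It5_AZ
  push_cast
  rfl

theorem classify (σ : Equiv.Perm (Fin 4)) (hσ : IrreduciblePerm σ) :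
    (translationMatrix σ).rank ≤ 2 ∨ σ = s4321 ∨ σ = s2431 ∨ σ = s4132 ∨ σ = s3241 ∨
      σ = s4213 ∨ σ = s2413 ∨ σ = s3142 := by
  rcases It5_dec σ (hσ 1 (by norm_num) (by norm_num)) (hσ 2 (by norm_num) (by norm_num))
    (hσ 3 (by norm_num) (by norm_num)) with h | h
  · left
    apply rank_pf
    · intro i j
      rw [It5_cast, It5_cast, It5_antisymm]
      push_cast
      ring
    · simp only [It5_cast]
      have h1 : ((It5_Pf σ : ℤ) : ℝ) = 0 := by exact_mod_cast h
      unfold It5_Pf at h1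
      push_cast at h1
      exact h1
  · exact Or.inr h

end Pool.Agent.IC61
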