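import Pool.Agent.IC61.It0

set_option autoImplicit false

/-!
# IC61/It6: integral changes of coordinates (MP_0d1f6d_an, helper61)

PROOF. `N` the inverse of `M`. The key remark: if `c : Fin 4 → ℝ` satisfies `∑ i, c i * act M y i = 0` for all `y`,
then with `y = act N c`: `∑ i, c i * c i = 0`, so `c = 0`.
`GC_act`: analyticity: finite sums of constants times analytic functions. Let `c ≠ 0`,
`c' j = ∑ i, c i * M i j`; `∑ i, c i * act M y i = ∑ j, c' j * y j`. `c' ≠ 0` by the key remark, so there is `s ∈ J` with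
`∑ j, c' j * a s j ≠ 0`. `Irr_act`: the same with integers (`c = fun i => (n i : ℝ)`, `n' j = ∑ i, n i * M i j`).
`NP_act`: `act M b = κ • act M a = act M (κ • a)` implies `b = κ • a` by applying `N`.
`GC_of`: analyticity of the coordinates (`AnalyticOn` on an open set, composition with the projection, see
`countable_zeros` in `Pool/Agent/H51/IetCurve.lean`); if `∑ i, c i * a s i = 0` for all `s ∈ J`, the kernel of the
linear form `c` contains `a '' J`, so it is `⊤`, so `c = 0`.
-/

namespace Pool.Agent.IC61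

private lemma act_key {M : Fin 4 → Fin 4 → ℤ} (hM : Uni M) {c : Fin 4 → ℝ}
    (h : ∀ y, ∑ i, c i * act M y i = 0) : c = 0 := by
  obtain ⟨N, -, hN⟩ := hM
  have h1 := h (act N c)
  rw [hN] at h1
  have h2 : ∀ i ∈ Finset.univ, 0 ≤ c i * c i := fun i _ => mul_self_nonneg _
  have h3 := (Finset.sum_eq_zero_iff_of_nonneg h2).1 h1
  funext i
  exact mul_self_eq_zero.1 (h3 i (Finset.mem_univ i))

private lemma act_swap (M : Fin 4 → Fin 4 → ℤ) (c y : Fin 4 → ℝ) :
    ∑ i, c i * act M y i = ∑ j, (∑ i, c i * (M i j : ℝ)) * y j := by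
  unfold act
  simp only [Finset.mul_sum, Finset.sum_mul]
  rw [Finset.sum_comm]
  exact Finset.sum_congr rfl fun j _ => Finset.sum_congr rfl fun i _ => by ring

lemma GC_act {M : Fin 4 → Fin 4 → ℤ} (hM : Uni M) {J : Set ℝ} {a : ℝ → Fin 4 → ℝ}
    (h : GC J a) : GC J (fun s => act M (a s)) := by
  obtain ⟨h1, h2⟩ := h
  refine ⟨fun i => ?_, fun c hc => ?_⟩
  · change AnalyticOnNhd ℝ (fun s => ∑ j, (M i j : ℝ) * a s j) J
    apply Finset.analyticOnNhd_fun_sum
    intro j _
    exact AnalyticOnNhd.mul analyticOnNhd_const (h1 j)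
  · have hc' : (fun j => ∑ i, c i * (M i j : ℝ)) ≠ 0 := by
      intro h0
      apply hc
      refine act_key hM fun y => ?_
      rw [act_swap]
      refine Finset.sum_eq_zero fun j _ => ?_
      have h3 : ∑ i, c i * (M i j : ℝ) = 0 := congrFun h0 j
      rw [h3, zero_mul]
    obtain ⟨s, hs, hs'⟩ := h2 _ hc'
    refine ⟨s, hs, ?_⟩
    rw [act_swap]
    exact hs'

lemma Irr_act {M : Fin 4 → Fin 4 → ℤ} (hM : Uni M) {a : Fin 4 → ℝ} (h : Irr a) :
    Irr (act M a) := by
  intro n hn
  have hn' : (fun j => ∑ i, n i * M i j) ≠ 0 := by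
    intro h0
    apply hn
    have h1 : (fun i => (n i : ℝ)) = 0 := by
      refine act_key hM fun y => ?_
      rw [act_swap]
      refine Finset.sum_eq_zero fun j _ => ?_
      have h3 : ∑ i, n i * M i j = 0 := congrFun h0 j
      have h4 : ∑ i, (n i : ℝ) * (M i j : ℝ) = 0 := by exact_mod_cast h3
      rw [h4, zero_mul]
    funext i
    have h2 : (n i : ℝ) = 0 := congrFun h1 i
    exact_mod_cast h2
  have h5 := h _ hn'
  have h6 := act_swap M (fun i => (n i : ℝ)) a
  rw [h6]
  intro h7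
  apply h5
  rw [← h7]
  refine Finset.sum_congr rfl fun j _ => ?_
  push_cast
  rfl

lemma NP_act {M : Fin 4 → Fin 4 → ℤ} (hM : Uni M) {a b : Fin 4 → ℝ} (h : NP a b) :
    NP (act M a) (act M b) := by
  obtain ⟨N, hN, -⟩ := hM
  intro κ hκ
  apply h κ
  have h1 : κ • act M a = act M (κ • a) := by
    funext i
    simp only [act, Pi.smul_apply, smul_eq_mul, Finset.mul_sum]
    exact Finset.sum_congr rfl fun j _ => by ring
  rw [h1] at hκ
  rw [← hN b, hκ, hN]

lemma GC_of {J : Set ℝ} (hJ : IsOpen J) {a : ℝ → Fin 4 → ℝ} (han : AnalyticOn ℝ a J)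
    (hnd : ∀ P : Submodule ℝ (Fin 4 → ℝ), a '' J ⊆ P → P = ⊤) : GC J a := by
  refine ⟨fun j => ?_, fun c hc => ?_⟩
  · have h1 : AnalyticOnNhd ℝ a J := (hJ.analyticOn_iff_analyticOnNhd).1 han
    intro s hs
    exact (ContinuousLinearMap.proj (R := ℝ) (φ := fun _ : Fin 4 => ℝ) j).analyticAt _ |>.comp
      (h1 s hs)
  · by_contra hcon
    push Not at hcon
    apply hc
    let φ : (Fin 4 → ℝ) →ₗ[ℝ] ℝ := ∑ j, c j • LinearMap.proj j
    have hφ : ∀ x, φ x = ∑ j, c j * x j := by
      intro x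
      simp [φ]
    have h1 := hnd (LinearMap.ker φ) (by
      rintro x ⟨s, hs, rfl⟩
      change a s ∈ LinearMap.ker φ
      rw [LinearMap.mem_ker, hφ]
      exact hcon s hs)
    funext j
    have h3 : (Pi.single j (1 : ℝ) : Fin 4 → ℝ) ∈ LinearMap.ker φ := by
      rw [h1]
      trivial
    rw [LinearMap.mem_ker, hφ] at h3
    rw [Finset.sum_eq_single j] at h3
    · simp only [Pi.single_eq_same, mul_one] at h3
      exact h3
    · intro b _ hb
      rw [Pi.single_eq_of_ne hb, mul_zero]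
    · intro h4
      exact absurd (Finset.mem_univ j) h4

end Pool.Agent.IC61
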