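import Pool.Agent.IC61.Pe1

set_option autoImplicit false

/-!
# IC61/Mn1: the parameters with rationally dependent lengths form a null set
(MP_0d1f6d_an, helper61)

PROOF. As `countable_zeros` in `Pool/Agent/H51/IetCurve.lean`: for each `n : Fin 4 → ℤ`, `n ≠ 0`, the function
`g s = ∑ i, n i * u s i` is analytic on `J` and not identically zero on `J` (`hind` with `c = fun i => (n i : ℝ)`), so its
zeros in `J` are isolated and hence countable. Countable union over `n`; countable sets are null.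
-/

namespace Pool.Agent.IC61

open MeasureTheory Filter Topology

private lemma mn1_countable {J : Set ℝ} (hJc : J.OrdConnected) (u : ℝ → Fin 4 → ℝ)
    (hu : ∀ i, AnalyticOnNhd ℝ (fun s => u s i) J)
    (hind : ∀ c : Fin 4 → ℝ, c ≠ 0 → ∃ s ∈ J, ∑ i, c i * u s i ≠ 0)
    (n : Fin 4 → ℤ) (hn : n ≠ 0) : {s | s ∈ J ∧ ∑ i, (n i : ℝ) * u s i = 0}.Countable := by
  have hJp : IsPreconnected J := hJc.isPreconnected
  set g : ℝ → ℝ := fun s => ∑ i, (n i : ℝ) * u s i with hg
  have hgan : AnalyticOnNhd ℝ g J := by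
    apply Finset.analyticOnNhd_fun_sum
    intro j _
    exact AnalyticOnNhd.mul analyticOnNhd_const (hu j)
  have hne : ¬ Set.EqOn g 0 J := by
    intro h
    obtain ⟨s, hs, hs'⟩ := hind (fun i => (n i : ℝ)) (by
      intro h0
      apply hn
      funext i
      have := congrFun h0 i
      simpa using this)
    exact hs' (h hs)
  set Z : Set ℝ := {s | s ∈ J ∧ g s = 0} with hZ
  have hdisc : DiscreteTopology Z := by
    rw [discreteTopology_subtype_iff]
    intro z hz
    have h1 : ¬ ∃ᶠ y in 𝓝[≠] z, g y = 0 := fun hf =>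
      hne (hgan.eqOn_zero_of_preconnected_of_frequently_eq_zero hJp hz.1 hf)
    rw [not_frequently] at h1
    rw [← disjoint_iff, disjoint_principal_right]
    filter_upwards [h1] with y hy hyZ
    exact hy hyZ.2
  exact (HereditarilyLindelofSpace.isLindelof Z).countable hdisc

theorem irr_null {J : Set ℝ} (hJ : IsOpen J) (hJc : J.OrdConnected) (u : ℝ → Fin 4 → ℝ)
    (hu : ∀ i, AnalyticOnNhd ℝ (fun s => u s i) J)
    (hind : ∀ c : Fin 4 → ℝ, c ≠ 0 → ∃ s ∈ J, ∑ i, c i * u s i ≠ 0) :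
    {s | s ∈ J ∧ ¬ Irr (u s)}.Countable := by
  have h1 : {s | s ∈ J ∧ ¬ Irr (u s)} ⊆
      ⋃ n ∈ {n : Fin 4 → ℤ | n ≠ 0}, {s | s ∈ J ∧ ∑ i, (n i : ℝ) * u s i = 0} := by
    rintro s ⟨hs, hs'⟩
    unfold Irr at hs'
    push Not at hs'
    obtain ⟨n, hn, h⟩ := hs'
    exact Set.mem_biUnion (show n ∈ {n : Fin 4 → ℤ | n ≠ 0} from hn) ⟨hs, h⟩
  refine Set.Countable.mono h1 ?_
  exact (Set.to_countable _).biUnion fun n hn => mn1_countable hJc u hu hind n hn

end Pool.Agent.IC61
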