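import Pool.Agent.IC61.Mt3

set_option autoImplicit false

/-!
# IC61/Mt5: the bad set is null (MP_0d1f6d_an, helper61)

PROOF. Let `S = {s ∈ Ioo p0 q0 | BP ε c s}` and suppose `volume S ≠ 0`; in particular `S` is not empty, so
`x c`, `A c`, `B c` are tame (`BP.next`, `Step`, `X.tame`).
(1) For every `OrdConnected` `I ⊆ Icc p0 q0`: `volume {s ∈ I | BP ε c s} ≤ volume I / 2`. Apply `children` to `c`
and `I`: all `s ∈ I` with `BP ε c s` have `x c s ≠ 0`, `A c s ≠ 0`, `B c s ≠ 0`, so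
`volume {..} ≤ ∑' n, volume {s ∈ P n | BP ε c s} ≤ ∑' n, volume (P n) / 2 ≤ volume I / 2` by `hhalf` (the `P n`
are disjoint and measurable).
(2) Lebesgue density: `IsUnifLocDoublingMeasure.ae_tendsto_measure_inter_div volume S K` (for arbitrary
sets `S`) or `Besicovitch.ae_tendsto_measure_inter_div` gives: for almost every `x` with respect to
`volume.restrict S`: `volume (S ∩ closedBall x r) / volume (closedBall x r) → 1` as `r → 0+`. Since
`volume S ≠ 0` the measure `volume.restrict S` is not zero and one can find such an `x` in `S`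
(careful: `S` need not be measurable; `ae_restrict` of the complement: the set of the `x` with the property is
conull for `volume.restrict S`, and `volume.restrict S (Sᶜ)` can be problematic, but it is enough to find
`x ∈ Ioo p0 q0`: `Ioo p0 q0` is measurable, `S ⊆ Ioo p0 q0`, so `volume.restrict S (Ioo p0 q0)ᶜ = 0`).
For small `r`: `closedBall x r = Icc (x - r) (x + r) ⊆ Icc p0 q0`, so by (1) the quotient is `≤ 1/2`. Contradiction.
-/

namespace Pool.Agent.IC61

open MeasureTheory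

private lemma half_all {C Z : Type} {k0 : ℕ} (X : Ctx C Z k0) {ε : ℝ}
    (hhalf : ∀ (c : C) (I : Set ℝ) (h : ℝ), X.Node c I h →
      volume {s | s ∈ I ∧ X.BP ε c s} ≤ volume I / 2) (c : C)
    (hx : Tame (Set.Icc X.p0 X.q0) k0 X.β (X.x c)) (hA : Tame (Set.Icc X.p0 X.q0) k0 X.β (X.A c))
    (hB : Tame (Set.Icc X.p0 X.q0) k0 X.β (X.B c)) (I : Set ℝ) (hI : I ⊆ Set.Icc X.p0 X.q0)
    (hI' : I.OrdConnected) : volume {s | s ∈ I ∧ X.BP ε c s} ≤ volume I / 2 := by
  obtain ⟨D, hD⟩ := children k0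
  obtain ⟨P, hP, hdis, hcov, -⟩ := hD C Z X c hx hA hB I hI hI'
  have hmeas : ∀ n, MeasurableSet (P n) := by
    intro n
    obtain ⟨-, h, -, hN⟩ := hP n
    exact hN.1.measurableSet
  have hsub : {s | s ∈ I ∧ X.BP ε c s} ⊆ ⋃ n, {s | s ∈ P n ∧ X.BP ε c s} := by
    rintro s ⟨hs, hbp⟩
    obtain ⟨z, c', hst, -⟩ := hbp.next
    obtain ⟨-, -, -, -, -, h1, h2, h3, -⟩ := hst
    have : s ∈ ⋃ n, P n := hcov ⟨hs, h3, h1.ne', h2.ne'⟩
    rw [Set.mem_iUnion] at this ⊢
    obtain ⟨n, hn⟩ := this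
    exact ⟨n, hn, hbp⟩
  calc volume {s | s ∈ I ∧ X.BP ε c s} ≤ volume (⋃ n, {s | s ∈ P n ∧ X.BP ε c s}) :=
        measure_mono hsub
    _ ≤ ∑' n, volume {s | s ∈ P n ∧ X.BP ε c s} := measure_iUnion_le _
    _ ≤ ∑' n, volume (P n) / 2 := by
        refine ENNReal.tsum_le_tsum fun n => ?_
        obtain ⟨-, h, -, hN⟩ := hP n
        exact hhalf c (P n) h hN
    _ = (∑' n, volume (P n)) / 2 := by
        simp only [div_eq_mul_inv]
        rw [ENNReal.tsum_mul_right]
    _ = volume (⋃ n, P n) / 2 := by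
        rw [measure_iUnion (fun m n hmn => hdis m n hmn) hmeas]
    _ ≤ volume I / 2 := by
        gcongr
        exact Set.iUnion_subset fun n => (hP n).1

theorem null_of_half {C Z : Type} {k0 : ℕ} (X : Ctx C Z k0) {ε : ℝ}
    (hhalf : ∀ (c : C) (I : Set ℝ) (h : ℝ), X.Node c I h →
      volume {s | s ∈ I ∧ X.BP ε c s} ≤ volume I / 2) (c : C) :
    volume {s | s ∈ Set.Ioo X.p0 X.q0 ∧ X.BP ε c s} = 0 := by
  set S : Set ℝ := {s | s ∈ Set.Ioo X.p0 X.q0 ∧ X.BP ε c s} with hS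
  by_contra hne
  have hSne : S.Nonempty := by
    rw [Set.nonempty_iff_ne_empty]
    intro h
    rw [h] at hne
    simp at hne
  obtain ⟨s0, -, hbp⟩ := hSne
  obtain ⟨z, c', hst, -⟩ := hbp.next
  obtain ⟨hx, hA, hB, -⟩ := X.tame c z hst.1
  have h1 := half_all X hhalf c hx hA hB
  have hres : (volume : Measure ℝ).restrict S ≠ 0 := by
    intro h
    exact hne (Measure.restrict_eq_zero.1 h)
  have hae := Besicovitch.ae_tendsto_measure_inter_div (volume : Measure ℝ) S
  have hmem : ∀ᵐ x ∂((volume : Measure ℝ).restrict S), x ∈ Set.Ioo X.p0 X.q0 := by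
    rw [ae_iff]
    have : {a | a ∉ Set.Ioo X.p0 X.q0} = (Set.Ioo X.p0 X.q0)ᶜ := rfl
    rw [this, Measure.restrict_apply measurableSet_Ioo.compl]
    have : (Set.Ioo X.p0 X.q0)ᶜ ∩ S = ∅ := by
      ext s
      simp only [Set.mem_inter_iff, Set.mem_compl_iff, Set.mem_empty_iff_false, iff_false, not_and]
      intro h h'
      exact h h'.1
    rw [this, measure_empty]
  have : (ae ((volume : Measure ℝ).restrict S)).NeBot := ae_neBot.2 hres
  obtain ⟨x, hx1, hx2⟩ := (hae.and hmem).exists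
  have hev : ∀ᶠ r in nhdsWithin (0 : ℝ) (Set.Ioi 0),
      volume (S ∩ Metric.closedBall x r) / volume (Metric.closedBall x r) ≤ 1 / 2 := by
    have hpos : 0 < min (x - X.p0) (X.q0 - x) := lt_min (sub_pos.2 hx2.1) (sub_pos.2 hx2.2)
    have : Set.Ioo (0 : ℝ) (min (x - X.p0) (X.q0 - x)) ∈ nhdsWithin (0 : ℝ) (Set.Ioi 0) :=
      Ioo_mem_nhdsGT hpos
    filter_upwards [this] with r hr
    have hr1 : r < x - X.p0 := lt_of_lt_of_le hr.2 (min_le_left _ _)
    have hr2 : r < X.q0 - x := lt_of_lt_of_le hr.2 (min_le_right _ _)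
    rw [Real.closedBall_eq_Icc]
    have hI : Set.Icc (x - r) (x + r) ⊆ Set.Icc X.p0 X.q0 :=
      Set.Icc_subset_Icc (by linarith) (by linarith)
    have h2 := h1 (Set.Icc (x - r) (x + r)) hI Set.ordConnected_Icc
    have h3 : volume (S ∩ Set.Icc (x - r) (x + r)) ≤ volume (Set.Icc (x - r) (x + r)) / 2 := by
      refine le_trans (measure_mono ?_) h2
      rintro s ⟨hs, hs'⟩
      exact ⟨hs', hs.2⟩
    refine ENNReal.div_le_of_le_mul ?_
    refine h3.trans (le_of_eq ?_)
    rw [one_div, mul_comm, div_eq_mul_inv]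
  have h4 := le_of_tendsto hx1 hev
  have h5 : (1 : ENNReal) / 2 < 1 := by
    rw [one_div]
    exact ENNReal.inv_lt_one.2 (by norm_num)
  exact absurd h4 (not_le.2 h5)

end Pool.Agent.IC61
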