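import Pool.Agent.IC61.Mt4
import Pool.Agent.IC61.Mt5

set_option autoImplicit false

/-!
# IC61/Mt6: the abstract theorem (MP_0d1f6d_an, helper61)
-/

namespace Pool.Agent.IC61

open MeasureTheory

theorem bp_null (k0 : ℕ) : ∃ ε : ℝ, 0 < ε ∧ ∀ (C Z : Type) (X : Ctx C Z k0) (c : C),
    volume {s | s ∈ Set.Ioo X.p0 X.q0 ∧ X.BP ε c s} = 0 := by
  obtain ⟨ε, hε, h⟩ := half k0
  exact ⟨ε, hε, fun C Z X c => null_of_half X (fun c I h' hn => h C Z X c I h' hn) c⟩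

end Pool.Agent.IC61
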