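import Pool.Agent.IC61.An6
import Pool.Agent.IC61.Mt6
import Pool.Agent.IC61.Cl4
import Pool.Agent.IC61.Mn1

set_option autoImplicit false

/-!
# IC61/Mn2: almost every point of an analytic curve of length vectors has only one pair of
transported monotone functions (MP_0d1f6d_an, helper61)
-/

namespace Pool.Agent.IC61

open MeasureTheory

/-- The context of a curve on a small interval. -/
def curveCtx (u : ℝ → Fin 4 → ℝ) (p0 q0 β Y : ℝ) (k0 : ℕ) (hlen : q0 - p0 ≤ 1) (hβ : 0 < β)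
    (ht : ∀ c : Fin 4 → ℝ, (∃ i, 1 ≤ |c i|) →
      Tame (Set.Icc p0 q0) k0 β (fun s => ∑ i, c i * u s i)) :
    Ctx Cls (Fin 4 → ℤ) k0 where
  p0 := p0
  q0 := q0
  β := β
  Y := Y
  hlen := hlen
  hβ := hβ
  x := fun c s => fx c (u s)
  A := fun c s => fA c (u s)
  B := fun c s => fB c (u s)
  xz := fun z s => Q (cv z) (u s)
  yz := yv
  lat := lat
  nx := nxt
  tame := by
    intro c z h
    have key : ∀ n : Fin 4 → ℤ, n ≠ 0 →
        Tame (Set.Icc p0 q0) k0 β (fun s => ∑ i, (n i : ℝ) * u s i) := by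
      intro n hn
      apply ht (fun i => (n i : ℝ))
      by_contra hcon
      push Not at hcon
      apply hn
      funext i
      have h1 := hcon i
      have h2 : |n i| < 1 := by exact_mod_cast h1
      simpa using Int.abs_lt_one_iff.1 h2
    obtain ⟨⟨n1, hn1, h1⟩, ⟨n2, hn2, h2⟩, ⟨n3, hn3, h3⟩, ⟨n4, hn4, h4⟩⟩ := lat_forms h
    refine ⟨?_, ?_, ?_, ?_⟩
    · have := key n1 hn1
      simpa only [← h1] using this
    · have := key n2 hn2
      simpa only [← h2] using this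
    · have := key n3 hn3
      simpa only [← h3] using this
    · have := key n4 hn4
      simpa only [← h4] using this
  x_nx := fun c z b => rfl
  ypos := fun c z h => h.2.2.1
  det := fun c z z' h h' hne s => lat_det h h' hne (u s)

instance : Countable Cls := inferInstanceAs (Countable ((Fin 4 → ℤ) × (Fin 4 → Fin 4 → ℤ)))

/-- **The main theorem on length vectors in normal form.** -/
theorem main0 {J : Set ℝ} (hJ : IsOpen J) (hJc : J.OrdConnected) (u : ℝ → Fin 4 → ℝ)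
    (hu : ∀ i, AnalyticOnNhd ℝ (fun s => u s i) J)
    (hind : ∀ c : Fin 4 → ℝ, c ≠ 0 → ∃ s ∈ J, ∑ i, c i * u s i ≠ 0) :
    volume {s | s ∈ J ∧ (∀ i, 0 < u s i) ∧ u s 0 + u s 1 < u s 2 + u s 3 ∧
      ∃ v, GD (u s) v ∧ ∀ κ : ℝ, v ≠ κ • u s} = 0 := by
  have h0 : volume {s | s ∈ J ∧ ¬ Irr (u s)} = 0 := (irr_null hJ hJc u hu hind).measure_zero _
  have h1 : volume {s | s ∈ J ∧ Irr (u s) ∧ (∀ i, 0 < u s i) ∧ u s 0 + u s 1 < u s 2 + u s 3 ∧
      ∃ v, GD (u s) v ∧ ∀ κ : ℝ, v ≠ κ • u s} = 0 := by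
    apply measure_null_of_locally_null
    intro s0 hs0
    obtain ⟨p0, q0, β, k0, hp, hq, hlen, hsub, hβ, ht⟩ := local_tame hJ hJc u hu hind hs0.1
    obtain ⟨ε, hε, hnull⟩ := bp_null k0
    have hcont : ContinuousOn (fun s => pr (u s) y0) (Set.Icc p0 q0) := by
      have hc : ∀ i, ContinuousOn (fun s => u s i) (Set.Icc p0 q0) :=
        fun i => (hu i).continuousOn.mono hsub
      unfold pr
      exact (((hc 0).mul continuousOn_const).add ((hc 1).mul continuousOn_const)).add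
        ((hc 2).mul continuousOn_const) |>.add ((hc 3).mul continuousOn_const)
    obtain ⟨Y, hY⟩ := (isCompact_Icc.image_of_continuousOn hcont).bddAbove
    let X := curveCtx u p0 q0 β Y k0 hlen hβ ht
    refine ⟨{s | s ∈ J ∧ Irr (u s) ∧ (∀ i, 0 < u s i) ∧ u s 0 + u s 1 < u s 2 + u s 3 ∧
      ∃ v, GD (u s) v ∧ ∀ κ : ℝ, v ≠ κ • u s} ∩ Set.Ioo p0 q0,
      inter_mem_nhdsWithin _ (Ioo_mem_nhds hp hq), ?_⟩
    apply measure_mono_null (t := ⋃ c : Cls, {s | s ∈ Set.Ioo X.p0 X.q0 ∧ X.BP ε c s})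
    · rintro s ⟨⟨hsJ, hI, hpos, hη, v, hG, hnp⟩, hs⟩
      obtain ⟨cs, zs, hcz⟩ := bad_path (u s) hpos hη hI v hG hnp hε
      rw [Set.mem_iUnion]
      refine ⟨cs 0, hs, cs, zs, rfl, fun n => ?_⟩
      obtain ⟨g1, g2, g3, g4, g5, g6, g7, g8, g9⟩ := hcz n
      exact ⟨g1, g2, g3, g4, g5, g6, g7, g8, g9.trans (hY ⟨s, Set.Ioo_subset_Icc_self hs, rfl⟩)⟩
    · rw [measure_iUnion_null_iff]
      intro c
      exact hnull _ _ X c
  apply measure_mono_null _ (measure_union_null h0 h1)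
  rintro s ⟨hsJ, h2, h3, h4⟩
  by_cases hI : Irr (u s)
  · exact Or.inr ⟨hsJ, hI, h2, h3, h4⟩
  · exact Or.inl ⟨hsJ, hI⟩

end Pool.Agent.IC61
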