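import Pool.Agent.IC61.Mn2
import Pool.Agent.IC61.It1
import Pool.Agent.IC61.It2
import Pool.Agent.IC61.It3
import Pool.Agent.IC61.It4
import Pool.Agent.IC61.It5
import Pool.Agent.IC61.It6

set_option autoImplicit false

/-!
# IC61/Mn3: interval exchanges of four intervals along analytic curves
(MP_0d1f6d_an, helper61)
-/

namespace Pool.Agent.IC61

open MeasureTheory Pool.Agent.H51.Iet

/-- For almost every parameter all solutions of the relations are multiples of the lengths. -/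
def Nul (σ : Equiv.Perm (Fin 4)) : Prop :=
  ∀ (J : Set ℝ) (a : ℝ → Fin 4 → ℝ), IsOpen J → J.OrdConnected → GC J a →
    volume {s | s ∈ J ∧ (∀ i, 0 < a s i) ∧ ∃ b, HRel σ (a s) b ∧ NP (a s) b} = 0

/-- Transfer to another permutation. -/
lemma Nul_of {σ τ : Equiv.Perm (Fin 4)} {M : Fin 4 → Fin 4 → ℤ} (hM : Uni M)
    (hpos : ∀ a, (∀ i, 0 < a i) → ∀ i, 0 < act M a i)
    (hrel : ∀ a b, (∀ i, 0 < a i) → HRel σ a b → HRel τ (act M a) (act M b)) (h : Nul τ) :
    Nul σ := by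
  intro J a hJ hJc hG
  refine measure_mono_null ?_ (h J (fun s => act M (a s)) hJ hJc (GC_act hM hG))
  rintro s ⟨hs, ha, b, hb, hnp⟩
  exact ⟨hs, hpos _ ha, act M b, hrel _ _ ha hb, NP_act hM hnp⟩

/-- The two matrices of the normal form. -/
def W1 : Fin 4 → Fin 4 → ℤ := ![![1, 0, 0, 0], ![0, 1, 0, 0], ![1, 1, 1, 0], ![-1, -1, 0, 1]]
def W2 : Fin 4 → Fin 4 → ℤ := ![![1, 0, 0, 0], ![0, 1, 0, 0], ![1, 1, 0, -1], ![-1, -1, 1, 2]]
/-- The reversal. -/
def Rv : Fin 4 → Fin 4 → ℤ := ![![0, 0, 0, 1], ![0, 0, 1, 0], ![0, 1, 0, 0], ![1, 0, 0, 0]]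

lemma ext4 {x y : Fin 4 → ℝ} (h0 : x 0 = y 0) (h1 : x 1 = y 1) (h2 : x 2 = y 2)
    (h3 : x 3 = y 3) : x = y := by
  funext i
  fin_cases i
  · exact h0
  · exact h1
  · exact h2
  · exact h3

lemma act_W1 (a : Fin 4 → ℝ) : act W1 a = ![a 0, a 1, a 0 + a 1 + a 2, a 3 - a 0 - a 1] := by
  apply ext4 <;> simp [act, W1, Fin.sum_univ_four]
  ring

lemma act_W2 (a : Fin 4 → ℝ) :
    act W2 a = ![a 0, a 1, a 0 + a 1 - a 3, a 2 + 2 * a 3 - a 0 - a 1] := by
  apply ext4 <;> simp [act, W2, Fin.sum_univ_four] <;> ring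

lemma act_Rv (a : Fin 4 → ℝ) : act Rv a = fun k => a (Fin.rev k) := by
  apply ext4 <;> simp [act, Rv, Fin.sum_univ_four] <;> rfl

lemma Uni_W1 : Uni W1 := by
  refine ⟨![![1, 0, 0, 0], ![0, 1, 0, 0], ![-1, -1, 1, 0], ![1, 1, 0, 1]], ?_, ?_⟩ <;> intro a <;>
    apply ext4 <;> simp [act, W1, Fin.sum_univ_four] <;> ring

lemma Uni_W2 : Uni W2 := by
  refine ⟨![![1, 0, 0, 0], ![0, 1, 0, 0], ![-1, -1, 2, 1], ![1, 1, -1, 0]], ?_, ?_⟩ <;> intro a <;>
    apply ext4 <;> simp [act, W2, Fin.sum_univ_four] <;> ring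

lemma Uni_Rv : Uni Rv := by
  refine ⟨Rv, ?_, ?_⟩ <;> intro a <;> apply ext4 <;> simp [act, Rv, Fin.sum_univ_four]

lemma irr_ne {a : Fin 4 → ℝ} (hI : Irr a) (n : Fin 4 → ℤ) (hn : n ≠ 0) :
    (n 0 : ℝ) * a 0 + n 1 * a 1 + n 2 * a 2 + n 3 * a 3 ≠ 0 := by
  have h := hI n hn
  rwa [Fin.sum_univ_four] at h

/-- The part of the parameters with `a 0 + a 1 < a 2 + a 3`. -/
lemma half_4321 {J : Set ℝ} {a : ℝ → Fin 4 → ℝ} (hJ : IsOpen J) (hJc : J.OrdConnected)
    (hG : GC J a) : volume {s | s ∈ J ∧ (∀ i, 0 < a s i) ∧ a s 0 + a s 1 < a s 2 + a s 3 ∧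
      ∃ b, HRel s4321 (a s) b ∧ NP (a s) b} = 0 := by
  have h0 : volume {s | s ∈ J ∧ ¬ Irr (a s)} = 0 :=
    (irr_null hJ hJc a hG.1 hG.2).measure_zero _
  have hG1 := GC_act Uni_W1 hG
  have hG2 := GC_act Uni_W2 hG
  have h1 := main0 hJ hJc _ hG1.1 hG1.2
  have h2 := main0 hJ hJc _ hG2.1 hG2.2
  refine measure_mono_null ?_ (measure_union_null h0 (measure_union_null h1 h2))
  rintro s ⟨hs, ha, hη, b, hb, hnp⟩
  by_cases hI : Irr (a s)
  · right
    have hne : a s 0 + a s 1 ≠ a s 3 := by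
      intro h
      apply irr_ne hI ![1, 1, 0, -1] (by
        intro h'
        have := congrFun h' 0
        simp at this)
      simp
      linarith
    rcases lt_or_gt_of_ne hne with h | h
    · left
      refine ⟨hs, ?_, ?_, act W1 b, ?_, NP_act Uni_W1 hnp⟩
      · intro i
        simp only [act_W1]
        have h0 := ha 0
        have h1 := ha 1
        have h2 := ha 2
        have h3 := ha 3
        fin_cases i <;> simp <;> linarith
      · simp only [act_W1]
        simp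
        linarith
      · simp only [act_W1]
        exact GD_case1 ha hη h hb
    · right
      refine ⟨hs, ?_, ?_, act W2 b, ?_, NP_act Uni_W2 hnp⟩
      · intro i
        simp only [act_W2]
        have h0 := ha 0
        have h1 := ha 1
        have h2 := ha 2
        have h3 := ha 3
        fin_cases i <;> simp <;> linarith
      · simp only [act_W2]
        simp
        linarith
      · simp only [act_W2]
        exact GD_case2 ha hη h hb
  · left
    exact ⟨hs, hI⟩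

lemma Nul_4321 : Nul s4321 := by
  intro J a hJ hJc hG
  have h0 : volume {s | s ∈ J ∧ ¬ Irr (a s)} = 0 :=
    (irr_null hJ hJc a hG.1 hG.2).measure_zero _
  have h1 := half_4321 hJ hJc hG
  have h2 := half_4321 hJ hJc (GC_act Uni_Rv hG)
  refine measure_mono_null ?_ (measure_union_null h0 (measure_union_null h1 h2))
  rintro s ⟨hs, ha, b, hb, hnp⟩
  by_cases hI : Irr (a s)
  · right
    have hne : a s 0 + a s 1 ≠ a s 2 + a s 3 := by
      intro h
      apply irr_ne hI ![1, 1, -1, -1] (by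
        intro h'
        have := congrFun h' 0
        simp at this)
      simp
      linarith
    rcases lt_or_gt_of_ne hne with h | h
    · left
      exact ⟨hs, ha, h, b, hb, hnp⟩
    · right
      refine ⟨hs, ?_, ?_, act Rv b, ?_, NP_act Uni_Rv hnp⟩
      · intro i
        simp only [act_Rv]
        exact ha _
      · simp only [act_Rv]
        change a s 3 + a s 2 < a s 1 + a s 0
        linarith
      · simp only [act_Rv]
        exact HRel_rev (by decide) ha hb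
  · left
    exact ⟨hs, hI⟩

/-- The matrix of a permutation of the coordinates. -/
def Pm (σ : Equiv.Perm (Fin 4)) : Fin 4 → Fin 4 → ℤ := fun i j => if σ i = j then 1 else 0

lemma act_Pm (σ : Equiv.Perm (Fin 4)) (a : Fin 4 → ℝ) : act (Pm σ) a = fun k => a (σ k) := by
  funext k
  simp [act, Pm]

lemma Uni_Pm (σ : Equiv.Perm (Fin 4)) : Uni (Pm σ) := by
  refine ⟨Pm σ.symm, ?_, ?_⟩ <;> intro a <;> simp [act_Pm]

lemma Nul_symm {σ : Equiv.Perm (Fin 4)} (h : Nul σ.symm) : Nul σ := by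
  refine Nul_of (M := Pm σ.symm) (Uni_Pm _) ?_ ?_ h
  · intro a ha i
    rw [act_Pm]
    exact ha _
  · intro a b ha hb
    rw [act_Pm, act_Pm]
    exact HRel_symm ha hb

lemma Nul_rev {σ τ : Equiv.Perm (Fin 4)} (hτ : ∀ k, τ k = Fin.rev (σ (Fin.rev k)))
    (h : Nul τ) : Nul σ := by
  refine Nul_of (M := Rv) Uni_Rv ?_ ?_ h
  · intro a ha i
    rw [act_Rv]
    exact ha _
  · intro a b ha hb
    rw [act_Rv, act_Rv]
    exact HRel_rev hτ ha hb

def MA : Fin 4 → Fin 4 → ℤ := ![![1, 0, 0, 0], ![0, 1, 0, 0], ![0, 0, 1, 0], ![1, 0, 0, 1]]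
def MB : Fin 4 → Fin 4 → ℤ := ![![1, 0, 0, 0], ![0, 1, 1, 0], ![0, 0, 0, 1], ![0, 0, 1, 0]]

lemma act_MA (a : Fin 4 → ℝ) : act MA a = ![a 0, a 1, a 2, a 3 + a 0] := by
  apply ext4 <;> simp [act, MA, Fin.sum_univ_four]
  ring

lemma act_MB (a : Fin 4 → ℝ) : act MB a = ![a 0, a 1 + a 2, a 3, a 2] := by
  apply ext4 <;> simp [act, MB, Fin.sum_univ_four]

lemma Uni_MA : Uni MA := by
  refine ⟨![![1, 0, 0, 0], ![0, 1, 0, 0], ![0, 0, 1, 0], ![-1, 0, 0, 1]], ?_, ?_⟩ <;> intro a <;>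
    apply ext4 <;> simp [act, MA, Fin.sum_univ_four]

lemma Uni_MB : Uni MB := by
  refine ⟨![![1, 0, 0, 0], ![0, 1, 0, -1], ![0, 0, 0, 1], ![0, 0, 1, 0]], ?_, ?_⟩ <;> intro a <;>
    apply ext4 <;> simp [act, MB, Fin.sum_univ_four]

lemma Nul_2431 : Nul s2431 := by
  refine Nul_of (M := MA) Uni_MA ?_ ?_ Nul_4321
  · intro a ha i
    rw [act_MA]
    have h0 := ha 0
    have h1 := ha 1
    have h2 := ha 2
    have h3 := ha 3
    fin_cases i <;> simp <;> linarith
  · intro a b ha hb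
    rw [act_MA, act_MA]
    exact step_A ha hb

lemma Nul_2413 : Nul s2413 := by
  refine Nul_of (M := MB) Uni_MB ?_ ?_ Nul_2431
  · intro a ha i
    rw [act_MB]
    have h0 := ha 0
    have h1 := ha 1
    have h2 := ha 2
    have h3 := ha 3
    fin_cases i <;> simp <;> linarith
  · intro a b ha hb
    rw [act_MB, act_MB]
    exact step_B ha hb

lemma Nul_4132 : Nul s4132 := by
  apply Nul_symm
  exact Nul_2431

lemma Nul_3241 : Nul s3241 := by
  apply Nul_rev (τ := s4132) (by decide)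
  exact Nul_4132

lemma Nul_4213 : Nul s4213 := by
  apply Nul_symm
  exact Nul_3241

lemma Nul_3142 : Nul s3142 := by
  apply Nul_symm
  exact Nul_2413

/-- **Main theorem.** -/
theorem four (σ : Equiv.Perm (Fin 4)) (hσ : IrreduciblePerm σ) (J : Set ℝ) (hJ : IsOpen J)
    (hJc : J.OrdConnected) (a : ℝ → Fin 4 → ℝ) (han : AnalyticOn ℝ a J)
    (hpos : ∀ s ∈ J, ∀ i, 0 < a s i)
    (hnd : ∀ P : Submodule ℝ (Fin 4 → ℝ), a '' J ⊆ P → P = ⊤) :
    volume {s | s ∈ J ∧ ¬ UniquelyErgodic σ (a s)} = 0 := by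
  have hG : GC J a := GC_of hJ han hnd
  have h0 : volume {s | s ∈ J ∧ ¬ Irr (a s)} = 0 :=
    (irr_null hJ hJc a hG.1 hG.2).measure_zero _
  rcases classify σ hσ with hr | h7
  · refine measure_mono_null ?_ h0
    rintro s ⟨hs, hne⟩
    refine ⟨hs, fun hI => hne ?_⟩
    apply uniquelyErgodic_of_rank σ hσ (by norm_num) hr (hpos s hs)
    intro c hc
    by_contra hc0
    exact hI c hc0 hc
  · have hN : Nul σ := by
      rcases h7 with rfl | rfl | rfl | rfl | rfl | rfl | rfl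
      · exact Nul_4321
      · exact Nul_2431
      · exact Nul_4132
      · exact Nul_3241
      · exact Nul_4213
      · exact Nul_2413
      · exact Nul_3142
    refine measure_mono_null ?_ (measure_union_null h0 (hN J a hJ hJc hG))
    rintro s ⟨hs, hne⟩
    by_cases hI : Irr (a s)
    · right
      obtain ⟨b, hb, hnp⟩ := exists_HRel σ hσ (hpos s hs) hI hne
      exact ⟨hs, hpos s hs, b, hb, hnp⟩
    · left
      exact ⟨hs, hI⟩

end Pool.Agent.IC61
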