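import Pool.Agent.IC61.An0

set_option autoImplicit false

/-!
# IC61/Mt0: the abstract setting of the measure estimate (MP_0d1f6d_an, helper61)

`C`: classes, `Z`: candidates for the next curve; `x c` signed length of the slit, `A c`, `B c` the two
parts of the area, `xz z`, `yz z` length and height of `z`, `lat c z`: `z` is a primitive vector of
the rank two lattice of `c`, `nx c z b` the next class, `b` is the sign of `x c`.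
-/

namespace Pool.Agent.IC61

structure Ctx (C Z : Type) (k0 : ℕ) where
  p0 : ℝ
  q0 : ℝ
  β : ℝ
  Y : ℝ
  hlen : q0 - p0 ≤ 1
  hβ : 0 < β
  x : C → ℝ → ℝ
  A : C → ℝ → ℝ
  B : C → ℝ → ℝ
  xz : Z → ℝ → ℝ
  yz : Z → ℝ
  lat : C → Z → Prop
  nx : C → Z → Bool → C
  tame : ∀ c z, lat c z → Tame (Set.Icc p0 q0) k0 β (x c) ∧ Tame (Set.Icc p0 q0) k0 β (A c) ∧
    Tame (Set.Icc p0 q0) k0 β (B c) ∧ Tame (Set.Icc p0 q0) k0 β (xz z)
  x_nx : ∀ c z b, x (nx c z b) = xz z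
  ypos : ∀ c z, lat c z → 0 < yz z
  det : ∀ c z z', lat c z → lat c z' → z ≠ z' → ∀ s,
    |A c s| ≤ |xz z s| * yz z' + |xz z' s| * yz z

namespace Ctx

variable {C Z : Type} {k0 : ℕ}

/-- One step of a bad path at the parameter `s`. -/
def Step (X : Ctx C Z k0) (ε s : ℝ) (c : C) (z : Z) (c' : C) : Prop :=
  X.lat c z ∧ (∃ b : Bool, (b = true ↔ 0 < X.x c s) ∧ c' = X.nx c z b) ∧
    X.yz z * |X.x c s| ≤ ε * X.B c s ∧
    X.B c s * |X.x c' s| ≤ ε * X.B c' s * |X.x c s| ∧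
    X.B c' s ≤ X.A c s ∧ 0 < X.A c s ∧ 0 < X.B c s ∧ X.x c s ≠ 0 ∧ X.B c s ≤ X.Y

/-- Bad paths starting at the class `c`. -/
def BP (X : Ctx C Z k0) (ε : ℝ) (c : C) (s : ℝ) : Prop :=
  ∃ (cs : ℕ → C) (zs : ℕ → Z), cs 0 = c ∧ ∀ n, X.Step ε s (cs n) (zs n) (cs (n + 1))

/-- Intervals on which the three functions vary at most by a factor two. -/
def Node (X : Ctx C Z k0) (c : C) (I : Set ℝ) (h : ℝ) : Prop :=
  I.OrdConnected ∧ I ⊆ Set.Icc X.p0 X.q0 ∧ ∃ xs As Bs : ℝ, 0 < xs ∧ 0 < As ∧ 0 < Bs ∧ h = Bs / xs ∧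
    ∀ s ∈ I, (xs ≤ |X.x c s| ∧ |X.x c s| ≤ 2 * xs) ∧ (As ≤ |X.A c s| ∧ |X.A c s| ≤ 2 * As) ∧
      (Bs ≤ |X.B c s| ∧ |X.B c s| ≤ 2 * Bs)

lemma BP.next {X : Ctx C Z k0} {ε : ℝ} {c : C} {s : ℝ} (h : X.BP ε c s) :
    ∃ z c', X.Step ε s c z c' ∧ X.BP ε c' s := by
  obtain ⟨cs, zs, h0, h1⟩ := h
  refine ⟨zs 0, cs 1, ?_, fun n => cs (n + 1), fun n => zs (n + 1), rfl, fun n => h1 (n + 1)⟩
  rw [← h0]
  exact h1 0

end Ctx

end Pool.Agent.IC61
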