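import Mathlib

set_option autoImplicit false

/-!
# IC61/Mt1: two lemmas on intervals (MP_0d1f6d_an, helper61)

PROOF of `comp_lemma`. `Set.ordConnectedComponent E s = {y | Set.uIcc s y ⊆ E}`. `s ∈ E`, so `s ∈ P`. `P` is
`OrdConnected`, `P ⊆ E` (Mathlib). Interior: `I` has a point `t0 ≠ s` (`hI2`); by continuity on `I` there is
`r > 0` such that `|f t| < M` for `t ∈ I`, `|t - s| < r`; the interval between `s` and a point of
`uIcc s t0` at distance `< r` from `s` is in `E`, hence in `P` (`uIcc s y ⊆ E`), and has nonempty interior.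
The point `s1`: there is `t ∈ I` with `|f t| > M` (as `E ≠ I`). Let `s < t` (the other case is symmetric;
e.g. apply this case to `fun x => f (-x)`, or do it again with the maximum). The set
`{r ∈ Icc s t | M ≤ |f r|}` is compact and not empty, let `r` be its minimum. `s < r` as `|f s| < M`. On
`[s, r)` `|f| < M`, so `|f r| ≤ M` by continuity, `|f r| = M`, `[s, r] ⊆ E`, so `r ∈ P`.
PROOF of `cover_half`. `S` is countable (`Set.PairwiseDisjoint.countable_of_nonempty_interior`).
`volume K ≤ ∑' P : S, volume (K ∩ P)` (`K = ⋃ (K ∩ P)`, `measure_biUnion_le`) `≤ ∑' P : S, volume P / 2`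
`= (∑' P : S, volume P) / 2 = volume (⋃₀ S) / 2 ≤ volume I / 2`: `measure_biUnion` with disjoint measurable sets
(`Set.OrdConnected.measurableSet`), `ENNReal.tsum_mul_right`/`div_eq_mul_inv`.
-/

namespace Pool.Agent.IC61

open MeasureTheory

theorem comp_lemma {I : Set ℝ} (hI : I.OrdConnected) (hI2 : I.Nontrivial) {f : ℝ → ℝ}
    (hf : ContinuousOn f I) {M : ℝ} {s : ℝ} (hs : s ∈ I) (hfs : |f s| < M)
    (hE : {t | t ∈ I ∧ |f t| ≤ M} ≠ I) :
    (interior (Set.ordConnectedComponent {t | t ∈ I ∧ |f t| ≤ M} s)).Nonempty ∧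
      ∃ s1 ∈ Set.ordConnectedComponent {t | t ∈ I ∧ |f t| ≤ M} s, |f s1| = M := by
  constructor
  · obtain ⟨t0, ht0, hne⟩ := hI2.exists_ne s
    have hcont : ContinuousWithinAt (fun t => |f t|) I s := (hf s hs).abs
    have hev : ∀ᶠ t in nhdsWithin s I, |f t| < M :=
      (hcont.tendsto).eventually_lt_const hfs
    obtain ⟨r, hr, hr0⟩ := Metric.mem_nhdsWithin_iff.mp hev
    have hr' : ∀ {t : ℝ}, dist t s < r → t ∈ I → |f t| < M := fun h1 h2 => hr0 ⟨h1, h2⟩
    have hd : 0 < |t0 - s| := abs_pos.mpr (sub_ne_zero.mpr hne)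
    set l : ℝ := min 1 (r / (2 * |t0 - s|)) with hl
    have hl0 : 0 < l := lt_min one_pos (by positivity)
    have hl1 : l ≤ 1 := min_le_left _ _
    have hl2 : l * |t0 - s| ≤ r / 2 := by
      have h1 : l ≤ r / (2 * |t0 - s|) := min_le_right _ _
      calc l * |t0 - s| ≤ r / (2 * |t0 - s|) * |t0 - s| := mul_le_mul_of_nonneg_right h1 hd.le
        _ = r / 2 := by field_simp
    set u : ℝ := s + l * (t0 - s) with hu
    have hus : u ≠ s := by
      intro h
      have : l * (t0 - s) = 0 := by linarith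
      rcases mul_eq_zero.mp this with h' | h'
      · exact hl0.ne' h'
      · exact hne (sub_eq_zero.mp h')
    have huI : u ∈ I := by
      have : u ∈ Set.uIcc s t0 := by
        rw [← segment_eq_uIcc, segment_eq_image']
        exact ⟨l, ⟨hl0.le, hl1⟩, by simp [hu]⟩
      exact hI.uIcc_subset hs ht0 this
    have hsub : Set.uIcc s u ⊆ {t | t ∈ I ∧ |f t| ≤ M} := by
      intro y hy
      have hyI : y ∈ I := hI.uIcc_subset hs huI hy
      refine ⟨hyI, le_of_lt (hr' ?_ hyI)⟩
      rw [Real.dist_eq]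
      have h1 := Set.abs_sub_left_of_mem_uIcc hy
      have h2 : |u - s| = l * |t0 - s| := by
        rw [hu, add_sub_cancel_left, abs_mul, abs_of_pos hl0]
      linarith
    have hcomp : Set.uIcc s u ⊆ Set.ordConnectedComponent {t | t ∈ I ∧ |f t| ≤ M} s := by
      intro y hy
      rw [Set.mem_ordConnectedComponent]
      exact (Set.uIcc_subset_uIcc_left hy).trans hsub
    refine Set.Nonempty.mono (interior_mono hcomp) ?_
    rw [Set.uIcc, interior_Icc, Set.nonempty_Ioo]
    exact inf_lt_sup.mpr hus.symm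
  · obtain ⟨t, htI, htM⟩ : ∃ t ∈ I, M < |f t| := by
      by_contra hcon
      push Not at hcon
      apply hE
      ext t
      exact ⟨fun h => h.1, fun h => ⟨h, hcon t h⟩⟩
    have hseg : ∀ μ : ℝ, 0 ≤ μ → μ ≤ 1 → s + μ * (t - s) ∈ I := by
      intro μ h0 h1
      have : s + μ * (t - s) ∈ Set.uIcc s t := by
        rw [← segment_eq_uIcc, segment_eq_image']
        exact ⟨μ, ⟨h0, h1⟩, by simp⟩
      exact hI.uIcc_subset hs htI this
    have hg : ContinuousOn (fun μ : ℝ => |f (s + μ * (t - s))|) (Set.Icc 0 1) := by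
      apply ContinuousOn.abs
      apply hf.comp (Continuous.continuousOn (by fun_prop))
      intro μ hμ
      exact hseg μ hμ.1 hμ.2
    set L : Set ℝ := {μ | μ ∈ Set.Icc (0 : ℝ) 1 ∧ M ≤ |f (s + μ * (t - s))|} with hL
    have hLc : IsCompact L := by
      have : L = Set.Icc (0 : ℝ) 1 ∩ (fun μ : ℝ => |f (s + μ * (t - s))|) ⁻¹' Set.Ici M := rfl
      rw [this]
      exact isCompact_Icc.of_isClosed_subset
        (hg.preimage_isClosed_of_isClosed isClosed_Icc isClosed_Ici) Set.inter_subset_left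
    have hL1 : L.Nonempty := by
      refine ⟨1, ⟨by norm_num, le_rfl⟩, ?_⟩
      have : s + 1 * (t - s) = t := by ring
      rw [this]
      exact htM.le
    have hmem := hLc.sInf_mem hL1
    set m := sInf L with hm
    have hmin : ∀ μ ∈ L, m ≤ μ := fun μ hμ => csInf_le hLc.bddBelow hμ
    have hval : |f (s + m * (t - s))| = M := by
      have hIVT := intermediate_value_Icc hmem.1.1
        (hg.mono (Set.Icc_subset_Icc_right hmem.1.2))
      have h0 : |f (s + 0 * (t - s))| ≤ M := by
        rw [zero_mul, add_zero]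
        exact hfs.le
      obtain ⟨μ, hμ, hμM⟩ := hIVT ⟨h0, hmem.2⟩
      have hμM' : |f (s + μ * (t - s))| = M := hμM
      have hμL : μ ∈ L := ⟨⟨hμ.1, hμ.2.trans hmem.1.2⟩, hμM'.ge⟩
      have : μ = m := le_antisymm hμ.2 (hmin μ hμL)
      rw [← this]
      exact hμM'
    refine ⟨s + m * (t - s), ?_, hval⟩
    rw [Set.mem_ordConnectedComponent]
    intro y hy
    rw [← segment_eq_uIcc, segment_eq_image'] at hy
    obtain ⟨θ, hθ, hy⟩ := hy
    have hy' : y = s + (θ * m) * (t - s) := by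
      rw [← hy]
      simp only [smul_eq_mul]
      ring
    have h0 : 0 ≤ θ * m := mul_nonneg hθ.1 hmem.1.1
    have h1 : θ * m ≤ m := mul_le_of_le_one_left hmem.1.1 hθ.2
    have h2 : θ * m ≤ 1 := h1.trans hmem.1.2
    rw [hy']
    refine ⟨hseg _ h0 h2, ?_⟩
    by_contra hcon
    push Not at hcon
    have hin : θ * m ∈ L := ⟨⟨h0, h2⟩, hcon.le⟩
    have heq : θ * m = m := le_antisymm h1 (hmin _ hin)
    rw [heq, hval] at hcon
    exact lt_irrefl _ hcon

theorem cover_half {I K : Set ℝ} (S : Set (Set ℝ)) (hS : S.PairwiseDisjoint id)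
    (hP : ∀ P ∈ S, P ⊆ I ∧ P.OrdConnected ∧ (interior P).Nonempty ∧
      volume (K ∩ P) ≤ volume P / 2) (hK : K ⊆ ⋃₀ S) : volume K ≤ volume I / 2 := by
  have hc : S.Countable := hS.countable_of_nonempty_interior fun P hPS => (hP P hPS).2.2.1
  have h1 : K ⊆ ⋃ P ∈ S, K ∩ P := by
    intro x hx
    obtain ⟨P, hPS, hxP⟩ := hK hx
    exact Set.mem_iUnion₂.mpr ⟨P, hPS, hx, hxP⟩
  calc volume K ≤ volume (⋃ P ∈ S, K ∩ P) := measure_mono h1
    _ ≤ ∑' P : S, volume (K ∩ P) := measure_biUnion_le _ hc _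
    _ ≤ ∑' P : S, volume (P : Set ℝ) / 2 := ENNReal.tsum_le_tsum fun P => (hP P P.2).2.2.2
    _ = (∑' P : S, volume (P : Set ℝ)) / 2 := by
        simp only [div_eq_mul_inv]
        rw [ENNReal.tsum_mul_right]
    _ = volume (⋃ P ∈ S, id P) / 2 := by
        rw [measure_biUnion hc hS fun P hPS => (hP P hPS).2.1.measurableSet]
        rfl
    _ ≤ volume I / 2 := by
        apply ENNReal.div_le_div_right
        apply measure_mono
        exact Set.iUnion₂_subset fun P hPS => (hP P hPS).1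

end Pool.Agent.IC61
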