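import Pool.Agent.IC61.Mt0
import Pool.Agent.IC61.Mt1
import Pool.Agent.IC61.An3

set_option autoImplicit false

/-!
# IC61/Mt2: on a node the bad set is small or the next class is the same at all bad points
(MP_0d1f6d_an, helper61)

PROOF. Let `C0` be the constant of `good k0`, `α = 1/(k0+1)`. Choose `ε1 ∈ (0, 1/8]` with
`C0 * (32 * ε1^2)^α ≤ 1/2` (exists: `Real.rpow` tends to `0` at `0`; explicitly
`32 ε1^2 = (1/(2 C0))^(k0+1)`, and also smaller values work). Let `ε ≤ ε1`, `κ = 32 ε^2 ≤ 1/2`.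
Let `xs, As, Bs, h = Bs/xs` be as in `Node`, `M = As / (8 ε h)`, `E z = {t ∈ I | |xz z t| ≤ M}`,
`K = {s ∈ I | BP ε c s}`. If `volume I = 0` the first alternative holds; so let `volume I > 0`, in
particular `I` is nontrivial. If `K = ∅`, first alternative.
(a) If `s ∈ I` and `Step ε s c z c'`: `yz z ≤ ε B/|x| ≤ 2 ε h`, and, since `x c' = xz z` (`x_nx`) and `B c' s ≤ A c s`:
`|xz z s| ≤ ε * A c s * |x c s| / B c s ≤ ε * 2 As * 2 xs / Bs = 4 ε As / h = κ M`. (`A c s, B c s > 0`.)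
(b) If `z ≠ z'` both occur in steps at points of `I` then `E z ∩ E z' = ∅`: at a common point
`As ≤ |A c s| ≤ |xz z s| * yz z' + |xz z' s| * yz z ≤ 2 * M * (2 ε h) = As / 2`, contradiction.
(c) Suppose that some `z0` occurs in a step at a point of `K` and `E z0 = I`. Then at every `s ∈ K` the next
curve `z` (`BP.next`) is `z0`: otherwise `s ∈ E z` by (a) (`κ ≤ 1`) and `s ∈ E z0 = I`, against (b). The sign of
`x c` is constant on `I` (`x c` is continuous on `I` by `Tame.cont`, `|x c| ≥ xs > 0`, `I` is preconnected), so the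
Bool `b` is the same for all `s ∈ K` and `c' = nx c z0 b` is the same. Second alternative.
(d) Otherwise `E z ≠ I` for all `z` occurring in steps at points of `K`. Let `S` be the set of all
`Set.ordConnectedComponent (E z) s`, where `s ∈ K` and `z` is a next curve at `s` with `Step`. `S` is pairwise
disjoint: for different `z` by (b), for the same `z`: `Set.ordConnectedComponent_eq`. `|xz z s| ≤ κ M < M`, so
`comp_lemma` applies (`f = xz z`, continuous by `Tame.cont`): nonempty interior, and `s1 ∈ P` with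
`|xz z s1| = M`. `K ∩ P ⊆ {t ∈ P | |xz z t| ≤ κ * |xz z s1|}`: for `t ∈ K ∩ P` let `z'` be a next curve at `t`,
`|xz z' t| ≤ κ M`, so `t ∈ E z' ∩ E z` and `z' = z` by (b). By `good` (for `xz z`):
`volume (K ∩ P) ≤ ofReal (C0 κ^α) * volume P ≤ volume P / 2`. `cover_half` gives the first alternative.
-/

namespace Pool.Agent.IC61

open MeasureTheory

theorem special (k0 : ℕ) : ∃ ε1 : ℝ, 0 < ε1 ∧ ∀ (C Z : Type) (X : Ctx C Z k0) (ε : ℝ), 0 < ε →
    ε ≤ ε1 → ∀ (c : C) (I : Set ℝ) (h : ℝ), X.Node c I h →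
    volume {s | s ∈ I ∧ X.BP ε c s} ≤ volume I / 2 ∨
      ∃ c', ∀ s ∈ I, X.BP ε c s → X.BP ε c' s ∧ ∃ z, X.Step ε s c z c' := by
  obtain ⟨C0, hC0, hgood⟩ := good k0
  have hC0p : 0 < C0 := by linarith
  set κ0 : ℝ := (1 / (2 * C0)) ^ (k0 + 1) with hκ0
  have hq0 : (0 : ℝ) < 1 / (2 * C0) := by positivity
  have hq1 : 1 / (2 * C0) ≤ 1 / 2 := by
    apply one_div_le_one_div_of_le <;> linarith
  have hκ0p : 0 < κ0 := by positivity
  have hκ01 : κ0 ≤ 1 / 2 := by
    rw [hκ0, pow_succ]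
    have : (1 / (2 * C0)) ^ k0 ≤ 1 := pow_le_one₀ hq0.le (by linarith)
    nlinarith
  have hκ0r : κ0 ^ ((1 : ℝ) / (k0 + 1)) = 1 / (2 * C0) := by
    rw [hκ0]
    have := Real.pow_rpow_inv_natCast hq0.le (Nat.succ_ne_zero k0)
    rw [one_div ((k0 : ℝ) + 1)]
    simpa using this
  refine ⟨κ0 / 8, by positivity, ?_⟩
  intro C Z X ε hε hε1 c I h hN
  obtain ⟨hOC, hIJ, xs, As, Bs, hxs, hAs, hBs, hh, hI⟩ := hN
  have hhp : 0 < h := by
    rw [hh]
    positivity
  set κ : ℝ := 32 * ε ^ 2 with hκ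
  have hκp : 0 < κ := by positivity
  have hκle : κ ≤ κ0 := by
    have h1 : ε ^ 2 ≤ (κ0 / 8) ^ 2 := by
      apply pow_le_pow_left₀ hε.le hε1
    have h2 : κ0 ^ 2 ≤ κ0 * (1 / 2) := by
      rw [pow_two]
      exact mul_le_mul_of_nonneg_left hκ01 hκ0p.le
    rw [hκ]
    nlinarith
  have hκ1 : κ ≤ 1 := by linarith
  have hCκ : C0 * κ ^ ((1 : ℝ) / (k0 + 1)) ≤ 1 / 2 := by
    have h1 : κ ^ ((1 : ℝ) / (k0 + 1)) ≤ κ0 ^ ((1 : ℝ) / (k0 + 1)) :=
      Real.rpow_le_rpow hκp.le hκle (by positivity)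
    rw [hκ0r] at h1
    calc C0 * κ ^ ((1 : ℝ) / (k0 + 1)) ≤ C0 * (1 / (2 * C0)) :=
          mul_le_mul_of_nonneg_left h1 hC0p.le
      _ = 1 / 2 := by field_simp
  set M : ℝ := As / (8 * ε * h) with hM
  have hMp : 0 < M := by positivity
  have hκM : κ * M < M := by
    have : κ < 1 := by linarith
    nlinarith
  have hκM2 : κ * M = 4 * ε * As * xs / Bs := by
    rw [hκ, hM, hh]
    field_simp
    ring
  -- (a)
  have ha : ∀ s ∈ I, ∀ z c', X.Step ε s c z c' → X.lat c z ∧ X.yz z ≤ 2 * ε * h ∧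
      |X.xz z s| ≤ κ * M := by
    rintro s hs z c' ⟨hlat, ⟨b, -, hc'⟩, h1, h2, h3, h4, h5, -, -⟩
    obtain ⟨⟨hx1, hx2⟩, ⟨hA1, hA2⟩, ⟨hB1, hB2⟩⟩ := hI s hs
    rw [abs_of_pos h4] at hA1 hA2
    rw [abs_of_pos h5] at hB1 hB2
    have hy := X.ypos c z hlat
    refine ⟨hlat, ?_, ?_⟩
    · have e1 : X.yz z * xs ≤ ε * (2 * Bs) := by
        calc X.yz z * xs ≤ X.yz z * |X.x c s| := mul_le_mul_of_nonneg_left hx1 hy.le
          _ ≤ ε * X.B c s := h1
          _ ≤ ε * (2 * Bs) := mul_le_mul_of_nonneg_left hB2 hε.le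
      have e2 : X.yz z ≤ ε * (2 * Bs) / xs := by
        rw [le_div_iff₀ hxs]
        exact e1
      calc X.yz z ≤ ε * (2 * Bs) / xs := e2
        _ = 2 * ε * h := by
          rw [hh]
          ring
    · rw [hc', X.x_nx] at h2
      have e1 : Bs * |X.xz z s| ≤ ε * (2 * As) * (2 * xs) := by
        have e2 : ε * X.B c' s ≤ ε * (2 * As) := mul_le_mul_of_nonneg_left (by linarith) hε.le
        calc Bs * |X.xz z s| ≤ X.B c s * |X.xz z s| :=
              mul_le_mul_of_nonneg_right hB1 (abs_nonneg _)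
          _ ≤ ε * X.B (X.nx c z b) s * |X.x c s| := h2
          _ = ε * X.B c' s * |X.x c s| := by rw [hc']
          _ ≤ ε * (2 * As) * |X.x c s| := mul_le_mul_of_nonneg_right e2 (abs_nonneg _)
          _ ≤ ε * (2 * As) * (2 * xs) := mul_le_mul_of_nonneg_left hx2 (by positivity)
      rw [hκM2, le_div_iff₀ hBs]
      calc |X.xz z s| * Bs = Bs * |X.xz z s| := mul_comm _ _
        _ ≤ _ := e1
        _ = _ := by ring
  -- (b)
  have hb : ∀ z z', X.lat c z → X.yz z ≤ 2 * ε * h → X.lat c z' → X.yz z' ≤ 2 * ε * h →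
      ∀ t ∈ I, |X.xz z t| ≤ M → |X.xz z' t| ≤ M → z = z' := by
    intro z z' hz1 hz2 hz1' hz2' t ht h1 h2
    by_contra hne
    have hdet := X.det c z z' hz1 hz1' hne t
    obtain ⟨-, ⟨hA1, -⟩, -⟩ := hI t ht
    have e1 : |X.xz z t| * X.yz z' ≤ M * (2 * ε * h) :=
      mul_le_mul h1 hz2' (X.ypos c z' hz1').le hMp.le
    have e2 : |X.xz z' t| * X.yz z ≤ M * (2 * ε * h) :=
      mul_le_mul h2 hz2 (X.ypos c z hz1).le hMp.le
    have e3 : M * (2 * ε * h) = As / 4 := by
      rw [hM]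
      field_simp
      ring
    rw [e3] at e1 e2
    linarith
  -- trivial case
  by_cases hvol : volume I = 0
  · left
    have : volume {s | s ∈ I ∧ X.BP ε c s} ≤ volume I := measure_mono (fun s hs => hs.1)
    rw [hvol] at this
    exact this.trans bot_le
  have hnt : I.Nontrivial := by
    by_contra hcon
    rw [Set.not_nontrivial_iff] at hcon
    exact hvol (hcon.measure_zero volume)
  by_cases hcase : ∃ z0, (∃ s ∈ I, X.BP ε c s ∧ ∃ c', X.Step ε s c z0 c') ∧
      ∀ t ∈ I, |X.xz z0 t| ≤ M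
  · right
    obtain ⟨z0, ⟨s0, hs0, -, c', hst⟩, hz0⟩ := hcase
    obtain ⟨hlat0, hy0, -⟩ := ha s0 hs0 z0 c' hst
    have hcont : ContinuousOn (X.x c) I := (X.tame c z0 hlat0).1.cont.mono hIJ
    have hpre : IsPreconnected I := hOC.isPreconnected
    have hsign : ∀ s ∈ I, ∀ t ∈ I, 0 < X.x c s → 0 < X.x c t := by
      intro s hs t ht hp
      by_contra hcon
      have hcon := not_lt.1 hcon
      obtain ⟨r, hr, hr0⟩ := hpre.intermediate_value ht hs hcont ⟨hcon, hp.le⟩
      have := (hI r hr).1.1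
      rw [hr0, abs_zero] at this
      linarith
    refine ⟨c', fun s hs hBP => ?_⟩
    obtain ⟨z, c'', hst', hBP'⟩ := hBP.next
    obtain ⟨hlat, hy, hx⟩ := ha s hs z c'' hst'
    have hzz : z = z0 := hb z z0 hlat hy hlat0 hy0 s hs (hx.trans hκM.le) (hz0 s hs)
    subst hzz
    have hcc : c'' = c' := by
      obtain ⟨-, ⟨b, hb1, hb2⟩, -⟩ := hst
      obtain ⟨-, ⟨b', hb1', hb2'⟩, -⟩ := hst'
      have hbb : b' = b := by
        rw [Bool.eq_iff_iff, hb1, hb1']
        exact ⟨hsign s hs s0 hs0, hsign s0 hs0 s hs⟩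
      rw [hb2, hb2', hbb]
    rw [hcc] at hst' hBP'
    exact ⟨hBP', z, hst'⟩
  · left
    apply cover_half {P | ∃ s ∈ I, X.BP ε c s ∧ ∃ z c', X.Step ε s c z c' ∧
      P = Set.ordConnectedComponent {t | t ∈ I ∧ |X.xz z t| ≤ M} s}
    · rintro P ⟨s, hs, hBP, z, c', hst, rfl⟩ P' ⟨s', hs', hBP', z', c'', hst', rfl⟩ hne
      obtain ⟨hlat, hy, hx⟩ := ha s hs z c' hst
      obtain ⟨hlat', hy', hx'⟩ := ha s' hs' z' c'' hst'
      change Disjoint _ _
      rw [Set.disjoint_left]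
      intro t ht ht'
      have h1 := Set.ordConnectedComponent_subset ht
      have h2 := Set.ordConnectedComponent_subset ht'
      have hzz : z = z' := hb z z' hlat hy hlat' hy' t h1.1 h1.2 h2.2
      subst hzz
      apply hne
      have e1 := Set.ordConnectedComponent_eq (s := {t | t ∈ I ∧ |X.xz z t| ≤ M}) (x := s)
        (y := t) ht
      have e2 := Set.ordConnectedComponent_eq (s := {t | t ∈ I ∧ |X.xz z t| ≤ M}) (x := s')
        (y := t) ht'
      rw [e1, e2]
    · rintro P ⟨s, hs, hBP, z, c', hst, rfl⟩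
      obtain ⟨hlat, hy, hx⟩ := ha s hs z c' hst
      have hPI : Set.ordConnectedComponent {t | t ∈ I ∧ |X.xz z t| ≤ M} s ⊆ I :=
        fun t ht => (Set.ordConnectedComponent_subset ht).1
      have htame := (X.tame c z hlat).2.2.2
      have hE : {t | t ∈ I ∧ |X.xz z t| ≤ M} ≠ I := by
        intro hE
        apply hcase
        refine ⟨z, ⟨s, hs, hBP, c', hst⟩, fun t ht => ?_⟩
        rw [← hE] at ht
        exact ht.2
      obtain ⟨hint, s1, hs1, hs1M⟩ := comp_lemma hOC hnt (htame.cont.mono hIJ) hs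
        (lt_of_le_of_lt hx hκM) hE
      have hocc : (Set.ordConnectedComponent {t | t ∈ I ∧ |X.xz z t| ≤ M} s).OrdConnected := by
        infer_instance
      refine ⟨hPI, hocc, hint, ?_⟩
      set P := Set.ordConnectedComponent {t | t ∈ I ∧ |X.xz z t| ≤ M} s with hP
      have hsub : {s | s ∈ I ∧ X.BP ε c s} ∩ P ⊆ {t | t ∈ P ∧ |X.xz z t| ≤ κ * |X.xz z s1|} := by
        rintro t ⟨⟨ht, htBP⟩, htP⟩
        refine ⟨htP, ?_⟩
        obtain ⟨z', c'', hst', -⟩ := htBP.next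
        obtain ⟨hlat', hy', hx'⟩ := ha t ht z' c'' hst'
        have h1 := (Set.ordConnectedComponent_subset htP).2
        have hzz : z = z' := hb z z' hlat hy hlat' hy' t ht h1 (hx'.trans hκM.le)
        subst hzz
        rw [hs1M]
        exact hx'
      have hfin : volume P ≠ ⊤ := by
        have : volume P ≤ volume (Set.Icc X.p0 X.q0) := measure_mono (hPI.trans hIJ)
        exact ne_top_of_le_ne_top (by simp) this
      have hg := hgood (Set.Icc X.p0 X.q0) X.β (X.xz z) X.hβ htame P (hPI.trans hIJ) hocc hfin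
        s1 hs1 κ hκp
      calc volume ({s | s ∈ I ∧ X.BP ε c s} ∩ P)
          ≤ volume {t | t ∈ P ∧ |X.xz z t| ≤ κ * |X.xz z s1|} := measure_mono hsub
        _ ≤ ENNReal.ofReal (C0 * κ ^ ((1 : ℝ) / (k0 + 1))) * volume P := hg
        _ ≤ ENNReal.ofReal (1 / 2) * volume P := by
          gcongr
        _ = volume P / 2 := by
          rw [ENNReal.div_eq_inv_mul]
          congr 1
          rw [one_div, ENNReal.ofReal_inv_of_pos (by norm_num)]
          simp
    · rintro s ⟨hs, hBP⟩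
      obtain ⟨z, c', hst, -⟩ := hBP.next
      obtain ⟨hlat, hy, hx⟩ := ha s hs z c' hst
      refine ⟨_, ⟨s, hs, hBP, z, c', hst, rfl⟩, ?_⟩
      rw [Set.self_mem_ordConnectedComponent]
      exact ⟨hs, hx.trans hκM.le⟩

end Pool.Agent.IC61
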