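import Pool.Agent.IC61.Mt0
import Pool.Agent.IC61.An5

set_option autoImplicit false

/-!
# IC61/Mt3: decomposition into nodes (MP_0d1f6d_an, helper61)

PROOF. Let `C1` be the constant of `pieces k0`, `C = C1 ^ 3`. Apply `pieces` to `x c` on `I`: `P1 i`
(`i : ℕ`); for each `i` apply it to `A c` on `P1 i`: `P2 i j`; for each `i, j` to `B c` on `P2 i j`: `P3 i j k`
(`choose`). `P (i, j, k) = P3 i j k`. Disjointness: if `i ≠ i'` the sets are subsets of `P1 i`, `P1 i'`, etc.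
Covering: `s ∈ P1 i` for some `i`, as `s ∈ P1 i` and `A c s ≠ 0`, `s ∈ P2 i j` for some `j`, etc. Node: the
bounds for `x c` on `P1 i`, for `A c` on `P2 i j`, for `B c` on `P3 i j k`; `h = Bs / xs > 0`. The sum:
`ENNReal.tsum_prod` twice and `ENNReal.tsum_mul_left`:
`∑' i, ∑' j, ∑' k, vol^(1/2) ≤ ∑' i, ∑' j, C1 * vol (P2 i j)^(1/2) ≤ ∑' i, C1^2 * vol (P1 i)^(1/2) ≤
C1^3 * vol I ^(1/2)`.
-/

namespace Pool.Agent.IC61

open MeasureTheory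

theorem children (k0 : ℕ) : ∃ D : NNReal, ∀ (C Z : Type) (X : Ctx C Z k0) (c : C),
    Tame (Set.Icc X.p0 X.q0) k0 X.β (X.x c) → Tame (Set.Icc X.p0 X.q0) k0 X.β (X.A c) →
    Tame (Set.Icc X.p0 X.q0) k0 X.β (X.B c) → ∀ I : Set ℝ, I ⊆ Set.Icc X.p0 X.q0 → I.OrdConnected →
    ∃ P : ℕ × ℕ × ℕ → Set ℝ, (∀ n, P n ⊆ I ∧ ∃ h, 0 < h ∧ X.Node c (P n) h) ∧
      (∀ m n, m ≠ n → Disjoint (P m) (P n)) ∧
      {s | s ∈ I ∧ X.x c s ≠ 0 ∧ X.A c s ≠ 0 ∧ X.B c s ≠ 0} ⊆ ⋃ n, P n ∧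
      ∑' n, (volume (P n)) ^ ((1 : ℝ) / 2) ≤ D * (volume I) ^ ((1 : ℝ) / 2) := by
  obtain ⟨C1, hC1⟩ := pieces k0
  refine ⟨C1 * (C1 * C1), ?_⟩
  intro C Z X c hx hA hB I hI hIo
  obtain ⟨P1, a1, d1, c1, m1, s1⟩ := hC1 X.p0 X.q0 X.β (X.x c) X.hβ hx I hI hIo
  have h2 := fun i => hC1 X.p0 X.q0 X.β (X.A c) X.hβ hA (P1 i) ((a1 i).2.trans hI) (a1 i).1
  choose P2 a2 d2 c2 m2 s2 using h2
  have h3 := fun i j => hC1 X.p0 X.q0 X.β (X.B c) X.hβ hB (P2 i j)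
    (((a2 i j).2.trans (a1 i).2).trans hI) (a2 i j).1
  choose P3 a3 d3 c3 m3 s3 using h3
  refine ⟨fun n => P3 n.1 n.2.1 n.2.2, ?_, ?_, ?_, ?_⟩
  · rintro ⟨i, j, k⟩
    have h1 : P3 i j k ⊆ P2 i j := (a3 i j k).2
    have h2 : P2 i j ⊆ P1 i := (a2 i j).2
    refine ⟨(h1.trans h2).trans (a1 i).2, ?_⟩
    obtain ⟨xs, hxs, hxs'⟩ := m1 i
    obtain ⟨As, hAs, hAs'⟩ := m2 i j
    obtain ⟨Bs, hBs, hBs'⟩ := m3 i j k
    exact ⟨Bs / xs, div_pos hBs hxs, (a3 i j k).1, ((h1.trans h2).trans (a1 i).2).trans hI,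
      xs, As, Bs, hxs, hAs, hBs, rfl,
      fun s hs => ⟨hxs' s (h2 (h1 hs)), hAs' s (h1 hs), hBs' s hs⟩⟩
  · rintro ⟨i, j, k⟩ ⟨i', j', k'⟩ hne
    by_cases hi : i = i'
    · subst hi
      by_cases hj : j = j'
      · subst hj
        have hk : k ≠ k' := fun hk => hne (by rw [hk])
        exact d3 i j k k' hk
      · exact (d2 i j j' hj).mono (a3 i j k).2 (a3 i j' k').2
    · exact (d1 i i' hi).mono ((a3 i j k).2.trans (a2 i j).2) ((a3 i' j' k').2.trans (a2 i' j').2)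
  · rintro s ⟨hs, hx0, hA0, hB0⟩
    obtain ⟨i, hi⟩ := Set.mem_iUnion.mp (c1 ⟨hs, hx0⟩)
    obtain ⟨j, hj⟩ := Set.mem_iUnion.mp (c2 i ⟨hi, hA0⟩)
    obtain ⟨k, hk⟩ := Set.mem_iUnion.mp (c3 i j ⟨hj, hB0⟩)
    exact Set.mem_iUnion.mpr ⟨(i, j, k), hk⟩
  · calc ∑' n : ℕ × ℕ × ℕ, volume (P3 n.1 n.2.1 n.2.2) ^ ((1 : ℝ) / 2)
        = ∑' i, ∑' n : ℕ × ℕ, volume (P3 i n.1 n.2) ^ ((1 : ℝ) / 2) :=
          ENNReal.tsum_prod (f := fun i (n : ℕ × ℕ) => volume (P3 i n.1 n.2) ^ ((1 : ℝ) / 2))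
      _ = ∑' i, ∑' j, ∑' k, volume (P3 i j k) ^ ((1 : ℝ) / 2) := by
          congr 1
          funext i
          exact ENNReal.tsum_prod (f := fun j k => volume (P3 i j k) ^ ((1 : ℝ) / 2))
      _ ≤ ∑' i, ∑' j, C1 * volume (P2 i j) ^ ((1 : ℝ) / 2) :=
          ENNReal.tsum_le_tsum fun i => ENNReal.tsum_le_tsum fun j => s3 i j
      _ = ∑' i, C1 * ∑' j, volume (P2 i j) ^ ((1 : ℝ) / 2) := by
          congr 1
          funext i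
          rw [ENNReal.tsum_mul_left]
      _ ≤ ∑' i, C1 * (C1 * volume (P1 i) ^ ((1 : ℝ) / 2)) :=
          ENNReal.tsum_le_tsum fun i => mul_le_mul_right (s2 i) _
      _ = C1 * (C1 * ∑' i, volume (P1 i) ^ ((1 : ℝ) / 2)) := by
          rw [ENNReal.tsum_mul_left, ENNReal.tsum_mul_left]
      _ ≤ C1 * (C1 * (C1 * volume I ^ ((1 : ℝ) / 2))) := by
          gcongr
      _ = ((C1 * (C1 * C1) : NNReal) : ENNReal) * volume I ^ ((1 : ℝ) / 2) := by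
          push_cast
          ring

end Pool.Agent.IC61
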