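import Pool.Agent.IC61.Mt2
import Pool.Agent.IC61.Mt3

set_option autoImplicit false

/-!
# IC61/Mt4: the bad set of a node has at most half of its measure (MP_0d1f6d_an, helper61)

PROOF. `τ = 1 / (2 (k0+1))`. Let `ε1` be from `special`, `D` from `children` (we may assume `D ≥ 1`),
`Cs` from `size`. Choose `ε ∈ (0, ε1]` with `D * (4 ε)^τ ≤ 1/2`, e.g. `ε = min ε1 ((1/(2 D))^(1/τ) / 4)`.
Fix `X`. Let `Q = (2 * Cs * X.Y / X.β)` and `G h = (Q / h)^τ` (for `h > 0`). (If some `s` has `BP` then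
`0 < B ≤ Y`, so `Y > 0`; if `Y ≤ 0` all bad sets are empty and the claim is trivial.)
CLAIM for all `n`: for all `c, I, h` with `Node c I h`:
`volume K(I,c) ≤ volume I / 2 + ofReal ((1/2)^n * G h) * (volume I)^(1/2)`, `K(I,c) = {s ∈ I | BP ε c s}`.
`n = 0`: if `K(I,c)` is empty, trivial. Otherwise let `s ∈ K`; `Step` gives `lat c z`, so `x c` is tame, and
`B c s ≤ Y`. With `xs, As, Bs` of the node: `xs = Bs / h ≤ Y / h` (`Bs ≤ |B c s| = B c s ≤ Y`), so `|x c| ≤ 2 Y / h` on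
`I`, and by `size` (volume `I ≤ 1` because `I ⊆ Icc p0 q0`, `hlen`): `β * L^(k0+1) ≤ Cs * 2 Y / h`, `L = volume I`,
`L^(k0+1) ≤ Q / h`, `L^(1/2) ≤ (Q/h)^τ = G h`. So `volume K ≤ L = L^(1/2) * L^(1/2) ≤ ofReal (G h) * L^(1/2)`.
`n + 1`: by `special` either `volume K ≤ volume I / 2`, fine, or there is `c'` with `K(I,c) ⊆ K(I,c')` and
`Step ε s c z c'` for all `s ∈ K(I,c)`. If `K(I,c) = ∅` fine. Otherwise `x c'`, `A c'`, `B c'` are tame (a point of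
`K(I,c)` has `BP ε c' s`, so `lat c' z'`), so `children` applies to `c'` and `I`. All `s ∈ K(I,c)` have
`x c' s ≠ 0`, `A c' s > 0`, `B c' s > 0` (from `BP ε c' s`, `BP.next`), so they are in `⋃ P n`. Hence
`volume K(I,c) ≤ ∑' n, volume (K(I,c) ∩ P n)`. If `K(I,c) ∩ P n` is not empty, let `s` be in it and let
`h'` be the number of the node `P n`, `xs', Bs'` its constants. From `Step ε s c z c'`:
`B c s * |x c' s| ≤ ε * B c' s * |x c s|`. With `B c s ≥ Bs`, `|x c s| ≤ 2 xs`, `B c' s ≤ 2 Bs'`, `|x c' s| ≥ xs'`: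
`Bs * xs' ≤ ε * 2 Bs' * 2 xs`, so `h' = Bs' / xs' ≥ h / (4 ε)`. `G` is decreasing, so
`G h' ≤ G (h / (4 ε)) = (4 ε)^τ * G h`. By the claim for `n`:
`volume (K(I,c) ∩ P n) ≤ volume K(P n, c') ≤ volume (P n) / 2 + ofReal ((1/2)^n * (4 ε)^τ * G h) * volume (P n)^(1/2)`.
(trivially true if `K(I,c) ∩ P n = ∅`). Sum over `n`: `∑' volume (P n) ≤ volume I` (disjoint, measurable),
`∑' volume (P n)^(1/2) ≤ D * volume I ^(1/2)`, and `D * (4 ε)^τ ≤ 1/2`.
CONCLUSION: let `n → ∞` (`volume I ≤ 1` is finite; `ENNReal.le_of_forall_pos_le_add` or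
`ge_of_tendsto`).
-/

namespace Pool.Agent.IC61

open MeasureTheory

private lemma Mt4_base {k0 : ℕ} {Cs : ℝ}
    (hCs : ∀ (J : Set ℝ) (β : ℝ) (f : ℝ → ℝ), 0 < β →
      Tame J k0 β f → ∀ P : Set ℝ, P ⊆ J → P.OrdConnected → volume P ≤ 1 → ∀ η : ℝ, 0 ≤ η →
      (∀ s ∈ P, |f s| ≤ η) → β * (volume P).toReal ^ (k0 + 1) ≤ Cs * η)
    {C Z : Type} (X : Ctx C Z k0) {c : C} {I : Set ℝ} {h : ℝ} (hN : X.Node c I h) {s ε : ℝ}
    (hs : s ∈ I) {z : Z} {c' : C} (hst : X.Step ε s c z c') :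
    (volume I) ^ ((1 : ℝ) / 2) ≤
      ENNReal.ofReal (((2 * Cs * X.Y / X.β) / h) ^ (1 / (2 * ((k0 : ℝ) + 1)))) := by
  obtain ⟨hIo, hIs, xs, As, Bs, hxs, hAs, hBs, hh, hall⟩ := hN
  obtain ⟨hlat, -, -, -, -, hA, hB, hx, hY⟩ := hst
  have hh0 : 0 < h := by rw [hh]; positivity
  have hBsY : Bs ≤ X.Y := by
    have := (hall s hs).2.2.1
    rw [abs_of_pos hB] at this
    exact this.trans hY
  have hY0 : 0 < X.Y := hBs.trans_le hBsY
  have hvol1 : volume I ≤ 1 := by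
    calc volume I ≤ volume (Set.Icc X.p0 X.q0) := measure_mono hIs
      _ = ENNReal.ofReal (X.q0 - X.p0) := Real.volume_Icc
      _ ≤ ENNReal.ofReal 1 := ENNReal.ofReal_le_ofReal X.hlen
      _ = 1 := ENNReal.ofReal_one
  have hxsY : 2 * xs ≤ 2 * X.Y / h := by
    rw [le_div_iff₀ hh0, hh]
    field_simp
    linarith
  have hsz := hCs (Set.Icc X.p0 X.q0) X.β (X.x c) X.hβ (X.tame c z hlat).1 I hIs hIo hvol1
    (2 * X.Y / h) (by positivity) (fun t ht => ((hall t ht).1.2).trans hxsY)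
  set L := (volume I).toReal with hL
  have hL0 : 0 ≤ L := ENNReal.toReal_nonneg
  have hIL : volume I = ENNReal.ofReal L :=
    (ENNReal.ofReal_toReal (hvol1.trans_lt ENNReal.one_lt_top).ne).symm
  have hQ : L ^ (k0 + 1) ≤ (2 * Cs * X.Y / X.β) / h := by
    have hβ := X.hβ
    rw [div_div, le_div_iff₀ (by positivity)]
    have h2 : Cs * (2 * X.Y / h) = (2 * Cs * X.Y) / h := by ring
    rw [h2, le_div_iff₀ hh0] at hsz
    linarith
  rw [hIL, ENNReal.ofReal_rpow_of_nonneg hL0 (by norm_num)]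
  apply ENNReal.ofReal_le_ofReal
  have h3 : L ^ ((1 : ℝ) / 2) = (L ^ (k0 + 1)) ^ (1 / (2 * ((k0 : ℝ) + 1))) := by
    rw [← Real.rpow_natCast, ← Real.rpow_mul hL0]
    congr 1
    push_cast
    field_simp
  rw [h3]
  exact Real.rpow_le_rpow (by positivity) hQ (by positivity)

private lemma Mt4_step {k0 : ℕ} {C Z : Type} (X : Ctx C Z k0) {c c' : C} {I P : Set ℝ}
    {h h' : ℝ} (hN : X.Node c I h) (hN' : X.Node c' P h') {s ε : ℝ} (hε : 0 < ε)
    (hs : s ∈ I) (hs' : s ∈ P) {z : Z} (hst : X.Step ε s c z c') (hB' : 0 < X.B c' s) :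
    0 < h ∧ 0 < h' ∧ h ≤ 4 * ε * h' := by
  obtain ⟨hIo, hIs, xs, As, Bs, hxs, hAs, hBs, hh, hall⟩ := hN
  obtain ⟨hIo', hIs', xs', As', Bs', hxs', hAs', hBs', hh', hall'⟩ := hN'
  obtain ⟨hlat, -, -, hkey, -, hA, hB, hx, hY⟩ := hst
  have h1 := (hall s hs).2.2.1
  have h2 := (hall s hs).1.2
  have h3 := (hall' s hs').2.2.2
  have h4 := (hall' s hs').1.1
  rw [abs_of_pos hB] at h1
  rw [abs_of_pos hB'] at h3
  refine ⟨by rw [hh]; positivity, by rw [hh']; positivity, ?_⟩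
  have h5 : Bs * xs' ≤ 4 * ε * (Bs' * xs) := by
    calc Bs * xs' ≤ X.B c s * |X.x c' s| := by gcongr
      _ ≤ ε * X.B c' s * |X.x c s| := hkey
      _ ≤ ε * (2 * Bs') * (2 * xs) := by gcongr
      _ = 4 * ε * (Bs' * xs) := by ring
  rw [hh, hh', div_le_iff₀ hxs]
  have h6 : 4 * ε * (Bs' / xs') * xs = (4 * ε * (Bs' * xs)) / xs' := by
    field_simp
  rw [h6, le_div_iff₀ hxs']
  exact h5

private lemma Mt4_G {Q h h' ε τ : ℝ} (hQ : 0 ≤ Q) (hh : 0 < h) (hh' : 0 < h') (hε : 0 < ε)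
    (hτ : 0 ≤ τ) (hle : h ≤ 4 * ε * h') : (Q / h') ^ τ ≤ (4 * ε) ^ τ * (Q / h) ^ τ := by
  rw [← Real.mul_rpow (by positivity) (by positivity)]
  apply Real.rpow_le_rpow (by positivity) _ hτ
  rw [div_le_iff₀ hh']
  calc Q = Q / h * h := by field_simp
    _ ≤ Q / h * (4 * ε * h') := by gcongr
    _ = 4 * ε * (Q / h) * h' := by ring

private lemma Mt4_claim {k0 : ℕ} {Cs : ℝ} (hCs0 : 0 < Cs)
    (hCs : ∀ (J : Set ℝ) (β : ℝ) (f : ℝ → ℝ), 0 < β →
      Tame J k0 β f → ∀ P : Set ℝ, P ⊆ J → P.OrdConnected → volume P ≤ 1 → ∀ η : ℝ, 0 ≤ η →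
      (∀ s ∈ P, |f s| ≤ η) → β * (volume P).toReal ^ (k0 + 1) ≤ Cs * η)
    {D : NNReal}
    (hD : ∀ (C Z : Type) (X : Ctx C Z k0) (c : C),
      Tame (Set.Icc X.p0 X.q0) k0 X.β (X.x c) → Tame (Set.Icc X.p0 X.q0) k0 X.β (X.A c) →
      Tame (Set.Icc X.p0 X.q0) k0 X.β (X.B c) → ∀ I : Set ℝ, I ⊆ Set.Icc X.p0 X.q0 →
      I.OrdConnected →
      ∃ P : ℕ × ℕ × ℕ → Set ℝ, (∀ n, P n ⊆ I ∧ ∃ h, 0 < h ∧ X.Node c (P n) h) ∧
        (∀ m n, m ≠ n → Disjoint (P m) (P n)) ∧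
        {s | s ∈ I ∧ X.x c s ≠ 0 ∧ X.A c s ≠ 0 ∧ X.B c s ≠ 0} ⊆ ⋃ n, P n ∧
        ∑' n, (volume (P n)) ^ ((1 : ℝ) / 2) ≤ D * (volume I) ^ ((1 : ℝ) / 2))
    {ε : ℝ} (hε : 0 < ε)
    (hsp : ∀ (C Z : Type) (X : Ctx C Z k0) (c : C) (I : Set ℝ) (h : ℝ), X.Node c I h →
      volume {s | s ∈ I ∧ X.BP ε c s} ≤ volume I / 2 ∨
      ∃ c', ∀ s ∈ I, X.BP ε c s → X.BP ε c' s ∧ ∃ z, X.Step ε s c z c')
    (hDε : (D : ℝ) * (4 * ε) ^ (1 / (2 * ((k0 : ℝ) + 1))) ≤ 1 / 2)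
    {C Z : Type} (X : Ctx C Z k0) (n : ℕ) :
    ∀ (c : C) (I : Set ℝ) (h : ℝ), X.Node c I h →
      volume {s | s ∈ I ∧ X.BP ε c s} ≤ volume I / 2 +
        ENNReal.ofReal ((1 / 2) ^ n *
          ((2 * Cs * X.Y / X.β) / h) ^ (1 / (2 * ((k0 : ℝ) + 1)))) *
          (volume I) ^ ((1 : ℝ) / 2) := by
  induction n with
  | zero =>
    intro c I h hN
    rcases Set.eq_empty_or_nonempty {s | s ∈ I ∧ X.BP ε c s} with he | ⟨s, hsI, hs⟩
    · rw [he, measure_empty]; exact zero_le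
    obtain ⟨z, c', hst, -⟩ := hs.next
    have h1 := Mt4_base hCs X hN hsI hst
    calc volume {s | s ∈ I ∧ X.BP ε c s} ≤ volume I := measure_mono fun t ht => ht.1
      _ = (volume I) ^ ((1 : ℝ) / 2) * (volume I) ^ ((1 : ℝ) / 2) := by
        rw [← ENNReal.rpow_add_of_nonneg _ _ (by norm_num) (by norm_num)]
        norm_num
      _ ≤ ENNReal.ofReal (((2 * Cs * X.Y / X.β) / h) ^ (1 / (2 * ((k0 : ℝ) + 1)))) *
          (volume I) ^ ((1 : ℝ) / 2) := by gcongr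
      _ ≤ _ := by
        rw [pow_zero, one_mul]
        exact le_add_self
  | succ n ih =>
    intro c I h hN
    rcases hsp C Z X c I h hN with h1 | ⟨c', h1⟩
    · exact h1.trans le_self_add
    rcases Set.eq_empty_or_nonempty {s | s ∈ I ∧ X.BP ε c s} with he | ⟨s0, hs0I, hs0⟩
    · rw [he, measure_empty]; exact zero_le
    obtain ⟨hs0', z0, hst0⟩ := h1 s0 hs0I hs0
    obtain ⟨z1, c1, hst1, -⟩ := hs0'.next
    have hY0 : 0 < X.Y := by
      obtain ⟨-, -, -, -, -, -, hB, -, hY⟩ := hst0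
      exact hB.trans_le hY
    have hβ := X.hβ
    have hQ0 : 0 ≤ 2 * Cs * X.Y / X.β := by positivity
    obtain ⟨htx, htA, htB, -⟩ := X.tame c' z1 hst1.1
    obtain ⟨P, hP, hPd, hPc, hPs⟩ := hD C Z X c' htx htA htB I hN.2.1 hN.1
    set K := {s | s ∈ I ∧ X.BP ε c s} with hK
    set τ := 1 / (2 * ((k0 : ℝ) + 1)) with hτ
    have hτ0 : 0 ≤ τ := by positivity
    set a : ℝ := (1 / 2) ^ n * ((4 * ε) ^ τ * (2 * Cs * X.Y / X.β / h) ^ τ) with ha
    have hh0 : 0 < h := by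
      obtain ⟨-, -, xs, As, Bs, hxs, hAs, hBs, hh, -⟩ := hN
      rw [hh]; positivity
    have ha0 : 0 ≤ a := by positivity
    have hKc : K ⊆ ⋃ m, K ∩ P m := by
      intro s hs
      obtain ⟨hs', z, hst⟩ := h1 s hs.1 hs.2
      obtain ⟨z', c'', hst', -⟩ := hs'.next
      obtain ⟨-, -, -, -, -, hA, hB, hx, -⟩ := hst'
      have := hPc ⟨hs.1, hx, hA.ne', hB.ne'⟩
      obtain ⟨m, hm⟩ := Set.mem_iUnion.1 this
      exact Set.mem_iUnion.2 ⟨m, hs, hm⟩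
    have hterm : ∀ m, volume (K ∩ P m) ≤ volume (P m) / 2 +
        ENNReal.ofReal a * (volume (P m)) ^ ((1 : ℝ) / 2) := by
      intro m
      rcases Set.eq_empty_or_nonempty (K ∩ P m) with he | ⟨s, hsK, hsP⟩
      · rw [he, measure_empty]; exact zero_le
      obtain ⟨hPI, h', hh', hN'⟩ := hP m
      obtain ⟨hs', z, hst⟩ := h1 s hsK.1 hsK.2
      obtain ⟨z', c'', hst', -⟩ := hs'.next
      obtain ⟨-, -, -, -, -, hA, hB, hx, -⟩ := hst'
      obtain ⟨-, -, hle⟩ := Mt4_step X hN hN' hε hsK.1 hsP hst hB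
      have hG := Mt4_G hQ0 hh0 hh' hε hτ0 hle
      calc volume (K ∩ P m) ≤ volume {s | s ∈ P m ∧ X.BP ε c' s} :=
            measure_mono fun t ht => ⟨ht.2, (h1 t ht.1.1 ht.1.2).1⟩
        _ ≤ _ := ih c' (P m) h' hN'
        _ ≤ volume (P m) / 2 + ENNReal.ofReal a * (volume (P m)) ^ ((1 : ℝ) / 2) := by
          gcongr
          rw [ha]
          gcongr
    have hPm : ∀ m, MeasurableSet (P m) := by
      intro m
      obtain ⟨-, h', -, hN'⟩ := hP m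
      exact hN'.1.measurableSet
    have hsum : ∑' m, volume (P m) ≤ volume I := by
      rw [← measure_iUnion (fun m n hmn => hPd m n hmn) hPm]
      exact measure_mono (Set.iUnion_subset fun m => (hP m).1)
    calc volume K ≤ volume (⋃ m, K ∩ P m) := measure_mono hKc
      _ ≤ ∑' m, volume (K ∩ P m) := measure_iUnion_le _
      _ ≤ ∑' m, (volume (P m) / 2 + ENNReal.ofReal a * (volume (P m)) ^ ((1 : ℝ) / 2)) :=
        ENNReal.tsum_le_tsum hterm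
      _ = (∑' m, volume (P m)) / 2 +
          ENNReal.ofReal a * ∑' m, (volume (P m)) ^ ((1 : ℝ) / 2) := by
        rw [ENNReal.tsum_add, ENNReal.tsum_mul_left]
        simp only [div_eq_mul_inv]
        rw [ENNReal.tsum_mul_right]
      _ ≤ volume I / 2 + ENNReal.ofReal a * (D * (volume I) ^ ((1 : ℝ) / 2)) := by gcongr
      _ ≤ _ := by
        rw [← mul_assoc]
        gcongr
        rw [← ENNReal.ofReal_coe_nnreal, ← ENNReal.ofReal_mul ha0]
        apply ENNReal.ofReal_le_ofReal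
        rw [ha, pow_succ]
        have h7 : (0 : ℝ) ≤ (1 / 2) ^ n * (2 * Cs * X.Y / X.β / h) ^ τ := by positivity
        nlinarith [mul_le_mul_of_nonneg_left hDε h7]

theorem half (k0 : ℕ) : ∃ ε : ℝ, 0 < ε ∧ ∀ (C Z : Type) (X : Ctx C Z k0) (c : C) (I : Set ℝ)
    (h : ℝ), X.Node c I h → volume {s | s ∈ I ∧ X.BP ε c s} ≤ volume I / 2 := by
  obtain ⟨ε1, hε1, hsp⟩ := special k0
  obtain ⟨D, hD⟩ := children k0
  obtain ⟨Cs, hCs0, hCs⟩ := size k0
  set τ := 1 / (2 * ((k0 : ℝ) + 1)) with hτ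
  have hτ0 : 0 < τ := by positivity
  set D' : ℝ := (D : ℝ) + 1 with hD'
  have hD'0 : 0 < D' := by positivity
  set ε := min ε1 ((1 / (2 * D')) ^ (1 / τ) / 4) with hε
  have hε0 : 0 < ε := lt_min hε1 (by positivity)
  have hDε : (D : ℝ) * (4 * ε) ^ τ ≤ 1 / 2 := by
    have h1 : (4 * ε) ^ τ ≤ 1 / (2 * D') := by
      calc (4 * ε) ^ τ ≤ ((1 / (2 * D')) ^ (1 / τ)) ^ τ := by
            apply Real.rpow_le_rpow (by positivity) _ hτ0.le
            have := min_le_right ε1 ((1 / (2 * D')) ^ (1 / τ) / 4)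
            rw [← hε] at this
            linarith
        _ = 1 / (2 * D') := by
            rw [← Real.rpow_mul (by positivity), one_div_mul_cancel hτ0.ne', Real.rpow_one]
    calc (D : ℝ) * (4 * ε) ^ τ ≤ D' * (1 / (2 * D')) := by
          apply mul_le_mul _ h1 (by positivity) hD'0.le
          rw [hD']; linarith
      _ = 1 / 2 := by field_simp
  refine ⟨ε, hε0, fun C Z X c I h hN => ?_⟩
  have hcl := fun n => Mt4_claim hCs0 hCs hD hε0
    (fun C Z X c I h hN => hsp C Z X ε hε0 (min_le_left _ _) c I h hN) hDε X n c I h hN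
  have hvol1 : volume I ≤ 1 := by
    calc volume I ≤ volume (Set.Icc X.p0 X.q0) := measure_mono hN.2.1
      _ = ENNReal.ofReal (X.q0 - X.p0) := Real.volume_Icc
      _ ≤ ENNReal.ofReal 1 := ENNReal.ofReal_le_ofReal X.hlen
      _ = 1 := ENNReal.ofReal_one
  have hfin : (volume I) ^ ((1 : ℝ) / 2) ≠ ⊤ :=
    ENNReal.rpow_ne_top_of_nonneg (by norm_num) (hvol1.trans_lt ENNReal.one_lt_top).ne
  set g := ((2 * Cs * X.Y / X.β) / h) ^ τ with hg
  have hlim : Filter.Tendsto (fun n : ℕ => volume I / 2 +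
      ENNReal.ofReal ((1 / 2) ^ n * g) * (volume I) ^ ((1 : ℝ) / 2)) Filter.atTop
      (nhds (volume I / 2 + 0)) := by
    apply Filter.Tendsto.const_add
    have h1 : Filter.Tendsto (fun n : ℕ => ENNReal.ofReal ((1 / 2) ^ n * g)) Filter.atTop
        (nhds 0) := by
      have h2 : Filter.Tendsto (fun n : ℕ => ((1 : ℝ) / 2) ^ n * g) Filter.atTop (nhds (0 * g)) :=
        (tendsto_pow_atTop_nhds_zero_of_lt_one (by norm_num) (by norm_num)).mul_const g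
      rw [zero_mul] at h2
      have h3 := (ENNReal.continuous_ofReal.tendsto 0).comp h2
      rw [ENNReal.ofReal_zero] at h3
      exact h3
    have h4 := ENNReal.Tendsto.mul_const (b := (volume I) ^ ((1 : ℝ) / 2)) h1 (Or.inr hfin)
    rw [zero_mul] at h4
    exact h4
  rw [add_zero] at hlim
  exact ge_of_tendsto' hlim hcl

end Pool.Agent.IC61
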